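import Pool.Agent.Lib.MP_70d11c_co.Q2.PairA

/-!
A verified checker for the numerical dissolution lemmas.
-/

namespace Pool.Agent.Lib.MP_70d11c_co.Q2

set_option linter.unusedSimpArgs false

namespace Chk

structure Kt where
  isP : Bool
  f : ℚ
  τ : ℚ
  ε : ℚ

structure UB where
  c0 : ℚ
  c1 : ℚ
  c2 : ℚ
  c3 : ℚ
  c4 : ℚ

def UB.k0 (u : UB) (Δ : ℚ) : ℚ := u.c0 + u.c4 * Δ
def UB.k1 (u : UB) (Δ : ℚ) : ℚ := u.c1 + u.c2 * max 0 (Δ - u.c3)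

structure Sp where
  b1 : ℕ
  b2 : ℕ
  smin : ℕ
  o1 : Bool
  o2 : Bool
  xl0 : ℚ
  xl1 : ℚ
  yl0 : ℚ
  yl1 : ℚ
  xu : List UB
  yu : List UB
  kits : List Kt

def Sp.swap (s : Sp) : Sp :=
  ⟨s.b2, s.b1, s.smin, s.o2, s.o1, s.yl0, s.yl1, s.xl0, s.xl1, s.yu, s.xu, s.kits⟩

inductive Ct
  | V : Ct
  | W : Ct
  | X : ℕ → Ct
  | Z : ℕ → Ct
  | L : ℕ → Bool → ℕ → ℕ → Ct
  | G : ℚ → Ct → Ct → Ct
  | E : ℚ → Ct → Ct → Ct
  | A : Ct → Ct → Ct
  | B : Ct → Ct → Ct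

def Fv (k : Kt) (mv : Bool) (X Y d1 d2 β γ e δ : ℚ) : ℚ :=
  match k.isP, mv with
  | true, true => FP k.f k.τ k.ε X Y d1 d2 β γ e
  | true, false => FP k.f k.τ k.ε Y X d2 d1 γ β e
  | false, true => FR k.f k.τ k.ε X Y d1 d2 β γ e δ
  | false, false => FR k.f k.τ k.ε Y X d2 d1 γ β e δ

lemma Fv_swap (k : Kt) (mv : Bool) (X Y d1 d2 β γ e δ : ℚ) :
    Fv k mv Y X d2 d1 γ β e δ = Fv k (!mv) X Y d1 d2 β γ e δ := by
  unfold Fv; cases k.isP <;> cases mv <;> rfl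

def IsQ (g : ℚ → ℚ) : Prop := ∀ a s, g (a + s) =
  g a + (g (a + 1) - g a) * s + (g (a + 2) - 2 * g (a + 1) + g a) * (s * (s - 1) / 2)

def nn0 (g : ℚ → ℚ) (a : ℚ) (ia : Bool) : Bool :=
  !ia || (decide (0 ≤ g (a + 1) - g a) && decide (0 ≤ g (a + 2) - 2 * g (a + 1) + g a))

def InR (a : ℕ) (ia : Bool) (d : ℕ) : Prop := a ≤ d ∧ (ia = false → d = a)

lemma nn0_ok {g : ℚ → ℚ} (hq : IsQ g) {a d : ℕ} {ia : Bool} (h : nn0 g a ia = true)
    (hd : InR a ia d) : g a ≤ g d := by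
  cases ia with
  | false => rw [hd.2 rfl]
  | true =>
    obtain ⟨s, rfl⟩ := Nat.exists_eq_add_of_le hd.1
    simp only [nn0, Bool.not_true, Bool.false_or, Bool.and_eq_true, decide_eq_true_eq] at h
    have h1 : (0 : ℚ) ≤ s := by positivity
    have h2 : (0 : ℚ) ≤ s * (s - 1) / 2 := by
      rcases s with _ | s
      · simp
      · push_cast; rw [add_sub_cancel_right]; positivity
    push_cast
    rw [hq a s]
    nlinarith [mul_nonneg h.1 h1, mul_nonneg h.2 h2]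

def pos2 (F : ℚ → ℚ → ℚ) (a : ℚ) (ia : Bool) (b : ℚ) (ib : Bool) : Bool :=
  decide (0 < F a b) && nn0 (F a) b ib &&
    (!ia || (decide (0 ≤ F (a + 1) b - F a b) && nn0 (fun y => F (a + 1) y - F a y) b ib &&
      decide (0 ≤ F (a + 2) b - 2 * F (a + 1) b + F a b) &&
      nn0 (fun y => F (a + 2) y - 2 * F (a + 1) y + F a y) b ib))

lemma pos2_ok {F : ℚ → ℚ → ℚ} (h1 : ∀ y, IsQ fun x => F x y) (h2 : ∀ x, IsQ (F x))
    {a b d1 d2 : ℕ} {ia ib : Bool} (h : pos2 F a ia b ib = true) (hd1 : InR a ia d1)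
    (hd2 : InR b ib d2) : 0 < F d1 d2 := by
  simp only [pos2, Bool.and_eq_true, decide_eq_true_eq] at h
  obtain ⟨⟨k1, k2⟩, k3⟩ := h
  have e1 := nn0_ok (h2 a) k2 hd2
  refine lt_of_lt_of_le (k1.trans_le e1) (nn0_ok (g := fun x => F x d2) (h1 d2) ?_ hd1)
  cases ia with
  | false => rfl
  | true =>
    simp only [Bool.not_true, Bool.false_or, Bool.and_eq_true, decide_eq_true_eq] at k3
    obtain ⟨⟨⟨m1, m2⟩, m3⟩, m4⟩ := k3
    have q1 : IsQ fun y => F (a + 1) y - F a y := fun u s => by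
      simp only; rw [h2 (a + 1) u s, h2 a u s]; ring
    have q2 : IsQ fun y => F (a + 2) y - 2 * F (a + 1) y + F a y := fun u s => by
      simp only; rw [h2 (a + 2) u s, h2 (a + 1) u s, h2 a u s]; ring
    have n1 := nn0_ok q1 m2 hd2
    have n2 := nn0_ok q2 m4 hd2
    simp only [nn0, Bool.not_true, Bool.false_or, Bool.and_eq_true, decide_eq_true_eq]
    exact ⟨m1.trans n1, m3.trans n2⟩

lemma aff (g : ℚ → ℚ) (h : ∀ x, g x = g 0 + (g 1 - g 0) * x) {l u x : ℚ} (h1 : l ≤ x) (h2 : x ≤ u)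
    (k1 : 0 < g l) (k2 : 0 < g u) : 0 < g x := by
  rw [h] at k1 k2 ⊢
  rcases le_total 0 (g 1 - g 0) with k | k <;> nlinarith

/-- all four corners in `X`, `Y` -/
def cor4 (k : Kt) (mv : Bool) (x0 x1 x2 x3 y0 y1 y2 y3 a : ℚ) (ia : Bool) (b : ℚ) (ib : Bool)
    (β γ e δ : ℚ) : Bool :=
  pos2 (fun d1 d2 => Fv k mv (x2 + x3 * d1) (y2 + y3 * d2) d1 d2 β γ e δ) a ia b ib &&
  pos2 (fun d1 d2 => Fv k mv (x2 + x3 * d1) (y0 + y1 * d2) d1 d2 β γ e δ) a ia b ib &&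
  pos2 (fun d1 d2 => Fv k mv (x0 + x1 * d1) (y2 + y3 * d2) d1 d2 β γ e δ) a ia b ib &&
  pos2 (fun d1 d2 => Fv k mv (x0 + x1 * d1) (y0 + y1 * d2) d1 d2 β γ e δ) a ia b ib

lemma pos2_Fv {k : Kt} {mv : Bool} {x0 x1 y0 y1 β γ e δ : ℚ} {a b d1 d2 : ℕ} {ia ib : Bool}
    (h : pos2 (fun d1 d2 => Fv k mv (x0 + x1 * d1) (y0 + y1 * d2) d1 d2 β γ e δ) a ia b ib = true)
    (hd1 : InR a ia d1) (hd2 : InR b ib d2) :
    0 < Fv k mv (x0 + x1 * d1) (y0 + y1 * d2) d1 d2 β γ e δ := by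
  refine pos2_ok (F := fun d1 d2 => Fv k mv (x0 + x1 * d1) (y0 + y1 * d2) d1 d2 β γ e δ)
    (fun y u s => ?_) (fun y u s => ?_) h hd1 hd2 <;>
  · simp only [Fv]
    cases k.isP <;> cases mv <;> simp only [FP, FR, Gv] <;> ring

lemma cor4_ok {k : Kt} {mv : Bool} {x0 x1 x2 x3 y0 y1 y2 y3 β γ e δ X Y : ℚ} {a b d1 d2 : ℕ}
    {ia ib : Bool} (h : cor4 k mv x0 x1 x2 x3 y0 y1 y2 y3 a ia b ib β γ e δ = true)
    (hd1 : InR a ia d1) (hd2 : InR b ib d2) (hx1 : x0 + x1 * d1 ≤ X) (hx2 : X ≤ x2 + x3 * d1)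
    (hy1 : y0 + y1 * d2 ≤ Y) (hy2 : Y ≤ y2 + y3 * d2) : 0 < Fv k mv X Y d1 d2 β γ e δ := by
  simp only [cor4, Bool.and_eq_true] at h
  obtain ⟨⟨⟨k1, k2⟩, k3⟩, k4⟩ := h
  have hY : ∀ X, ∀ y, Fv k mv X y d1 d2 β γ e δ = Fv k mv X 0 d1 d2 β γ e δ +
      (Fv k mv X 1 d1 d2 β γ e δ - Fv k mv X 0 d1 d2 β γ e δ) * y := fun X y => by
    simp only [Fv]
    cases k.isP <;> cases mv <;> simp only [FP, FR, Gv] <;> ring
  refine aff (fun x => Fv k mv x Y d1 d2 β γ e δ) (fun x => ?_) hx1 hx2 ?_ ?_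
  · simp only [Fv]
    cases k.isP <;> cases mv <;> simp only [FP, FR, Gv] <;> ring
  · exact aff (fun y => Fv k mv _ y d1 d2 β γ e δ) (hY _) hy1 hy2 (pos2_Fv k4 hd1 hd2)
      (pos2_Fv k3 hd1 hd2)
  · exact aff (fun y => Fv k mv _ y d1 d2 β γ e δ) (hY _) hy1 hy2 (pos2_Fv k2 hd1 hd2)
      (pos2_Fv k1 hd1 hd2)

abbrev Zn := Option (ℚ × ℚ × ℚ × ℚ)

def InZ (z : Zn) (β γ e δ : ℚ) : Prop :=
  match z with
  | none => β = 0 ∧ γ = 0 ∧ e = 1 ∧ δ = 0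
  | some (b0, b1, g0, g1) => δ = 1 ∧ b0 ≤ γ - β ∧ γ - β ≤ b1 ∧ g0 ≤ γ ∧ γ ≤ g1 ∧ 0 ≤ β ∧ β ≤ γ ∧
      0 ≤ e ∧ 2 * e ≤ β ∧ e ≤ 2 * β * γ

/-- the corners of a zone -/
def corZ (C : ℚ → ℚ → ℚ → ℚ → Bool) (z : Zn) : Bool :=
  match z with
  | none => C 0 0 1 0
  | some (b0, b1, g0, g1) =>
    let c := min (1 / 2) (2 * g1)
    let σ : ℚ := if b1 = 1 / 2 then 1 else 0
    let ρ : ℚ := if b1 = 1 / 2 then 0 else b1
    C (g0 - b0) g0 0 1 && C (g0 - b0) g0 (c * (g0 - b0)) 1 &&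
    C (g1 - b0) g1 0 1 && C (g1 - b0) g1 (c * (g1 - b0)) 1 &&
    C (g0 - (ρ + σ * g0)) g0 0 1 && C (g0 - (ρ + σ * g0)) g0 (c * (g0 - (ρ + σ * g0))) 1 &&
    C (g1 - (ρ + σ * g1)) g1 0 1 && C (g1 - (ρ + σ * g1)) g1 (c * (g1 - (ρ + σ * g1))) 1

lemma corZ_ok {C : ℚ → ℚ → ℚ → ℚ → Bool} {z : Zn} (h : corZ C z = true) {k : Kt} {mv : Bool}
    {X Y d1 d2 β γ e δ : ℚ}
    (hC : ∀ β γ e δ, C β γ e δ = true → 0 < Fv k mv X Y d1 d2 β γ e δ) (hz : InZ z β γ e δ) :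
    0 < Fv k mv X Y d1 d2 β γ e δ := by
  rcases z with _ | ⟨b0, b1, g0, g1⟩
  · obtain ⟨rfl, rfl, rfl, rfl⟩ := hz
    exact hC _ _ _ _ h
  obtain ⟨rfl, z1, z2, z3, z4, z5, z6, z7, z8, z9⟩ := hz
  simp only [corZ, Bool.and_eq_true] at h
  have he : e ≤ min (1 / 2) (2 * g1) * β := by
    rcases min_cases (1 / 2 : ℚ) (2 * g1) with k | k <;> rw [k.1] <;> nlinarith
  have hd : γ - β ≤ (if b1 = 1 / 2 then 0 else b1) + (if b1 = 1 / 2 then 1 else 0) * γ := by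
    split_ifs <;> linarith
  generalize min (1 / 2) (2 * g1) = c at h he
  generalize (if b1 = 1 / 2 then (0 : ℚ) else b1) = ρ at h hd
  generalize (if b1 = 1 / 2 then (1 : ℚ) else 0) = σ at h hd
  obtain ⟨⟨⟨⟨⟨⟨⟨k1, k2⟩, k3⟩, k4⟩, k5⟩, k6⟩, k7⟩, k8⟩ := h
  have hg : ∀ θ u v : ℚ,
      0 < Fv k mv X Y d1 d2 (g0 - (u + v * g0)) g0 (θ * (g0 - (u + v * g0))) 1 →
      0 < Fv k mv X Y d1 d2 (g1 - (u + v * g1)) g1 (θ * (g1 - (u + v * g1))) 1 →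
      0 < Fv k mv X Y d1 d2 (γ - (u + v * γ)) γ (θ * (γ - (u + v * γ))) 1 := fun θ u v m1 m2 =>
    aff (fun g => Fv k mv X Y d1 d2 (g - (u + v * g)) g (θ * (g - (u + v * g))) 1) (fun x => by
      simp only [Fv]
      cases k.isP <;> cases mv <;> simp only [FP, FR, Gv] <;> ring) z3 z4 m1 m2
  have hb : ∀ θ : ℚ, 0 < Fv k mv X Y d1 d2 (γ - (b0 + 0 * γ)) γ (θ * (γ - (b0 + 0 * γ))) 1 →
      0 < Fv k mv X Y d1 d2 (γ - (ρ + σ * γ)) γ (θ * (γ - (ρ + σ * γ))) 1 →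
      0 < Fv k mv X Y d1 d2 β γ (θ * β) 1 := fun θ m1 m2 => by
    have := aff (fun x => Fv k mv X Y d1 d2 (γ - x) γ (θ * (γ - x)) 1) (fun x => by
      simp only [Fv]
      cases k.isP <;> cases mv <;> simp only [FP, FR, Gv] <;> ring)
      (show b0 + 0 * γ ≤ γ - β by linarith) hd m1 m2
    simpa using this
  refine aff (fun x => Fv k mv X Y d1 d2 β γ x 1) (fun x => ?_) z7 he ?_ ?_
  · simp only [Fv]
    cases k.isP <;> cases mv <;> simp only [FP, FR, Gv] <;> ring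
  · have := hb 0 (hg 0 b0 0 (by simpa using hC _ _ _ _ k1) (by simpa using hC _ _ _ _ k3))
      (hg 0 ρ σ (by simpa using hC _ _ _ _ k5) (by simpa using hC _ _ _ _ k7))
    simpa using this
  · exact hb c (hg c b0 0 (by simpa using hC _ _ _ _ k2) (by simpa using hC _ _ _ _ k4))
      (hg c ρ σ (hC _ _ _ _ k6) (hC _ _ _ _ k8))

def dy (z : Zn) : ℚ :=
  match z with
  | none => 0
  | some (_, b1, _, g1) => min b1 g1

def u0 : UB := ⟨0, 0, 0, 0, 0⟩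
def k0 : Kt := ⟨true, 0, 0, 0⟩

def check (s : Sp) : Ct → ℕ → Bool → ℕ → Bool → Zn → Bool
  | .V, a, sa, b, sb, _ => (s.b1 != 0 && decide (s.b1 < a)) || (s.b2 != 0 && decide (s.b2 < b)) ||
      (sa && sb && decide (a + b < s.smin)) || (sb && s.o1 && decide (b + 1 < a)) ||
      (sa && s.o2 && decide (a + 1 < b))
  | .W, _, _, _, _, z => match z with
      | none => false
      | some (b0, _, _, g1) => decide (g1 < b0)
  | .X i, a, sa, _, _, _ => decide (i < s.xu.length) &&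
      decide ((s.xu.getD i u0).k0 0 + (s.xu.getD i u0).k1 0 * a < s.xl0 + s.xl1 * a) &&
      ((sa || s.b1 == a && a != 0) || decide ((s.xu.getD i u0).k1 0 ≤ s.xl1))
  | .Z i, _, _, b, sb, z => decide (i < s.yu.length) &&
      decide ((s.yu.getD i u0).k0 (dy z) + (s.yu.getD i u0).k1 (dy z) * b < s.yl0 + s.yl1 * b) &&
      ((sb || s.b2 == b && b != 0) || decide ((s.yu.getD i u0).k1 (dy z) ≤ s.yl1))
  | .L k mv i j, a, sa, b, sb, z => decide (k < s.kits.length) && decide (i < s.xu.length) &&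
      decide (j < s.yu.length) &&
      corZ (cor4 (s.kits.getD k k0) mv s.xl0 s.xl1 ((s.xu.getD i u0).k0 0) ((s.xu.getD i u0).k1 0)
        s.yl0 s.yl1 ((s.yu.getD j u0).k0 (dy z)) ((s.yu.getD j u0).k1 (dy z))
        a (!(sa || s.b1 == a && a != 0)) b (!(sb || s.b2 == b && b != 0))) z
  | .G m l r, a, sa, b, sb, z => match z with
      | none => false
      | some (b0, b1, g0, g1) =>
        check s l a sa b sb (some (b0, b1, g0, m)) && check s r a sa b sb (some (b0, b1, m, g1))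
  | .E m l r, a, sa, b, sb, z => match z with
      | none => false
      | some (b0, b1, g0, g1) =>
        check s l a sa b sb (some (b0, m, g0, g1)) && check s r a sa b sb (some (m, b1, g0, g1))
  | .A l r, a, _, b, sb, z => check s l a true b sb z && check s r (a + 1) false b sb z
  | .B l r, a, sa, b, _, z => check s l a sa b true z && check s r a sa (b + 1) false z

structure Hyp (s : Sp) (d1 d2 : ℕ) (D1 D2 X Y β γ e δ : ℚ) : Prop where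
  e1 : D1 = d1
  e2 : D2 = d2
  b1 : s.b1 ≠ 0 → d1 ≤ s.b1
  b2 : s.b2 ≠ 0 → d2 ≤ s.b2
  smin : s.smin ≤ d1 + d2
  o1 : s.o1 = true → D1 ≤ D2 + 1
  o2 : s.o2 = true → D2 ≤ D1 + 1
  xl : s.xl0 + s.xl1 * D1 ≤ X
  yl : s.yl0 + s.yl1 * D2 ≤ Y
  xu : ∀ u ∈ s.xu, X ≤ u.k0 (max 0 (β - γ)) + u.k1 (max 0 (β - γ)) * D1
  yu : ∀ u ∈ s.yu, Y ≤ u.k0 (max 0 (γ - β)) + u.k1 (max 0 (γ - β)) * D2
  kits : ∀ k ∈ s.kits, Fv k true X Y D1 D2 β γ e δ ≤ 0 ∧ Fv k false X Y D1 D2 β γ e δ ≤ 0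

lemma Hyp.swap {s : Sp} {d1 d2 : ℕ} {D1 D2 X Y β γ e δ : ℚ} (h : Hyp s d1 d2 D1 D2 X Y β γ e δ) :
    Hyp s.swap d2 d1 D2 D1 Y X γ β e δ :=
  ⟨h.e2, h.e1, h.b2, h.b1, by have := h.smin; simp only [Sp.swap]; omega, h.o2, h.o1, h.yl, h.xl,
    h.yu, h.xu, fun k hk => by rw [Fv_swap, Fv_swap k false]; exact (h.kits k hk).symm⟩

def wf (l : List UB) : Bool := l.all fun u => decide (0 ≤ u.c2) && decide (0 ≤ u.c4)

lemma ub_mono {l : List UB} (h : wf l = true) {u : UB} (hu : u ∈ l) {x y d : ℚ} (hxy : x ≤ y)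
    (hd : 0 ≤ d) : u.k0 x + u.k1 x * d ≤ u.k0 y + u.k1 y * d := by
  have := List.all_eq_true.1 h u hu
  simp only [Bool.and_eq_true, decide_eq_true_eq] at this
  obtain ⟨h1, h2⟩ := this
  simp only [UB.k0, UB.k1]
  gcongr

lemma getD_mem {α : Type} {l : List α} {i : ℕ} (h : i < l.length) (d : α) : l.getD i d ∈ l := by
  rw [List.getD_eq_getElem _ _ h]; exact List.getElem_mem h

lemma inR_of {a b d : ℕ} {sa : Bool} (h : InR a (!sa) d) (hb : b ≠ 0 → d ≤ b) :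
    InR a (!(sa || b == a && a != 0)) d := by
  refine ⟨h.1, fun k => ?_⟩
  cases sa with
  | true => exact h.2 rfl
  | false =>
    simp only [Bool.false_or, Bool.not_eq_eq_eq_not, Bool.not_false, Bool.and_eq_true, beq_iff_eq,
      bne_iff_ne] at k
    have := h.1
    have := hb (by omega)
    omega

lemma lin_vac {p0 p1 q0 q1 : ℚ} {a d : ℕ} {t : Bool} (h1 : p0 + p1 * a < q0 + q1 * a)
    (h2 : (t || decide (p1 ≤ q1)) = true) (hd : InR a (!t) d) : p0 + p1 * d < q0 + q1 * d := by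
  cases t with
  | true => rw [hd.2 rfl]; exact h1
  | false =>
    simp only [Bool.false_or, decide_eq_true_eq] at h2
    have : (a : ℚ) ≤ d := by exact_mod_cast hd.1
    nlinarith

theorem check_ok {s : Sp} (hw : wf s.yu = true) {d1 d2 : ℕ} {D1 D2 X Y β γ e δ : ℚ}
    (h : Hyp s d1 d2 D1 D2 X Y β γ e δ) (ct : Ct) : ∀ (a : ℕ) (sa : Bool) (b : ℕ) (sb : Bool) (z : Zn),
    check s ct a sa b sb z = true → InR a (!sa) d1 → InR b (!sb) d2 → InZ z β γ e δ → False := by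
  obtain ⟨rfl, rfl, hb1, hb2, hs, ho1, ho2, hxl, hyl, hxu, hyu, hk⟩ := h
  have hx : ∀ z, InZ z β γ e δ → ∀ u ∈ s.xu, X ≤ u.k0 0 + u.k1 0 * d1 := by
    intro z hz u hu
    have : max 0 (β - γ) = 0 := by
      rcases z with _ | ⟨b0, b1, g0, g1⟩
      · obtain ⟨rfl, rfl, -⟩ := hz; simp
      · exact max_eq_left (by linarith [hz.2.2.2.2.2.2.1])
    simpa [this] using hxu u hu
  have hy : ∀ z, InZ z β γ e δ → ∀ u ∈ s.yu, Y ≤ u.k0 (dy z) + u.k1 (dy z) * d2 := by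
    intro z hz u hu
    refine (hyu u hu).trans (ub_mono hw hu ?_ (by positivity))
    rcases z with _ | ⟨b0, b1, g0, g1⟩
    · obtain ⟨rfl, rfl, -⟩ := hz; simp [dy]
    · obtain ⟨-, z1, z2, z3, z4, z5, z6, -⟩ := hz
      rw [max_eq_right (by linarith)]
      exact le_min z2 (by linarith)
  induction ct with
  | V =>
    intro a sa b sb z hc h1 h2 _
    have o1' : s.o1 = true → d1 ≤ d2 + 1 := fun k => by exact_mod_cast ho1 k
    have o2' : s.o2 = true → d2 ≤ d1 + 1 := fun k => by exact_mod_cast ho2 k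
    obtain ⟨r1, r2⟩ := h1
    obtain ⟨r3, r4⟩ := h2
    simp only [check, Bool.or_eq_true, Bool.and_eq_true, bne_iff_ne, decide_eq_true_eq] at hc
    rcases hc with (((⟨k1, k2⟩ | ⟨k1, k2⟩) | ⟨⟨k1, k2⟩, k3⟩) | ⟨⟨k1, k2⟩, k3⟩) | ⟨⟨k1, k2⟩, k3⟩
    · have := hb1 k1; omega
    · have := hb2 k1; omega
    · have := r2 (by simp [k1]); have := r4 (by simp [k2]); omega
    · have := r4 (by simp [k1]); have := o1' k2; omega
    · have := r2 (by simp [k1]); have := o2' k2; omega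
  | W =>
    intro a sa b sb z hc _ _ hz
    rcases z with _ | ⟨b0, b1, g0, g1⟩
    · simp [check] at hc
    · simp only [check, decide_eq_true_eq] at hc
      obtain ⟨-, z1, z2, z3, z4, z5, z6, -⟩ := hz
      linarith
  | X i =>
    intro a sa b sb z hc h1 _ hz
    simp only [check, Bool.and_eq_true, decide_eq_true_eq] at hc
    have := lin_vac hc.1.2 hc.2 (inR_of h1 hb1)
    have := hx z hz _ (getD_mem hc.1.1 u0)
    linarith
  | Z i =>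
    intro a sa b sb z hc _ h2 hz
    simp only [check, Bool.and_eq_true, decide_eq_true_eq] at hc
    have := lin_vac hc.1.2 hc.2 (inR_of h2 hb2)
    have := hy z hz _ (getD_mem hc.1.1 u0)
    linarith
  | L k mv i j =>
    intro a sa b sb z hc h1 h2 hz
    simp only [check, Bool.and_eq_true, decide_eq_true_eq] at hc
    obtain ⟨⟨⟨k1, k2⟩, k3⟩, k4⟩ := hc
    have := corZ_ok k4 (fun β γ e δ hC => cor4_ok hC (inR_of h1 hb1) (inR_of h2 hb2) hxl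
      (hx z hz _ (getD_mem k2 u0)) hyl (hy z hz _ (getD_mem k3 u0))) hz
    have k5 := hk _ (getD_mem k1 k0)
    cases mv
    · exact absurd this (not_lt.2 k5.2)
    · exact absurd this (not_lt.2 k5.1)
  | G m l r ih1 ih2 =>
    intro a sa b sb z hc h1 h2 hz
    rcases z with _ | ⟨b0, b1, g0, g1⟩
    · simp [check] at hc
    · simp only [check, Bool.and_eq_true] at hc
      obtain ⟨z0, z1, z2, z3, z4, z5⟩ := hz
      rcases le_total γ m with k | k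
      · exact ih1 _ _ _ _ _ hc.1 h1 h2 ⟨z0, z1, z2, z3, k, z5⟩
      · exact ih2 _ _ _ _ _ hc.2 h1 h2 ⟨z0, z1, z2, k, z4, z5⟩
  | E m l r ih1 ih2 =>
    intro a sa b sb z hc h1 h2 hz
    rcases z with _ | ⟨b0, b1, g0, g1⟩
    · simp [check] at hc
    · simp only [check, Bool.and_eq_true] at hc
      obtain ⟨z0, z1, z2, z3⟩ := hz
      rcases le_total (γ - β) m with k | k
      · exact ih1 _ _ _ _ _ hc.1 h1 h2 ⟨z0, z1, k, z3⟩
      · exact ih2 _ _ _ _ _ hc.2 h1 h2 ⟨z0, k, z2, z3⟩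
  | A l r ih1 ih2 =>
    intro a sa b sb z hc h1 h2 hz
    simp only [check, Bool.and_eq_true] at hc
    rcases h1.1.eq_or_lt with k | k
    · exact ih1 _ _ _ _ _ hc.1 ⟨h1.1, fun _ => k.symm⟩ h2 hz
    · exact ih2 _ _ _ _ _ hc.2 ⟨k, by simp⟩ h2 hz
  | B l r ih1 ih2 =>
    intro a sa b sb z hc h1 h2 hz
    simp only [check, Bool.and_eq_true] at hc
    rcases h2.1.eq_or_lt with k | k
    · exact ih1 _ _ _ _ _ hc.1 h1 ⟨h2.1, fun _ => k.symm⟩ hz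
    · exact ih2 _ _ _ _ _ hc.2 h1 ⟨k, by simp⟩ hz

def checkAll (s : Sp) (c1 c2 c3 : Ct) (a b : ℕ) (g : ℚ) (adj : Bool) : Bool :=
  wf s.xu && wf s.yu && check s c1 a false b false (some (0, 1 / 2, g, 1 / 2)) &&
    check s.swap c2 b false a false (some (0, 1 / 2, g, 1 / 2)) &&
    (!adj || check s c3 a false b false none)

theorem sound {s : Sp} {c1 c2 c3 : Ct} {a b : ℕ} {g : ℚ} {adj : Bool}
    (hc : checkAll s c1 c2 c3 a b g adj = true) {d1 d2 : ℕ} {D1 D2 X Y β γ e δ : ℚ}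
    (hx : Cx β γ e δ) (ha : a ≤ d1) (hb : b ≤ d2) (hg : g = 0 ∨ g ≤ γ) (hadj : adj = true ∨ δ = 1)
    (h : Hyp s d1 d2 D1 D2 X Y β γ e δ) : False := by
  simp only [checkAll, Bool.and_eq_true] at hc
  obtain ⟨⟨⟨⟨w1, w2⟩, k1⟩, k2⟩, k3⟩ := hc
  rcases hx with hx | ⟨x0, x1, x2, x3, x4, x5, x6, x7, x8⟩
  · rcases hadj with rfl | k
    · exact check_ok w2 h c3 a false b false none (by simpa using k3) ⟨ha, by simp⟩ ⟨hb, by simp⟩ hx
    · rw [hx.2.2.2] at k; norm_num at k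
  · have hg' : g ≤ γ := by rcases hg with rfl | k <;> assumption
    rcases le_total β γ with k | k
    · exact check_ok w2 h c1 _ _ _ _ _ k1 ⟨ha, by simp⟩ ⟨hb, by simp⟩
        ⟨x0, by linarith, by linarith, hg', x4, x1, k, x5, x6, x8⟩
    · exact check_ok (s := s.swap) w1 h.swap c2 _ _ _ _ _ k2 ⟨hb, by simp⟩ ⟨ha, by simp⟩
        ⟨x0, by linarith, by linarith, by linarith, x2, x3, k, x5, x7, by linarith⟩

def sD3a : Sp :=
  ⟨11, 0, 5, false, false, 0, 1, 0, 1, [⟨-3 / 7, 10 / 7, 0, 0, 0⟩], [⟨-3 / 7, 10 / 7, 0, 0, 0⟩],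
    [⟨true, 44 / 49, 1, 122 / 77⟩, ⟨false, 484 / 343, 1, 134 / 77⟩]⟩

lemma cD3a : checkAll sD3a
    (.A (.B .V (.L 0 true 0 0)) (.A (.L 0 true 0 0) (.A (.L 0 true 0 0) (.A (.G (3 / 25) (.L 1
      true 0 0) (.L 0 true 0 0)) (.A (.B (.L 0 true 0 0) (.G (13 / 100) (.L 1 true 0 0) (.L 0
      true 0 0))) (.A (.B (.L 0 true 0 0) (.B (.L 0 true 0 0) (.G (13 / 100) (.L 1 true 0 0) (.L
      0 true 0 0)))) (.A (.B (.L 0 true 0 0) (.B (.L 0 true 0 0) (.B (.L 0 true 0 0) (.G (3 / 25)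
      (.L 1 true 0 0) (.L 0 true 0 0))))) (.A (.B (.L 0 true 0 0) (.B (.L 0 true 0 0) (.B (.L 0
      true 0 0) (.B (.L 0 true 0 0) (.B (.G (19 / 100) (.L 1 true 0 0) (.L 0 true 0 0)) (.B (.G
      (9 / 50) (.L 1 true 0 0) (.L 0 true 0 0)) (.G (13 / 100) (.L 1 true 0 0) (.L 0 true 0
      0)))))))) (.A (.B (.L 0 true 0 0) (.B (.L 0 true 0 0) (.B (.L 0 true 0 0) (.B (.L 0 true 0
      0) (.B (.G (19 / 100) (.L 1 true 0 0) (.L 0 true 0 0)) (.B (.G (9 / 50) (.L 1 true 0 0) (.L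
      0 true 0 0)) (.B (.G (17 / 100) (.L 1 true 0 0) (.L 0 true 0 0)) (.B (.G (4 / 25) (.L 1
      true 0 0) (.L 0 true 0 0)) (.G (13 / 100) (.L 1 true 0 0) (.L 0 true 0 0)))))))))) (.B (.L
      0 true 0 0) (.B (.L 0 true 0 0) (.B (.L 0 true 0 0) (.B (.L 0 true 0 0) (.B (.G (19 / 100)
      (.L 1 true 0 0) (.L 0 true 0 0)) (.B (.G (9 / 50) (.L 1 true 0 0) (.L 0 true 0 0)) (.B (.G
      (17 / 100) (.L 1 true 0 0) (.L 0 true 0 0)) (.B (.G (4 / 25) (.L 1 true 0 0) (.L 0 true 0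
      0)) (.B (.G (4 / 25) (.L 1 true 0 0) (.L 0 true 0 0)) (.B (.G (3 / 20) (.L 1 true 0 0) (.L
      0 true 0 0)) (.B (.G (3 / 20) (.L 1 true 0 0) (.L 0 true 0 0)) (.B (.G (3 / 20) (.L 1 true
      0 0) (.L 0 true 0 0)) (.B (.G (7 / 50) (.L 1 true 0 0) (.L 0 true 0 0)) (.G (7 / 50) (.L 1
      true 0 0) (.L 0 true 0 0))))))))))))))))))))))))
    (.B (.A .V (.L 0 true 0 0)) (.B (.L 0 true 0 0) (.B (.L 0 true 0 0) (.B (.G (3 / 25) (.L 1
      true 0 0) (.L 0 true 0 0)) (.B (.A (.L 0 true 0 0) (.G (13 / 100) (.L 1 true 0 0) (.L 0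
      true 0 0))) (.B (.A (.L 0 true 0 0) (.A (.L 0 true 0 0) (.G (13 / 100) (.L 1 true 0 0) (.L
      0 true 0 0)))) (.B (.A (.L 0 true 0 0) (.A (.L 0 true 0 0) (.A (.L 0 true 0 0) (.G (3 / 25)
      (.L 1 true 0 0) (.L 0 true 0 0))))) (.B (.A (.L 0 true 0 0) (.A (.L 0 true 0 0) (.A (.L 0
      true 0 0) (.A (.L 0 true 0 0) (.A (.G (19 / 100) (.L 1 true 0 0) (.L 0 true 0 0)) (.A (.G
      (9 / 50) (.L 1 true 0 0) (.L 0 true 0 0)) (.G (13 / 100) (.L 1 true 0 0) (.L 0 true 0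
      0)))))))) (.B (.A (.L 0 true 0 0) (.A (.L 0 true 0 0) (.A (.L 0 true 0 0) (.A (.L 0 true 0
      0) (.A (.G (19 / 100) (.L 1 true 0 0) (.L 0 true 0 0)) (.A (.G (9 / 50) (.L 1 true 0 0) (.L
      0 true 0 0)) (.A (.G (17 / 100) (.L 1 true 0 0) (.L 0 true 0 0)) (.A (.G (4 / 25) (.L 1
      true 0 0) (.L 0 true 0 0)) (.G (13 / 100) (.L 1 true 0 0) (.L 0 true 0 0)))))))))) (.A (.L
      0 true 0 0) (.A (.L 0 true 0 0) (.A (.L 0 true 0 0) (.A (.L 0 true 0 0) (.A (.G (19 / 100)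
      (.L 1 true 0 0) (.L 0 true 0 0)) (.A (.G (9 / 50) (.L 1 true 0 0) (.L 0 true 0 0)) (.A (.G
      (17 / 100) (.L 1 true 0 0) (.L 0 true 0 0)) (.A (.G (4 / 25) (.L 1 true 0 0) (.L 0 true 0
      0)) (.A (.G (4 / 25) (.L 1 true 0 0) (.L 0 true 0 0)) (.A (.G (3 / 20) (.L 1 true 0 0) (.L
      0 true 0 0)) (.A (.G (3 / 20) (.L 1 true 0 0) (.L 0 true 0 0)) (.A (.G (3 / 20) (.L 1 true
      0 0) (.L 0 true 0 0)) (.A (.G (7 / 50) (.L 1 true 0 0) (.L 0 true 0 0)) (.G (7 / 50) (.L 1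
      true 0 0) (.L 0 true 0 0))))))))))))))))))))))))
    (.A (.B .V (.L 0 true 0 0)) (.A (.L 0 true 0 0) (.A (.L 0 true 0 0) (.A (.L 0 true 0 0) (.A
      (.L 1 true 0 0) (.A (.L 1 true 0 0) (.A (.L 1 true 0 0) (.A (.L 1 true 0 0) (.A (.L 1 true
      0 0) (.L 1 true 0 0))))))))))
    2 2 (0) true = true := by decide +kernel

lemma iD3a : ∀ (l1 l2 : Multiset Y) (β γ e δ : ℚ),
    Cx β γ e δ →
    1 ≤ l1.card →
    l1.card ≤ 10 →
    1 ≤ l2.card →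
    3 ≤ l1.card + l2.card →
    0 ≤ msg l1 →
    msg l1 ≤ 3 / 7 * l1.card →
    0 ≤ msg l2 →
    msg l2 ≤ 3 / 7 * l2.card →
    NoP (44 / 49) 1 (122 / 77) (wt l1) (wt l2) (dg l1) (dg l2) β γ e →
    NoR (484 / 343) 1 (134 / 77) (wt l1) (wt l2) (dg l1) (dg l2) β γ e δ → False := by
  intro l1 l2 β γ e δ h0 h1 h2 h3 h4 h5 h6 h7 h8 h9 h10
  refine sound cD3a (d1 := l1.card + 1) (d2 := l2.card + 1) (D1 := dg l1) (D2 := dg l2)
    (X := wt l1) (Y := wt l2) h0 (by omega) (by omega) (Or.inl rfl) (Or.inl rfl)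
    ⟨by simp [dg], by simp [dg], fun _ => by simp only [sD3a]; omega, by simp [sD3a], by simp only [sD3a]; omega,
      by simp [sD3a], by simp [sD3a], ?_, ?_, ?_, ?_, ?_⟩
  · simp only [sD3a, wt, dg]; linarith
  · simp only [sD3a, wt, dg]; linarith
  · simp only [sD3a, List.mem_cons, List.not_mem_nil, or_false, forall_eq_or_imp, forall_eq,
      UB.k0, UB.k1]
    simp only [wt, dg]; linarith
  · simp only [sD3a, List.mem_cons, List.not_mem_nil, or_false, forall_eq_or_imp, forall_eq,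
      UB.k0, UB.k1]
    simp only [wt, dg]; linarith
  · simp only [sD3a, List.mem_cons, List.not_mem_nil, or_false, forall_eq_or_imp, forall_eq]
    exact ⟨h9, h10⟩

def sD3b : Sp :=
  ⟨0, 0, 0, true, false, 0, 1, 0, 1, [⟨0, 4 / 3, 1 / 4, 4 / 3 - 1, 0⟩], [⟨0, 4 / 3, 0, 0, 0⟩],
    [⟨true, 44 / 49, 1, 122 / 77⟩, ⟨false, 484 / 343, 1, 134 / 77⟩]⟩

lemma cD3b : checkAll sD3b
    (.L 0 true 0 0)
    (.G (43 / 100) (.L 1 true 0 0) (.L 0 true 0 0))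
    (.L 0 true 0 0)
    12 12 (0) true = true := by decide +kernel

lemma iD3b : ∀ (l1 l2 : Multiset Y) (β γ e δ : ℚ),
    Cx β γ e δ →
    11 ≤ l1.card →
    11 ≤ l2.card →
    0 ≤ msg l1 →
    0 ≤ msg l2 →
    SB (4 / 3) (wt l1) (wt l2) (dg l1) (dg l2) γ β →
    NoP (44 / 49) 1 (122 / 77) (wt l1) (wt l2) (dg l1) (dg l2) β γ e →
    NoR (484 / 343) 1 (134 / 77) (wt l1) (wt l2) (dg l1) (dg l2) β γ e δ → False := by
  intro l1 l2 β γ e δ h0 h1 h2 h3 h4 h5 h6 h7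
  refine sound cD3b (d1 := l1.card + 1) (d2 := l2.card + 1) (D1 := dg l1) (D2 := dg l2)
    (X := wt l1) (Y := wt l2) h0 (by omega) (by omega) (Or.inl rfl) (Or.inl rfl)
    ⟨by simp [dg], by simp [dg], by simp [sD3b], by simp [sD3b], by simp only [sD3b]; omega,
      fun _ => h5.1, by simp [sD3b], ?_, ?_, ?_, ?_, ?_⟩
  · simp only [sD3b, wt, dg]; linarith
  · simp only [sD3b, wt, dg]; linarith
  · simp only [sD3b, List.mem_cons, List.not_mem_nil, or_false, forall_eq_or_imp, forall_eq,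
      UB.k0, UB.k1]
    linarith [h5.2.1, le_max_left 0 (γ - β)]
  · simp only [sD3b, List.mem_cons, List.not_mem_nil, or_false, forall_eq_or_imp, forall_eq,
      UB.k0, UB.k1]
    linarith [h5.2.2.1]
  · simp only [sD3b, List.mem_cons, List.not_mem_nil, or_false, forall_eq_or_imp, forall_eq]
    exact ⟨h6, h7⟩

def sD2a : Sp :=
  ⟨0, 0, 0, false, false, 6 / 7, 1, 0, 1, [⟨-1 / 7, 4 / 3, 0, 0, 0⟩], [⟨-1 / 3, 4 / 3, 0, 0, 0⟩],
    [⟨true, 44 / 49, 1, 122 / 77⟩]⟩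

lemma cD2a : checkAll sD2a
    (.L 0 true 0 0)
    (.L 0 true 0 0)
    (.L 0 true 0 0)
    3 2 (0) true = true := by decide +kernel

lemma iD2a : ∀ (l1 l2 : Multiset Y) (β γ e δ : ℚ),
    Cx β γ e δ →
    2 ≤ l1.card →
    1 ≤ l2.card →
    6 / 7 ≤ msg l1 →
    msg l1 ≤ 1 / 3 * l1.card + 4 / 21 →
    0 ≤ msg l2 →
    msg l2 ≤ 1 / 3 * l2.card →
    NoP (44 / 49) 1 (122 / 77) (wt l1) (wt l2) (dg l1) (dg l2) β γ e → False := by
  intro l1 l2 β γ e δ h0 h1 h2 h3 h4 h5 h6 h7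
  refine sound cD2a (d1 := l1.card + 1) (d2 := l2.card + 1) (D1 := dg l1) (D2 := dg l2)
    (X := wt l1) (Y := wt l2) h0 (by omega) (by omega) (Or.inl rfl) (Or.inl rfl)
    ⟨by simp [dg], by simp [dg], by simp [sD2a], by simp [sD2a], by simp only [sD2a]; omega,
      by simp [sD2a], by simp [sD2a], ?_, ?_, ?_, ?_, ?_⟩
  · simp only [sD2a, wt, dg]; linarith
  · simp only [sD2a, wt, dg]; linarith
  · simp only [sD2a, List.mem_cons, List.not_mem_nil, or_false, forall_eq_or_imp, forall_eq,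
      UB.k0, UB.k1]
    simp only [wt, dg]; linarith
  · simp only [sD2a, List.mem_cons, List.not_mem_nil, or_false, forall_eq_or_imp, forall_eq,
      UB.k0, UB.k1]
    simp only [wt, dg]; linarith
  · simp only [sD2a, List.mem_cons, List.not_mem_nil, or_false, forall_eq_or_imp, forall_eq]
    exact h7

def sD2b : Sp :=
  ⟨0, 0, 0, false, false, 3 / 7, 1, 3 / 7, 1, [⟨-5 / 21, 4 / 3, 0, 0, 0⟩], [⟨-5 / 21, 4 / 3, 0,
    0, 0⟩], [⟨true, 44 / 49, 1, 122 / 77⟩]⟩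

lemma cD2b : checkAll sD2b
    (.L 0 true 0 0)
    (.L 0 true 0 0)
    (.L 0 true 0 0)
    2 2 (0) true = true := by decide +kernel

lemma iD2b : ∀ (l1 l2 : Multiset Y) (β γ e δ : ℚ),
    Cx β γ e δ →
    1 ≤ l1.card →
    1 ≤ l2.card →
    3 / 7 ≤ msg l1 →
    msg l1 ≤ 1 / 3 * l1.card + 2 / 21 →
    3 / 7 ≤ msg l2 →
    msg l2 ≤ 1 / 3 * l2.card + 2 / 21 →
    NoP (44 / 49) 1 (122 / 77) (wt l1) (wt l2) (dg l1) (dg l2) β γ e → False := by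
  intro l1 l2 β γ e δ h0 h1 h2 h3 h4 h5 h6 h7
  refine sound cD2b (d1 := l1.card + 1) (d2 := l2.card + 1) (D1 := dg l1) (D2 := dg l2)
    (X := wt l1) (Y := wt l2) h0 (by omega) (by omega) (Or.inl rfl) (Or.inl rfl)
    ⟨by simp [dg], by simp [dg], by simp [sD2b], by simp [sD2b], by simp only [sD2b]; omega,
      by simp [sD2b], by simp [sD2b], ?_, ?_, ?_, ?_, ?_⟩
  · simp only [sD2b, wt, dg]; linarith
  · simp only [sD2b, wt, dg]; linarith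
  · simp only [sD2b, List.mem_cons, List.not_mem_nil, or_false, forall_eq_or_imp, forall_eq,
      UB.k0, UB.k1]
    simp only [wt, dg]; linarith
  · simp only [sD2b, List.mem_cons, List.not_mem_nil, or_false, forall_eq_or_imp, forall_eq,
      UB.k0, UB.k1]
    simp only [wt, dg]; linarith
  · simp only [sD2b, List.mem_cons, List.not_mem_nil, or_false, forall_eq_or_imp, forall_eq]
    exact h7

def sD1a : Sp :=
  ⟨0, 0, 0, true, false, 0, 1, 0, 1, [⟨0, 14 / 11, 1 / 4, 14 / 11 - 1, 0⟩, ⟨-23 / 77, 4 / 3, 0,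
    0, 0⟩], [⟨0, 14 / 11, 0, 0, 0⟩, ⟨-5 / 21, 4 / 3, 0, 0, 0⟩], [⟨true, 6 / 7, 0, 2 / 21⟩]⟩

lemma cD1a : checkAll sD1a
    (.G (9 / 50) (.L 0 true 0 0) (.L 0 true 1 1))
    (.G (9 / 50) (.L 0 true 0 0) (.L 0 true 1 1))
    (.A (.L 0 true 0 1) (.L 0 true 0 0))
    2 2 (0) true = true := by decide +kernel

lemma iD1a : ∀ (l1 l2 : Multiset Y) (β γ e δ : ℚ),
    Cx β γ e δ →
    1 ≤ l1.card →
    1 ≤ l2.card →
    0 ≤ msg l1 →
    msg l1 ≤ 1 / 3 * l1.card + 8 / 231 →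
    0 ≤ msg l2 →
    msg l2 ≤ 1 / 3 * l2.card + 2 / 21 →
    SB (14 / 11) (wt l1) (wt l2) (dg l1) (dg l2) γ β →
    NoP (6 / 7) 0 (2 / 21) (wt l1) (wt l2) (dg l1) (dg l2) β γ e → False := by
  intro l1 l2 β γ e δ h0 h1 h2 h3 h4 h5 h6 h7 h8
  refine sound cD1a (d1 := l1.card + 1) (d2 := l2.card + 1) (D1 := dg l1) (D2 := dg l2)
    (X := wt l1) (Y := wt l2) h0 (by omega) (by omega) (Or.inl rfl) (Or.inl rfl)
    ⟨by simp [dg], by simp [dg], by simp [sD1a], by simp [sD1a], by simp only [sD1a]; omega,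
      fun _ => h7.1, by simp [sD1a], ?_, ?_, ?_, ?_, ?_⟩
  · simp only [sD1a, wt, dg]; linarith
  · simp only [sD1a, wt, dg]; linarith
  · simp only [sD1a, List.mem_cons, List.not_mem_nil, or_false, forall_eq_or_imp, forall_eq,
      UB.k0, UB.k1]
    refine ⟨?_, ?_⟩
    · linarith [h7.2.1, le_max_left 0 (γ - β)]
    · simp only [wt, dg]; linarith
  · simp only [sD1a, List.mem_cons, List.not_mem_nil, or_false, forall_eq_or_imp, forall_eq,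
      UB.k0, UB.k1]
    refine ⟨?_, ?_⟩
    · linarith [h7.2.2.1]
    · simp only [wt, dg]; linarith
  · simp only [sD1a, List.mem_cons, List.not_mem_nil, or_false, forall_eq_or_imp, forall_eq]
    exact h8

def sD1b : Sp :=
  ⟨4, 0, 0, false, false, 0, 1, 0, 1, [⟨-5 / 21, 4 / 3, 0, 0, 0⟩], [⟨-1 / 3, 4 / 3, 0, 0, 0⟩],
    [⟨true, 6 / 7, 0, 2 / 21⟩]⟩

lemma cD1b : checkAll sD1b
    (.A (.L 0 true 0 0) (.A (.L 0 true 0 0) (.L 0 true 0 0)))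
    (.B (.L 0 true 0 0) (.B (.L 0 true 0 0) (.L 0 true 0 0)))
    (.A (.L 0 true 0 0) (.A (.L 0 true 0 0) (.L 0 true 0 0)))
    2 2 (0) true = true := by decide +kernel

lemma iD1b : ∀ (l1 l2 : Multiset Y) (β γ e δ : ℚ),
    Cx β γ e δ →
    1 ≤ l1.card →
    l1.card ≤ 3 →
    1 ≤ l2.card →
    0 ≤ msg l1 →
    msg l1 ≤ 1 / 3 * l1.card + 2 / 21 →
    0 ≤ msg l2 →
    msg l2 ≤ 1 / 3 * l2.card →
    NoP (6 / 7) 0 (2 / 21) (wt l1) (wt l2) (dg l1) (dg l2) β γ e → False := by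
  intro l1 l2 β γ e δ h0 h1 h2 h3 h4 h5 h6 h7 h8
  refine sound cD1b (d1 := l1.card + 1) (d2 := l2.card + 1) (D1 := dg l1) (D2 := dg l2)
    (X := wt l1) (Y := wt l2) h0 (by omega) (by omega) (Or.inl rfl) (Or.inl rfl)
    ⟨by simp [dg], by simp [dg], fun _ => by simp only [sD1b]; omega, by simp [sD1b], by simp only [sD1b]; omega,
      by simp [sD1b], by simp [sD1b], ?_, ?_, ?_, ?_, ?_⟩
  · simp only [sD1b, wt, dg]; linarith
  · simp only [sD1b, wt, dg]; linarith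
  · simp only [sD1b, List.mem_cons, List.not_mem_nil, or_false, forall_eq_or_imp, forall_eq,
      UB.k0, UB.k1]
    simp only [wt, dg]; linarith
  · simp only [sD1b, List.mem_cons, List.not_mem_nil, or_false, forall_eq_or_imp, forall_eq,
      UB.k0, UB.k1]
    simp only [wt, dg]; linarith
  · simp only [sD1b, List.mem_cons, List.not_mem_nil, or_false, forall_eq_or_imp, forall_eq]
    exact h8

def sD0a3 : Sp :=
  ⟨0, 0, 0, true, false, 0, 1, 0, 1, [⟨0, 6 / 5, 1 / 4, 6 / 5 - 1, 0⟩, ⟨-7 / 15, 4 / 3, 0, 0,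
    0⟩], [⟨0, 6 / 5, 0, 0, 0⟩, ⟨-13 / 33, 4 / 3, 0, 0, 0⟩], [⟨true, 4 / 5, -2, -14 / 5⟩]⟩

lemma cD0a3 : checkAll sD0a3
    (.A (.L 0 true 1 1) (.B (.L 0 true 0 1) (.L 0 true 0 0)))
    (.A (.L 0 true 1 1) (.B (.L 0 true 0 1) (.E (1 / 4) (.G (1 / 5) (.L 0 true 0 0) (.L 0 true 0
      0)) (.G (6 / 25) .W (.L 0 true 0 0)))))
    (.A (.L 0 true 0 1) (.L 0 true 0 0))
    2 2 (0) true = true := by decide +kernel

lemma iD0a3 : ∀ (l1 l2 : Multiset Y) (β γ e δ : ℚ),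
    Cx β γ e δ →
    1 ≤ l1.card →
    1 ≤ l2.card →
    0 ≤ msg l1 →
    msg l1 ≤ 1 / 3 * l1.card - 2 / 15 →
    0 ≤ msg l2 →
    msg l2 ≤ 1 / 3 * l2.card - 2 / 33 →
    SB (6 / 5) (wt l1) (wt l2) (dg l1) (dg l2) γ β →
    NoP (4 / 5) (-2) (-14 / 5) (wt l1) (wt l2) (dg l1) (dg l2) β γ e → False := by
  intro l1 l2 β γ e δ h0 h1 h2 h3 h4 h5 h6 h7 h8
  refine sound cD0a3 (d1 := l1.card + 1) (d2 := l2.card + 1) (D1 := dg l1) (D2 := dg l2)
    (X := wt l1) (Y := wt l2) h0 (by omega) (by omega) (Or.inl rfl) (Or.inl rfl)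
    ⟨by simp [dg], by simp [dg], by simp [sD0a3], by simp [sD0a3], by simp only [sD0a3]; omega,
      fun _ => h7.1, by simp [sD0a3], ?_, ?_, ?_, ?_, ?_⟩
  · simp only [sD0a3, wt, dg]; linarith
  · simp only [sD0a3, wt, dg]; linarith
  · simp only [sD0a3, List.mem_cons, List.not_mem_nil, or_false, forall_eq_or_imp, forall_eq,
      UB.k0, UB.k1]
    refine ⟨?_, ?_⟩
    · linarith [h7.2.1, le_max_left 0 (γ - β)]
    · simp only [wt, dg]; linarith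
  · simp only [sD0a3, List.mem_cons, List.not_mem_nil, or_false, forall_eq_or_imp, forall_eq,
      UB.k0, UB.k1]
    refine ⟨?_, ?_⟩
    · linarith [h7.2.2.1]
    · simp only [wt, dg]; linarith
  · simp only [sD0a3, List.mem_cons, List.not_mem_nil, or_false, forall_eq_or_imp, forall_eq]
    exact h8

def sD0a4 : Sp :=
  ⟨0, 0, 0, true, false, 0, 1, 0, 1, [⟨0, 22 / 19, 1 / 4, 22 / 19 - 1, 0⟩, ⟨-29 / 57, 4 / 3, 0,
    0, 0⟩], [⟨0, 22 / 19, 0, 0, 0⟩, ⟨-13 / 33, 4 / 3, 0, 0, 0⟩], [⟨true, 15 / 19, -3, -238 /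
    57⟩]⟩

lemma cD0a4 : checkAll sD0a4
    (.A (.L 0 true 1 0) (.B (.A (.L 0 true 0 0) .V) (.L 0 true 0 0)))
    (.A (.B (.L 0 true 0 1) (.B (.L 0 true 1 1) .V)) (.B (.L 0 true 0 1) (.E (1 / 4) (.L 0 true 0
      0) (.G (13 / 50) (.L 0 true 0 0) (.L 0 true 0 0)))))
    (.L 0 true 0 0)
    2 2 (0) true = true := by decide +kernel

lemma iD0a4 : ∀ (l1 l2 : Multiset Y) (β γ e δ : ℚ),
    Cx β γ e δ →
    1 ≤ l1.card →
    1 ≤ l2.card →
    0 ≤ msg l1 →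
    msg l1 ≤ 1 / 3 * l1.card - 10 / 57 →
    0 ≤ msg l2 →
    msg l2 ≤ 1 / 3 * l2.card - 2 / 33 →
    SB (22 / 19) (wt l1) (wt l2) (dg l1) (dg l2) γ β →
    NoP (15 / 19) (-3) (-238 / 57) (wt l1) (wt l2) (dg l1) (dg l2) β γ e → False := by
  intro l1 l2 β γ e δ h0 h1 h2 h3 h4 h5 h6 h7 h8
  refine sound cD0a4 (d1 := l1.card + 1) (d2 := l2.card + 1) (D1 := dg l1) (D2 := dg l2)
    (X := wt l1) (Y := wt l2) h0 (by omega) (by omega) (Or.inl rfl) (Or.inl rfl)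
    ⟨by simp [dg], by simp [dg], by simp [sD0a4], by simp [sD0a4], by simp only [sD0a4]; omega,
      fun _ => h7.1, by simp [sD0a4], ?_, ?_, ?_, ?_, ?_⟩
  · simp only [sD0a4, wt, dg]; linarith
  · simp only [sD0a4, wt, dg]; linarith
  · simp only [sD0a4, List.mem_cons, List.not_mem_nil, or_false, forall_eq_or_imp, forall_eq,
      UB.k0, UB.k1]
    refine ⟨?_, ?_⟩
    · linarith [h7.2.1, le_max_left 0 (γ - β)]
    · simp only [wt, dg]; linarith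
  · simp only [sD0a4, List.mem_cons, List.not_mem_nil, or_false, forall_eq_or_imp, forall_eq,
      UB.k0, UB.k1]
    refine ⟨?_, ?_⟩
    · linarith [h7.2.2.1]
    · simp only [wt, dg]; linarith
  · simp only [sD0a4, List.mem_cons, List.not_mem_nil, or_false, forall_eq_or_imp, forall_eq]
    exact h8

def sD0a5 : Sp :=
  ⟨0, 0, 0, true, false, 0, 1, 0, 1, [⟨0, 26 / 23, 1 / 4, 26 / 23 - 1, 0⟩, ⟨-37 / 69, 4 / 3, 0,
    0, 0⟩], [⟨0, 26 / 23, 0, 0, 0⟩, ⟨-13 / 33, 4 / 3, 0, 0, 0⟩], [⟨true, 18 / 23, -4, -382 /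
    69⟩]⟩

lemma cD0a5 : checkAll sD0a5
    (.A (.L 0 true 1 0) (.B (.A (.L 0 true 0 0) .V) (.L 0 true 0 0)))
    (.A (.B (.L 0 true 0 1) (.B (.L 0 true 0 1) .V)) (.B (.L 0 true 0 1) (.E (1 / 4) (.L 0 true 0
      0) (.G (3 / 10) (.L 0 true 0 0) (.L 0 true 0 0)))))
    (.L 0 true 0 0)
    2 2 (0) true = true := by decide +kernel

lemma iD0a5 : ∀ (l1 l2 : Multiset Y) (β γ e δ : ℚ),
    Cx β γ e δ →
    1 ≤ l1.card →
    1 ≤ l2.card →
    0 ≤ msg l1 →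
    msg l1 ≤ 1 / 3 * l1.card - 14 / 69 →
    0 ≤ msg l2 →
    msg l2 ≤ 1 / 3 * l2.card - 2 / 33 →
    SB (26 / 23) (wt l1) (wt l2) (dg l1) (dg l2) γ β →
    NoP (18 / 23) (-4) (-382 / 69) (wt l1) (wt l2) (dg l1) (dg l2) β γ e → False := by
  intro l1 l2 β γ e δ h0 h1 h2 h3 h4 h5 h6 h7 h8
  refine sound cD0a5 (d1 := l1.card + 1) (d2 := l2.card + 1) (D1 := dg l1) (D2 := dg l2)
    (X := wt l1) (Y := wt l2) h0 (by omega) (by omega) (Or.inl rfl) (Or.inl rfl)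
    ⟨by simp [dg], by simp [dg], by simp [sD0a5], by simp [sD0a5], by simp only [sD0a5]; omega,
      fun _ => h7.1, by simp [sD0a5], ?_, ?_, ?_, ?_, ?_⟩
  · simp only [sD0a5, wt, dg]; linarith
  · simp only [sD0a5, wt, dg]; linarith
  · simp only [sD0a5, List.mem_cons, List.not_mem_nil, or_false, forall_eq_or_imp, forall_eq,
      UB.k0, UB.k1]
    refine ⟨?_, ?_⟩
    · linarith [h7.2.1, le_max_left 0 (γ - β)]
    · simp only [wt, dg]; linarith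
  · simp only [sD0a5, List.mem_cons, List.not_mem_nil, or_false, forall_eq_or_imp, forall_eq,
      UB.k0, UB.k1]
    refine ⟨?_, ?_⟩
    · linarith [h7.2.2.1]
    · simp only [wt, dg]; linarith
  · simp only [sD0a5, List.mem_cons, List.not_mem_nil, or_false, forall_eq_or_imp, forall_eq]
    exact h8

def sD0a6 : Sp :=
  ⟨0, 0, 0, true, false, 0, 1, 0, 1, [⟨0, 10 / 9, 1 / 4, 10 / 9 - 1, 0⟩, ⟨-5 / 9, 4 / 3, 0, 0,
    0⟩], [⟨0, 10 / 9, 0, 0, 0⟩, ⟨-13 / 33, 4 / 3, 0, 0, 0⟩], [⟨true, 7 / 9, -5, -62 / 9⟩]⟩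

lemma cD0a6 : checkAll sD0a6
    (.G (12 / 25) (.L 0 true 0 0) (.L 0 true 1 0))
    (.E (1 / 4) (.E (1 / 8) (.G (23 / 50) (.L 0 true 0 0) (.L 0 true 0 1)) (.L 0 true 0 0)) (.G
      (33 / 100) (.L 0 true 0 0) (.L 0 true 0 0)))
    (.L 0 true 0 0)
    2 2 (0) true = true := by decide +kernel

lemma iD0a6 : ∀ (l1 l2 : Multiset Y) (β γ e δ : ℚ),
    Cx β γ e δ →
    1 ≤ l1.card →
    1 ≤ l2.card →
    0 ≤ msg l1 →
    msg l1 ≤ 1 / 3 * l1.card - 2 / 9 →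
    0 ≤ msg l2 →
    msg l2 ≤ 1 / 3 * l2.card - 2 / 33 →
    SB (10 / 9) (wt l1) (wt l2) (dg l1) (dg l2) γ β →
    NoP (7 / 9) (-5) (-62 / 9) (wt l1) (wt l2) (dg l1) (dg l2) β γ e → False := by
  intro l1 l2 β γ e δ h0 h1 h2 h3 h4 h5 h6 h7 h8
  refine sound cD0a6 (d1 := l1.card + 1) (d2 := l2.card + 1) (D1 := dg l1) (D2 := dg l2)
    (X := wt l1) (Y := wt l2) h0 (by omega) (by omega) (Or.inl rfl) (Or.inl rfl)
    ⟨by simp [dg], by simp [dg], by simp [sD0a6], by simp [sD0a6], by simp only [sD0a6]; omega,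
      fun _ => h7.1, by simp [sD0a6], ?_, ?_, ?_, ?_, ?_⟩
  · simp only [sD0a6, wt, dg]; linarith
  · simp only [sD0a6, wt, dg]; linarith
  · simp only [sD0a6, List.mem_cons, List.not_mem_nil, or_false, forall_eq_or_imp, forall_eq,
      UB.k0, UB.k1]
    refine ⟨?_, ?_⟩
    · linarith [h7.2.1, le_max_left 0 (γ - β)]
    · simp only [wt, dg]; linarith
  · simp only [sD0a6, List.mem_cons, List.not_mem_nil, or_false, forall_eq_or_imp, forall_eq,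
      UB.k0, UB.k1]
    refine ⟨?_, ?_⟩
    · linarith [h7.2.2.1]
    · simp only [wt, dg]; linarith
  · simp only [sD0a6, List.mem_cons, List.not_mem_nil, or_false, forall_eq_or_imp, forall_eq]
    exact h8

def sD0aT : Sp :=
  ⟨0, 0, 0, true, false, 0, 1, 0, 1, [⟨0, 34 / 31, 1 / 4, 34 / 31 - 1, 0⟩, ⟨-53 / 93, 4 / 3, 0,
    0, 0⟩], [⟨0, 34 / 31, 0, 0, 0⟩, ⟨-13 / 33, 4 / 3, 0, 0, 0⟩], [⟨true, 25 / 31, -1, -6 / 5⟩]⟩

lemma cD0aT : checkAll sD0aT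
    (.G (9 / 20) (.L 0 true 0 0) (.L 0 true 1 0))
    (.G (7 / 20) (.L 0 true 0 0) (.L 0 true 0 1))
    (.L 0 true 0 0)
    2 2 (0) true = true := by decide +kernel

lemma iD0aT : ∀ (l1 l2 : Multiset Y) (β γ e δ : ℚ),
    Cx β γ e δ →
    1 ≤ l1.card →
    1 ≤ l2.card →
    0 ≤ msg l1 →
    msg l1 ≤ 1 / 3 * l1.card - 22 / 93 →
    0 ≤ msg l2 →
    msg l2 ≤ 1 / 3 * l2.card - 2 / 33 →
    SB (34 / 31) (wt l1) (wt l2) (dg l1) (dg l2) γ β →
    NoP (25 / 31) (-1) (-6 / 5) (wt l1) (wt l2) (dg l1) (dg l2) β γ e → False := by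
  intro l1 l2 β γ e δ h0 h1 h2 h3 h4 h5 h6 h7 h8
  refine sound cD0aT (d1 := l1.card + 1) (d2 := l2.card + 1) (D1 := dg l1) (D2 := dg l2)
    (X := wt l1) (Y := wt l2) h0 (by omega) (by omega) (Or.inl rfl) (Or.inl rfl)
    ⟨by simp [dg], by simp [dg], by simp [sD0aT], by simp [sD0aT], by simp only [sD0aT]; omega,
      fun _ => h7.1, by simp [sD0aT], ?_, ?_, ?_, ?_, ?_⟩
  · simp only [sD0aT, wt, dg]; linarith
  · simp only [sD0aT, wt, dg]; linarith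
  · simp only [sD0aT, List.mem_cons, List.not_mem_nil, or_false, forall_eq_or_imp, forall_eq,
      UB.k0, UB.k1]
    refine ⟨?_, ?_⟩
    · linarith [h7.2.1, le_max_left 0 (γ - β)]
    · simp only [wt, dg]; linarith
  · simp only [sD0aT, List.mem_cons, List.not_mem_nil, or_false, forall_eq_or_imp, forall_eq,
      UB.k0, UB.k1]
    refine ⟨?_, ?_⟩
    · linarith [h7.2.2.1]
    · simp only [wt, dg]; linarith
  · simp only [sD0aT, List.mem_cons, List.not_mem_nil, or_false, forall_eq_or_imp, forall_eq]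
    exact h8

def sD0b : Sp :=
  ⟨0, 0, 5, true, false, 0, 1, 0, 1, [⟨0, 14 / 11, 1 / 4, 14 / 11 - 1, 0⟩, ⟨-13 / 33, 4 / 3, 0,
    0, 0⟩], [⟨0, 14 / 11, 0, 0, 0⟩, ⟨-13 / 33, 4 / 3, 0, 0, 0⟩], [⟨true, 9 / 11, -1, -46 / 33⟩,
    ⟨true, 18225 / 21296, 1, 78 / 55⟩]⟩

lemma cD0b : checkAll sD0b
    (.A (.L 0 true 1 1) (.G (3 / 20) (.L 1 true 0 0) (.L 1 true 0 1)))
    (.A (.L 0 true 1 1) (.G (3 / 20) (.L 1 true 0 0) (.L 1 true 0 1)))
    (.A (.L 0 true 1 0) (.L 1 true 0 0))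
    2 2 (0) true = true := by decide +kernel

lemma iD0b : ∀ (l1 l2 : Multiset Y) (β γ e δ : ℚ),
    Cx β γ e δ →
    1 ≤ l1.card →
    1 ≤ l2.card →
    3 ≤ l1.card + l2.card →
    0 ≤ msg l1 →
    msg l1 ≤ 1 / 3 * l1.card - 2 / 33 →
    0 ≤ msg l2 →
    msg l2 ≤ 1 / 3 * l2.card - 2 / 33 →
    SB (14 / 11) (wt l1) (wt l2) (dg l1) (dg l2) γ β →
    NoP (9 / 11) (-1) (-46 / 33) (wt l1) (wt l2) (dg l1) (dg l2) β γ e →
    NoP (18225 / 21296) 1 (78 / 55) (wt l1) (wt l2) (dg l1) (dg l2) β γ e → False := by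
  intro l1 l2 β γ e δ h0 h1 h2 h3 h4 h5 h6 h7 h8 h9 h10
  refine sound cD0b (d1 := l1.card + 1) (d2 := l2.card + 1) (D1 := dg l1) (D2 := dg l2)
    (X := wt l1) (Y := wt l2) h0 (by omega) (by omega) (Or.inl rfl) (Or.inl rfl)
    ⟨by simp [dg], by simp [dg], by simp [sD0b], by simp [sD0b], by simp only [sD0b]; omega,
      fun _ => h8.1, by simp [sD0b], ?_, ?_, ?_, ?_, ?_⟩
  · simp only [sD0b, wt, dg]; linarith
  · simp only [sD0b, wt, dg]; linarith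
  · simp only [sD0b, List.mem_cons, List.not_mem_nil, or_false, forall_eq_or_imp, forall_eq,
      UB.k0, UB.k1]
    refine ⟨?_, ?_⟩
    · linarith [h8.2.1, le_max_left 0 (γ - β)]
    · simp only [wt, dg]; linarith
  · simp only [sD0b, List.mem_cons, List.not_mem_nil, or_false, forall_eq_or_imp, forall_eq,
      UB.k0, UB.k1]
    refine ⟨?_, ?_⟩
    · linarith [h8.2.2.1]
    · simp only [wt, dg]; linarith
  · simp only [sD0b, List.mem_cons, List.not_mem_nil, or_false, forall_eq_or_imp, forall_eq]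
    exact ⟨h9, h10⟩

def sD0c : Sp :=
  ⟨6, 0, 0, true, false, -5 / 11, 4 / 3, 0, 1, [⟨0, 14 / 11, 1 / 4, 14 / 11 - 1, 0⟩, ⟨-1 / 11, 14
    / 11, 0, 0, 0⟩, ⟨-13 / 33, 4 / 3, 0, 0, 0⟩], [⟨0, 14 / 11, 0, 0, 0⟩], [⟨true, 9 / 11, -1, -46
    / 33⟩, ⟨true, 513 / 605, 1, 290 / 209⟩]⟩

lemma cD0c : checkAll sD0c
    (.A (.E (1 / 4) (.L 1 true 1 0) (.L 0 true 2 0)) (.A (.L 1 true 1 0) (.A (.L 1 true 1 0) (.A
      (.B .V (.L 1 true 1 0)) (.B .V (.L 1 true 1 0))))))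
    (.B (.L 1 false 0 1) (.B (.L 1 true 0 1) (.B (.L 1 true 0 1) (.B (.A .V (.L 1 true 0 1)) (.A
      .V (.L 1 true 0 1))))))
    (.A (.L 1 true 1 0) (.A (.L 1 true 1 0) (.A (.L 1 true 1 0) (.A (.L 1 true 1 0) (.L 1 true 1
      0)))))
    2 2 (0) true = true := by decide +kernel

lemma iD0c : ∀ (l1 l2 : Multiset Y) (β γ e δ : ℚ),
    Cx β γ e δ →
    1 ≤ l1.card →
    l1.card ≤ 5 →
    1 ≤ l2.card →
    1 / 3 * l1.card - 4 / 33 ≤ msg l1 →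
    msg l1 ≤ 3 / 11 * l1.card + 2 / 11 →
    msg l1 ≤ 1 / 3 * l1.card - 2 / 33 →
    0 ≤ msg l2 →
    SB (14 / 11) (wt l1) (wt l2) (dg l1) (dg l2) γ β →
    NoP (9 / 11) (-1) (-46 / 33) (wt l1) (wt l2) (dg l1) (dg l2) β γ e →
    NoP (513 / 605) 1 (290 / 209) (wt l1) (wt l2) (dg l1) (dg l2) β γ e → False := by
  intro l1 l2 β γ e δ h0 h1 h2 h3 h4 h5 h6 h7 h8 h9 h10
  refine sound cD0c (d1 := l1.card + 1) (d2 := l2.card + 1) (D1 := dg l1) (D2 := dg l2)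
    (X := wt l1) (Y := wt l2) h0 (by omega) (by omega) (Or.inl rfl) (Or.inl rfl)
    ⟨by simp [dg], by simp [dg], fun _ => by simp only [sD0c]; omega, by simp [sD0c], by simp only [sD0c]; omega,
      fun _ => h8.1, by simp [sD0c], ?_, ?_, ?_, ?_, ?_⟩
  · simp only [sD0c, wt, dg]; linarith
  · simp only [sD0c, wt, dg]; linarith
  · simp only [sD0c, List.mem_cons, List.not_mem_nil, or_false, forall_eq_or_imp, forall_eq,
      UB.k0, UB.k1]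
    refine ⟨?_, ?_, ?_⟩
    · linarith [h8.2.1, le_max_left 0 (γ - β)]
    · simp only [wt, dg]; linarith
    · simp only [wt, dg]; linarith
  · simp only [sD0c, List.mem_cons, List.not_mem_nil, or_false, forall_eq_or_imp, forall_eq,
      UB.k0, UB.k1]
    linarith [h8.2.2.1]
  · simp only [sD0c, List.mem_cons, List.not_mem_nil, or_false, forall_eq_or_imp, forall_eq]
    exact ⟨h9, h10⟩

def sD0d1 : Sp :=
  ⟨3, 0, 0, true, false, -13 / 33, 4 / 3, 0, 1, [⟨0, 14 / 11, 1 / 4, 14 / 11 - 1, 0⟩, ⟨-13 / 33,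
    4 / 3, 0, 0, 0⟩], [⟨0, 14 / 11, 0, 0, 0⟩, ⟨-7 / 15, 4 / 3, 0, 0, 0⟩], [⟨true, 9 / 11, -1, -46
    / 33⟩]⟩

lemma cD0d1 : checkAll sD0d1
    (.A (.L 0 true 1 1) (.L 0 true 1 1))
    (.B (.L 0 true 1 1) (.L 0 true 1 1))
    (.A (.L 0 true 1 0) (.L 0 true 1 1))
    2 2 (0) true = true := by decide +kernel

lemma iD0d1 : ∀ (l1 l2 : Multiset Y) (β γ e δ : ℚ),
    Cx β γ e δ →
    1 ≤ l1.card →
    l1.card ≤ 2 →
    1 ≤ l2.card →
    1 / 3 * l1.card - 2 / 33 ≤ msg l1 →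
    msg l1 ≤ 1 / 3 * l1.card - 2 / 33 →
    0 ≤ msg l2 →
    msg l2 ≤ 1 / 3 * l2.card - 2 / 15 →
    SB (14 / 11) (wt l1) (wt l2) (dg l1) (dg l2) γ β →
    NoP (9 / 11) (-1) (-46 / 33) (wt l1) (wt l2) (dg l1) (dg l2) β γ e → False := by
  intro l1 l2 β γ e δ h0 h1 h2 h3 h4 h5 h6 h7 h8 h9
  refine sound cD0d1 (d1 := l1.card + 1) (d2 := l2.card + 1) (D1 := dg l1) (D2 := dg l2)
    (X := wt l1) (Y := wt l2) h0 (by omega) (by omega) (Or.inl rfl) (Or.inl rfl)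
    ⟨by simp [dg], by simp [dg], fun _ => by simp only [sD0d1]; omega, by simp [sD0d1], by simp only [sD0d1]; omega,
      fun _ => h8.1, by simp [sD0d1], ?_, ?_, ?_, ?_, ?_⟩
  · simp only [sD0d1, wt, dg]; linarith
  · simp only [sD0d1, wt, dg]; linarith
  · simp only [sD0d1, List.mem_cons, List.not_mem_nil, or_false, forall_eq_or_imp, forall_eq,
      UB.k0, UB.k1]
    refine ⟨?_, ?_⟩
    · linarith [h8.2.1, le_max_left 0 (γ - β)]
    · simp only [wt, dg]; linarith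
  · simp only [sD0d1, List.mem_cons, List.not_mem_nil, or_false, forall_eq_or_imp, forall_eq,
      UB.k0, UB.k1]
    refine ⟨?_, ?_⟩
    · linarith [h8.2.2.1]
    · simp only [wt, dg]; linarith
  · simp only [sD0d1, List.mem_cons, List.not_mem_nil, or_false, forall_eq_or_imp, forall_eq]
    exact h9

def sD0dP : Sp :=
  ⟨5, 0, 0, true, false, -13 / 33, 4 / 3, 0, 1, [⟨0, 14 / 11, 1 / 4, 14 / 11 - 1, 0⟩, ⟨-13 / 33,
    4 / 3, 0, 0, 0⟩], [⟨0, 14 / 11, 0, 0, 0⟩, ⟨-7 / 15, 4 / 3, 0, 0, 0⟩, ⟨19 / 3, 0, 0, 0, 1⟩],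
    [⟨true, 9 / 11, -1, -46 / 33⟩]⟩

lemma cD0dP : checkAll sD0dP
    (.A (.B .V (.B (.L 0 true 0 1) (.B (.L 0 true 0 0) (.B (.L 0 true 0 1) (.B (.L 0 true 0 2)
      (.Z 2)))))) (.B .V (.B .V (.B (.L 0 true 0 1) (.B (.L 0 true 0 1) (.B (.L 0 true 0 2) (.Z
      2)))))))
    (.B (.A .V (.A (.L 0 true 0 1) (.A (.L 0 true 0 1) (.A (.L 0 true 0 1) (.A (.L 0 true 0 1)
      (.X 2)))))) (.A .V (.A .V (.A (.L 0 true 0 1) (.A (.L 0 true 0 1) (.A (.L 0 true 1 1) (.X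
      2)))))))
    (.A (.B .V (.B (.L 0 true 0 1) (.B (.L 0 true 0 1) (.B (.L 0 true 0 1) (.B (.L 0 true 0 2)
      (.Z 2)))))) (.B .V (.B .V (.B (.L 0 true 0 1) (.B (.L 0 true 0 1) (.B (.L 0 true 0 1) (.Z
      2)))))))
    4 2 (0) true = true := by decide +kernel

lemma iD0dP : ∀ (l1 l2 : Multiset Y) (β γ e δ : ℚ),
    Cx β γ e δ →
    3 ≤ l1.card →
    l1.card ≤ 4 →
    1 ≤ l2.card →
    1 / 3 * l1.card - 2 / 33 ≤ msg l1 →
    msg l1 ≤ 1 / 3 * l1.card - 2 / 33 →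
    0 ≤ msg l2 →
    msg l2 ≤ 1 / 3 * l2.card - 2 / 15 →
    SB (14 / 11) (wt l1) (wt l2) (dg l1) (dg l2) γ β →
    wt l2 ≤ 19 / 3 + max 0 (γ - β) →
    NoP (9 / 11) (-1) (-46 / 33) (wt l1) (wt l2) (dg l1) (dg l2) β γ e → False := by
  intro l1 l2 β γ e δ h0 h1 h2 h3 h4 h5 h6 h7 h8 h9 h10
  refine sound cD0dP (d1 := l1.card + 1) (d2 := l2.card + 1) (D1 := dg l1) (D2 := dg l2)
    (X := wt l1) (Y := wt l2) h0 (by omega) (by omega) (Or.inl rfl) (Or.inl rfl)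
    ⟨by simp [dg], by simp [dg], fun _ => by simp only [sD0dP]; omega, by simp [sD0dP], by simp only [sD0dP]; omega,
      fun _ => h8.1, by simp [sD0dP], ?_, ?_, ?_, ?_, ?_⟩
  · simp only [sD0dP, wt, dg]; linarith
  · simp only [sD0dP, wt, dg]; linarith
  · simp only [sD0dP, List.mem_cons, List.not_mem_nil, or_false, forall_eq_or_imp, forall_eq,
      UB.k0, UB.k1]
    refine ⟨?_, ?_⟩
    · linarith [h8.2.1, le_max_left 0 (γ - β)]
    · simp only [wt, dg]; linarith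
  · simp only [sD0dP, List.mem_cons, List.not_mem_nil, or_false, forall_eq_or_imp, forall_eq,
      UB.k0, UB.k1]
    refine ⟨?_, ?_, ?_⟩
    · linarith [h8.2.2.1]
    · simp only [wt, dg]; linarith
    · linarith
  · simp only [sD0dP, List.mem_cons, List.not_mem_nil, or_false, forall_eq_or_imp, forall_eq]
    exact h10

def sD0dM : Sp :=
  ⟨5, 0, 0, false, false, -13 / 33, 4 / 3, 0, 1, [⟨-13 / 33, 4 / 3, 0, 0, 0⟩], [⟨-1 / 5, 6 / 5,
    0, 0, 0⟩], [⟨true, 6198727824 / 7390880651, 3, 12878 / 3135⟩, ⟨true, 9 / 11, -1, -46 / 33⟩]⟩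

lemma cD0dM : checkAll sD0dM
    (.A (.B (.L 1 true 0 0) (.B (.L 1 true 0 0) (.B (.L 1 true 0 0) (.B (.L 1 true 0 0) (.B (.L 1
      true 0 0) (.L 0 true 0 0)))))) (.L 0 true 0 0))
    (.B (.A (.L 1 true 0 0) (.A (.L 1 true 0 0) (.A (.L 1 true 0 0) (.A (.L 1 true 0 0) (.A (.L 1
      true 0 0) (.L 0 true 0 0)))))) (.L 0 true 0 0))
    (.A (.L 0 true 0 0) (.L 0 true 0 0))
    4 5 (0) true = true := by decide +kernel

lemma iD0dM : ∀ (l1 l2 : Multiset Y) (β γ e δ : ℚ),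
    Cx β γ e δ →
    3 ≤ l1.card →
    l1.card ≤ 4 →
    4 ≤ l2.card →
    1 / 3 * l1.card - 2 / 33 ≤ msg l1 →
    msg l1 ≤ 1 / 3 * l1.card - 2 / 33 →
    0 ≤ msg l2 →
    msg l2 ≤ 1 / 5 * l2.card →
    NoP (6198727824 / 7390880651) 3 (12878 / 3135) (wt l1) (wt l2) (dg l1) (dg l2) β γ e →
    NoP (9 / 11) (-1) (-46 / 33) (wt l1) (wt l2) (dg l1) (dg l2) β γ e → False := by
  intro l1 l2 β γ e δ h0 h1 h2 h3 h4 h5 h6 h7 h8 h9
  refine sound cD0dM (d1 := l1.card + 1) (d2 := l2.card + 1) (D1 := dg l1) (D2 := dg l2)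
    (X := wt l1) (Y := wt l2) h0 (by omega) (by omega) (Or.inl rfl) (Or.inl rfl)
    ⟨by simp [dg], by simp [dg], fun _ => by simp only [sD0dM]; omega, by simp [sD0dM], by simp only [sD0dM]; omega,
      by simp [sD0dM], by simp [sD0dM], ?_, ?_, ?_, ?_, ?_⟩
  · simp only [sD0dM, wt, dg]; linarith
  · simp only [sD0dM, wt, dg]; linarith
  · simp only [sD0dM, List.mem_cons, List.not_mem_nil, or_false, forall_eq_or_imp, forall_eq,
      UB.k0, UB.k1]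
    simp only [wt, dg]; linarith
  · simp only [sD0dM, List.mem_cons, List.not_mem_nil, or_false, forall_eq_or_imp, forall_eq,
      UB.k0, UB.k1]
    simp only [wt, dg]; linarith
  · simp only [sD0dM, List.mem_cons, List.not_mem_nil, or_false, forall_eq_or_imp, forall_eq]
    exact ⟨h8, h9⟩

def sA1 : Sp :=
  ⟨0, 0, 0, false, false, -3 / 7, 10 / 7, -3 / 7, 10 / 7, [⟨-31 / 77, 10 / 7, 0, 0, 0⟩], [⟨-31 /
    77, 10 / 7, 0, 0, 0⟩], [⟨true, 21 / 22, 0, 2 / 77⟩]⟩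

lemma cA1 : checkAll sA1
    (.L 0 true 0 0)
    (.L 0 true 0 0)
    (.L 0 true 0 0)
    2 2 (0) true = true := by decide +kernel

lemma iA1 : ∀ (l1 l2 : Multiset Y) (β γ e δ : ℚ),
    Cx β γ e δ →
    1 ≤ l1.card →
    1 ≤ l2.card →
    3 / 7 * l1.card ≤ msg l1 →
    msg l1 ≤ 3 / 7 * l1.card + 2 / 77 →
    3 / 7 * l2.card ≤ msg l2 →
    msg l2 ≤ 3 / 7 * l2.card + 2 / 77 →
    NoP (21 / 22) 0 (2 / 77) (wt l1) (wt l2) (dg l1) (dg l2) β γ e → False := by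
  intro l1 l2 β γ e δ h0 h1 h2 h3 h4 h5 h6 h7
  refine sound cA1 (d1 := l1.card + 1) (d2 := l2.card + 1) (D1 := dg l1) (D2 := dg l2)
    (X := wt l1) (Y := wt l2) h0 (by omega) (by omega) (Or.inl rfl) (Or.inl rfl)
    ⟨by simp [dg], by simp [dg], by simp [sA1], by simp [sA1], by simp only [sA1]; omega,
      by simp [sA1], by simp [sA1], ?_, ?_, ?_, ?_, ?_⟩
  · simp only [sA1, wt, dg]; linarith
  · simp only [sA1, wt, dg]; linarith
  · simp only [sA1, List.mem_cons, List.not_mem_nil, or_false, forall_eq_or_imp, forall_eq,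
      UB.k0, UB.k1]
    simp only [wt, dg]; linarith
  · simp only [sA1, List.mem_cons, List.not_mem_nil, or_false, forall_eq_or_imp, forall_eq,
      UB.k0, UB.k1]
    simp only [wt, dg]; linarith
  · simp only [sA1, List.mem_cons, List.not_mem_nil, or_false, forall_eq_or_imp, forall_eq]
    exact h7

def sA2 : Sp :=
  ⟨0, 0, 0, false, false, -3 / 7, 10 / 7, -3 / 7, 10 / 7, [⟨-1 / 2, 3 / 2, 0, 0, 0⟩], [⟨-1 / 2, 3
    / 2, 0, 0, 0⟩], [⟨true, 21 / 22, 0, 2 / 77⟩, ⟨false, 3087 / 1936, -1, -106 / 77⟩]⟩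

lemma cA2 : checkAll sA2
    (.G (49 / 100) (.L 1 true 0 0) (.L 0 true 0 0))
    (.G (49 / 100) (.L 1 true 0 0) (.L 0 true 0 0))
    (.L 1 true 0 0)
    2 2 (0) true = true := by decide +kernel

lemma iA2 : ∀ (l1 l2 : Multiset Y) (β γ e δ : ℚ),
    Cx β γ e δ →
    1 ≤ l1.card →
    1 ≤ l2.card →
    3 / 7 * l1.card ≤ msg l1 →
    msg l1 ≤ 1 / 2 * l1.card →
    3 / 7 * l2.card ≤ msg l2 →
    msg l2 ≤ 1 / 2 * l2.card →
    NoP (21 / 22) 0 (2 / 77) (wt l1) (wt l2) (dg l1) (dg l2) β γ e →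
    NoR (3087 / 1936) (-1) (-106 / 77) (wt l1) (wt l2) (dg l1) (dg l2) β γ e δ → False := by
  intro l1 l2 β γ e δ h0 h1 h2 h3 h4 h5 h6 h7 h8
  refine sound cA2 (d1 := l1.card + 1) (d2 := l2.card + 1) (D1 := dg l1) (D2 := dg l2)
    (X := wt l1) (Y := wt l2) h0 (by omega) (by omega) (Or.inl rfl) (Or.inl rfl)
    ⟨by simp [dg], by simp [dg], by simp [sA2], by simp [sA2], by simp only [sA2]; omega,
      by simp [sA2], by simp [sA2], ?_, ?_, ?_, ?_, ?_⟩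
  · simp only [sA2, wt, dg]; linarith
  · simp only [sA2, wt, dg]; linarith
  · simp only [sA2, List.mem_cons, List.not_mem_nil, or_false, forall_eq_or_imp, forall_eq,
      UB.k0, UB.k1]
    simp only [wt, dg]; linarith
  · simp only [sA2, List.mem_cons, List.not_mem_nil, or_false, forall_eq_or_imp, forall_eq,
      UB.k0, UB.k1]
    simp only [wt, dg]; linarith
  · simp only [sA2, List.mem_cons, List.not_mem_nil, or_false, forall_eq_or_imp, forall_eq]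
    exact ⟨h7, h8⟩

def sDeg2 : Sp :=
  ⟨2, 0, 0, false, false, 0, 1, -3 / 7, 10 / 7, [⟨-1 / 2, 3 / 2, 0, 0, 0⟩], [⟨-3 / 7, 10 / 7, 0,
    0, 0⟩], [⟨true, 44 / 49, 1, 122 / 77⟩, ⟨false, 484 / 343, 1, 134 / 77⟩]⟩

lemma cDeg2 : checkAll sDeg2
    (.L 0 true 0 0)
    (.L 0 true 0 0)
    (.L 0 true 0 0)
    2 12 (0) true = true := by decide +kernel

lemma iDeg2 : ∀ (l1 l2 : Multiset Y) (β γ e δ : ℚ),
    Cx β γ e δ →
    1 ≤ l1.card →
    l1.card ≤ 1 →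
    11 ≤ l2.card →
    0 ≤ msg l1 →
    msg l1 ≤ 1 / 2 * l1.card →
    3 / 7 * l2.card ≤ msg l2 →
    msg l2 ≤ 3 / 7 * l2.card →
    NoP (44 / 49) 1 (122 / 77) (wt l1) (wt l2) (dg l1) (dg l2) β γ e →
    NoR (484 / 343) 1 (134 / 77) (wt l1) (wt l2) (dg l1) (dg l2) β γ e δ → False := by
  intro l1 l2 β γ e δ h0 h1 h2 h3 h4 h5 h6 h7 h8 h9
  refine sound cDeg2 (d1 := l1.card + 1) (d2 := l2.card + 1) (D1 := dg l1) (D2 := dg l2)
    (X := wt l1) (Y := wt l2) h0 (by omega) (by omega) (Or.inl rfl) (Or.inl rfl)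
    ⟨by simp [dg], by simp [dg], fun _ => by simp only [sDeg2]; omega, by simp [sDeg2], by simp only [sDeg2]; omega,
      by simp [sDeg2], by simp [sDeg2], ?_, ?_, ?_, ?_, ?_⟩
  · simp only [sDeg2, wt, dg]; linarith
  · simp only [sDeg2, wt, dg]; linarith
  · simp only [sDeg2, List.mem_cons, List.not_mem_nil, or_false, forall_eq_or_imp, forall_eq,
      UB.k0, UB.k1]
    simp only [wt, dg]; linarith
  · simp only [sDeg2, List.mem_cons, List.not_mem_nil, or_false, forall_eq_or_imp, forall_eq,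
      UB.k0, UB.k1]
    simp only [wt, dg]; linarith
  · simp only [sDeg2, List.mem_cons, List.not_mem_nil, or_false, forall_eq_or_imp, forall_eq]
    exact ⟨h8, h9⟩

def sMid0 : Sp :=
  ⟨0, 0, 0, false, false, 0, 1, -3 / 7, 10 / 7, [⟨-1 / 2, 3 / 2, 0, 0, 0⟩], [⟨-3 / 7, 10 / 7, 0,
    0, 0⟩], [⟨true, 44 / 49, 1, 122 / 77⟩]⟩

lemma cMid0 : checkAll sMid0
    (.L 0 true 0 0)
    (.L 0 true 0 0)
    .V
    2 12 (1 / 2) false = true := by decide +kernel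

lemma iMid0 : ∀ (l1 l2 : Multiset Y) (β γ e δ : ℚ),
    Cx β γ e δ →
    1 ≤ l1.card →
    11 ≤ l2.card →
    δ = 1 →
    1 / 2 ≤ γ →
    0 ≤ msg l1 →
    msg l1 ≤ 1 / 2 * l1.card →
    3 / 7 * l2.card ≤ msg l2 →
    msg l2 ≤ 3 / 7 * l2.card →
    NoP (44 / 49) 1 (122 / 77) (wt l1) (wt l2) (dg l1) (dg l2) β γ e → False := by
  intro l1 l2 β γ e δ h0 h1 h2 h3 h4 h5 h6 h7 h8 h9
  refine sound cMid0 (d1 := l1.card + 1) (d2 := l2.card + 1) (D1 := dg l1) (D2 := dg l2)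
    (X := wt l1) (Y := wt l2) h0 (by omega) (by omega) (Or.inr h4) (Or.inr h3)
    ⟨by simp [dg], by simp [dg], by simp [sMid0], by simp [sMid0], by simp only [sMid0]; omega,
      by simp [sMid0], by simp [sMid0], ?_, ?_, ?_, ?_, ?_⟩
  · simp only [sMid0, wt, dg]; linarith
  · simp only [sMid0, wt, dg]; linarith
  · simp only [sMid0, List.mem_cons, List.not_mem_nil, or_false, forall_eq_or_imp, forall_eq,
      UB.k0, UB.k1]
    simp only [wt, dg]; linarith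
  · simp only [sMid0, List.mem_cons, List.not_mem_nil, or_false, forall_eq_or_imp, forall_eq,
      UB.k0, UB.k1]
    simp only [wt, dg]; linarith
  · simp only [sMid0, List.mem_cons, List.not_mem_nil, or_false, forall_eq_or_imp, forall_eq]
    exact h9

def sMid1 : Sp :=
  ⟨0, 0, 0, false, false, 0, 1, 0, 1, [⟨-1 / 2, 3 / 2, 0, 0, 0⟩], [⟨-1 / 2, 3 / 2, 0, 0, 0⟩],
    [⟨true, 8867 / 10000, 0, 0⟩]⟩

lemma cMid1 : checkAll sMid1
    (.L 0 true 0 0)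
    (.L 0 true 0 0)
    .V
    2 2 (1 / 2) false = true := by decide +kernel

lemma iMid1 : ∀ (l1 l2 : Multiset Y) (β γ e δ : ℚ),
    Cx β γ e δ →
    1 ≤ l1.card →
    1 ≤ l2.card →
    δ = 1 →
    1 / 2 ≤ γ →
    0 ≤ msg l1 →
    msg l1 ≤ 1 / 2 * l1.card →
    0 ≤ msg l2 →
    msg l2 ≤ 1 / 2 * l2.card →
    NoP (8867 / 10000) 0 0 (wt l1) (wt l2) (dg l1) (dg l2) β γ e → False := by
  intro l1 l2 β γ e δ h0 h1 h2 h3 h4 h5 h6 h7 h8 h9
  refine sound cMid1 (d1 := l1.card + 1) (d2 := l2.card + 1) (D1 := dg l1) (D2 := dg l2)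
    (X := wt l1) (Y := wt l2) h0 (by omega) (by omega) (Or.inr h4) (Or.inr h3)
    ⟨by simp [dg], by simp [dg], by simp [sMid1], by simp [sMid1], by simp only [sMid1]; omega,
      by simp [sMid1], by simp [sMid1], ?_, ?_, ?_, ?_, ?_⟩
  · simp only [sMid1, wt, dg]; linarith
  · simp only [sMid1, wt, dg]; linarith
  · simp only [sMid1, List.mem_cons, List.not_mem_nil, or_false, forall_eq_or_imp, forall_eq,
      UB.k0, UB.k1]
    simp only [wt, dg]; linarith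
  · simp only [sMid1, List.mem_cons, List.not_mem_nil, or_false, forall_eq_or_imp, forall_eq,
      UB.k0, UB.k1]
    simp only [wt, dg]; linarith
  · simp only [sMid1, List.mem_cons, List.not_mem_nil, or_false, forall_eq_or_imp, forall_eq]
    exact h9

def sM2 : Sp :=
  ⟨0, 0, 0, true, false, 0, 1, 0, 1, [⟨0, 4 / 3, 1 / 4, 4 / 3 - 1, 0⟩], [⟨0, 4 / 3, 0, 0, 0⟩],
    [⟨true, 8867 / 10000, 0, 0⟩, ⟨false, 1379 / 1000, 0, 0⟩]⟩

lemma cM2 : checkAll sM2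
    (.G (13 / 100) (.L 1 true 0 0) (.L 0 true 0 0))
    (.G (13 / 100) (.L 1 true 0 0) (.G (37 / 100) (.L 0 true 0 0) (.G (12 / 25) (.L 0 true 0 0)
      (.L 0 true 0 0))))
    (.L 1 true 0 0)
    3 3 (0) true = true := by decide +kernel

lemma iM2 : ∀ (l1 l2 : Multiset Y) (β γ e δ : ℚ),
    Cx β γ e δ →
    2 ≤ l1.card →
    2 ≤ l2.card →
    0 ≤ msg l1 →
    0 ≤ msg l2 →
    SB (4 / 3) (wt l1) (wt l2) (dg l1) (dg l2) γ β →
    NoP (8867 / 10000) 0 0 (wt l1) (wt l2) (dg l1) (dg l2) β γ e →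
    NoR (1379 / 1000) 0 0 (wt l1) (wt l2) (dg l1) (dg l2) β γ e δ → False := by
  intro l1 l2 β γ e δ h0 h1 h2 h3 h4 h5 h6 h7
  refine sound cM2 (d1 := l1.card + 1) (d2 := l2.card + 1) (D1 := dg l1) (D2 := dg l2)
    (X := wt l1) (Y := wt l2) h0 (by omega) (by omega) (Or.inl rfl) (Or.inl rfl)
    ⟨by simp [dg], by simp [dg], by simp [sM2], by simp [sM2], by simp only [sM2]; omega,
      fun _ => h5.1, by simp [sM2], ?_, ?_, ?_, ?_, ?_⟩
  · simp only [sM2, wt, dg]; linarith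
  · simp only [sM2, wt, dg]; linarith
  · simp only [sM2, List.mem_cons, List.not_mem_nil, or_false, forall_eq_or_imp, forall_eq,
      UB.k0, UB.k1]
    linarith [h5.2.1, le_max_left 0 (γ - β)]
  · simp only [sM2, List.mem_cons, List.not_mem_nil, or_false, forall_eq_or_imp, forall_eq,
      UB.k0, UB.k1]
    linarith [h5.2.2.1]
  · simp only [sM2, List.mem_cons, List.not_mem_nil, or_false, forall_eq_or_imp, forall_eq]
    exact ⟨h6, h7⟩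

def sB3a : Sp :=
  ⟨0, 0, 0, false, false, 0, 1, -3 / 7, 10 / 7, [⟨-5 / 11, 16 / 11, 0, 0, 0⟩], [⟨-3 / 7, 10 / 7,
    0, 0, 0⟩], [⟨true, 21 / 22, 0, 2 / 77⟩, ⟨false, 3 / 2, 0, 2 / 11⟩]⟩

lemma cB3a : checkAll sB3a
    (.G (12 / 25) (.L 1 true 0 0) (.L 0 true 0 0))
    (.G (12 / 25) (.L 1 true 0 0) (.L 0 true 0 0))
    (.L 1 true 0 0)
    2 12 (0) true = true := by decide +kernel

lemma iB3a : ∀ (l1 l2 : Multiset Y) (β γ e δ : ℚ),
    Cx β γ e δ →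
    1 ≤ l1.card →
    11 ≤ l2.card →
    0 ≤ msg l1 →
    msg l1 ≤ 5 / 11 * l1.card →
    3 / 7 * l2.card ≤ msg l2 →
    msg l2 ≤ 3 / 7 * l2.card →
    NoP (21 / 22) 0 (2 / 77) (wt l1) (wt l2) (dg l1) (dg l2) β γ e →
    NoR (3 / 2) 0 (2 / 11) (wt l1) (wt l2) (dg l1) (dg l2) β γ e δ → False := by
  intro l1 l2 β γ e δ h0 h1 h2 h3 h4 h5 h6 h7 h8
  refine sound cB3a (d1 := l1.card + 1) (d2 := l2.card + 1) (D1 := dg l1) (D2 := dg l2)
    (X := wt l1) (Y := wt l2) h0 (by omega) (by omega) (Or.inl rfl) (Or.inl rfl)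
    ⟨by simp [dg], by simp [dg], by simp [sB3a], by simp [sB3a], by simp only [sB3a]; omega,
      by simp [sB3a], by simp [sB3a], ?_, ?_, ?_, ?_, ?_⟩
  · simp only [sB3a, wt, dg]; linarith
  · simp only [sB3a, wt, dg]; linarith
  · simp only [sB3a, List.mem_cons, List.not_mem_nil, or_false, forall_eq_or_imp, forall_eq,
      UB.k0, UB.k1]
    simp only [wt, dg]; linarith
  · simp only [sB3a, List.mem_cons, List.not_mem_nil, or_false, forall_eq_or_imp, forall_eq,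
      UB.k0, UB.k1]
    simp only [wt, dg]; linarith
  · simp only [sB3a, List.mem_cons, List.not_mem_nil, or_false, forall_eq_or_imp, forall_eq]
    exact ⟨h7, h8⟩

def sB3b : Sp :=
  ⟨0, 0, 0, false, false, 0, 1, -3 / 7, 10 / 7, [⟨-1 / 2, 3 / 2, 0, 0, 0⟩], [⟨-3 / 7, 10 / 7, 0,
    0, 0⟩], [⟨true, 44 / 45, 0, 2 / 165⟩, ⟨false, 484 / 315, 0, 194 / 1155⟩]⟩

lemma cB3b : checkAll sB3b
    (.L 1 true 0 0)
    (.L 1 true 0 0)
    (.L 1 true 0 0)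
    2 12 (0) true = true := by decide +kernel

lemma iB3b : ∀ (l1 l2 : Multiset Y) (β γ e δ : ℚ),
    Cx β γ e δ →
    1 ≤ l1.card →
    11 ≤ l2.card →
    0 ≤ msg l1 →
    msg l1 ≤ 1 / 2 * l1.card →
    3 / 7 * l2.card ≤ msg l2 →
    msg l2 ≤ 3 / 7 * l2.card →
    NoP (44 / 45) 0 (2 / 165) (wt l1) (wt l2) (dg l1) (dg l2) β γ e →
    NoR (484 / 315) 0 (194 / 1155) (wt l1) (wt l2) (dg l1) (dg l2) β γ e δ → False := by
  intro l1 l2 β γ e δ h0 h1 h2 h3 h4 h5 h6 h7 h8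
  refine sound cB3b (d1 := l1.card + 1) (d2 := l2.card + 1) (D1 := dg l1) (D2 := dg l2)
    (X := wt l1) (Y := wt l2) h0 (by omega) (by omega) (Or.inl rfl) (Or.inl rfl)
    ⟨by simp [dg], by simp [dg], by simp [sB3b], by simp [sB3b], by simp only [sB3b]; omega,
      by simp [sB3b], by simp [sB3b], ?_, ?_, ?_, ?_, ?_⟩
  · simp only [sB3b, wt, dg]; linarith
  · simp only [sB3b, wt, dg]; linarith
  · simp only [sB3b, List.mem_cons, List.not_mem_nil, or_false, forall_eq_or_imp, forall_eq,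
      UB.k0, UB.k1]
    simp only [wt, dg]; linarith
  · simp only [sB3b, List.mem_cons, List.not_mem_nil, or_false, forall_eq_or_imp, forall_eq,
      UB.k0, UB.k1]
    simp only [wt, dg]; linarith
  · simp only [sB3b, List.mem_cons, List.not_mem_nil, or_false, forall_eq_or_imp, forall_eq]
    exact ⟨h7, h8⟩

def sD3c : Sp :=
  ⟨0, 0, 0, false, false, 0, 1, -3 / 7, 10 / 7, [⟨-3 / 7, 10 / 7, 0, 0, 0⟩], [⟨-3 / 7, 10 / 7, 0,
    0, 0⟩], [⟨true, 44 / 49, 1, 122 / 77⟩]⟩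

lemma cD3c : checkAll sD3c
    (.L 0 true 0 0)
    (.L 0 true 0 0)
    .V
    2 12 (1 / 5) false = true := by decide +kernel

lemma iD3c : ∀ (l1 l2 : Multiset Y) (β γ e δ : ℚ),
    Cx β γ e δ →
    1 ≤ l1.card →
    11 ≤ l2.card →
    δ = 1 →
    1 / 5 ≤ γ →
    0 ≤ msg l1 →
    msg l1 ≤ 3 / 7 * l1.card →
    3 / 7 * l2.card ≤ msg l2 →
    msg l2 ≤ 3 / 7 * l2.card →
    NoP (44 / 49) 1 (122 / 77) (wt l1) (wt l2) (dg l1) (dg l2) β γ e → False := by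
  intro l1 l2 β γ e δ h0 h1 h2 h3 h4 h5 h6 h7 h8 h9
  refine sound cD3c (d1 := l1.card + 1) (d2 := l2.card + 1) (D1 := dg l1) (D2 := dg l2)
    (X := wt l1) (Y := wt l2) h0 (by omega) (by omega) (Or.inr h4) (Or.inr h3)
    ⟨by simp [dg], by simp [dg], by simp [sD3c], by simp [sD3c], by simp only [sD3c]; omega,
      by simp [sD3c], by simp [sD3c], ?_, ?_, ?_, ?_, ?_⟩
  · simp only [sD3c, wt, dg]; linarith
  · simp only [sD3c, wt, dg]; linarith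
  · simp only [sD3c, List.mem_cons, List.not_mem_nil, or_false, forall_eq_or_imp, forall_eq,
      UB.k0, UB.k1]
    simp only [wt, dg]; linarith
  · simp only [sD3c, List.mem_cons, List.not_mem_nil, or_false, forall_eq_or_imp, forall_eq,
      UB.k0, UB.k1]
    simp only [wt, dg]; linarith
  · simp only [sD3c, List.mem_cons, List.not_mem_nil, or_false, forall_eq_or_imp, forall_eq]
    exact h9

end Chk

theorem inst : Inst :=
  ⟨Chk.iD3a, Chk.iD3b, Chk.iD2a, Chk.iD2b, Chk.iD1a, Chk.iD1b, Chk.iD0a3, Chk.iD0a4, Chk.iD0a5,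
    Chk.iD0a6, Chk.iD0aT, Chk.iD0b, Chk.iD0c, Chk.iD0d1, Chk.iD0dP, Chk.iD0dM, Chk.iA1, Chk.iA2,
    Chk.iDeg2, Chk.iMid0, Chk.iMid1, Chk.iM2, Chk.iB3a, Chk.iB3b, Chk.iD3c⟩

end Pool.Agent.Lib.MP_70d11c_co.Q2
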