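import Pool.Agent.Lib.MP_70d11c_co.Defs

/-!
Definitions used in the statement on the maximum Laplacian ratio of trees of bounded matching
number.
-/

namespace Pool.Agent.Lib.MP_70d11c_co.Q2

/-- the product `f(a_1) ⋯ f(a_r)` for `a_1 + ⋯ + a_r = t` with the `a_i` as equal as possible -/
def balP (f : ℕ → ℚ) (r t : ℕ) : ℚ := f (t / r) ^ (r - t % r) * f (t / r + 1) ^ (t % r)

/-- the sum `f(a_1) + ⋯ + f(a_r)` for `a_1 + ⋯ + a_r = t` with the `a_i` as equal as possible -/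
def balS (f : ℕ → ℚ) (r t : ℕ) : ℚ :=
  ((r - t % r : ℕ) : ℚ) * f (t / r) + ((t % r : ℕ) : ℚ) * f (t / r + 1)

def pathZ (a : ℕ) : ℚ := (4 * a + 3) / (2 * a + 2)
def pathp (a : ℕ) : ℚ := (2 * a + 1) / (4 * a + 3)
def superZ (a : ℕ) : ℚ := (7 / 4) ^ a * (10 * a + 7) / (7 * a + 7)
def superp (a : ℕ) : ℚ := 7 / (10 * a + 7)

/-- centre with `l` leaves and `m` paths of two vertices whose ends share `s` leaves evenly -/
def F1 (l m s : ℕ) : ℚ := balP pathZ m s * (1 + (l + balS pathp m s) / (l + m))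

/-- centre with `j` pendant 2-vertex paths and `m` neighbours sharing `s` such paths evenly -/
def F2 (j m s : ℕ) : ℚ := (3 / 2) ^ j * balP hubZ m s * (1 + (j / 3 + balS hubp m s) / (j + m))

/-- centre with `x` pendant 3-vertex paths, `y` neighbours carrying two pendant 2-vertex paths
each, and `r` neighbours sharing `t` pendant 3-vertex paths evenly -/
def F3 (x y r t : ℕ) : ℚ :=
  (7 / 4) ^ x * (11 / 4) ^ y * balP superZ r t *
    (1 + (3 * x / 7 + 3 * y / 11 + balS superp r t) / (x + y + r))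

/-- as `F3`, but the `r` vertices hang on one further neighbour of the centre -/
def F4 (x y r t : ℕ) : ℚ :=
  (7 / 4) ^ x * (11 / 4) ^ y * (balP superZ r t * (1 + balS superp r t / (r + 1))) *
    (1 + (3 * x / 7 + 3 * y / 11 + 1 / (r + 1 + balS superp r t)) / (x + y + 1))

/-- the candidate values for `n` vertices and matching number at most `k` -/
def Cand (n k : ℕ) : Set ℚ :=
  {v | (∃ l m s : ℕ, n = 1 + l + 2 * m + s ∧ (m = 0 → s = 0) ∧ 1 + m ≤ k ∧ v = F1 l m s) ∨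
    (∃ j m s : ℕ, n = 1 + 2 * j + m + 2 * s ∧ (m = 0 → s = 0) ∧
      (if m = 0 then j else 1 + j + s) ≤ k ∧ v = F2 j m s) ∨
    (∃ x y r t : ℕ, n = 1 + 3 * x + 5 * y + r + 3 * t ∧ (r = 0 → t = 0) ∧
      1 + x + 2 * y + r + t ≤ k ∧ v = F3 x y r t) ∨
    (∃ x y r t : ℕ, n = 2 + 3 * x + 5 * y + r + 3 * t ∧ (r = 0 → t = 0) ∧
      1 + x + 2 * y + r + t ≤ k ∧ v = F4 x y r t) ∨
    (n = 10 ∧ 3 ≤ k ∧ v = 50 / 9)}

/-- the matching number of `G` is at most `k` -/
def MatchLe {V : Type} (G : SimpleGraph V) (k : ℕ) : Prop :=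
  ∀ M : G.Subgraph, M.IsMatching → M.edgeSet.ncard ≤ k

end Pool.Agent.Lib.MP_70d11c_co.Q2
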