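import Pool.Agent.Lib.MP_70d11c_co.Q2.PairA

-- part Pool.Agent.Lib.MP_70d11c_co.Q2.ClA
section

/-!
Extremal trees with a single centre are bounded by a candidate.
-/

namespace Pool.Agent.Lib.MP_70d11c_co.Q2

open Multiset

namespace ClA

lemma decomp {x : Y} {f : ℕ → Y} {l : Multiset Y} (h : ∀ y ∈ l, y = x ∨ ∃ a, y = f a) :
    ∃ (n : ℕ) (K : Multiset ℕ), l = replicate n x + K.map f := by
  induction l using Multiset.induction_on with
  | empty => exact ⟨0, 0, by simp⟩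
  | cons y l ih =>
    obtain ⟨n, K, e⟩ := ih fun z hz => h z (mem_cons_of_mem hz)
    rcases h y (mem_cons_self _ _) with rfl | ⟨a, rfl⟩
    · exact ⟨n + 1, K, by rw [e, replicate_succ, cons_add]⟩
    · exact ⟨n, a ::ₘ K, by rw [e, map_cons, add_cons]⟩

lemma two_mem {α : Type} {l : Multiset α} {a c : α} (ha : a ∈ l) (hc : c ∈ l) (h : a ≠ c) :
    ∃ m, l = a ::ₘ c ::ₘ m := by
  obtain ⟨m, rfl⟩ := exists_cons_of_mem ha
  rcases mem_cons.1 hc with rfl | hc
  · exact absurd rfl h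
  · obtain ⟨m', rfl⟩ := exists_cons_of_mem hc
    exact ⟨m', rfl⟩

lemma size_Aa (K : Multiset ℕ) : size (K.map Aa) = 2 * K.card + K.sum := by
  induction K using Multiset.induction_on with
  | empty => simp
  | cons a K ih => simp only [map_cons, size_cons, ih, Aa_s, card_cons, sum_cons]; omega

lemma cost_Aa (K : Multiset ℕ) : cost (K.map Aa) = K.card := by
  induction K using Multiset.induction_on with
  | empty => simp
  | cons a K ih => simp only [map_cons, cost_cons, ih, Aa_c, card_cons]; omega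

lemma size_Hb (K : Multiset ℕ) : size (K.map Hb) = K.card + 2 * K.sum := by
  induction K using Multiset.induction_on with
  | empty => simp
  | cons a K ih => simp only [map_cons, size_cons, ih, Hb_s, card_cons, sum_cons]; omega

lemma cost_Hb (K : Multiset ℕ) : cost (K.map Hb) = K.sum := by
  induction K using Multiset.induction_on with
  | empty => simp
  | cons a K ih => simp only [map_cons, cost_cons, ih, Hb_c, sum_cons]

lemma sum_zero {K : Multiset ℕ} (h : K.card = 0) : K.sum = 0 := by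
  rw [card_eq_zero.1 h]; rfl

lemma prd_bal (f : ℕ → Y) (g : ℕ → ℚ) (hg : ∀ a, (f a).Z = g a) {K : Multiset ℕ}
    (h : ∀ a ∈ K, ∀ b ∈ K, a ≤ b + 1) : prd (K.map f) = balP g K.card K.sum := by
  rw [prd_map, ← balK_prod, ← eq_balK h]; simp only [hg]

lemma msg_bal (f : ℕ → Y) (g : ℕ → ℚ) (hg : ∀ a, (f a).p = g a) {K : Multiset ℕ}
    (h : ∀ a ∈ K, ∀ b ∈ K, a ≤ b + 1) : msg (K.map f) = balS g K.card K.sum := by
  rw [msg_map, ← balK_sum', ← eq_balK h]; simp only [hg]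

lemma fin1 (h : LocS) {n : ℕ} {K : Multiset ℕ} (e : Ext true (replicate n L + K.map Aa)) :
    Good true (replicate n L + K.map Aa) := by
  have hb : ∀ a ∈ K, ∀ c ∈ K, a ≤ c + 1 := by
    intro a ha c hc
    by_cases k : a = c
    · omega
    · obtain ⟨m, rfl⟩ := two_mem ha hc k
      rw [map_cons, map_cons, add_cons, add_cons] at e
      exact h.balA _ _ _ e
  have h0 := card_ge_one e.1.2.2
  refine ⟨F1 n K.card K.sum, Or.inl ⟨n, K.card, K.sum, ?_, sum_zero, ?_, rfl⟩, le_of_eq ?_⟩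
  · simp only [size_add, size_rep, size_Aa, L_s]; omega
  · simp only [cost_add, cost_rep, cost_Aa, L_c, Bool.toNat_true]; omega
  · simp only [card_add, card_replicate, card_map, Nat.cast_add] at h0
    simp only [rt, F1, prd_add, msg_add, prd_rep, msg_rep, L_Z, L_p, prd_bal Aa pathZ Aa_Z hb,
      msg_bal Aa pathp Aa_p hb, card_add, card_replicate, card_map, Nat.cast_add, one_pow, one_mul]
    field_simp

lemma fin2b {j : ℕ} {K : Multiset ℕ} (h0 : replicate j P2 + K.map Hb ≠ 0)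
    (hb : ∀ a ∈ K, ∀ c ∈ K, a ≤ c + 1) : Good true (replicate j P2 + K.map Hb) := by
  have h0 := card_ge_one h0
  refine ⟨F2 j K.card K.sum, Or.inr (Or.inl ⟨j, K.card, K.sum, ?_, sum_zero, ?_, rfl⟩),
    le_of_eq ?_⟩
  · simp only [size_add, size_rep, size_Hb, P2_s]; omega
  · simp only [cost_add, cost_rep, cost_Hb, P2_c, Bool.toNat_true]
    split_ifs <;> omega
  · simp only [card_add, card_replicate, card_map, Nat.cast_add] at h0
    simp only [rt, F2, prd_add, msg_add, prd_rep, msg_rep, P2_Z, P2_p, prd_bal Hb hubZ Hb_Z hb,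
      msg_bal Hb hubp Hb_p hb, card_add, card_replicate, card_map, Nat.cast_add]
    field_simp

lemma fin2c (a c : ℕ) : Good true (Hb a ::ₘ Hb c ::ₘ 0) := by
  refine ⟨F2 (a + c + 1) 0 0, Or.inr (Or.inl ⟨a + c + 1, 0, 0, ?_, fun _ => rfl, ?_, rfl⟩), ?_⟩
  · simp only [size_cons, size_zero, Hb_s]; omega
  · simp only [cost_cons, cost_zero, Hb_c, Bool.toNat_true, if_true]; omega
  · have e1 : F2 (a + c + 1) 0 0 = (3 / 2) ^ a * (3 / 2) ^ c * 2 := by
      simp only [F2, balP, balS]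
      push_cast
      simp only [pow_add]
      field_simp
      ring
    have e2 : rt (Hb a ::ₘ Hb c ::ₘ 0) = (3 / 2) ^ a * (3 / 2) ^ c *
        (2 - 2 * (a * c) / (9 * (a + 1) * (c + 1))) := by
      simp only [rt, prd_cons, msg_cons, prd_zero, msg_zero, card_cons, card_zero, Hb_Z, Hb_p,
        hubZ, hubp]
      push_cast
      field_simp
      ring
    rw [e1, e2]
    have : (0 : ℚ) ≤ 2 * (a * c) / (9 * (a + 1) * (c + 1)) := by positivity
    exact mul_le_mul_of_nonneg_left (by linarith) (by positivity)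

lemma fin2 (h : LocS) {j : ℕ} {K : Multiset ℕ} (e : Ext true (replicate j P2 + K.map Hb)) :
    Good true (replicate j P2 + K.map Hb) := by
  by_cases hb : ∀ a ∈ K, ∀ c ∈ K, a ≤ c + 1
  · exact fin2b e.1.2.2 hb
  · push Not at hb
    obtain ⟨a, ha, c, hc, k⟩ := hb
    obtain ⟨m, rfl⟩ := two_mem ha hc (by omega)
    rw [map_cons, map_cons, add_cons, add_cons] at e ⊢
    by_cases k0 : replicate j P2 + m.map Hb = 0
    · rw [k0]; exact fin2c a c
    · have := h.balH _ _ _ e k0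
      omega

lemma Aa_lt (a : ℕ) : (Aa a).p < 1 / 2 :=
  nd_p_lt (oks_sing.2 (ok_St a)) (by simp)

lemma typed (h : LocS) {l : Multiset Y} (e : Ext true l) (ht : ∀ y ∈ l, y = L ∨ Typ y) :
    Good true l := by
  by_cases k : ∃ a, 2 ≤ a ∧ Aa a ∈ l
  · obtain ⟨a, ha, hm⟩ := k
    have : ∀ y ∈ l, y = L ∨ ∃ c, y = Aa c := by
      intro y hy
      rcases ht y hy with rfl | rfl | ⟨c, -, rfl⟩ | ⟨b, hb, rfl⟩
      · exact Or.inl rfl
      · exfalso
        obtain ⟨m, rfl⟩ := two_mem hm hy (fun k => by simpa using congrArg Y.b k)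
        have ok := e.oks
        simp only [oks_cons] at ok
        have k0 := ok.2.2.msg_nonneg
        have k1 : (0 : ℚ) ≤ m.card := by positivity
        exact two_deals e (h.dA a ha) h.dPA (by norm_num) (by linarith) (by norm_num)
          (by norm_num) (by norm_num) (by norm_num)
      · exact Or.inr ⟨c, rfl⟩
      · rcases Nat.lt_or_ge b 2 with k | k
        · obtain rfl : b = 1 := by omega
          exact Or.inr ⟨1, rfl⟩
        · exfalso
          obtain ⟨m, rfl⟩ := two_mem hm hy (fun k' => by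
            have := congrArg Y.c k'
            simp only [Aa_c, Hb_c] at this
            omega)
          exact h.split _ _ _ e k (Aa_lt a) (h.dA a ha)
    obtain ⟨n, K, rfl⟩ := decomp this
    exact fin1 h e
  · have : ∀ y ∈ l, y = P2 ∨ ∃ c, y = Hb c := by
      intro y hy
      rcases ht y hy with rfl | rfl | ⟨c, hc, rfl⟩ | ⟨b, -, rfl⟩
      · exact Or.inr ⟨0, rfl⟩
      · exact Or.inl rfl
      · exact absurd ⟨c, hc, hy⟩ k
      · exact Or.inr ⟨b, rfl⟩
    obtain ⟨n, K, rfl⟩ := decomp this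
    exact fin2 h e

lemma lev_lt {y : Y} (h : Lev1 y) : y = L ∨ y.p < 1 / 2 := by
  rcases h with rfl | ⟨a, ha, rfl⟩ | ⟨A, h0, -, rfl⟩
  · exact Or.inl rfl
  · refine Or.inr (nd_p_lt (oks_rep ok_L a) fun k => ?_)
    have := congrArg card k
    simp only [card_replicate, card_zero] at this
    omega
  · exact Or.inr (nd_p_lt (oks_map ok_St A) (by simpa using h0))

lemma mid_typ {A : Multiset ℕ} (h0 : A ≠ 0) (h1 : ∀ a ∈ A, 1 ≤ a) :
    Typ (Mid A) ∨ (2 ≤ A.card ∧ ∃ a ∈ A, 2 ≤ a) := by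
  have hc := card_pos.2 h0
  by_cases k : ∃ a ∈ A, 2 ≤ a
  · rcases Nat.lt_or_ge A.card 2 with k' | k'
    · obtain ⟨c, rfl⟩ := card_eq_one.1 (by omega : A.card = 1)
      obtain ⟨a, ha, k⟩ := k
      rw [mem_singleton.1 ha] at k
      exact Or.inl (Or.inr (Or.inl ⟨c, k, Mid_sing c⟩))
    · exact Or.inr ⟨k', k⟩
  · push Not at k
    have : A = replicate A.card 1 := eq_replicate_card.2 fun a ha => by
      have := h1 a ha
      have := k a ha
      omega
    exact Or.inl (Or.inr (Or.inr ⟨A.card, hc, by rw [← Mid_rep, ← this]⟩))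

lemma noSt (h : LocS) {a : ℕ} {l : Multiset Y} (e : Ext true (St a ::ₘ l)) (ha : 2 ≤ a) :
    False := by
  have k0 := (oks_cons.1 e.oks).2.msg_nonneg
  have k1 : (0 : ℚ) ≤ l.card := by positivity
  exact one_imp e (t0 := 1) (by linarith) (h.e1 a ha)

lemma good_sp : Good true (Mid {2, 2} ::ₘ replicate 2 L) := by
  have e : Mid {2, 2} = nd false (St 2 ::ₘ St 2 ::ₘ 0) := by simp [Mid]
  refine ⟨50 / 9, Or.inr (Or.inr (Or.inr (Or.inr ⟨?_, ?_, rfl⟩))), le_of_eq ?_⟩
  · rw [e]; simp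
  · rw [e]; simp
  · rw [e, rt_cons, nd_Z, nd_p]
    simp only [prd_cons, msg_cons, prd_zero, msg_zero, card_cons, card_zero, St_Z, St_p, prd_rep,
      msg_rep, card_replicate, L_Z, L_p]
    norm_num

lemma small (h : LocS) (x : XsS) {A : Multiset ℕ} {n : ℕ}
    (e : Ext true (Mid A ::ₘ replicate n L)) (h0 : A ≠ 0) (h1 : ∀ a ∈ A, 1 ≤ a ∧ a ≤ n) :
    Good true (Mid A ::ₘ replicate n L) := by
  rcases mid_typ h0 (fun a ha => (h1 a ha).1) with k | ⟨k1, k2⟩
  · refine typed h e fun y hy => ?_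
    rcases mem_cons.1 hy with rfl | hy
    · exact Or.inr k
    · exact Or.inl (eq_of_mem_replicate hy)
  · obtain ⟨rfl, rfl⟩ := x.spider A n e k1 h1 k2
    exact good_sp

lemma st_b (A : Multiset ℕ) : ∀ y ∈ A.map St, y.b = true := fun y hy => by
  obtain ⟨a, -, rfl⟩ := mem_map.1 hy; rfl

lemma one (h : LocS) (x : XsS) {A : Multiset ℕ} {n : ℕ}
    (e : Ext true (Mid A ::ₘ replicate n L)) (h1 : ∀ a ∈ A, 1 ≤ a) (h2 : ∃ a ∈ A, 2 ≤ a) :
    Good true (Mid A ::ₘ replicate n L) := by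
  obtain ⟨c, hc, hc2⟩ := h2
  have h0 : A ≠ 0 := fun k => by simp [k] at hc
  obtain ⟨a, ha, hmax⟩ := exists_max_image id h0
  simp only [id] at hmax
  rcases Nat.lt_or_ge n a with k | k
  · obtain ⟨A', rfl⟩ := exists_cons_of_mem ha
    rcases Nat.eq_zero_or_pos n with rfl | hn
    · exfalso
      have r : Red true (Mid (a ::ₘ A') ::ₘ replicate 0 L) true (L ::ₘ (a ::ₘ A').map St) := by
        refine e.red (cf_true (oks_cons.2 ⟨ok_L, oks_map ok_St _⟩) cons_ne_zero) ?_ ?_ ?_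
        · simp [Mid]
        · simp [Mid]
        · exact (rt_reroot false false (oks_map ok_St _) oks_zero).le
      have e' := r.1
      rw [map_cons, cons_swap] at e'
      exact noSt h e' (hc2.trans (hmax c hc))
    · have r1 : Red true (Mid (a ::ₘ A') ::ₘ replicate n L) false
          (St n ::ₘ (a ::ₘ A').map St) :=
        Ext.reroot (b := false) e (oks_map ok_St _) fun _ => st_b _
      rw [map_cons, cons_swap, ← map_cons] at r1
      have r2 : Red false (St a ::ₘ (n ::ₘ A').map St) true (Mid (n ::ₘ A') ::ₘ replicate a L) :=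
        Ext.reroot (b := true) r1.1 (oks_rep ok_L a) (by simp)
      refine (r1.trans r2).good (small h x r2.1 cons_ne_zero fun z hz => ?_)
      rcases mem_cons.1 hz with rfl | hz
      · exact ⟨hn, k.le⟩
      · exact ⟨h1 z (mem_cons_of_mem hz), hmax z (mem_cons_of_mem hz)⟩
  · exact small h x e h0 fun z hz => ⟨h1 z hz, (hmax z hz).trans k⟩

end ClA

theorem clA (h : LocS) (x : XsS) : ClAStm := by
  intro l e hl
  by_cases ht : ∀ y ∈ l, y = L ∨ Typ y
  · exact ClA.typed h e ht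
  · rw [not_forall] at ht
    obtain ⟨y, ht⟩ := ht
    rw [Classical.not_imp] at ht
    obtain ⟨hy, ht⟩ := ht
    obtain ⟨m, rfl⟩ := exists_cons_of_mem hy
    have hm : m = replicate m.card L := eq_replicate_card.2 fun U hU => by
      rcases ClA.lev_lt (hl U (mem_cons_of_mem hU)) with k | k
      · exact k
      · obtain ⟨m', rfl⟩ := exists_cons_of_mem hU
        exact absurd (x.typ y U m' e k (hl y hy)) ht
    generalize m.card = n at hm
    subst hm
    rcases hl y hy with rfl | ⟨a, ha, rfl⟩ | ⟨A, h0, h1, rfl⟩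
    · exact absurd (Or.inl rfl) ht
    · rcases Nat.lt_or_ge a 2 with k | k
      · obtain rfl : a = 1 := by omega
        exact absurd (Or.inr (Or.inl rfl)) ht
      · exact (ClA.noSt h e k).elim
    · rcases ClA.mid_typ h0 h1 with k | ⟨-, k⟩
      · exact absurd (Or.inr k) ht
      · exact ClA.one h x e h1 k

end Pool.Agent.Lib.MP_70d11c_co.Q2
end

-- part Pool.Agent.Lib.MP_70d11c_co.Q2.Ctx
section

/-!
Pairs of centres: two by two matrices along a path.
-/

namespace Pool.Agent.Lib.MP_70d11c_co.Q2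

open Multiset

namespace Ctx

/-- a two by two matrix -/
@[ext] structure M2 where
  a : ℚ
  b : ℚ
  c : ℚ
  d : ℚ

def kf (m : Multiset Y) : ℚ := prd m / (m.card + 2)
def Wf (m : Multiset Y) : ℚ := m.card + 2 + msg m

def mat : List (Bool × Multiset Y) → M2
  | [] => ⟨1, 0, 0, 1⟩
  | f :: P => ⟨kf f.2 * (Wf f.2 * (mat P).a + (mat P).c), kf f.2 * (Wf f.2 * (mat P).b + (mat P).d),
      kf f.2 * (mat P).a, kf f.2 * (mat P).b⟩

lemma mat_app (P : List (Bool × Multiset Y)) (f : Bool × Multiset Y) :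
    mat (P ++ [f]) = ⟨kf f.2 * ((mat P).a * Wf f.2 + (mat P).b), kf f.2 * (mat P).a,
      kf f.2 * ((mat P).c * Wf f.2 + (mat P).d), kf f.2 * (mat P).c⟩ := by
  induction P with
  | nil => ext <;> simp [mat]
  | cons g P ih => ext <;> simp only [List.cons_append, mat, ih] <;> ring

lemma mat_rev (P : List (Bool × Multiset Y)) :
    mat P.reverse = ⟨(mat P).a, (mat P).c, (mat P).b, (mat P).d⟩ := by
  induction P with
  | nil => rfl
  | cons g P ih => rw [List.reverse_cons, mat_app, ih]; ext <;> simp only [mat] <;> ring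

lemma kf_pos {m : Multiset Y} (h : OKs m) : 0 < kf m := by
  have := h.prd_pos
  unfold kf; positivity

lemma Wf_ge {m : Multiset Y} (h : OKs m) : (m.card : ℚ) + 2 ≤ Wf m := by
  have := h.msg_nonneg
  unfold Wf; linarith

lemma Wf_two {m : Multiset Y} (h : OKs m) : 2 ≤ Wf m := by
  have := Wf_ge h
  have h3 : (0 : ℚ) ≤ m.card := by positivity
  linarith

lemma mat_pos {P : List (Bool × Multiset Y)} (h : Path P) :
    0 < (mat P).a ∧ 0 ≤ (mat P).b ∧ 0 ≤ (mat P).c ∧ 0 ≤ (mat P).d ∧ (mat P).c ≤ (mat P).a := by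
  induction P with
  | nil => simp [mat]
  | cons f P ih =>
    obtain ⟨h1, h2, h3, h4, -⟩ := ih h.tail
    have hf := (h.1 f (List.mem_cons_self ..)).1
    have k := kf_pos hf
    have w := Wf_two hf
    have w0 : 0 < Wf f.2 := by linarith
    simp only [mat]
    refine ⟨by positivity, by positivity, by positivity, by positivity, ?_⟩
    exact mul_le_mul_of_nonneg_left (by nlinarith) k.le

lemma mat_ne {P : List (Bool × Multiset Y)} (h : Path P) (h0 : P ≠ []) :
    2 * (mat P).c ≤ (mat P).a ∧ 2 * (mat P).d ≤ (mat P).b ∧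
      (mat P).a * (mat P).d ≤ 2 * (mat P).b * (mat P).c := by
  obtain ⟨f, P, rfl⟩ := List.exists_cons_of_ne_nil h0
  obtain ⟨h1, h2, h3, h4, h5⟩ := mat_pos h.tail
  have hf := (h.1 f (List.mem_cons_self ..)).1
  have k0 := kf_pos hf
  have w := Wf_two hf
  simp only [mat]
  generalize kf f.2 = k at *
  generalize Wf f.2 = W at *
  generalize (mat P).a = a at *
  generalize (mat P).b = b at *
  generalize (mat P).c = c at *
  generalize (mat P).d = d at *
  have e1 : 0 ≤ k * ((W - 2) * a + c) := by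
    have : 0 ≤ W - 2 := by linarith
    positivity
  have e2 : 0 ≤ k * ((W - 2) * b + d) := by
    have : 0 ≤ W - 2 := by linarith
    positivity
  have e3 : 0 ≤ k * k * (b * ((W - 1) * a + (a - c)) + 2 * a * d) := by
    have : 0 ≤ W - 1 := by linarith
    have : 0 ≤ a - c := by linarith
    positivity
  exact ⟨by linarith, by linarith, by linarith⟩

lemma cx {P : List (Bool × Multiset Y)} (h : Path P) :
    Cx ((mat P).b / (mat P).a) ((mat P).c / (mat P).a) ((mat P).d / (mat P).a)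
      (if P = [] then 0 else 1) := by
  by_cases h0 : P = []
  · subst h0
    exact Or.inl (by simp [mat])
  obtain ⟨h1, h2, h3, h4, -⟩ := mat_pos h
  obtain ⟨k1, k2, k3⟩ := mat_ne h h0
  obtain ⟨k4, k5, -⟩ := mat_ne h.rev (by simpa using h0)
  rw [mat_rev] at k4 k5
  simp only at k4 k5
  refine Or.inr ⟨if_neg h0, by positivity, ?_, by positivity, ?_, by positivity, ?_, ?_, ?_⟩
  · rw [div_le_div_iff₀ h1 (by norm_num)]; linarith
  · rw [div_le_div_iff₀ h1 (by norm_num)]; linarith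
  · rw [← mul_div_assoc]; exact div_le_div_of_nonneg_right k2 h1.le
  · rw [← mul_div_assoc]; exact div_le_div_of_nonneg_right k5 h1.le
  · have : 2 * ((mat P).b / (mat P).a) * ((mat P).c / (mat P).a) =
        2 * (mat P).b * (mat P).c / (mat P).a / (mat P).a := by field_simp
    rw [this]
    refine div_le_div_of_nonneg_right ?_ h1.le
    rw [le_div_iff₀ h1]; linarith

lemma dg_pos (l : Multiset Y) : 0 < dg l := by unfold dg; positivity

lemma plug_data {P : List (Bool × Multiset Y)} (h : Path P) {l : Multiset Y} (hl : OKs l) :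
    (plug P (nd true l)).Z = prd l / dg l * ((mat P).a * wt l + (mat P).b) ∧
    (plug P (nd true l)).Z * (plug P (nd true l)).p =
      prd l / dg l * ((mat P).c * wt l + (mat P).d) := by
  induction P with
  | nil =>
    have := hl.msg_nonneg
    simp only [plug, mat, nd_Z, nd_p, dg, wt]
    constructor <;> field_simp <;> ring
  | cons f P ih =>
    obtain ⟨h1, h2⟩ := ih h.tail
    have hf := (h.1 f (List.mem_cons_self ..)).1
    have hu := h.tail.ok hl
    have a1 := hf.msg_nonneg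
    have a2 := hu.p_pos
    simp only [plug, mat]
    generalize plug P (nd true l) = u at *
    have e1 : (nd f.1 (u ::ₘ f.2)).Z = kf f.2 * (Wf f.2 * u.Z + u.Z * u.p) := by
      simp only [nd_Z, prd_cons, msg_cons, card_cons, kf, Wf]
      push_cast
      field_simp
      ring
    have e2 : (nd f.1 (u ::ₘ f.2)).Z * (nd f.1 (u ::ₘ f.2)).p = kf f.2 * u.Z := by
      simp only [nd_Z, nd_p, prd_cons, msg_cons, card_cons, kf]
      push_cast
      field_simp
      ring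
    rw [e2, e1, h2, h1]
    constructor <;> ring

lemma val {P : List (Bool × Multiset Y)} (h : Path P) (l1 : Multiset Y) {l2 : Multiset Y}
    (hl : OKs l2) : rt (plug P (nd true l2) ::ₘ l1) = (mat P).a *
      Vv ((mat P).b / (mat P).a) ((mat P).c / (mat P).a) ((mat P).d / (mat P).a) l1 l2 := by
  obtain ⟨h1, h2⟩ := plug_data h hl
  have a := (mat_pos h).1
  have d1 := dg_pos l1
  have d2 := dg_pos l2
  have e : rt (plug P (nd true l2) ::ₘ l1) = prd l1 / dg l1 * ((plug P (nd true l2)).Z * wt l1 +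
      (plug P (nd true l2)).Z * (plug P (nd true l2)).p) := by
    rw [rt_cons]; simp only [dg, wt]; ring
  rw [e, h2, h1]
  simp only [Vv, Gv]
  field_simp
  ring

def sz (P : List (Bool × Multiset Y)) : ℕ := (P.map fun f => 1 + size f.2).sum
def cs (P : List (Bool × Multiset Y)) : ℕ := (P.map fun f => cost f.2 + f.1.toNat).sum

lemma plug_s (P : List (Bool × Multiset Y)) (y : Y) : (plug P y).s = y.s + sz P := by
  induction P with
  | nil => rfl
  | cons f P ih => simp only [plug, nd_s, size_cons, ih, sz, List.map_cons, List.sum_cons]; omega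

lemma plug_c (P : List (Bool × Multiset Y)) (y : Y) : (plug P y).c = y.c + cs P := by
  induction P with
  | nil => rfl
  | cons f P ih => simp only [plug, nd_c, cost_cons, ih, cs, List.map_cons, List.sum_cons]; omega

lemma sz_rev (P : List (Bool × Multiset Y)) : sz P.reverse = sz P := by
  simp [sz, List.map_reverse, List.sum_reverse]

lemma cs_rev (P : List (Bool × Multiset Y)) : cs P.reverse = cs P := by
  simp [cs, List.map_reverse, List.sum_reverse]

lemma reroot (P : List (Bool × Multiset Y)) (l1 l2 : Multiset Y) (hP : Path P) (h2 : OKs l2)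
    (h : Ext true (plug P (nd true l2) ::ₘ l1)) :
    Red true (plug P (nd true l2) ::ₘ l1) true (plug P.reverse (nd true l1) ::ₘ l2) := by
  have h1 := (oks_cons.1 h.oks).2
  refine h.red (cf_true (oks_cons.2 ⟨hP.rev.ok h1, h2⟩) cons_ne_zero) ?_ ?_ ?_
  · simp only [size_cons, plug_s, sz_rev, nd_s]; omega
  · simp only [cost_cons, plug_c, cs_rev, nd_c]; omega
  · rw [val hP l1 h2, val hP.rev l2 h1, mat_rev, Vv_symm]

lemma two {P : List (Bool × Multiset Y)} {l1 l2 : Multiset Y} (hP : Path P) (h2 : OKs l2)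
    (h : Ext true (plug P (nd true l2) ::ₘ l1)) (ds dc : ℤ) (f : ℚ) (hD : DP P ds dc f)
    (l1' l2' : Multiset Y) (k1 : OKs l1') (k2 : OKs l2')
    (hs : (size l1' + size l2' : ℤ) + ds = size l1 + size l2)
    (hc : (cost l1' + cost l2' : ℤ) + dc ≤ cost l1 + cost l2) :
    f * Vv ((mat P).b / (mat P).a) ((mat P).c / (mat P).a) ((mat P).d / (mat P).a) l1' l2' ≤
      Vv ((mat P).b / (mat P).a) ((mat P).c / (mat P).a) ((mat P).d / (mat P).a) l1 l2 := by
  refine le_of_mul_le_mul_left ?_ (mat_pos hP).1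
  rw [mul_left_comm, ← val hP l1' k2, ← val hP l1 h2]
  rcases hD with ⟨rfl, rfl, rfl⟩ | ⟨-, m, rfl, y, hy, y', a1, a2, a3, a4, a5⟩
  · rw [one_mul]
    refine h.le (oks_cons.2 ⟨hP.ok k2, k1⟩) cons_ne_zero ?_ ?_
    · simp only [size_cons, plug_s, nd_s]; omega
    · simp only [cost_cons, plug_c, nd_c]; omega
  · obtain ⟨m, rfl⟩ := exists_cons_of_mem hy
    obtain ⟨b1, b2⟩ := hP.1 _ (List.mem_cons_self ..)
    simp only [oks_cons, forall_const, mem_cons, forall_eq_or_imp] at b1 b2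
    have b3 : OKs (nd true l2' ::ₘ m) := oks_cons.2 ⟨ok_true k2, b1.2⟩
    have b4 := k1.msg_nonneg
    have b5 : (0 : ℚ) ≤ l1'.card := by positivity
    have e1 := (a5.nd b1.1 a1 b3 false false 1).root k1 (by linarith)
    rw [cons_swap y] at e1
    refine e1.trans (h.le (oks_cons.2 ⟨ok_false (oks_cons.2 ⟨a1, b3⟩) ?_, k1⟩) cons_ne_zero ?_ ?_)
    · simp only [mem_cons, forall_eq_or_imp]
      exact ⟨a2 b2.1, rfl, b2.2⟩
    · simp only [size_cons, plug, nd_s]; omega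
    · simp only [cost_cons, plug, nd_c]; omega

lemma rm_val {f : Bool × Multiset Y} {P : List (Bool × Multiset Y)} (hP : Path (f :: P))
    {l : Multiset Y} (hl : OKs l) :
    (mat (f :: P)).a * Rv ((mat (f :: P)).b / (mat (f :: P)).a)
      ((mat (f :: P)).d / (mat (f :: P)).a) 1 l ≤ rt (plug P (nd true l) ::ₘ f.2) := by
  obtain ⟨h1, h2⟩ := plug_data hP.tail hl
  obtain ⟨p1, p2, p3, p4, -⟩ := mat_pos hP.tail
  have a := (mat_pos hP).1
  have hf := (hP.1 f (List.mem_cons_self ..)).1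
  have d1 := dg_pos l
  have q1 := hl.prd_pos
  have q2 := hf.prd_pos
  have q3 := hf.msg_nonneg
  have q4 := hl.msg_nonneg
  have e : rt (plug P (nd true l) ::ₘ f.2) = prd f.2 / (f.2.card + 1) *
      ((plug P (nd true l)).Z * (Wf f.2 - 1) +
        (plug P (nd true l)).Z * (plug P (nd true l)).p) := by
    rw [rt_cons]; simp only [Wf]; ring
  have e' : (mat (f :: P)).a * Rv ((mat (f :: P)).b / (mat (f :: P)).a)
      ((mat (f :: P)).d / (mat (f :: P)).a) 1 l =
      prd l / dg l * ((mat (f :: P)).a * wt l + (mat (f :: P)).b - (mat (f :: P)).d) := by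
    simp only [Rv, dg, wt]
    field_simp
    ring
  rw [e, e', h2, h1, ← sub_nonneg]
  have w : 0 ≤ wt l := by unfold wt; positivity
  have : prd f.2 / (f.2.card + 1) *
      (prd l / dg l * ((mat P).a * wt l + (mat P).b) * (Wf f.2 - 1) +
        prd l / dg l * ((mat P).c * wt l + (mat P).d)) -
      prd l / dg l * ((mat (f :: P)).a * wt l + (mat (f :: P)).b - (mat (f :: P)).d) =
      prd l / dg l * (prd f.2 / ((f.2.card + 1) * (f.2.card + 2))) *
        ((msg f.2 * (mat P).a + (mat P).c) * wt l +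
          (f.2.card + 1 + msg f.2) * (mat P).b + (mat P).d) := by
    simp only [mat, kf, Wf]
    field_simp
    ring
  rw [this]
  positivity

lemma rm {P : List (Bool × Multiset Y)} {l1 l2 : Multiset Y} (hP : Path P) (h2 : OKs l2)
    (h : Ext true (plug P (nd true l2) ::ₘ l1)) (ds dc : ℤ) (f : ℚ) (hD : DP P ds dc f)
    (l' : Multiset Y) (k1 : OKs l') (k0 : l' ≠ 0)
    (hs : (size l' : ℤ) + ds = size l1 + size l2 + 1)
    (hc : (cost l' : ℤ) + dc ≤ cost l1 + cost l2 + 1) :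
    f * Rv ((mat P).b / (mat P).a) ((mat P).d / (mat P).a) (if P = [] then 0 else 1) l' ≤
      Vv ((mat P).b / (mat P).a) ((mat P).c / (mat P).a) ((mat P).d / (mat P).a) l1 l2 := by
  refine le_of_mul_le_mul_left ?_ (mat_pos hP).1
  rw [mul_left_comm, ← val hP l1 h2]
  rcases hD with ⟨rfl, rfl, rfl⟩ | ⟨f0, m, rfl, y, hy, y', a1, a2, a3, a4, a5⟩
  · rw [one_mul]
    cases P with
    | nil =>
      have : (mat []).a * Rv ((mat []).b / (mat []).a) ((mat []).d / (mat []).a)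
          (if ([] : List (Bool × Multiset Y)) = [] then 0 else 1) l' = rt l' := by
        simp [mat, Rv, rt]
      rw [this]
      refine h.le k1 k0 ?_ ?_
      · simp only [size_cons, plug, nd_s]; omega
      · simp only [cost_cons, plug, nd_c, Bool.toNat_true]; omega
    | cons g P =>
      rw [if_neg (List.cons_ne_nil _ _)]
      have hg := hP.1 g (List.mem_cons_self ..)
      refine (rm_val hP k1).trans (h.2 g.1 _ ⟨oks_cons.2 ⟨hP.tail.ok k1, hg.1⟩, fun k z hz => ?_,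
        cons_ne_zero⟩ ?_ ?_)
      · rcases mem_cons.1 hz with rfl | hz
        · exact hP.plug_b k l'
        · exact hg.2 k z hz
      · simp only [size_cons, plug, plug_s, nd_s]; omega
      · simp only [cost_cons, plug, plug_c, nd_c, Bool.toNat_true]; omega
  · rw [if_neg (List.cons_ne_nil _ _)]
    obtain ⟨m, rfl⟩ := exists_cons_of_mem hy
    obtain ⟨b1, b2⟩ := hP.1 _ (List.mem_cons_self ..)
    simp only [oks_cons, forall_const, mem_cons, forall_eq_or_imp] at b1 b2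
    have b3 : OKs (nd true l' ::ₘ m) := oks_cons.2 ⟨ok_true k1, b1.2⟩
    have b4 := b3.msg_nonneg
    have b5 := card_ge_one (l := nd true l' ::ₘ m) cons_ne_zero
    have e1 := a5.root b3 (by linarith)
    rw [cons_swap y] at e1
    refine (mul_le_mul_of_nonneg_left (rm_val hP k1) f0).trans (e1.trans
      (h.2 false _ ⟨oks_cons.2 ⟨a1, b3⟩, fun _ => ?_, cons_ne_zero⟩ ?_ ?_))
    · simp only [mem_cons, forall_eq_or_imp]
      exact ⟨a2 b2.1, rfl, b2.2⟩
    · simp only [size_cons, plug, nd_s]; omega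
    · simp only [cost_cons, plug, nd_c, Bool.toNat_true, Bool.toNat_false]; omega

lemma loc {P : List (Bool × Multiset Y)} {l1 l2 : Multiset Y} (hP : Path P) (h2 : OKs l2)
    (n2 : l2 ≠ 0) (h : Ext true (plug P (nd true l2) ::ₘ l1)) :
    ∃ U, U.p < 1 / 2 ∧ Ext true (U ::ₘ l1) ∧
      ∀ ds dc f, Deal (nd true l2) ds dc f → Deal U ds dc f := by
  refine ⟨_, ?_, h, fun _ _ _ k => k.plug hP h2⟩
  cases P with
  | nil => exact nd_p_lt h2 n2
  | cons g P =>
    exact nd_p_lt (oks_cons.2 ⟨hP.tail.ok h2, (hP.1 g (List.mem_cons_self ..)).1⟩) cons_ne_zero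

lemma dp_rev {P : List (Bool × Multiset Y)} {ds dc : ℤ} {f : ℚ} (h : DP P ds dc f) :
    DP P.reverse ds dc f := by
  rcases h with h | ⟨f0, m, rfl, h⟩
  · exact Or.inl h
  · exact Or.inr ⟨f0, m, rfl, h⟩

lemma pe (P : List (Bool × Multiset Y)) (l1 l2 : Multiset Y) (hP : Path P) (h2 : OKs l2)
    (n1 : l1 ≠ 0) (n2 : l2 ≠ 0) (h : Ext true (plug P (nd true l2) ::ₘ l1)) :
    ∃ β γ e δ, PE (DP P) l1 l2 β γ e δ ∧
      ∀ m, P = [(false, m)] → δ = 1 ∧ β = γ ∧ γ = 1 / (m.card + 2 + msg m) := by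
  have h1 := (oks_cons.1 h.oks).2
  have h' := (reroot P l1 l2 hP h2 h).1
  refine ⟨_, _, _, _, ⟨h1, h2, n1, n2, cx hP, Or.inl ⟨rfl, rfl, rfl⟩, two hP h2 h, rm hP h2 h,
    fun ds dc f k l' a b c d => ?_, loc hP h2 n2 h, loc hP.rev h1 n1 h'⟩, ?_⟩
  · have := rm hP.rev h1 h' ds dc f (dp_rev k) l' a b (by omega) (by omega)
    rw [mat_rev, Vv_symm] at this
    simpa only [List.reverse_eq_nil_iff] using this
  · rintro m rfl
    have hm : OKs m := (hP.1 _ (List.mem_cons_self ..)).1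
    have k := kf_pos hm
    have w := Wf_two hm
    refine ⟨by simp, by simp [mat], ?_⟩
    change _ = 1 / Wf m
    simp only [mat]
    field_simp
    ring

lemma fin {p G d1 d2 N q E : ℚ} (hp : 0 < p) (h1 : 0 < d1) (h2 : 0 < d2) (hE : 0 < E)
    (k1 : p * N ≤ q) (k2 : q / E ≤ p * G / (d1 * d2)) : N * d1 * d2 - G * E ≤ 0 := by
  rw [div_le_div_iff₀ hE (by positivity)] at k2
  have := mul_le_mul_of_nonneg_right k1 (mul_pos h1 h2).le
  refine le_of_mul_le_mul_left ?_ hp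
  linarith

lemma vv_L (β γ e : ℚ) (l : Multiset Y) :
    Vv β γ e {L} l = prd l * ((3 + γ) * wt l + 3 * β + e) / (2 * dg l) := by
  have e1 : wt {L} = 3 := by norm_num [wt]
  have e2 : dg {L} = 2 := by norm_num [dg]
  simp only [Vv, Gv, e1, e2, prd_sing, L_Z]
  ring

variable {D : ℤ → ℤ → ℚ → Prop} {l1 l2 : Multiset Y} {β γ e δ f τ ε : ℚ}

lemma noP1 (h : PE D l1 l2 β γ e δ) (k : Kit (l1 + l2) (-1) 0 f τ ε) :
    FP f τ ε (wt l1) (wt l2) (dg l1) (dg l2) β γ e ≤ 0 := by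
  obtain ⟨l', a1, -, a3, a4, a5, a6⟩ := k
  have b : 0 ≤ β ∧ 0 ≤ γ ∧ 0 ≤ e ∧ 2 * (3 * β + e) ≤ 3 + γ := by
    rcases h.cx with ⟨rfl, rfl, rfl, -⟩ | ⟨-, b1, b2, b3, b4, b5, b6, b7, -⟩
    · norm_num
    · exact ⟨b1, b3, b5, by linarith⟩
  obtain ⟨b1, b2, b3, b4⟩ := b
  have g : 0 < 3 + γ := by linarith
  have c1 := mul_le_mul_of_nonneg_left (a6 (1 + (3 * β + e) / (3 + γ)) (by positivity) (by
    have : (3 * β + e) / (3 + γ) ≤ 1 / 2 := by
      rw [div_le_div_iff₀ g (by norm_num)]; linarith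
    linarith)) g.le
  have c2 := h.le (l1' := {L}) (oks_sing.2 ok_L) a1
    (by simp only [size_add, size_sing, L_s] at a3 ⊢; omega)
    (by simp only [cost_add, cost_sing, L_c] at a4 ⊢; omega)
  rw [vv_L] at c2
  have c3 := fin (N := f * ((3 + γ) * (wt l1 + wt l2 - 1 - ε) + 3 * β + e))
    (mul_pos h.ok1.prd_pos h.ok2.prd_pos) (dg_pos l1) (dg_pos l2)
    (mul_pos two_pos (dg_pos l')) (le_of_eq_of_le ?_ (c1.trans_eq ?_)) c2
  · have : dg l' = dg l1 + dg l2 - 1 - τ := by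
      simp only [dg, a5, card_add]; push_cast; ring
    rw [this] at c3
    unfold FP
    linarith
  · simp only [wt, prd_add, msg_add, card_add]
    push_cast
    field_simp
    ring
  · simp only [wt]
    field_simp
    ring

lemma noPx1 (h : PE D l1 l2 β γ e δ) (k : D (-1) 0 f) :
    FP f 0 0 (wt l1) (wt l2) (dg l1) (dg l2) β γ e ≤ 0 := by
  have c2 := h.two _ _ _ k {L} (l1 + l2) (oks_sing.2 ok_L) (oks_add.2 ⟨h.ok1, h.ok2⟩)
    (by simp only [size_add, size_sing, L_s]; omega)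
    (by simp only [cost_add, cost_sing, L_c]; omega)
  rw [vv_L, ← mul_div_assoc] at c2
  have c3 := fin (N := f * ((3 + γ) * (wt l1 + wt l2 - 1 - 0) + 3 * β + e))
    (mul_pos h.ok1.prd_pos h.ok2.prd_pos) (dg_pos l1) (dg_pos l2)
    (mul_pos two_pos (dg_pos (l1 + l2))) (le_of_eq ?_) c2
  · have : dg (l1 + l2) = dg l1 + dg l2 - 1 - 0 := by
      simp only [dg, card_add]; push_cast; ring
    rw [this] at c3
    unfold FP
    linarith
  · simp only [wt, prd_add, msg_add, card_add]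
    push_cast
    ring

lemma cx_t (h : Cx β γ e δ) : 0 ≤ δ ∧ 0 ≤ δ * (1 + β - e) ∧ δ * (1 + β - e) ≤ 3 / 2 := by
  rcases h with ⟨rfl, rfl, rfl, rfl⟩ | ⟨rfl, b1, b2, b3, b4, b5, b6, b7, -⟩
  · norm_num
  · exact ⟨by norm_num, by linarith, by linarith⟩

lemma noR1 (h : PE D l1 l2 β γ e δ) (k : Kit (l1 + l2) 1 1 f τ ε) :
    FR f τ ε (wt l1) (wt l2) (dg l1) (dg l2) β γ e δ ≤ 0 := by
  obtain ⟨l', a1, a2, a3, a4, a5, a6⟩ := k
  obtain ⟨b1, b2, b3⟩ := cx_t h.cx
  have c1 := a6 _ b2 b3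
  have c2 := h.rm1 0 0 1 h.d0 l' a1 a2 (by simp only [size_add] at a3; omega)
    (by simp only [cost_add] at a4; omega)
  rw [one_mul] at c2
  have c0 := card_ge_one a2
  have c3 := fin (N := f * (wt l1 + wt l2 - 2 - ε + δ * (1 + β - e)))
    (mul_pos h.ok1.prd_pos h.ok2.prd_pos) (dg_pos l1) (dg_pos l2)
    (by linarith : (0 : ℚ) < l'.card + δ) (le_of_eq_of_le ?_ c1) c2
  · have : (l'.card : ℚ) + δ = dg l1 + dg l2 - 2 - τ + δ := by
      simp only [dg, a5, card_add]; push_cast; ring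
    rw [this] at c3
    exact c3
  · simp only [wt, prd_add, msg_add, card_add]
    push_cast
    ring

lemma noRx1 (h : PE D l1 l2 β γ e δ) (k : D 1 1 f) :
    FR f 0 0 (wt l1) (wt l2) (dg l1) (dg l2) β γ e δ ≤ 0 := by
  obtain ⟨b1, -, -⟩ := cx_t h.cx
  have a2 : l1 + l2 ≠ 0 := fun k => h.ne1 (add_eq_zero.1 k).1
  have c2 := h.rm1 _ _ _ k (l1 + l2) (oks_add.2 ⟨h.ok1, h.ok2⟩) a2
    (by simp only [size_add]; omega) (by simp only [cost_add]; omega)
  rw [Rv, ← mul_div_assoc] at c2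
  have c0 := card_ge_one a2
  have c3 := fin (N := f * (wt l1 + wt l2 - 2 - 0 + δ * (1 + β - e)))
    (mul_pos h.ok1.prd_pos h.ok2.prd_pos) (dg_pos l1) (dg_pos l2)
    (by linarith : (0 : ℚ) < (l1 + l2).card + δ) (le_of_eq ?_) c2
  · have : ((l1 + l2).card : ℚ) + δ = dg l1 + dg l2 - 2 - 0 + δ := by
      simp only [dg, card_add]; push_cast; ring
    rw [this] at c3
    exact c3
  · simp only [wt, prd_add, msg_add, card_add]
    push_cast
    ring

end Ctx

theorem ctxS : CtxS where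
  reroot := Ctx.reroot
  pe := Ctx.pe
  noP := fun h k => ⟨Ctx.noP1 h k, Ctx.noP1 h.symm (by rwa [add_comm])⟩
  noR := fun h k => ⟨Ctx.noR1 h k, Ctx.noR1 h.symm (by rwa [add_comm])⟩
  noPx := fun h k => ⟨Ctx.noPx1 h k, Ctx.noPx1 h.symm k⟩
  noRx := fun h k => ⟨Ctx.noRx1 h k, Ctx.noRx1 h.symm k⟩

end Pool.Agent.Lib.MP_70d11c_co.Q2
end

-- part Pool.Agent.Lib.MP_70d11c_co.Q2.Loc
section

/-!
Local inequalities.
-/

namespace Pool.Agent.Lib.MP_70d11c_co.Q2

open Multiset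

namespace Loc

lemma St_Zp (a : ℕ) (t : ℚ) : (St a).Z * (1 + t * (St a).p) = (2 * a + 1 + t) / (a + 1) := by
  simp only [St_Z, St_p]; field_simp

lemma Aa_Zp (a : ℕ) (t : ℚ) :
    (Aa a).Z * (1 + t * (Aa a).p) = (4 * a + 3 + t * (2 * a + 1)) / (2 * a + 2) := by
  simp only [Aa_Z, Aa_p, pathZ, pathp]; field_simp

lemma Hb_Zp (b : ℕ) (t : ℚ) :
    (Hb b).Z * (1 + t * (Hb b).p) = (3 / 2) ^ b * ((4 * b + 3 + 3 * t) / (3 * b + 3)) := by
  simp only [Hb_Z, Hb_p, hubZ, hubp]; field_simp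

lemma BB_Zp (N : ℕ) (t : ℚ) :
    (BB N).Z * (1 + t * (BB N).p) = (7 / 4) ^ N * ((10 * N + 7 + 7 * t) / (7 * N + 7)) := by
  simp only [BB_Z, BB_p, superZ, superp]; field_simp

/-- a centre with `k` copies of `Hb 2` and `m` copies of `Hb 1` -/
def MX (k m : ℕ) : Y := nd true (replicate k (Hb 2) + replicate m (Hb 1))

lemma oks_MX (k m : ℕ) : OKs (replicate k (Hb 2) + replicate m (Hb 1)) :=
  oks_add.2 ⟨oks_rep (ok_Hb 2) k, oks_rep (ok_Hb 1) m⟩

lemma MX_Zp (k m : ℕ) (t : ℚ) : (MX k m).Z * (1 + t * (MX k m).p) =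
    (7 / 4) ^ m * ((11 / 4) ^ k * (k + m + 1 + (3 / 11 * k + 3 / 7 * m) + t) / (k + m + 1)) := by
  rw [MX, nd_Zp (oks_MX k m)]
  simp only [prd_add, prd_rep, msg_add, msg_rep, card_add, card_replicate, Hb_Z, Hb_p, hubZ_one,
    hubZ_two, hubp_one, hubp_two]
  push_cast
  ring

lemma deal_BB (k j m : ℕ) {ds dc : ℤ} {f : ℚ} (hs : ds = 5 * k - 3 * j) (hc : dc = 2 * k - j)
    (h : ∀ t : ℚ, 0 ≤ t → t ≤ 1 / 2 →
      f * (7 / 4) ^ j * (10 * (m + j) + 7 + 7 * t) * (k + m + 1) ≤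
        (11 / 4) ^ k * (k + m + 1 + (3 / 11 * k + 3 / 7 * m) + t) * (7 * (m + j) + 7)) :
    Deal (BB (m + j)) ds dc f := by
  refine ⟨MX k m, ok_true (oks_MX k m), fun _ => rfl, by simp [MX, hs]; ring,
    by simp [MX, hc]; omega, fun t h0 h1 => ?_⟩
  rw [BB_Zp, MX_Zp, pow_add]
  push_cast
  have key : f * (7 / 4) ^ j * (10 * (m + j) + 7 + 7 * t) / (7 * (m + j) + 7) ≤
      (11 / 4) ^ k * (k + m + 1 + (3 / 11 * k + 3 / 7 * m) + t) / (k + m + 1) := by
    rw [div_le_div_iff₀ (by positivity) (by positivity)]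
    exact h t h0 h1
  refine le_of_eq_of_le ?_ (mul_le_mul_of_nonneg_left key (by positivity))
  ring

lemma res (N : ℕ) (hN : 11 ≤ N) : Res (BB N) := by
  obtain ⟨x, rfl⟩ : ∃ x, N = x + 11 := ⟨N - 11, by omega⟩
  have hx : (0 : ℚ) ≤ x := Nat.cast_nonneg x
  refine ⟨deal_BB 1 1 (x + 10) rfl rfl fun t h0 h1 => ?_,
    deal_BB 0 1 (x + 10) rfl rfl fun t h0 h1 => ?_,
    deal_BB 2 3 (x + 8) rfl rfl fun t h0 h1 => ?_,
    deal_BB 1 2 (x + 9) rfl rfl fun t h0 h1 => ?_⟩ <;>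
  · push_cast
    nlinarith [mul_nonneg hx hx, mul_nonneg hx h0, mul_nonneg hx (sub_nonneg.2 h1)]

lemma dA (a : ℕ) (ha : 2 ≤ a) : Deal0 (1 / 2) (Aa a) (-1) 0 (17 / 18) := by
  obtain ⟨x, rfl⟩ : ∃ x, a = x + 2 := ⟨a - 2, by omega⟩
  have hx : (0 : ℚ) ≤ x := Nat.cast_nonneg x
  refine ⟨Aa (x + 1), ok_Aa _, by simp; ring, by simp, fun t h0 h1 => ?_⟩
  rw [Aa_Zp, Aa_Zp, ← mul_div_assoc, div_le_div_iff₀ (by positivity) (by positivity)]
  push_cast
  nlinarith [mul_nonneg hx hx, mul_nonneg hx h0, mul_nonneg hx (sub_nonneg.2 h1),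
    mul_nonneg (mul_nonneg hx hx) h0]

lemma dPA : Deal0 (1 / 2) P2 1 0 (7 / 6) := by
  refine ⟨Hb 1, ok_Hb _, by simp, by simp, fun t h0 h1 => ?_⟩
  rw [Hb_Zp, P2_Z, P2_p]
  norm_num
  linarith

lemma dPH : Deal0 (1 / 2) P2 3 1 (25 / 14) := by
  refine ⟨Hb 2, ok_Hb _, by simp, by simp, fun t h0 h1 => ?_⟩
  rw [Hb_Zp, P2_Z, P2_p]
  norm_num
  linarith

lemma deal_Hb (c : ℕ) {f : ℚ} (h : ∀ t : ℚ, 0 ≤ t → t ≤ 1 / 2 →
    f * (3 / 2) * (4 * c + 7 + 3 * t) * (3 * c + 3) ≤ (4 * c + 3 + 3 * t) * (3 * c + 6)) :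
    Deal0 (1 / 2) (Hb (c + 1)) (-2) (-1) f := by
  refine ⟨Hb c, ok_Hb _, by simp; ring, by simp, fun t h0 h1 => ?_⟩
  rw [Hb_Zp, Hb_Zp, pow_succ]
  push_cast
  have key : f * (3 / 2) * (4 * c + 7 + 3 * t) / (3 * c + 6) ≤ (4 * c + 3 + 3 * t) / (3 * c + 3) := by
    rw [div_le_div_iff₀ (by positivity) (by positivity)]
    exact h t h0 h1
  refine le_of_eq_of_le ?_ (mul_le_mul_of_nonneg_left key (by positivity))
  field_simp
  ring

lemma dH3 (b : ℕ) (hb : 3 ≤ b) : Deal0 (1 / 2) (Hb b) (-2) (-1) (88 / 135) := by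
  obtain ⟨x, rfl⟩ : ∃ x, b = x + 2 + 1 := ⟨b - 3, by omega⟩
  have hx : (0 : ℚ) ≤ x := Nat.cast_nonneg x
  refine deal_Hb _ fun t h0 h1 => ?_
  push_cast
  nlinarith [mul_nonneg hx hx, mul_nonneg hx h0]

lemma dH6 (b : ℕ) (hb : 6 ≤ b) : Deal0 (1 / 2) (Hb b) (-2) (-1) (161 / 243) := by
  obtain ⟨x, rfl⟩ : ∃ x, b = x + 5 + 1 := ⟨b - 6, by omega⟩
  have hx : (0 : ℚ) ≤ x := Nat.cast_nonneg x
  refine deal_Hb _ fun t h0 h1 => ?_
  push_cast
  nlinarith [mul_nonneg hx hx, mul_nonneg hx h0]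

lemma dH2 : Deal0 (3 / 14) (Hb 2) 2 1 (1511 / 1000) := by
  refine ⟨Hb 3, ok_Hb _, by simp, by simp, fun t h0 h1 => ?_⟩
  rw [Hb_Zp, Hb_Zp]
  norm_num
  linarith

lemma e1 (a : ℕ) (ha : 2 ≤ a) : Imp 1 (St a) := by
  obtain ⟨x, rfl⟩ : ∃ x, a = x + 2 := ⟨a - 2, by omega⟩
  have hx : (0 : ℚ) ≤ x := Nat.cast_nonneg x
  refine ⟨Aa (x + 1), ok_Aa _, by simp, by simp, fun t h0 h1 => ?_⟩
  rw [St_Zp, Aa_Zp, div_lt_div_iff₀ (by positivity) (by positivity)]
  push_cast
  nlinarith [mul_nonneg hx hx, mul_nonneg hx h0, mul_nonneg (mul_nonneg hx hx) h0]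

lemma aff {A B x hi : ℚ} (h0 : 0 ≤ x) (h1 : x ≤ hi) (hA : 0 ≤ A) (hB : 0 ≤ A + B * hi) :
    0 ≤ A + B * x := by
  rcases le_total 0 B with h | h
  · positivity
  · nlinarith

lemma split_num {x D R : ℚ} (hx : 0 ≤ x) (hD : 0 ≤ D) (h0 : 0 ≤ R) (h1 : R ≤ 2 * D + 5 / 2) :
    27 / 25 * (3 / 2 * ((4 * x + 11) * R + 3) / ((3 * x + 9) * (D + 2))) ≤
      7 / 4 * ((4 * x + 7) * (R + 10 / 7) + 3) / ((3 * x + 6) * (D + 3)) := by
  rw [← mul_div_assoc, div_le_div_iff₀ (by positivity) (by positivity), ← sub_nonneg]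
  have := aff (A := 7 / 4 * ((4 * x + 7) * (10 / 7) + 3) * ((3 * x + 9) * (D + 2)) -
      27 / 25 * (3 / 2 * 3) * ((3 * x + 6) * (D + 3)))
    (B := 7 / 4 * (4 * x + 7) * ((3 * x + 9) * (D + 2)) -
      27 / 25 * (3 / 2 * (4 * x + 11)) * ((3 * x + 6) * (D + 3))) h0 h1
    (by nlinarith [mul_nonneg hx hx, mul_nonneg hx hD, mul_nonneg (mul_nonneg hx hx) hD])
    (by nlinarith [mul_nonneg hx hx, mul_nonneg hx hD, mul_nonneg (mul_nonneg hx hx) hD,
      mul_nonneg hD hD, mul_nonneg hx (mul_nonneg hD hD),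
      mul_nonneg (mul_nonneg hx hx) (mul_nonneg hD hD)])
  linarith

lemma split (y : Y) (b : ℕ) (l : Multiset Y) (h : Ext true (y ::ₘ Hb b ::ₘ l)) (hb : 2 ≤ b)
    (hp : y.p < 1 / 2) (hd : Deal0 (1 / 2) y (-1) 0 (17 / 18)) : False := by
  obtain ⟨x, rfl⟩ : ∃ x, b = x + 2 := ⟨b - 2, by omega⟩
  obtain ⟨z, a1, a2, a3, a4⟩ := hd
  have ok := h.oks
  simp only [oks_cons] at ok
  obtain ⟨oy, -, ol⟩ := ok
  have hx : (0 : ℚ) ≤ x := Nat.cast_nonneg x
  have hD : (0 : ℚ) ≤ l.card := Nat.cast_nonneg _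
  have k0 := ol.msg_nonneg
  have k1 := ol.msg_le
  have k2 := oy.p_pos
  have k3 := oy.Z_pos
  have k4 := ol.prd_pos
  have ok' : OKs (Hb (x + 1) ::ₘ Hb 1 ::ₘ l) := by simp [ok_Hb, ol]
  have e1 := a4.root ok' (by
    have := ok'.msg_nonneg
    simp only [card_cons]; push_cast; linarith)
  have e2 := h.le (l' := z ::ₘ Hb (x + 1) ::ₘ Hb 1 ::ₘ l) (oks_cons.2 ⟨a1, ok'⟩) cons_ne_zero
    (by simp; omega) (by simp; omega)
  have e3 := rt_pos h.oks cons_ne_zero
  have e4 : 27 / 25 * rt (y ::ₘ Hb (x + 2) ::ₘ l) ≤ rt (y ::ₘ Hb (x + 1) ::ₘ Hb 1 ::ₘ l) := by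
    have := mul_le_mul_of_nonneg_left (split_num (R := l.card + 2 + msg l + y.p) hx hD
      (by positivity) (by linarith)) (show 0 ≤ y.Z * prd l * (3 / 2) ^ (x + 1) by positivity)
    refine le_of_eq_of_le ?_ (this.trans_eq ?_) <;>
    · simp only [rt, prd_cons, msg_cons, card_cons, Hb_Z, Hb_p, hubZ, hubp]
      push_cast
      field_simp
      ring
  linarith

lemma ea (U : Y) (j : ℕ) (h : Ext true (U ::ₘ Hb 1 ::ₘ replicate j P2)) : j ≤ 2 := by
  by_contra hj
  obtain ⟨x, rfl⟩ : ∃ x, j = x + 3 := ⟨j - 3, by omega⟩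
  have oU := (oks_cons.1 h.oks).1
  have hx : (0 : ℚ) ≤ x := Nat.cast_nonneg x
  have k2 := oU.p_pos
  have k3 := oU.Z_pos
  have e := h.le (l' := U ::ₘ Hb 2 ::ₘ replicate (x + 2) P2)
    (by simp only [oks_cons]; exact ⟨oU, ok_Hb 2, oks_rep ok_P2 _⟩) cons_ne_zero
    (by simp only [size_cons, size_rep, Hb_s, P2_s]; omega)
    (by simp only [cost_cons, cost_rep, Hb_c, P2_c]; omega)
  have key : 7 / 4 * (3 / 2) * (x + 5 + (U.p + 3 / 7 + (x + 3) / 3)) / (x + 5) <
      11 / 4 * (x + 4 + (U.p + 3 / 11 + (x + 2) / 3)) / (x + 4) := by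
    rw [div_lt_div_iff₀ (by positivity) (by positivity)]
    nlinarith [mul_nonneg hx hx, mul_nonneg hx k2.le]
  have := mul_lt_mul_of_pos_left key (show 0 < U.Z * (3 / 2) ^ (x + 2) by positivity)
  refine absurd e (not_le.2 (lt_of_eq_of_lt ?_ (this.trans_eq ?_))) <;>
  · simp only [rt, prd_cons, msg_cons, card_cons, prd_rep, msg_rep, card_replicate, Hb_Z, Hb_p,
      hubZ_one, hubZ_two, hubp_one, hubp_two, P2_Z, P2_p]
    push_cast
    field_simp
    ring

lemma eb (U : Y) (j m : ℕ) (h : Ext true (U ::ₘ (replicate j P2 + replicate m (Hb 2))))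
    (h1 : 1 ≤ m) (h2 : m ≤ 2) : j ≤ 3 := by
  by_contra hj
  obtain ⟨x, rfl⟩ : ∃ x, j = x + 4 := ⟨j - 4, by omega⟩
  obtain ⟨u, rfl⟩ : ∃ u, m = u + 1 := ⟨m - 1, by omega⟩
  have oU := (oks_cons.1 h.oks).1
  have hx : (0 : ℚ) ≤ x := Nat.cast_nonneg x
  have hu : (0 : ℚ) ≤ u := Nat.cast_nonneg u
  have hu' : (u : ℚ) = 0 ∨ (u : ℚ) = 1 := by
    have : u = 0 ∨ u = 1 := by omega
    exact_mod_cast this
  have k2 := oU.p_pos
  have k3 := oU.Z_pos
  have e := h.le (l' := U ::ₘ Hb 3 ::ₘ (replicate (x + 3) P2 + replicate u (Hb 2)))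
    (by simp only [oks_cons, oks_add]; exact ⟨oU, ok_Hb 3, oks_rep ok_P2 _, oks_rep (ok_Hb 2) _⟩)
    cons_ne_zero
    (by simp only [size_cons, size_add, size_rep, Hb_s, P2_s]; omega)
    (by simp only [cost_cons, cost_add, cost_rep, Hb_c, P2_c]; omega)
  have key : 11 / 4 * (3 / 2) * (x + u + 6 + (U.p + (x + 4) / 3 + (u + 1) * (3 / 11))) /
      (x + u + 6) < 135 / 32 * (x + u + 5 + (U.p + 1 / 5 + (x + 3) / 3 + u * (3 / 11))) /
        (x + u + 5) := by
    rw [div_lt_div_iff₀ (by positivity) (by positivity)]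
    rcases hu' with h | h <;> rw [h] <;> nlinarith [mul_nonneg hx hx, mul_nonneg hx k2.le]
  have := mul_lt_mul_of_pos_left key
    (show 0 < U.Z * (3 / 2) ^ (x + 3) * (11 / 4) ^ u by positivity)
  have z3 : hubZ 3 = 135 / 32 := by norm_num [hubZ]
  have p3 : hubp 3 = 1 / 5 := by norm_num [hubp]
  refine absurd e (not_le.2 (lt_of_eq_of_lt ?_ (this.trans_eq ?_))) <;>
  · simp only [rt, prd_cons, msg_cons, card_cons, prd_add, msg_add, card_add, prd_rep, msg_rep,
      card_replicate, Hb_Z, Hb_p, hubZ_two, hubp_two, z3, p3, P2_Z, P2_p]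
    push_cast
    field_simp
    ring

/-- moving one unit from the larger to the smaller branch improves -/
def Bal (f : ℕ → Y) (R0 : ℚ) : Prop := ∀ (c e : ℕ) (R : ℚ), R0 ≤ R →
  (f (c + e + 2)).Z * (f c).Z * (R + (f (c + e + 2)).p + (f c).p) <
    (f (c + e + 1)).Z * (f (c + 1)).Z * (R + (f (c + e + 1)).p + (f (c + 1)).p)

lemma bal_of {f : ℕ → Y} {R0 : ℚ} {q : ℚ} (hq : 0 < q) (A : ℚ → ℚ) (B : ℚ → ℚ → ℚ)
    (key : ∀ (a c : ℕ) (R : ℚ), (f a).Z * (f c).Z * (R + (f a).p + (f c).p) =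
      q ^ (a + c) * (A R - B R (a + c) / ((a + 1) * (c + 1))))
    (hB : ∀ R S, R0 ≤ R → 2 ≤ S → 0 < B R S) : Bal f R0 := by
  intro c e R hR
  have hc : (0 : ℚ) ≤ c := Nat.cast_nonneg c
  have he : (0 : ℚ) ≤ e := Nat.cast_nonneg e
  rw [key, key, show c + e + 1 + (c + 1) = c + e + 2 + c by ring]
  push_cast
  rw [show (c : ℚ) + e + 1 + (c + 1) = c + e + 2 + c by ring]
  refine mul_lt_mul_of_pos_left (sub_lt_sub_left ?_ _) (by positivity)
  exact div_lt_div_of_pos_left (hB _ _ hR (by linarith)) (by positivity) (by nlinarith)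

lemma bal_A : Bal Aa 2 := by
  refine bal_of one_pos (fun R => 4 * R + 4) (fun R S => (S + 2) * (R + 3 / 2) - (R + 2) / 4)
    (fun a c R => ?_) fun R S hR hS => by nlinarith
  simp only [Aa_Z, Aa_p, pathZ, pathp, one_pow]
  field_simp
  ring

lemma bal_H : Bal Hb 3 := by
  refine bal_of (q := 3 / 2) (by norm_num) (fun R => 16 * R / 9)
    (fun R S => (R * (4 * (S + 2) - 1) - 12 * (S + 2) + 6) / 9)
    (fun a c R => ?_) fun R S hR hS => by nlinarith
  simp only [Hb_Z, Hb_p, hubZ, hubp, pow_add]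
  field_simp
  ring

lemma bal_B : Bal BB 3 := by
  refine bal_of (q := 7 / 4) (by norm_num) (fun R => 100 * R / 49)
    (fun R S => ((S + 2) * (30 * R - 70) - (9 * R - 42)) / 49)
    (fun a c R => ?_) fun R S hR hS => by nlinarith
  simp only [BB_Z, BB_p, superZ, superp, pow_add]
  field_simp
  ring

lemma bal_root {f : ℕ → Y} {R0 : ℚ} (hf : Bal f R0) (ok : ∀ a, OK (f a))
    (hs : ∀ c e, (f (c + e + 1)).s + (f (c + 1)).s = (f (c + e + 2)).s + (f c).s)
    (hc : ∀ c e, (f (c + e + 1)).c + (f (c + 1)).c = (f (c + e + 2)).c + (f c).c)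
    {a c : ℕ} {l : Multiset Y} (h : Ext true (f a ::ₘ f c ::ₘ l)) (hl : R0 ≤ l.card + 2) :
    a ≤ c + 1 := by
  by_contra hac
  obtain ⟨e, rfl⟩ : ∃ e, a = c + e + 2 := ⟨a - c - 2, by omega⟩
  have ol := (oks_cons.1 (oks_cons.1 h.oks).2).2
  have k0 := ol.msg_nonneg
  have k4 := ol.prd_pos
  have h1 := hs c e
  have h2 := hc c e
  have e1 := h.le (l' := f (c + e + 1) ::ₘ f (c + 1) ::ₘ l) (by simp [ok, ol]) cons_ne_zero
    (by simp only [size_cons]; omega) (by simp only [cost_cons]; omega)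
  have := mul_lt_mul_of_pos_left (hf c e (l.card + 2 + msg l) (by linarith))
    (show 0 < prd l / (l.card + 2) by positivity)
  refine absurd e1 (not_le.2 (lt_of_eq_of_lt ?_ (this.trans_eq ?_))) <;>
  · simp only [rt, prd_cons, msg_cons, card_cons]
    push_cast
    field_simp
    ring

lemma balM (a c : ℕ) (m : Multiset Y) (hm : OKs m) (hb : ∀ z ∈ m, z.b = true) (hac : c + 2 ≤ a) :
    Imp 1 (nd false (BB a ::ₘ BB c ::ₘ m)) := by
  obtain ⟨e, rfl⟩ : ∃ e, a = c + e + 2 := ⟨a - c - 2, by omega⟩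
  have ok : ∀ u v, OKs (BB u ::ₘ BB v ::ₘ m) := fun u v => by simp [ok_BB, hm]
  have k0 := hm.msg_nonneg
  have k4 := hm.prd_pos
  have hD : (0 : ℚ) ≤ m.card := Nat.cast_nonneg _
  refine ⟨nd false (BB (c + e + 1) ::ₘ BB (c + 1) ::ₘ m), ok_false (ok _ _) fun z hz => ?_,
    by simp; omega, by simp; omega, fun t h0 _ => ?_⟩
  · simp only [mem_cons] at hz
    rcases hz with rfl | rfl | hz
    exacts [rfl, rfl, hb z hz]
  rw [nd_Zp (ok _ _), nd_Zp (ok _ _)]
  have := mul_lt_mul_of_pos_left (bal_B c e (m.card + 3 + msg m + t) (by linarith))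
    (show 0 < prd m / (m.card + 3) by positivity)
  refine lt_of_eq_of_lt ?_ (this.trans_eq ?_) <;>
  · simp only [prd_cons, msg_cons, card_cons]
    push_cast
    field_simp
    ring

end Loc

theorem locS : LocS where
  res := Loc.res
  dA := Loc.dA
  dPA := Loc.dPA
  dPH := Loc.dPH
  dH3 := Loc.dH3
  dH6 := Loc.dH6
  dH2 := Loc.dH2
  e1 := Loc.e1
  split := Loc.split
  ea := Loc.ea
  eb := Loc.eb
  balA := fun _ _ l h => Loc.bal_root Loc.bal_A ok_Aa (fun _ _ => by simp; omega)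
    (fun _ _ => by simp) h (by have : (0 : ℚ) ≤ l.card := Nat.cast_nonneg _; linarith)
  balH := fun _ _ _ h h0 => Loc.bal_root Loc.bal_H ok_Hb (fun _ _ => by simp; omega)
    (fun _ _ => by simp; omega) h (by linarith [card_ge_one h0])
  balB := fun _ _ _ h h0 => Loc.bal_root Loc.bal_B ok_BB (fun _ _ => by simp; omega)
    (fun _ _ => by simp; omega) h (by linarith [card_ge_one h0])
  balM := Loc.balM

end Pool.Agent.Lib.MP_70d11c_co.Q2
end
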