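import Pool.Agent.Lib.MP_70d11c_co.Q2.PairA

-- part Pool.Agent.Lib.MP_70d11c_co.Q2.PairH
section

/-!
Pairs of centres whose children are pendant 2-paths and hubs.
-/

namespace Pool.Agent.Lib.MP_70d11c_co.Q2

open Multiset

namespace PairH

/-- `j` pendant 2-paths and the hubs of `K` -/
def LL (j : ℕ) (K : Multiset ℕ) : Multiset Y := replicate j P2 + K.map Hb

/-- total message of the hubs -/
def sm (K : Multiset ℕ) : ℚ := (K.map hubp).sum

variable {j : ℕ} {K : Multiset ℕ}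

lemma LL_add (j j' : ℕ) (K K' : Multiset ℕ) : LL j K + LL j' K' = LL (j + j') (K + K') := by
  simp only [LL, replicate_add, Multiset.map_add]
  abel

lemma LL_ok (j : ℕ) (K : Multiset ℕ) : OKs (LL j K) :=
  oks_add.2 ⟨oks_rep ok_P2 j, oks_map ok_Hb K⟩

lemma LL_card (j : ℕ) (K : Multiset ℕ) : (LL j K).card = j + K.card := by simp [LL]

lemma LL_msg (j : ℕ) (K : Multiset ℕ) : msg (LL j K) = j / 3 + sm K := by
  simp only [LL, msg_add, msg_rep, P2_p, msg_map, Hb_p, sm]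
  ring

lemma mem_LL {b : ℕ} (h : b ∈ K) : Hb b ∈ LL j K := mem_add.2 (Or.inr (mem_map_of_mem _ h))

lemma P2_mem (h : 1 ≤ j) : P2 ∈ LL j K := mem_add.2 (Or.inl (mem_replicate.2 ⟨by omega, rfl⟩))

lemma hubp_pos (b : ℕ) : 0 < hubp b := by unfold hubp; positivity

lemma hubZ_pos (b : ℕ) : 0 < hubZ b := by unfold hubZ; positivity

lemma hubp_anti {a b : ℕ} (h : a ≤ b) : hubp b ≤ hubp a := by
  have : (a : ℚ) ≤ b := by exact_mod_cast h
  unfold hubp
  gcongr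

lemma sm_cons (b : ℕ) (K : Multiset ℕ) : sm (b ::ₘ K) = hubp b + sm K := by simp [sm]

lemma sm_nonneg (K : Multiset ℕ) : 0 ≤ sm K := by
  induction K using Multiset.induction_on with
  | empty => simp [sm]
  | cons b K ih => rw [sm_cons]; linarith [hubp_pos b]

lemma sm_le {a : ℕ} (h : ∀ b ∈ K, a ≤ b) : sm K ≤ hubp a * K.card := by
  induction K using Multiset.induction_on with
  | empty => simp [sm]
  | cons b K ih =>
    have h1 := hubp_anti (h b (mem_cons_self _ _))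
    have h2 := ih fun c hc => h c (mem_cons_of_mem hc)
    rw [sm_cons, card_cons]
    push_cast
    linarith

lemma sm_up (h : ∀ b ∈ K, 1 ≤ b) : sm K ≤ 3 / 11 * K.card + 12 / 77 * (K.count 1 : ℕ) := by
  induction K using Multiset.induction_on with
  | empty => simp [sm]
  | cons b K ih =>
    have h2 := ih fun c hc => h c (mem_cons_of_mem hc)
    rw [sm_cons, card_cons]
    rcases (h b (mem_cons_self _ _)).eq_or_lt with rfl | hb
    · rw [count_cons_self, hubp_one]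
      push_cast
      linarith
    · have h1 := hubp_anti (a := 2) hb
      rw [count_cons_of_ne hb.ne, hubp_two] at *
      push_cast
      linarith

lemma sm_lo (K : Multiset ℕ) : 3 / 7 * (K.count 1 : ℕ) ≤ sm K := by
  induction K using Multiset.induction_on with
  | empty => simp [sm]
  | cons b K ih =>
    rw [sm_cons]
    by_cases hb : 1 = b
    · subst hb
      rw [count_cons_self, hubp_one]
      push_cast
      linarith
    · rw [count_cons_of_ne hb]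
      linarith [hubp_pos b]

lemma sm_mem {b : ℕ} (hb : b ∈ K) (h : ∀ c ∈ K, 2 ≤ c) :
    sm K ≤ hubp b + 1 / 3 * K.card - 1 / 3 := by
  obtain ⟨K', rfl⟩ := exists_cons_of_mem hb
  have h1 := sm_le (K := K') (a := 2) fun c hc => h c (mem_cons_of_mem hc)
  have h2 : (0 : ℚ) ≤ K'.card := by positivity
  rw [sm_cons, card_cons, hubp_two] at *
  push_cast
  linarith

lemma count_lt {b : ℕ} (hb : b ∈ K) (h : 1 ≠ b) : K.count 1 + 1 ≤ K.card := by
  obtain ⟨K', rfl⟩ := exists_cons_of_mem hb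
  rw [count_cons_of_ne h, card_cons]
  exact Nat.succ_le_succ (count_le_card _ _)

lemma exists_cons_of_card_pos' (h : 0 < K.card) : ∃ a K', K = a ::ₘ K' := by
  obtain ⟨a, ha⟩ := card_pos_iff_exists_mem.1 h
  exact ⟨a, exists_cons_of_mem ha⟩

/-! ### kits -/

lemma kit {a a' : ℕ} {A A' : Multiset ℕ} (ha : a ≤ j) (hA : A ≤ K) {ds dc : ℤ} {f τ ε : ℚ}
    (h0 : a' + A'.card ≠ 0) (hs : (size (LL a' A') : ℤ) = size (LL a A) + ds)
    (hc : (cost (LL a' A') : ℤ) ≤ cost (LL a A) + dc)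
    (hcard : ((LL a' A').card : ℚ) = (LL a A).card - τ) (hf0 : 0 ≤ f)
    (hf : f * prd (LL a A) ≤ prd (LL a' A'))
    (he : (LL a A).card + msg (LL a A) - ε ≤ (LL a' A').card + msg (LL a' A')) :
    Kit (LL j K) ds dc f τ ε := by
  obtain ⟨j', rfl⟩ := Nat.exists_eq_add_of_le ha
  obtain ⟨K', rfl⟩ := Multiset.le_iff_exists_add.1 hA
  rw [← LL_add]
  refine kit_of (LL_ok _ _) (LL_ok _ _) (LL_ok _ _) (fun h => h0 ?_) hs hc hcard hf0 hf he
  have := congrArg card h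
  rw [card_add, LL_card, card_zero] at this
  omega

lemma kP3 (h : 2 ≤ K.count 1) : Kit (LL j K) (-1) 0 (44 / 49) 1 (122 / 77) := by
  refine kit (a' := 0) (A' := {2}) (Nat.zero_le _) (le_count_iff_replicate_le.1 h) ?_ ?_ ?_ ?_ ?_ ?_
    ?_ <;> norm_num [LL, hubZ, hubp]

lemma kR3 (h : 3 ≤ K.count 1) : Kit (LL j K) 1 1 (484 / 343) 1 (134 / 77) := by
  refine kit (a' := 0) (A' := replicate 2 2) (Nat.zero_le _) (le_count_iff_replicate_le.1 h) ?_ ?_ ?_
    ?_ ?_ ?_ ?_ <;> norm_num [LL, hubZ, hubp]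

lemma kPA (h : 1 ≤ K.count 1) : Kit (LL j K) (-1) 0 (6 / 7) 0 (2 / 21) := by
  refine kit (a' := 1) (A' := 0) (Nat.zero_le _) (le_count_iff_replicate_le.1 h) ?_ ?_ ?_ ?_ ?_ ?_
    ?_ <;> norm_num [LL, hubZ, hubp]

lemma kK2 (h : 2 ∈ K) : Kit (LL j K) (-1) 0 (9 / 11) (-1) (-46 / 33) := by
  refine kit (a' := 2) (A' := 0) (Nat.zero_le _) (singleton_le.2 h) ?_ ?_ ?_ ?_ ?_ ?_
    ?_ <;> norm_num [LL, hubZ, hubp]

lemma kK3 (h : 3 ∈ K) : Kit (LL j K) (-1) 0 (4 / 5) (-2) (-14 / 5) := by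
  refine kit (a' := 3) (A' := 0) (Nat.zero_le _) (singleton_le.2 h) ?_ ?_ ?_ ?_ ?_ ?_
    ?_ <;> norm_num [LL, hubZ, hubp]

lemma kK4 (h : 4 ∈ K) : Kit (LL j K) (-1) 0 (15 / 19) (-3) (-238 / 57) := by
  refine kit (a' := 4) (A' := 0) (Nat.zero_le _) (singleton_le.2 h) ?_ ?_ ?_ ?_ ?_ ?_
    ?_ <;> norm_num [LL, hubZ, hubp]

lemma kK5 (h : 5 ∈ K) : Kit (LL j K) (-1) 0 (18 / 23) (-4) (-382 / 69) := by
  refine kit (a' := 5) (A' := 0) (Nat.zero_le _) (singleton_le.2 h) ?_ ?_ ?_ ?_ ?_ ?_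
    ?_ <;> norm_num [LL, hubZ, hubp]

lemma kK6 (h : 6 ∈ K) : Kit (LL j K) (-1) 0 (7 / 9) (-5) (-62 / 9) := by
  refine kit (a' := 6) (A' := 0) (Nat.zero_le _) (singleton_le.2 h) ?_ ?_ ?_ ?_ ?_ ?_
    ?_ <;> norm_num [LL, hubZ, hubp]

lemma kU2 (h : 3 ≤ K.count 2) : Kit (LL j K) (-1) 0 (18225 / 21296) 1 (78 / 55) := by
  refine kit (a' := 0) (A' := replicate 2 3) (Nat.zero_le _) (le_count_iff_replicate_le.1 h) ?_ ?_ ?_
    ?_ ?_ ?_ ?_ <;> norm_num [LL, hubZ, hubp]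

lemma k24 (h : 2 ≤ K.count 2) : Kit (LL j K) (-1) 0 (513 / 605) 1 (290 / 209) := by
  refine kit (a' := 0) (A' := {4}) (Nat.zero_le _) (le_count_iff_replicate_le.1 h) ?_ ?_ ?_ ?_ ?_ ?_
    ?_ <;> norm_num [LL, hubZ, hubp]

lemma hubZ_T (n : ℕ) : 25 / 31 * hubZ (n + 7) ≤ hubZ 3 * hubZ (n + 3) := by
  have h : (0 : ℚ) ≤ n := by positivity
  have e : hubZ 3 * hubZ (n + 3) - 25 / 31 * hubZ (n + 7) =
      (3 / 2) ^ n * (3645 * n * (4 * n + 47) / (7936 * (3 * n + 12) * (n + 8))) := by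
    simp only [hubZ]
    push_cast
    field_simp
    ring
  have : 0 ≤ hubZ 3 * hubZ (n + 3) - 25 / 31 * hubZ (n + 7) := by rw [e]; positivity
  linarith

lemma kT {b : ℕ} (h : b ∈ K) (hb : 7 ≤ b) : Kit (LL j K) (-1) 0 (25 / 31) (-1) (-6 / 5) := by
  obtain ⟨n, rfl⟩ := Nat.exists_eq_add_of_le' hb
  have h1 := hubZ_T n
  have h2 := hubp_anti (a := n + 3) (b := n + 7) (by omega)
  have h3 : hubp 3 = 1 / 5 := by norm_num [hubp]
  refine kit (a' := 0) (A' := 3 ::ₘ {n + 3}) (Nat.zero_le _) (singleton_le.2 h) ?_ ?_ ?_ ?_ ?_ ?_ ?_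
  · simp
  · simp [LL]; ring
  · simp [LL]; omega
  · norm_num [LL]
  · norm_num
  · simpa [LL] using h1
  · simp only [LL, replicate_zero, map_cons, map_singleton, zero_add, card_cons, card_singleton,
      msg_cons, msg_sing, Hb_p]
    push_cast
    linarith

lemma step {c : ℕ} (h1 : 3 ≤ c) (h2 : c ≤ 5) :
    243 / 161 * hubZ c ≤ hubZ (c + 1) ∧ hubp c ≤ hubp (c + 1) + 4 / 95 := by
  interval_cases c <;> norm_num [hubZ, hubp]

lemma kM {c1 c2 c3 c4 : ℕ} (hj : 2 ≤ j) (h : 2 ::ₘ c1 ::ₘ c2 ::ₘ c3 ::ₘ {c4} ≤ K)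
    (h1 : 3 ≤ c1 ∧ c1 ≤ 5) (h2 : 3 ≤ c2 ∧ c2 ≤ 5) (h3 : 3 ≤ c3 ∧ c3 ≤ 5) (h4 : 3 ≤ c4 ∧ c4 ≤ 5) :
    Kit (LL j K) (-1) 0 (6198727824 / 7390880651) 3 (12878 / 3135) := by
  obtain ⟨a1, b1⟩ := step h1.1 h1.2
  obtain ⟨a2, b2⟩ := step h2.1 h2.2
  obtain ⟨a3, b3⟩ := step h3.1 h3.2
  obtain ⟨a4, b4⟩ := step h4.1 h4.2
  refine kit (a' := 0) (A' := (c1 + 1) ::ₘ (c2 + 1) ::ₘ (c3 + 1) ::ₘ {c4 + 1}) hj h
    ?_ ?_ ?_ ?_ ?_ ?_ ?_
  · simp
  · simp [LL]; ring
  · simp [LL]; omega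
  · norm_num [LL]
  · norm_num
  · have := hubZ_pos c1
    have := hubZ_pos c2
    have := hubZ_pos c3
    have := hubZ_pos c4
    have := hubZ_pos (c1 + 1)
    have := hubZ_pos (c2 + 1)
    have := hubZ_pos (c3 + 1)
    simp only [LL, replicate_zero, map_cons, map_singleton, zero_add, prd_add, prd_rep, prd_cons,
      prd_sing, Hb_Z, P2_Z, hubZ_two]
    calc _ = 243 / 161 * hubZ c1 * (243 / 161 * hubZ c2 * (243 / 161 * hubZ c3 *
          (243 / 161 * hubZ c4))) := by ring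
      _ ≤ _ := by gcongr
  · simp only [LL, replicate_zero, map_cons, map_singleton, zero_add, card_add, card_replicate,
      card_cons, card_singleton, msg_add, msg_rep, msg_cons, msg_sing, Hb_p, P2_p, hubp_two]
    push_cast
    linarith

/-! ### the case analysis -/

variable {D : ℤ → ℤ → ℚ → Prop} {j1 j2 : ℕ} {K1 K2 : Multiset ℕ} {β γ e δ : ℚ}

lemma dg_pos (l : Multiset Y) : 1 ≤ dg l := by
  have : (0 : ℚ) ≤ l.card := by positivity
  unfold dg
  linarith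

lemma one_le (h : K ≠ 0) : 1 ≤ (LL j K).card := by
  have := card_pos.2 h
  rw [LL_card]
  omega

lemma m0 (j : ℕ) (K : Multiset ℕ) : 0 ≤ msg (LL j K) := (LL_ok j K).msg_nonneg

lemma m37 (h : ∀ b ∈ K, 1 ≤ b) : msg (LL j K) ≤ 3 / 7 * (LL j K).card := by
  have h1 := sm_le h
  have h2 : (0 : ℚ) ≤ j := by positivity
  rw [LL_msg, LL_card, hubp_one] at *
  push_cast
  linarith

lemma mx (h : ∀ b ∈ K, 1 ≤ b) {x : ℕ} (hx : K.count 1 ≤ x) :
    msg (LL j K) ≤ 1 / 3 * (LL j K).card + 2 / 21 * x := by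
  have h1 := sm_up h
  have h2 : ((K.count 1 : ℕ) : ℚ) ≤ K.card := by exact_mod_cast count_le_card _ _
  have h3 : ((K.count 1 : ℕ) : ℚ) ≤ x := by exact_mod_cast hx
  rw [LL_msg, LL_card]
  push_cast
  linarith

lemma mlo {x : ℕ} (hx : x ≤ K.count 1) : 3 / 7 * x ≤ msg (LL j K) := by
  have h1 := sm_lo K
  have h2 : (0 : ℚ) ≤ j := by positivity
  have h3 : (x : ℚ) ≤ (K.count 1 : ℕ) := by exact_mod_cast hx
  rw [LL_msg]
  linarith

lemma mb {b : ℕ} (hb : b ∈ K) (h : ∀ c ∈ K, 2 ≤ c) :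
    msg (LL j K) ≤ 1 / 3 * (LL j K).card + (hubp b - 1 / 3) := by
  have h1 := sm_mem hb h
  rw [LL_msg, LL_card]
  push_cast
  linarith

lemma ma {a : ℕ} (h0 : K ≠ 0) (ha : 2 ≤ a) (h : ∀ c ∈ K, a ≤ c) :
    msg (LL j K) ≤ 1 / 3 * (LL j K).card + (hubp a - 1 / 3) := by
  obtain ⟨b, hb⟩ := exists_mem_of_ne_zero h0
  have h1 := mb (j := j) hb fun c hc => ha.trans (h c hc)
  linarith [hubp_anti (h b hb)]

section
variable (c : CtxS) (p : PE D (LL j1 K1) (LL j2 K2) β γ e δ)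
include c p

lemma noP {f τ ε : ℚ} (k : Kit (LL (j1 + j2) (K1 + K2)) (-1) 0 f τ ε) :
    NoP f τ ε (wt (LL j1 K1)) (wt (LL j2 K2)) (dg (LL j1 K1)) (dg (LL j2 K2)) β γ e :=
  c.noP p (by rwa [LL_add])

lemma noR {f τ ε : ℚ} (k : Kit (LL (j1 + j2) (K1 + K2)) 1 1 f τ ε) :
    NoR f τ ε (wt (LL j1 K1)) (wt (LL j2 K2)) (dg (LL j1 K1)) (dg (LL j2 K2)) β γ e δ :=
  c.noR p (by rwa [LL_add])

lemma c3a (i : Inst) (n1 : K1 ≠ 0) (n2 : K2 ≠ 0) (g1 : ∀ b ∈ K1, 1 ≤ b) (g2 : ∀ b ∈ K2, 1 ≤ b)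
    (hx : 3 ≤ K1.count 1 + K2.count 1) (h : (LL j1 K1).card ≤ 10) : False := by
  refine i.D3a _ _ _ _ _ _ p.cx (one_le n1) h (one_le n2) ?_ (m0 _ _) (m37 g1) (m0 _ _) (m37 g2)
    (noP c p (kP3 (by rw [count_add]; omega))) (noR c p (kR3 (by rw [count_add]; omega)))
  have := count_le_card 1 K1
  have := count_le_card 1 K2
  rw [LL_card, LL_card]
  omega

lemma c2a (i : Inst) (n2 : K2 ≠ 0) (g1 : ∀ b ∈ K1, 1 ≤ b) (g2 : ∀ b ∈ K2, 1 ≤ b)
    (x1 : K1.count 1 = 2) (x2 : K2.count 1 = 0) : False := by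
  have h1 := mlo (j := j1) x1.ge
  have h2 := mx (j := j1) g1 x1.le
  have h3 := mx (j := j2) g2 x2.le
  push_cast at h1 h2 h3
  refine i.D2a _ _ _ _ _ _ p.cx ?_ (one_le n2) (by linarith) (by linarith) (m0 _ _) (by linarith)
    (noP c p (kP3 (by rw [count_add]; omega)))
  have := count_le_card 1 K1
  rw [LL_card]
  omega

/-- no hub with one path, the upper centre carries only hubs with two paths -/
lemma c02 (s : SrtS) (h : LocS) (i : Inst) {m : ℕ} (hm : 1 ≤ m) (e1 : K1 = replicate m 2)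
    (n2 : K2 ≠ 0) (g2 : ∀ b ∈ K2, 2 ≤ b)
    (hS : SB (14 / 11) (wt (LL j1 K1)) (wt (LL j2 K2)) (dg (LL j1 K1)) (dg (LL j2 K2)) γ β) :
    False := by
  have n1 : K1 ≠ 0 := by
    rw [e1, ← card_pos, card_replicate]
    omega
  have t1 : 2 ∈ K1 := e1 ▸ mem_replicate.2 ⟨by omega, rfl⟩
  have k0 := noP c p (kK2 (mem_add.2 (Or.inl t1)))
  have c1 : (LL j1 K1).card = j1 + m := by rw [LL_card, e1, card_replicate]
  have c1' : ((LL j1 K1).card : ℚ) = j1 + m := by exact_mod_cast c1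
  have m1 : msg (LL j1 K1) = j1 / 3 + 3 / 11 * m := by
    rw [LL_msg, e1]
    simp [sm, hubp_two, mul_comm]
  have hm' : (1 : ℚ) ≤ m := by exact_mod_cast hm
  have m2 := ma (j := j2) n2 le_rfl g2
  rw [hubp_two] at m2
  have x1 : K1.count 2 = m := by rw [e1, count_replicate_self]
  by_cases h3 : 3 ≤ m + K2.count 2
  · refine i.D0b _ _ _ _ _ _ p.cx (one_le n1) (one_le n2) ?_ (m0 _ _) (by linarith) (m0 _ _)
      (by linarith) hS k0 (noP c p (kU2 (by rw [count_add]; omega)))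
    have := count_le_card 2 K2
    rw [c1, LL_card]
    omega
  obtain ⟨U, -, hU, hD⟩ := p.loc1
  have hj : j1 ≤ 3 := h.eb U j1 m (by simpa [LL, e1] using hU) hm (by omega)
  have hj' : (j1 : ℚ) ≤ 3 := by exact_mod_cast hj
  by_cases h2 : 2 ≤ m + K2.count 2
  · have : (m : ℚ) ≤ 2 := by exact_mod_cast (by omega : m ≤ 2)
    exact i.D0c _ _ _ _ _ _ p.cx (one_le n1) (by omega) (one_le n2) (by linarith) (by linarith)
      (by linarith) (m0 _ _) hS k0 (noP c p (k24 (by rw [count_add]; omega)))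
  obtain rfl : m = 1 := by omega
  have g3 : ∀ b ∈ K2, 3 ≤ b := fun b hb => by
    have h4 := g2 b hb
    rcases h4.eq_or_lt with rfl | h5
    · have := count_pos.2 hb
      omega
    · exact h5
  have p3 : hubp 3 = 1 / 5 := by norm_num [hubp]
  have m3 := ma (j := j2) n2 (by norm_num) g3
  rw [p3] at m3
  push_cast at c1' m1
  by_cases h1 : j1 ≤ 1
  · exact i.D0d1 _ _ _ _ _ _ p.cx (one_le n1) (by omega) (one_le n2) (by linarith) (by linarith)
      (m0 _ _) (by linarith) hS k0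
  have hP : wt (LL j2 K2) ≤ 19 / 3 + max 0 (γ - β) → False := fun hw =>
    i.D0dP _ _ _ _ _ _ p.cx (by omega) (by omega) (one_le n2) (by linarith) (by linarith)
      (m0 _ _) (by linarith) hS hw k0
  by_cases h4 : 1 ≤ j2
  · refine hP ((s.swap p (mem_LL t1) (P2_mem h4)).trans ?_)
    unfold wt
    linarith
  obtain rfl : j2 = 0 := by omega
  by_cases h5 : (LL 0 K2).card ≤ 3
  · have : ((LL 0 K2).card : ℚ) ≤ 3 := by exact_mod_cast h5
    refine hP ?_
    unfold wt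
    linarith [le_max_left 0 (γ - β)]
  by_cases h6 : ∃ b ∈ K2, 6 ≤ b
  · obtain ⟨b, hb, h7⟩ := h6
    obtain ⟨K', rfl⟩ := exists_cons_of_mem hb
    have d1 : Deal (nd true (LL 0 (b ::ₘ K'))) (-2) (-1) (161 / 243) := by
      have := (h.dH6 b h7).nd (ok_Hb b) (oks_map ok_Hb K')
      simpa [LL] using this
    have hU' : Ext true (U ::ₘ Hb 2 ::ₘ replicate j1 P2) := by
      have : LL j1 K1 = Hb 2 ::ₘ replicate j1 P2 := by
        rw [LL, e1, add_comm]
        rfl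
      rwa [this] at hU
    have h8 : (2 : ℚ) ≤ j1 := by exact_mod_cast (by omega : 2 ≤ j1)
    refine two_deals hU' (hD _ _ _ d1).zero h.dH2 (by norm_num) ?_ (by norm_num) (by norm_num)
      (by norm_num) (by norm_num)
    rw [card_replicate, msg_rep, P2_p]
    linarith
  push Not at h6
  have h7 : 4 ≤ K2.card := by
    rw [LL_card] at h5
    omega
  have m4 : msg (LL 0 K2) ≤ 1 / 5 * (LL 0 K2).card := by
    have := sm_le g3
    rw [LL_msg, LL_card, p3] at *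
    push_cast
    linarith
  obtain ⟨c1, K, rfl⟩ := exists_cons_of_card_pos' (K := K2) (by omega)
  rw [card_cons] at h7
  obtain ⟨c2, K, rfl⟩ := exists_cons_of_card_pos' (K := K) (by omega)
  rw [card_cons] at h7
  obtain ⟨c3, K, rfl⟩ := exists_cons_of_card_pos' (K := K) (by omega)
  rw [card_cons] at h7
  obtain ⟨c4, K, rfl⟩ := exists_cons_of_card_pos' (K := K) (by omega)
  have r : ∀ b ∈ c1 ::ₘ c2 ::ₘ c3 ::ₘ c4 ::ₘ K, 3 ≤ b ∧ b ≤ 5 := fun b hb =>
    ⟨g3 b hb, Nat.lt_succ_iff.1 (h6 b hb)⟩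
  refine i.D0dM _ _ _ _ _ _ p.cx (by omega) (by omega) (by omega) (by linarith) (by linarith)
    (m0 _ _) m4 (noP c p (kM (by omega) ?_ (r c1 (by simp)) (r c2 (by simp)) (r c3 (by simp))
      (r c4 (by simp)))) k0
  rw [e1, replicate_one, singleton_add]
  exact Multiset.le_iff_exists_add.2 ⟨K, by simp only [cons_add, singleton_add]⟩

/-- the ordered version: the first centre is the upper one -/
lemma up (s : SrtS) (h : LocS) (i : Inst) (n1 : K1 ≠ 0) (n2 : K2 ≠ 0) (g1 : ∀ b ∈ K1, 1 ≤ b)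
    (g2 : ∀ b ∈ K2, 1 ≤ b) (hS : ∀ y ∈ LL j1 K1,
      SB (1 + y.p) (wt (LL j1 K1)) (wt (LL j2 K2)) (dg (LL j1 K1)) (dg (LL j2 K2)) γ β) :
    j1 = 0 ∧ 11 ≤ K1.card ∧ ∀ b ∈ K1, b = 1 := by
  have sb : ∀ y ∈ LL j1 K1, ∀ w, 1 + y.p ≤ w →
      SB w (wt (LL j1 K1)) (wt (LL j2 K2)) (dg (LL j1 K1)) (dg (LL j2 K2)) γ β :=
    fun y hy w hw => (hS y hy).mono hw (by linarith [dg_pos (LL j1 K1)]) (dg_pos _)
  have sb' : ∀ a, ∀ b ∈ K1, a ≤ b → ∀ w, 1 + hubp a ≤ w →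
      SB w (wt (LL j1 K1)) (wt (LL j2 K2)) (dg (LL j1 K1)) (dg (LL j2 K2)) γ β :=
    fun a b hb hab w hw => sb _ (mem_LL hb) w (by rw [Hb_p]; linarith [hubp_anti hab])
  by_cases h3 : 3 ≤ K1.count 1 + K2.count 1
  · by_cases a1 : (LL j1 K1).card ≤ 10
    · exact (c3a c p i n1 n2 g1 g2 h3 a1).elim
    by_cases a2 : (LL j2 K2).card ≤ 10
    · exact (c3a c p.symm i n2 n1 g2 g1 (by omega) a2).elim
    have key : SB (4 / 3) (wt (LL j1 K1)) (wt (LL j2 K2)) (dg (LL j1 K1)) (dg (LL j2 K2)) γ β →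
        False := fun k => i.D3b _ _ _ _ _ _ p.cx (by omega) (by omega) (m0 _ _) (m0 _ _) k
      (noP c p (kP3 (by rw [count_add]; omega))) (noR c p (kR3 (by rw [count_add]; omega)))
    have b1 : j1 = 0 := by
      by_contra hj
      exact key (sb _ (P2_mem (by omega)) _ (by norm_num))
    refine ⟨b1, by rw [LL_card] at a1; omega, fun b hb => ?_⟩
    by_contra hb1
    exact key (sb' 2 b hb (by have := g1 b hb; omega) _ (by norm_num [hubp]))
  exfalso
  by_cases h2 : K1.count 1 + K2.count 1 = 2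
  · by_cases a1 : K1.count 1 = 2
    · exact c2a c p i n2 g1 g2 a1 (by omega)
    by_cases a2 : K2.count 1 = 2
    · exact c2a c p.symm i n1 g2 g1 a2 (by omega)
    have b1 := mlo (j := j1) (K := K1) (x := 1) (by omega)
    have b2 := mlo (j := j2) (K := K2) (x := 1) (by omega)
    have b3 := mx (j := j1) g1 (x := 1) (by omega)
    have b4 := mx (j := j2) g2 (x := 1) (by omega)
    push_cast at b1 b2 b3 b4
    exact i.D2b _ _ _ _ _ _ p.cx (one_le n1) (one_le n2) (by linarith) (by linarith) (by linarith)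
      (by linarith) (noP c p (kP3 (by rw [count_add]; omega)))
  by_cases h1 : K1.count 1 + K2.count 1 = 1
  · have k := noP c p (kPA (by rw [count_add]; omega))
    by_cases a1 : ∃ b ∈ K1, 1 ≠ b
    · obtain ⟨b, hb, hb1⟩ := a1
      have b1 : ((K1.count 1 : ℕ) : ℚ) + 1 ≤ K1.card := by exact_mod_cast count_lt hb hb1
      have b2 : ((K1.count 1 : ℕ) : ℚ) ≤ 1 := by exact_mod_cast (by omega : K1.count 1 ≤ 1)
      have b3 := sm_up g1
      have b4 := mx (j := j2) g2 (x := 1) (by omega)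
      push_cast at b4
      refine i.D1a _ _ _ _ _ _ p.cx (one_le n1) (one_le n2) (m0 _ _) ?_ (m0 _ _) (by linarith)
        (sb' 2 b hb (by have := g1 b hb; omega) _ (by norm_num [hubp])) k
      rw [LL_msg, LL_card]
      push_cast
      linarith
    push Not at a1
    have b1 := count_eq_card.2 a1
    have b2 := card_pos.2 n1
    have e1 : K1 = {1} := eq_replicate.2 ⟨(by omega : K1.card = 1), fun b hb => (a1 b hb).symm⟩
    obtain ⟨U, -, hU, -⟩ := p.loc1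
    have hj : j1 ≤ 2 := h.ea U j1 (by
      have : LL j1 K1 = Hb 1 ::ₘ replicate j1 P2 := by
        rw [LL, e1, add_comm]
        rfl
      rwa [this] at hU)
    have b3 := mx (j := j1) g1 (x := 1) (by omega)
    have b4 := mx (j := j2) g2 (x := 0) (by omega)
    push_cast at b3 b4
    exact i.D1b _ _ _ _ _ _ p.cx (one_le n1) (by rw [LL_card]; omega) (one_le n2) (m0 _ _)
      (by linarith) (m0 _ _) (by linarith) k
  have two : ∀ K : Multiset ℕ, (∀ b ∈ K, 1 ≤ b) → K.count 1 = 0 → ∀ b ∈ K, 2 ≤ b :=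
    fun K g x b hb => by
      rcases (g b hb).eq_or_lt with rfl | h5
      · exact absurd hb (count_eq_zero.1 x)
      · exact h5
  have t1 := two K1 g1 (by omega)
  have t2 := two K2 g2 (by omega)
  by_cases a1 : ∃ b ∈ K1, 3 ≤ b
  · obtain ⟨b, hb, hb3⟩ := a1
    have b1 := mb (j := j1) hb t1
    have b2 := ma (j := j2) n2 le_rfl t2
    rw [hubp_two] at b2
    have b3 : b ∈ K1 + K2 := mem_add.2 (Or.inl hb)
    by_cases a2 : 7 ≤ b
    · have b4 := hubp_anti a2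
      rw [show hubp 7 = 3 / 31 by norm_num [hubp]] at b4
      exact i.D0aT _ _ _ _ _ _ p.cx (one_le n1) (one_le n2) (m0 _ _) (by linarith) (m0 _ _)
        (by linarith) (sb' 7 b hb a2 _ (by norm_num [hubp])) (noP c p (kT b3 a2))
    have a3 : b ≤ 6 := by omega
    interval_cases b
    · rw [show hubp 3 = 1 / 5 by norm_num [hubp]] at b1
      exact i.D0a3 _ _ _ _ _ _ p.cx (one_le n1) (one_le n2) (m0 _ _) (by linarith) (m0 _ _)
        (by linarith) (sb' 3 3 hb le_rfl _ (by norm_num [hubp])) (noP c p (kK3 b3))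
    · rw [show hubp 4 = 3 / 19 by norm_num [hubp]] at b1
      exact i.D0a4 _ _ _ _ _ _ p.cx (one_le n1) (one_le n2) (m0 _ _) (by linarith) (m0 _ _)
        (by linarith) (sb' 4 4 hb le_rfl _ (by norm_num [hubp])) (noP c p (kK4 b3))
    · rw [show hubp 5 = 3 / 23 by norm_num [hubp]] at b1
      exact i.D0a5 _ _ _ _ _ _ p.cx (one_le n1) (one_le n2) (m0 _ _) (by linarith) (m0 _ _)
        (by linarith) (sb' 5 5 hb le_rfl _ (by norm_num [hubp])) (noP c p (kK5 b3))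
    · rw [show hubp 6 = 1 / 9 by norm_num [hubp]] at b1
      exact i.D0a6 _ _ _ _ _ _ p.cx (one_le n1) (one_le n2) (m0 _ _) (by linarith) (m0 _ _)
        (by linarith) (sb' 6 6 hb le_rfl _ (by norm_num [hubp])) (noP c p (kK6 b3))
  push Not at a1
  obtain ⟨b, hb⟩ := exists_mem_of_ne_zero n1
  exact c02 c p s h i (card_pos.2 n1) (eq_replicate.2 ⟨rfl, fun b hb => by
    have := t1 b hb
    have := a1 b hb
    omega⟩) n2 t2 (sb' 2 b hb (t1 b hb) _ (by norm_num [hubp]))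

end

end PairH

open PairH

theorem pairH (c : CtxS) (s : SrtS) (h : LocS) (i : Inst) : PairHStm := by
  intro D j1 j2 K1 K2 β γ e δ p n1 n2 g1 g2
  rcases s.slem p with k | k
  · exact Or.inl (up (j1 := j1) (j2 := j2) c p s h i n1 n2 g1 g2 k)
  · exact Or.inr (up (j1 := j2) (j2 := j1) c p.symm s h i n2 n1 g2 g1 k)

end Pool.Agent.Lib.MP_70d11c_co.Q2
end

-- part Pool.Agent.Lib.MP_70d11c_co.Q2.PhA
section

/-!
Phase A: an extremal tree containing a large pure centre has depth at most two over some centre.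
-/

namespace Pool.Agent.Lib.MP_70d11c_co.Q2

open Multiset

namespace PhA

/-- `l` hangs on a centre of an extremal tree that contains a large pure centre elsewhere -/
def At (l : Multiset Y) : Prop :=
  ∃ P N, 11 ≤ N ∧ Path P ∧ Ext true (plug P (nd true l) ::ₘ replicate N (Hb 1))

lemma At.down1 {l l' : Multiset Y} (h : At (nd true l' ::ₘ l)) (hl : OKs l) : At l' := by
  obtain ⟨P, N, h1, h2, h3⟩ := h
  exact ⟨P ++ [(true, l)], N, h1, h2.app1 hl, by rw [plug_app]; exact h3⟩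

lemma At.down2 {l l' m : Multiset Y} (h : At (nd false (nd true l' ::ₘ m) ::ₘ l)) (hl : OKs l)
    (hm : OKs m) (hm' : ∀ z ∈ m, z.b = true) : At l' := by
  obtain ⟨P, N, h1, h2, h3⟩ := h
  exact ⟨P ++ [(true, l), (false, m)], N, h1, h2.app2 hl hm hm', by rw [plug_app]; exact h3⟩

lemma cen_ne {l : Multiset Y} (h : Cen l) : l ≠ 0 := by
  obtain ⟨-, ⟨y, hy, -⟩, -⟩ := h
  rintro rfl
  simp at hy

lemma cen_card {l : Multiset Y} (h : Cen l) : 1 ≤ l.card := card_pos.2 (cen_ne h)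

lemma rep_ne {N : ℕ} (h : 11 ≤ N) : replicate N (Hb 1) ≠ 0 := by
  rw [← card_pos, card_replicate]; omega

lemma hb_mem {N : ℕ} (h : 11 ≤ N) : ∃ y ∈ replicate N (Hb 1), y.p < 1 / 2 :=
  ⟨Hb 1, mem_replicate.2 ⟨by omega, rfl⟩, by rw [Hb_p, hubp_one]; norm_num⟩

lemma msg_hb (N : ℕ) : msg (replicate N (Hb 1)) = 3 / 7 * ((replicate N (Hb 1)).card : ℚ) := by
  rw [msg_rep, card_replicate, Hb_p, hubp_one, mul_comm]

lemma lev_hb (N : ℕ) : ∀ y ∈ replicate N (Hb 1), Lev1 y := fun y hy => by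
  rw [eq_of_mem_replicate hy]
  exact Or.inr (Or.inr ⟨{1}, by simp, by simp, by rw [Mid_sing, Aa_one]⟩)

lemma msg_half {l : Multiset Y} (h : ∀ y ∈ l, y.p < 1 / 2) : msg l ≤ 1 / 2 * (l.card : ℚ) := by
  rw [mul_comm]; exact msg_le_of fun y hy => (h y hy).le

lemma kitP {l : Multiset Y} (hl : OKs l) {N : ℕ} (h : 11 ≤ N) :
    Kit (l + replicate N (Hb 1)) (-1) 0 (44 / 49) 1 (122 / 77) := by
  obtain ⟨n, rfl⟩ : ∃ n, N = 2 + n := ⟨N - 2, by omega⟩
  rw [replicate_add, add_left_comm]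
  refine kit_of (u' := {Hb 2}) (oks_rep (ok_Hb 1) _) (oks_sing.2 (ok_Hb 2))
    (oks_add.2 ⟨hl, oks_rep (ok_Hb 1) _⟩) (by simp) (by simp) (by simp) (by norm_num)
    (by norm_num) ?_ ?_
  · rw [prd_rep, prd_sing, Hb_Z, Hb_Z, hubZ_one, hubZ_two]; norm_num
  · rw [msg_rep, msg_sing, Hb_p, Hb_p, hubp_one, hubp_two]; norm_num

lemma kitR {l : Multiset Y} (hl : OKs l) {N : ℕ} (h : 11 ≤ N) :
    Kit (l + replicate N (Hb 1)) 1 1 (484 / 343) 1 (134 / 77) := by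
  obtain ⟨n, rfl⟩ : ∃ n, N = 3 + n := ⟨N - 3, by omega⟩
  rw [replicate_add, add_left_comm]
  refine kit_of (u' := replicate 2 (Hb 2)) (oks_rep (ok_Hb 1) _) (oks_rep (ok_Hb 2) _)
    (oks_add.2 ⟨hl, oks_rep (ok_Hb 1) _⟩) (by simp) ?_ ?_ ?_ (by norm_num) ?_ ?_
  · rw [size_rep, size_rep, Hb_s, Hb_s]; norm_num
  · rw [cost_rep, cost_rep, Hb_c, Hb_c]; norm_num
  · rw [card_replicate, card_replicate]; norm_num
  · rw [prd_rep, prd_rep, Hb_Z, Hb_Z, hubZ_one, hubZ_two]; norm_num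
  · rw [msg_rep, msg_rep, card_replicate, card_replicate, Hb_p, Hb_p, hubp_one, hubp_two]; norm_num

lemma At.pe (c : CtxS) {l : Multiset Y} (h : At l) (hl : Cen l) :
    ∃ D N β γ e δ, 11 ≤ N ∧ PE D l (replicate N (Hb 1)) β γ e δ := by
  obtain ⟨P, N, h1, h2, h3⟩ := h
  obtain ⟨β, γ, e, δ, k, -⟩ := c.pe P _ l h2 hl.1.oks (rep_ne h1) (cen_ne hl) h3
  exact ⟨_, N, γ, β, e, δ, h1, k.symm⟩

lemma At.half (c : CtxS) (s : SrtS) {l : Multiset Y} (h : At l) (hl : Cen l) :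
    ∀ y ∈ l, y.p < 1 / 2 := by
  obtain ⟨D, N, β, γ, e, δ, h1, k⟩ := h.pe c hl
  have k1 := s.lemM k hl.2.2 (hb_mem h1)
  intro y hy
  rcases (hl.1 y hy).leaf with rfl | k2
  · exact absurd (mem_add.2 (Or.inl hy)) k1
  · exact k2

lemma At.two (c : CtxS) (s : SrtS) (i : Inst) {l : Multiset Y} (h : At l) (hl : Cen l) :
    2 ≤ l.card := by
  have k0 := h.half c s hl
  obtain ⟨D, N, β, γ, e, δ, h1, k⟩ := h.pe c hl
  by_contra k1
  exact i.Deg2 l _ β γ e δ k.cx (cen_card hl) (by omega) (by simpa using h1) k.ok1.msg_nonneg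
    (msg_half k0) (msg_hb N).ge (msg_hb N).le (c.noP k (kitP k.ok1 h1)) (c.noR k (kitR k.ok1 h1))

lemma At.res (c : CtxS) (h : LocS) {l : Multiset Y} (hA : At l) (hl : Cen l) :
    ∃ U, U.p < 1 / 2 ∧ Ext true (U ::ₘ l) ∧ Res U := by
  obtain ⟨D, N, β, γ, e, δ, h1, k⟩ := hA.pe c hl
  obtain ⟨U, a1, a2, a3⟩ := k.loc1
  obtain ⟨r1, r2, r3, r4⟩ := h.res N h1
  exact ⟨U, a1, a2, a3 _ _ _ r1, a3 _ _ _ r2, a3 _ _ _ r3, a3 _ _ _ r4⟩

lemma mid1 (c : CtxS) (s : SrtS) (h : LocS) (i : Inst) {l0 l' : Multiset Y}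
    (hA : At (nd false (nd true l' ::ₘ 0) ::ₘ l0)) (hl : Cen (nd false (nd true l' ::ₘ 0) ::ₘ l0))
    (hl' : Cen l') : False := by
  obtain ⟨U, a1, a2, a3⟩ := hA.res c h hl
  have k0 := hA.half c s hl
  have ok0 : OKs l0 := (oks_cons.1 hl.1.oks).2
  have hA' : At l' := hA.down2 ok0 oks_zero (by simp)
  rw [cons_swap] at a2
  obtain ⟨β, γ, e, δ, k, k1⟩ := c.pe [(false, 0)] (U ::ₘ l0) l' (path_one oks_zero (by simp))
    hl'.1.oks cons_ne_zero (cen_ne hl') a2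
  obtain ⟨b1, -, b3⟩ := k1 0 rfl
  refine i.Mid1 _ l' β γ e δ k.cx (by simp) (cen_card hl') b1 (by rw [b3]; norm_num)
    k.ok1.msg_nonneg (msg_half fun y hy => ?_) k.ok2.msg_nonneg (msg_half (hA'.half c s hl'))
    (c.noP k ?_)
  · rcases mem_cons.1 hy with rfl | hy
    · exact a1
    · exact k0 y (mem_cons_of_mem hy)
  · rw [cons_add]
    exact kit_deal (oks_add.2 ⟨ok0, hl'.1.oks⟩) (by simp [cen_ne hl']) a3.2.2.2.zero

lemma pure (t : TreeS) (c : CtxS) (s : SrtS) (h : LocS) (i : Inst) (a : PairAStm)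
    {l : Multiset Y} (hA : At l) (hl : Cen l) : IsB (nd true l) ∨ ∃ y ∈ l, y.p ≤ 1 / 3 := by
  by_cases hp : ∃ y ∈ l, y.p ≤ 1 / 3
  · exact Or.inr hp
  left
  have k0 := hA.half c s hl
  have k1 : ∀ y ∈ l, ∃ b, 1 ≤ b ∧ y = Aa b := by
    intro y hy
    have k2 : ¬ y.p ≤ 1 / 3 := fun k => hp ⟨y, hy, k⟩
    obtain ⟨l0, rfl⟩ := exists_cons_of_mem hy
    have ok0 : OKs l0 := (oks_cons.1 hl.1.oks).2
    rcases t.cls y (hl.1 y hy) with (rfl | ⟨b, hb, rfl⟩ | ⟨A, hA0, hA1, rfl⟩) | ⟨l', rfl, hl'⟩ |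
      ⟨l', m, rfl, hl', hm, hm'⟩
    · have := k0 L hy
      norm_num at this
    · exfalso
      apply k2
      have : (1 : ℚ) ≤ b := by exact_mod_cast hb
      rw [St_p]
      exact one_div_le_one_div_of_le (by norm_num) (by linarith)
    · by_cases k3 : 2 ≤ A.card
      · exact absurd (nd_p_le (oks_map ok_St A) (by simpa using k3)) k2
      · have k4 : A.card = 1 := by
          have := card_pos.2 hA0
          omega
        obtain ⟨b, rfl⟩ := card_eq_one.1 k4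
        exact ⟨b, hA1 b (by simp), Mid_sing b⟩
    · exact absurd (nd_p_le hl'.1.oks ((hA.down1 ok0).two c s i hl')) k2
    · by_cases k3 : m = 0
      · subst k3
        exact (mid1 c s h i hA hl hl').elim
      · refine absurd (nd_p_le (oks_cons.2 ⟨ok_true hl'.1.oks, hm.oks⟩) ?_) k2
        have := card_pos.2 k3
        rw [card_cons]; omega
  obtain ⟨D, N, β, γ, e, δ, h1, k⟩ := hA.pe c hl
  have k2 : ∀ y ∈ l, y = Hb 1 := by
    intro y hy
    obtain ⟨b, hb, rfl⟩ := k1 y hy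
    by_contra k3
    have k4 : 2 ≤ b := by
      by_contra k4
      exact k3 (by rw [show b = 1 by omega, Aa_one])
    refine a D _ _ β γ e δ k (fun z hz => ?_) ⟨b, k4, mem_add.2 (Or.inl hy)⟩
    rcases mem_add.1 hz with hz | hz
    · obtain ⟨b', hb', rfl⟩ := k1 z hz
      rcases lt_or_eq_of_le hb' with k5 | rfl
      · exact Or.inr (Or.inl ⟨b', k5, rfl⟩)
      · exact Or.inr (Or.inr ⟨1, le_rfl, Aa_one⟩)
    · exact Or.inr (Or.inr ⟨1, le_rfl, eq_of_mem_replicate hz⟩)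
  have k3 : l = replicate l.card (Hb 1) := eq_replicate_card.2 k2
  have k4 : msg l = 3 / 7 * (l.card : ℚ) := by
    conv_lhs => rw [k3]
    rw [msg_hb, card_replicate]
  refine ⟨l.card, ?_, by rw [BB, ← k3]⟩
  by_contra k5
  exact i.D3a l _ β γ e δ k.cx (cen_card hl) (by omega) (by rw [card_replicate]; omega)
    (by rw [card_replicate]; omega) k.ok1.msg_nonneg k4.le k.ok2.msg_nonneg (msg_hb N).le
    (c.noP k (kitP k.ok1 h1)) (c.noR k (kitR k.ok1 h1))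

lemma m2 (s : SrtS) (i : Inst) {D : ℤ → ℤ → ℚ → Prop} {l1 l2 : Multiset Y} {β γ e δ : ℚ}
    (k : PE D l1 l2 β γ e δ) (c1 : 2 ≤ l1.card) (c2 : 2 ≤ l2.card) (p1 : ∃ y ∈ l1, y.p ≤ 1 / 3)
    (p2 : ∃ y ∈ l2, y.p ≤ 1 / 3)
    (nP : NoP (8867 / 10000) 0 0 (wt l1) (wt l2) (dg l1) (dg l2) β γ e)
    (nR : NoR (1379 / 1000) 0 0 (wt l1) (wt l2) (dg l1) (dg l2) β γ e δ) : False := by
  have d1 : ∀ l : Multiset Y, 1 ≤ dg l := fun l => by
    have : (0 : ℚ) ≤ l.card := by positivity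
    unfold dg; linarith
  obtain ⟨y1, a1, b1⟩ := p1
  obtain ⟨y2, a2, b2⟩ := p2
  rcases s.slem k with k1 | k1
  · exact i.M2 l1 l2 β γ e δ k.cx c1 c2 k.ok1.msg_nonneg k.ok2.msg_nonneg
      ((k1 y1 a1).mono (by linarith) (zero_le_one.trans (d1 _)) (d1 _)) nP nR
  · exact i.M2 l2 l1 γ β e δ k.cx.symm c2 c1 k.ok2.msg_nonneg k.ok1.msg_nonneg
      ((k1 y2 a2).mono (by linarith) (zero_le_one.trans (d1 _)) (d1 _)) nP.symm nR.symm

lemma star_or_B (t : TreeS) {m : Multiset Y} (hm : Grs m) (hm' : ∀ z ∈ m, z.b = true)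
    (key : ∀ lz rest, m = nd true lz ::ₘ rest → Cen lz → IsB (nd true lz)) :
    ∀ z ∈ m, (∃ a, 1 ≤ a ∧ z = St a) ∨ IsB z := by
  intro z hz
  rcases t.cls_true z (hm z hz) (hm' z hz) with k | ⟨lz, rfl, k⟩
  · exact Or.inl k
  · obtain ⟨rest, e⟩ := exists_cons_of_mem hz
    exact Or.inr (key lz rest e k)

lemma grs_cons {l m : Multiset Y} (hl : Cen l) (hm : Grs m) : Grs (nd true l ::ₘ m) := by
  intro z hz
  rcases mem_cons.1 hz with rfl | hz
  · exact Gr.mk true l hl.1 (by simp) fun _ => hl.2.1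
  · exact hm z hz

lemma true_cons {l m : Multiset Y} (hm : ∀ z ∈ m, z.b = true) :
    ∀ z ∈ nd true l ::ₘ m, z.b = true := by
  intro z hz
  rcases mem_cons.1 hz with rfl | hz
  · rfl
  · exact hm z hz

lemma isM_of (t : TreeS) {l m : Multiset Y} (hl : Cen l) (hm : Grs m) (hm' : ∀ z ∈ m, z.b = true)
    (h0 : m ≠ 0)
    (key : ∀ lz rest, nd true l ::ₘ m = nd true lz ::ₘ rest → Cen lz → IsB (nd true lz)) :
    IsM (nd false (nd true l ::ₘ m)) := by
  refine ⟨_, rfl, star_or_B t (grs_cons hl hm) (true_cons hm') key,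
    ⟨_, mem_cons_self _ _, key l m rfl hl⟩, ?_⟩
  have := card_pos.2 h0
  rw [card_cons]; omega

lemma below (t : TreeS) (c : CtxS) (s : SrtS) (h : LocS) (i : Inst) (a : PairAStm)
    {l : Multiset Y} {R : Y} (hA : At l) (hl : Cen l) (hR : Ext true (R ::ₘ l))
    (hp : R.p ≤ 1 / 3) (hr : Res R) : ∀ y ∈ l, Lev1 y ∨ IsB y ∨ IsM y := by
  intro y hy
  have c2 := hA.two c s i hl
  obtain ⟨l0, rfl⟩ := exists_cons_of_mem hy
  have ok0 : OKs l0 := (oks_cons.1 hl.1.oks).2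
  rw [cons_swap] at hR
  have key : ∀ P lv, Path P → y = plug P (nd true lv) → At lv → Cen lv → IsB (nd true lv) := by
    intro P lv hP e hv hv'
    refine (pure t c s h i a hv hv').resolve_right fun p2 => ?_
    rw [e] at hR
    obtain ⟨β, γ, e, δ, k, -⟩ := c.pe P (R ::ₘ l0) lv hP hv'.1.oks cons_ne_zero (cen_ne hv') hR
    have ok1 : OKs (l0 + lv) := oks_add.2 ⟨ok0, hv'.1.oks⟩
    have ne1 : l0 + lv ≠ 0 := by simp [cen_ne hv']
    refine m2 s i k (by simpa using c2) (hv.two c s i hv') ⟨R, mem_cons_self _ _, hp⟩ p2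
      (c.noP k ?_) (c.noR k ?_)
    · rw [cons_add]; exact kit_deal ok1 ne1 hr.2.2.2.zero
    · rw [cons_add]; exact kit_deal ok1 ne1 hr.2.2.1.zero
  rcases t.cls y (hl.1 y hy) with k | ⟨lv, e, hv⟩ | ⟨lv, m, e, hv, hm, hm'⟩
  · exact Or.inl k
  · refine Or.inr (Or.inl ?_)
    rw [e] at hA ⊢
    exact key [] lv path_nil e (hA.down1 ok0) hv
  · refine Or.inr (Or.inr ?_)
    have k0 : m ≠ 0 := by
      rintro rfl
      rw [e] at hA hl
      exact mid1 c s h i hA hl hv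
    rw [e]
    refine isM_of t hv hm hm' k0 fun lz rest e' hz => ?_
    have g1 : OKs rest := fun z hz' =>
      (grs_cons hv hm z (by rw [e']; exact mem_cons_of_mem hz')).ok
    have g2 : ∀ z ∈ rest, z.b = true := fun z hz' =>
      true_cons hm' z (by rw [e']; exact mem_cons_of_mem hz')
    rw [e'] at e
    refine key [(false, rest)] lz (path_one g1 g2) e ?_ hz
    rw [e] at hA
    exact hA.down2 ok0 g1 g2

end PhA

open PhA

theorem phA (t : TreeS) (c : CtxS) (s : SrtS) (h : LocS) (i : Inst) (a : PairAStm) : PhAStm := by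
  intro N U hN hU hL hE
  have pB : (BB N).p ≤ 1 / 3 := (IsB.p_le ⟨N, hN, rfl⟩).trans (by norm_num)
  rcases t.cls U hU with k | ⟨l, rfl, hl⟩ | ⟨l, m, rfl, hl, hm, hm'⟩
  · exact absurd k hL
  · have r := hE.reroot hl.1.oks (by simp)
    exact ⟨BB N, l, r, Or.inl ⟨N, hN, rfl⟩,
      below t c s h i a ⟨[], N, hN, path_nil, hE⟩ hl r.1 pB (h.res N hN), hl.2.2⟩
  · have hAt : ∀ lz rest, nd true l ::ₘ m = nd true lz ::ₘ rest →
        Grs rest ∧ (∀ z ∈ rest, z.b = true) ∧ At lz := by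
      intro lz rest e
      have g1 : Grs rest := fun z hz => grs_cons hl hm z (by rw [e]; exact mem_cons_of_mem hz)
      have g2 : ∀ z ∈ rest, z.b = true := fun z hz =>
        true_cons hm' z (by rw [e]; exact mem_cons_of_mem hz)
      rw [e] at hE
      exact ⟨g1, g2, [(false, rest)], N, hN, path_one g1.oks g2, hE⟩
    have k0 : m ≠ 0 := by
      rintro rfl
      obtain ⟨β, γ, e, δ, k, k1⟩ := c.pe [(false, 0)] _ l (path_one oks_zero (by simp))
        hl.1.oks (rep_ne hN) (cen_ne hl) hE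
      obtain ⟨b1, b2, b3⟩ := k1 0 rfl
      exact i.Mid0 l _ γ β e δ k.cx.symm (cen_card hl) (by simpa using hN) b1
        (by rw [b2, b3]; norm_num) k.ok2.msg_nonneg
        (msg_half ((hAt l 0 rfl).2.2.half c s hl)) (msg_hb N).ge (msg_hb N).le
        (c.noP k.symm (kitP k.ok2 hN))
    by_cases hall : ∀ lz rest, nd true l ::ₘ m = nd true lz ::ₘ rest → Cen lz → IsB (nd true lz)
    · exact ⟨_, _, hE.refl, Or.inr (isM_of t hl hm hm' k0 hall),
        fun y hy => Or.inl (lev_hb N y hy), hb_mem hN⟩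
    simp only [not_forall] at hall
    obtain ⟨l0, rest, e, hl0, hB⟩ := hall
    obtain ⟨g1, g2, hA0⟩ := hAt l0 rest e
    have p0 := (pure t c s h i a hA0 hl0).resolve_left hB
    have c1 : 2 ≤ (BB N ::ₘ rest).card := by
      have k1 := congrArg card e
      have k2 := card_pos.2 k0
      simp only [card_cons] at k1 ⊢
      omega
    rw [e] at hE ⊢
    have r : Red true (nd false (nd true l0 ::ₘ rest) ::ₘ replicate N (Hb 1)) true
        (nd false (BB N ::ₘ rest) ::ₘ l0) :=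
      c.reroot [(false, rest)] _ l0 (path_one g1.oks g2) hl0.1.oks hE
    have hM : IsM (nd false (BB N ::ₘ rest)) := by
      refine ⟨_, rfl, fun z hz => ?_, ⟨_, mem_cons_self _ _, N, hN, rfl⟩, c1⟩
      rcases mem_cons.1 hz with rfl | hz
      · exact Or.inr ⟨N, hN, rfl⟩
      refine star_or_B t g1 g2 (fun lz rest' e' hz' => ?_) z hz
      subst e'
      obtain ⟨-, -, hAz⟩ := hAt lz (nd true l0 ::ₘ rest') (by rw [e, cons_swap])
      refine (pure t c s h i a hAz hz').resolve_right fun pz => ?_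
      have r1 := r.1
      rw [cons_swap (BB N)] at r1
      have q1 : OKs (BB N ::ₘ rest') := oks_cons.2 ⟨ok_BB N, (oks_cons.1 g1.oks).2⟩
      have q2 : ∀ z ∈ BB N ::ₘ rest', z.b = true :=
        true_cons fun z hz => g2 z (mem_cons_of_mem hz)
      obtain ⟨β, γ, e, δ, k, -⟩ := c.pe [(false, BB N ::ₘ rest')] l0 lz (path_one q1 q2)
        hz'.1.oks (cen_ne hl0) (cen_ne hz') r1
      exact m2 s i k (hA0.two c s i hl0) (hAz.two c s i hz') p0 pz
        (c.noPx k (Or.inr ⟨by norm_num, _, rfl, BB N, mem_cons_self _ _, (h.res N hN).2.2.2⟩))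
        (c.noRx k (Or.inr ⟨by norm_num, _, rfl, BB N, mem_cons_self _ _, (h.res N hN).2.2.1⟩))
    exact ⟨_, l0, r, Or.inr hM, below t c s h i a hA0 hl0 r.1 hM.p_le
      ((h.res N hN).nd (ok_BB N) g1.oks fun _ => ⟨rfl, g2⟩), hl0.2.2⟩

end Pool.Agent.Lib.MP_70d11c_co.Q2
end
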