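import Pool.Agent.Lib.MP_70d11c_co.Q2.PairA

-- part Pool.Agent.Lib.MP_70d11c_co.Q2.PhB1
section

/-!
The items around a centre next to a large branch.
-/

namespace Pool.Agent.Lib.MP_70d11c_co.Q2

open Multiset

namespace PhB1

lemma isM_cons {y : Y} (h : IsM y) : ∃ N m, 11 ≤ N ∧ y = nd false (BB N ::ₘ m) ∧
    ∀ z ∈ m, (∃ a, 1 ≤ a ∧ z = St a) ∨ IsB z := by
  obtain ⟨m, rfl, h1, ⟨z, hz, N, hN, rfl⟩, -⟩ := h
  obtain ⟨m', rfl⟩ := exists_cons_of_mem hz
  exact ⟨N, m', hN, rfl, fun z hz => h1 z (mem_cons_of_mem hz)⟩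

lemma rep_ne {N : ℕ} (hN : 11 ≤ N) : replicate N (Hb 1) ≠ 0 := fun h => by
  have := congrArg card h
  simp at this
  omega

lemma pairM (c : CtxS) {N : ℕ} {m l : Multiset Y} (hN : 11 ≤ N)
    (hm : ∀ z ∈ m, (∃ a, 1 ≤ a ∧ z = St a) ∨ IsB z)
    (h : Ext true (nd false (BB N ::ₘ m) ::ₘ l)) (h0 : l ≠ 0) :
    ∃ D β γ e δ, PE D l (replicate N (Hb 1)) β γ e δ ∧ δ = 1 ∧ γ = 1 / (m.card + 2 + msg m) := by
  obtain ⟨β, γ, e, δ, k1, k2⟩ := c.pe [(false, m)] l (replicate N (Hb 1))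
    (path_one (IsM.oks hm).1 (IsM.oks hm).2) (oks_rep (ok_Hb 1) N) h0 (rep_ne hN) h
  exact ⟨_, β, γ, e, δ, k1, (k2 m rfl).1, (k2 m rfl).2.2⟩

lemma pairw (c : CtxS) {y : Y} {l : Multiset Y} (hy : IsB y ∨ IsM y) (h : Ext true (y ::ₘ l))
    (h0 : l ≠ 0) : ∃ N D β γ e δ, 11 ≤ N ∧ PE D l (replicate N (Hb 1)) β γ e δ := by
  rcases hy with ⟨N, hN, rfl⟩ | hy
  · obtain ⟨β, γ, e, δ, k1, -⟩ := c.pe [] l (replicate N (Hb 1)) path_nil
      (oks_rep (ok_Hb 1) N) h0 (rep_ne hN) h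
    exact ⟨N, _, β, γ, e, δ, hN, k1⟩
  · obtain ⟨N, m, hN, rfl, hm⟩ := isM_cons hy
    obtain ⟨D, β, γ, e, δ, k1, -⟩ := pairM c hN hm h h0
    exact ⟨N, D, β, γ, e, δ, hN, k1⟩

lemma res (h : LocS) {y : Y} (hy : IsB y ∨ IsM y) : Res y := by
  rcases hy with ⟨N, hN, rfl⟩ | hy
  · exact h.res N hN
  · obtain ⟨N, m, hN, rfl, hm⟩ := isM_cons hy
    exact (h.res N hN).nd (ok_BB N) (IsM.oks hm).1 fun _ => ⟨rfl, (IsM.oks hm).2⟩

lemma p_le {y : Y} (hy : IsB y ∨ IsM y) : y.p ≤ 1 / 3 := by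
  rcases hy with hy | hy
  · exact hy.p_le.trans (by norm_num)
  · exact hy.p_le

lemma hubp_le {b : ℕ} (hb : 1 ≤ b) : hubp b ≤ 3 / 7 := by
  have : (1 : ℚ) ≤ b := by exact_mod_cast hb
  rw [hubp, div_le_div_iff₀ (by positivity) (by norm_num)]; linarith

lemma msg_rep1 (N : ℕ) : msg (replicate N (Hb 1)) = 3 / 7 * (card (replicate N (Hb 1)) : ℚ) := by
  simp [hubp_one, mul_comm]

lemma kitP3 {l : Multiset Y} (hl : OKs l) {N : ℕ} (hN : 11 ≤ N) :
    Kit (l + replicate N (Hb 1)) (-1) 0 (44 / 49) 1 (122 / 77) := by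
  obtain ⟨n, rfl⟩ : ∃ n, N = 2 + n := ⟨N - 2, by omega⟩
  rw [replicate_add, add_left_comm]
  exact kit_of (u' := {Hb 2}) (oks_rep (ok_Hb 1) 2) (oks_sing.2 (ok_Hb 2))
    (oks_add.2 ⟨hl, oks_rep (ok_Hb 1) n⟩) (by simp) (by simp) (by simp) (by norm_num)
    (by norm_num) (by norm_num [hubZ]) (by norm_num [hubp])

lemma kitR3 {l : Multiset Y} (hl : OKs l) {N : ℕ} (hN : 11 ≤ N) :
    Kit (l + replicate N (Hb 1)) 1 1 (484 / 343) 1 (134 / 77) := by
  obtain ⟨n, rfl⟩ : ∃ n, N = 3 + n := ⟨N - 3, by omega⟩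
  rw [replicate_add, add_left_comm]
  exact kit_of (u' := replicate 2 (Hb 2)) (oks_rep (ok_Hb 1) 3) (oks_rep (ok_Hb 2) 2)
    (oks_add.2 ⟨hl, oks_rep (ok_Hb 1) n⟩) (by simp) (by simp) (by simp) (by norm_num)
    (by norm_num) (by norm_num [hubZ]) (by norm_num [hubp])

lemma kitA {l : Multiset Y} (hl : OKs l) {a N : ℕ} (ha : Aa (a + 1) ∈ l) (hN : 11 ≤ N) {f ε : ℚ}
    (hf0 : 0 ≤ f) (hf : f * pathZ (a + 1) ≤ pathZ a) (he : pathp (a + 1) - ε ≤ pathp a) :
    Kit (l + replicate N (Hb 1)) (-1) 0 f 0 ε ∧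
      Kit (l + replicate N (Hb 1)) 1 1 (f * (11 / 7)) 0 (ε + 12 / 77) := by
  obtain ⟨l', rfl⟩ := exists_cons_of_mem ha
  have hl' := (oks_cons.1 hl).2
  constructor
  · rw [← singleton_add, add_assoc]
    exact kit_of (u' := {Aa a}) (oks_sing.2 (ok_Aa _)) (oks_sing.2 (ok_Aa _))
      (oks_add.2 ⟨hl', oks_rep (ok_Hb 1) N⟩) (by simp) (by simp; omega) (by simp) (by simp) hf0
      (by simpa using hf) (by simp; linarith)
  · obtain ⟨n, rfl⟩ : ∃ n, N = n + 1 := ⟨N - 1, by omega⟩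
    have e : Aa (a + 1) ::ₘ l' + replicate (n + 1) (Hb 1) =
        (Aa (a + 1) ::ₘ {Hb 1}) + (l' + replicate n (Hb 1)) := by
      rw [replicate_succ, cons_add, cons_add, add_cons, singleton_add]
    rw [e]
    exact kit_of (u' := Aa a ::ₘ {Hb 2}) (by simp [ok_Aa, ok_Hb]) (by simp [ok_Aa, ok_Hb])
      (oks_add.2 ⟨hl', oks_rep (ok_Hb 1) n⟩) (by simp) (by simp; omega) (by simp) (by simp)
      (by positivity) (by simp only [prd_cons, prd_sing, Aa_Z, Hb_Z, hubZ_one, hubZ_two]; linarith)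
      (by
        simp only [msg_cons, msg_sing, Aa_p, Hb_p, hubp_one, hubp_two, card_cons, card_singleton]
        linarith)

/-- no path item with two or more leaves -/
lemma noA (c : CtxS) (i : Inst) {D : ℤ → ℤ → ℚ → Prop} {l : Multiset Y} {N : ℕ} {β γ e δ : ℚ}
    (hN : 11 ≤ N) (pe : PE D l (replicate N (Hb 1)) β γ e δ)
    (hT : ∀ y ∈ l, Typ y ∨ IsB y ∨ IsM y) {a : ℕ} (ha : 2 ≤ a) : Aa a ∉ l := by
  intro hm
  have h1 : 1 ≤ l.card := card_pos.2 pe.ne1
  have h2 : 11 ≤ (replicate N (Hb 1)).card := by simpa using hN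
  by_cases h3 : ∃ a, 2 ≤ a ∧ Aa (a + 1) ∈ l
  · obtain ⟨a, ha, hm⟩ := h3
    have ha' : (2 : ℚ) ≤ a := by exact_mod_cast ha
    obtain ⟨k1, k2⟩ := kitA pe.ok1 hm hN (f := 44 / 45) (ε := 2 / 165) (by norm_num)
      (by
        simp only [pathZ]; push_cast
        rw [← mul_div_assoc, div_le_div_iff₀ (by positivity) (by positivity)]; nlinarith)
      (by
        simp only [pathp]; push_cast
        rw [sub_le_comm, div_sub_div _ _ (by positivity) (by positivity),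
          div_le_div_iff₀ (by positivity) (by positivity)]; nlinarith)
    refine i.B3b _ _ _ _ _ _ pe.cx h1 h2 pe.ok1.msg_nonneg ?_ (msg_rep1 N).ge (msg_rep1 N).le
      (c.noP pe k1) (c.noR pe (by convert k2 using 1 <;> norm_num))
    rw [mul_comm]
    refine msg_le_of fun y hy => ?_
    rcases hT y hy with (rfl | ⟨b, -, rfl⟩ | ⟨b, hb, rfl⟩) | hy
    · norm_num
    · rw [Aa_p, pathp, div_le_div_iff₀ (by positivity) (by norm_num)]; linarith
    · exact (Hb_p b).trans_le ((hubp_le hb).trans (by norm_num))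
    · exact (p_le hy).trans (by norm_num)
  · have h4 : ∀ b, 2 ≤ b → Aa b ∈ l → b = 2 := fun b hb hm => by
      by_contra hb'
      obtain ⟨b, rfl⟩ : ∃ b', b = b' + 1 := ⟨b - 1, by omega⟩
      exact h3 ⟨b, by omega, hm⟩
    obtain rfl := h4 a ha hm
    obtain ⟨k1, k2⟩ := kitA (a := 1) pe.ok1 hm hN (f := 21 / 22) (ε := 2 / 77) (by norm_num)
      (by norm_num [pathZ]) (by norm_num [pathp])
    refine i.B3a _ _ _ _ _ _ pe.cx h1 h2 pe.ok1.msg_nonneg ?_ (msg_rep1 N).ge (msg_rep1 N).le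
      (c.noP pe k1) (c.noR pe (by convert k2 using 1 <;> norm_num))
    rw [mul_comm]
    refine msg_le_of fun y hy => ?_
    rcases hT y hy with (rfl | ⟨b, hb, rfl⟩ | ⟨b, hb, rfl⟩) | hy'
    · norm_num
    · rw [h4 b hb hy]; norm_num [pathp]
    · exact (Hb_p b).trans_le ((hubp_le hb).trans (by norm_num))
    · exact (p_le hy').trans (by norm_num)

/-- a middle vertex has at least four children -/
lemma card3 (c : CtxS) (i : Inst) {N : ℕ} {m l : Multiset Y} (hN : 11 ≤ N)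
    (hm : ∀ z ∈ m, (∃ a, 1 ≤ a ∧ z = St a) ∨ IsB z)
    (h : Ext true (nd false (BB N ::ₘ m) ::ₘ l)) (h0 : l ≠ 0) (hp : ∀ y ∈ l, y.p ≤ 3 / 7) :
    3 ≤ m.card := by
  by_contra! h1
  obtain ⟨D, β, γ, e, δ, pe, k1, k2⟩ := pairM c hN hm h h0
  have h2 : (m.card : ℚ) ≤ 2 := by exact_mod_cast Nat.lt_succ_iff.1 h1
  have h3 := (IsM.oks hm).1.msg_nonneg
  have h4 : msg m ≤ m.card * (1 / 3) := msg_le_of fun z hz => by
    rcases hm z hz with ⟨a, ha, rfl⟩ | hz
    · have : (1 : ℚ) ≤ a := by exact_mod_cast ha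
      rw [St_p]
      exact one_div_le_one_div_of_le (by norm_num) (by linarith)
    · exact p_le (Or.inl hz)
  refine i.D3c _ _ _ _ _ _ pe.cx (card_pos.2 h0) (by simpa using hN) k1 ?_ pe.ok1.msg_nonneg
    (by rw [mul_comm]; exact msg_le_of hp) (msg_rep1 N).ge (msg_rep1 N).le
    (c.noP pe (kitP3 pe.ok1 hN))
  rw [k2]
  exact one_div_le_one_div_of_le (by positivity) (by linarith)

lemma num {a d R X n w : ℚ} (ha : 1 ≤ a) (hd : 4 ≤ d) (hR : 0 ≤ R) (hn : 0 ≤ n)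
    (hX : X = 1 + 10 * n / 7) (hw : 10 / 7 ≤ w) :
    X / (n + 1) * ((2 * a + 3) / (a + 2)) * (d + 1 + (1 / X + (1 / (2 * a + 3) + R))) / (d + 1) <
      (4 * a + 3) / (2 * a + 2) * (X + w) / (n + 2) * (d + (1 / (X + w) + R)) / d := by
  have hX0 : 0 < X := by rw [hX]; positivity
  have h1 : (2 * a + 3) / (a + 2) * (d + 1 + (1 / X + (1 / (2 * a + 3) + R))) / (d + 1) <
      (4 * a + 3) / (2 * a + 2) * (d + (1 / X + R)) / d := by
    have : 0 ≤ 1 / X + R := by positivity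
    rw [add_left_comm (1 / X)]
    generalize 1 / X + R = S at this
    have e : (2 * a + 3) / (a + 2) * (d + 1 + (1 / (2 * a + 3) + S)) / (d + 1) =
        ((2 * a + 3) * (d + 1 + S) + 1) / ((a + 2) * (d + 1)) := by field_simp; ring
    rw [e, div_mul_eq_mul_div, div_div, div_lt_div_iff₀ (by positivity) (by positivity)]
    obtain ⟨x, rfl⟩ : ∃ x, a = 1 + x := ⟨a - 1, by ring⟩
    obtain ⟨y, rfl⟩ : ∃ y, d = 4 + y := ⟨d - 4, by ring⟩
    have hx : 0 ≤ x := by linarith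
    have hy : 0 ≤ y := by linarith
    rw [← sub_pos]
    ring_nf
    positivity
  have h2 : X / (n + 1) * (d + (1 / X + R)) ≤ (X + w) / (n + 2) * (d + (1 / (X + w) + R)) := by
    have e1 : X / (n + 1) * (d + (1 / X + R)) = (X * (d + R) + 1) / (n + 1) := by
      field_simp; ring
    have e2 : (X + w) / (n + 2) * (d + (1 / (X + w) + R)) = ((X + w) * (d + R) + 1) / (n + 2) := by
      have : 0 < X + w := by linarith
      field_simp; ring
    rw [e1, e2, div_le_div_iff₀ (by positivity) (by positivity)]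
    have : 3 / 7 ≤ (n + 1) * w - X := by rw [hX]; nlinarith
    nlinarith [mul_le_mul this (by linarith : 4 ≤ d + R) (by norm_num) (by linarith)]
  calc _ = X / (n + 1) * ((2 * a + 3) / (a + 2) *
        (d + 1 + (1 / X + (1 / (2 * a + 3) + R))) / (d + 1)) := by ring
    _ < X / (n + 1) * ((4 * a + 3) / (2 * a + 2) * (d + (1 / X + R)) / d) :=
      mul_lt_mul_of_pos_left h1 (by positivity)
    _ = (4 * a + 3) / (2 * a + 2) / d * (X / (n + 1) * (d + (1 / X + R))) := by ring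
    _ ≤ (4 * a + 3) / (2 * a + 2) / d * ((X + w) / (n + 2) * (d + (1 / (X + w) + R))) :=
      mul_le_mul_of_nonneg_left h2 (by positivity)
    _ = _ := by ring

/-- no star with two or more leaves below a middle vertex -/
lemma impS (N : ℕ) {a : ℕ} (ha : 1 ≤ a) {m : Multiset Y} (hm : OKs m) (hb : ∀ z ∈ m, z.b = true)
    (h2 : 2 ≤ m.card) : Imp 1 (nd false (BB N ::ₘ St (a + 1) ::ₘ m)) := by
  have o1 : OKs (Aa a ::ₘ replicate N (Hb 1)) := oks_cons.2 ⟨ok_Aa a, oks_rep (ok_Hb 1) N⟩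
  have o2 : OKs (nd true (Aa a ::ₘ replicate N (Hb 1)) ::ₘ m) := oks_cons.2 ⟨ok_true o1, hm⟩
  refine ⟨nd false (nd true (Aa a ::ₘ replicate N (Hb 1)) ::ₘ m), ok_false o2 ?_,
    by simp; omega, by simp; omega, fun t ht _ => ?_⟩
  · intro z hz
    rcases mem_cons.1 hz with rfl | hz
    exacts [rfl, hb z hz]
  have ha' : (1 : ℚ) ≤ a := by exact_mod_cast ha
  have h2' : (2 : ℚ) ≤ m.card := by exact_mod_cast h2
  have h3 := hm.msg_nonneg
  have h4 := hm.prd_pos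
  have h5 := num (d := m.card + 2) (R := msg m + t) (n := N) (w := 1 + pathp a) ha'
    (by linarith) (by linarith) (by positivity) rfl (by
      have : 3 / 7 ≤ pathp a := by
        rw [pathp, div_le_div_iff₀ (by norm_num) (by positivity)]; linarith
      linarith)
  have h6 := mul_lt_mul_of_pos_left h5 (by positivity : 0 < (7 / 4 : ℚ) ^ N * prd m)
  rw [nd_Zp (by simp [ok_BB, ok_St, hm]), nd_Zp o2]
  simp only [prd_cons, msg_cons, card_cons, nd_Z, nd_p, BB_Z, BB_p, St_Z, St_p, Aa_Z, Aa_p,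
    prd_rep, msg_rep, card_replicate, Hb_Z, Hb_p, hubZ_one, hubp_one, superZ, superp, pathZ]
  push_cast
  refine (le_of_eq ?_).trans_lt (h6.trans_eq ?_)
  · field_simp; ring
  · have e : (N : ℚ) + 1 + 1 + (pathp a + N * (3 / 7)) = 1 + 10 * N / 7 + (1 + pathp a) := by
      ring
    rw [e]; ring

lemma split {m : Multiset Y} (h : ∀ z ∈ m, z = P2 ∨ IsB z) : ∃ (b : ℕ) (K : Multiset ℕ),
    (∀ N ∈ K, 11 ≤ N) ∧ m = replicate b P2 + K.map BB := by
  induction m using Multiset.induction_on with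
  | empty => exact ⟨0, 0, by simp, by simp⟩
  | cons z m ih =>
    obtain ⟨b, K, h1, rfl⟩ := ih fun y hy => h y (mem_cons_of_mem hy)
    rcases h z (mem_cons_self _ _) with rfl | ⟨N, hN, rfl⟩
    · exact ⟨b + 1, K, h1, by rw [replicate_succ, cons_add]⟩
    · exact ⟨b, N ::ₘ K, by simpa [hN] using h1, by rw [map_cons, add_cons]⟩

lemma isM1 (c : CtxS) (i : Inst) {y : Y} {l : Multiset Y} (hy : IsM y) (h : Ext true (y ::ₘ l))
    (h0 : l ≠ 0) (hp : ∀ y ∈ l, y.p ≤ 3 / 7) : IsM1 y := by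
  obtain ⟨N, m, hN, rfl, hm⟩ := isM_cons hy
  have h3 := card3 c i hN hm h h0 hp
  obtain ⟨b, K, h1, rfl⟩ := split (m := m) fun z hz => by
    rcases hm z hz with ⟨a, ha, rfl⟩ | hz'
    · rcases ha.eq_or_lt with rfl | ha
      · exact Or.inl rfl
      obtain ⟨a, rfl⟩ : ∃ a', a = a' + 1 := ⟨a - 1, by omega⟩
      obtain ⟨m', rfl⟩ := exists_cons_of_mem hz
      have h4 := IsM.oks fun z hz => hm z (mem_cons_of_mem hz)
      have h5 := (oks_cons.1 h.oks).2.msg_nonneg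
      have h6 : (0 : ℚ) ≤ l.card := by positivity
      exact (one_imp h (by linarith) (impS N (by omega) h4.1 h4.2 (by simpa using h3))).elim
    · exact Or.inr hz'
  refine ⟨b, N ::ₘ K, by simpa [hN] using h1, cons_ne_zero, ?_, by rw [map_cons, add_cons]⟩
  simp at h3 ⊢
  omega

end PhB1

open PhB1 in
theorem phB1 (c : CtxS) (s : SrtS) (h : LocS) (x : XsS) (i : Inst) : PhB1Stm := by
  intro y0 l0 hE hy0 hl hp
  have h0 : l0 ≠ 0 := by
    rintro rfl
    simp at hp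
  obtain ⟨N, D, β, γ, e, δ, hN, pe⟩ := pairw c hy0 hE h0
  have hL := s.lemM pe hp ⟨Hb 1, mem_replicate.2 ⟨by omega, rfl⟩, by norm_num [hubp]⟩
  have hp0 := p_le hy0
  have hT : ∀ y ∈ l0, Typ y ∨ IsB y ∨ IsM y := fun y hy => by
    refine (hl y hy).imp_left fun h1 => ?_
    obtain ⟨l, rfl⟩ := exists_cons_of_mem hy
    rw [cons_swap] at hE
    refine (x.typ y y0 l hE (by linarith) h1).resolve_left ?_
    rintro rfl
    exact hL (by simp)
  have hR := res h hy0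
  have hH : ∀ y ∈ l0, y = Hb 1 ∨ y = Hb 2 ∨ IsB y ∨ IsM y := fun y hy => by
    obtain ⟨l, e⟩ := exists_cons_of_mem hy
    have h1 : 0 ≤ msg l := by
      have := pe.ok1
      rw [e] at this
      exact (oks_cons.1 this).2.msg_nonneg
    have h2 : (0 : ℚ) ≤ l.card := by positivity
    rcases hT y hy with (rfl | ⟨a, ha, rfl⟩ | ⟨b, hb, rfl⟩) | hy'
    · rw [e] at hE
      exact (two_deals hE hR.2.1.zero h.dPH (by norm_num) (by linarith) (by norm_num)
        (by norm_num) (by norm_num) (by norm_num)).elim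
    · exact (noA c i hN pe hT ha hy).elim
    · by_cases h3 : 3 ≤ b
      · rw [e] at hE
        exact (two_deals hE hR.1.zero (h.dH3 b h3) (by norm_num) (by linarith) (by norm_num)
          (by norm_num) (by norm_num) (by norm_num)).elim
      · obtain rfl | rfl : b = 1 ∨ b = 2 := by omega
        exacts [Or.inl rfl, Or.inr (Or.inl rfl)]
    · exact Or.inr (Or.inr hy')
  have hH' : ∀ y ∈ y0 ::ₘ l0, y = Hb 1 ∨ y = Hb 2 ∨ IsB y ∨ IsM y := fun y hy => by
    rcases mem_cons.1 hy with rfl | hy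
    exacts [Or.inr (Or.inr hy0), hH y hy]
  have hq : ∀ y ∈ y0 ::ₘ l0, y.p ≤ 3 / 7 := fun y hy => by
    rcases hH' y hy with rfl | rfl | hy
    · norm_num [hubp]
    · norm_num [hubp]
    · exact (p_le hy).trans (by norm_num)
  have h11 : 11 ≤ l0.card := by
    by_contra! h1
    have h2 : 1 ≤ l0.card := card_pos.2 h0
    exact i.D3a _ _ _ _ _ _ pe.cx h2 (by omega) (card_pos.2 pe.ne2) (by simp; omega)
      pe.ok1.msg_nonneg (by rw [mul_comm]; exact msg_le_of fun y hy => hq y (mem_cons_of_mem hy))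
      pe.ok2.msg_nonneg (msg_rep1 N).le (c.noP pe (kitP3 pe.ok1 hN)) (c.noR pe (kitR3 pe.ok1 hN))
  refine ⟨h11, fun y hy => (hH' y hy).imp_right fun k => k.imp_right fun k => k.imp_right
    fun k => ?_⟩
  obtain ⟨l, e⟩ := exists_cons_of_mem hy
  have h1 := congrArg card e
  simp only [card_cons] at h1
  rw [e] at hE hq
  exact isM1 c i k hE (card_pos.1 (by omega)) fun z hz => hq z (mem_cons_of_mem hz)

end Pool.Agent.Lib.MP_70d11c_co.Q2
end

-- part Pool.Agent.Lib.MP_70d11c_co.Q2.PhB67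
section

/-!
Middle vertices below the main centre carry no pendant 2-path, and there is at most one of them.
-/

namespace Pool.Agent.Lib.MP_70d11c_co.Q2

open Multiset

namespace PhB67

lemma oks_BB (K : Multiset ℕ) : OKs (K.map BB) := oks_map ok_BB K

lemma b_BB (K : Multiset ℕ) : ∀ z ∈ K.map BB, z.b = true := fun z hz => by
  obtain ⟨a, -, rfl⟩ := mem_map.1 hz; rfl

lemma superp_le {N a : ℕ} (h : N ≤ a) : superp a ≤ superp N := by
  have : (N : ℚ) ≤ a := by exact_mod_cast h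
  unfold superp
  apply div_le_div_of_nonneg_left (by norm_num) (by positivity); linarith

lemma msg_BB {K : Multiset ℕ} {N : ℕ} (h : ∀ a ∈ K, N ≤ a) :
    msg (K.map BB) ≤ K.card * superp N := by
  have := msg_le_of (l := K.map BB) (q := superp N) fun z hz => by
    obtain ⟨a, ha, rfl⟩ := mem_map.1 hz
    rw [BB_p]; exact superp_le (h a ha)
  rwa [card_map] at this

/-! ### no pendant path -/

lemma num_a {d R : ℚ} (hd : 5 ≤ d) (hR : 0 ≤ R) (h : 9 ≤ d ∨ 2 / 3 ≤ R) :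
    3 / 2 * ((d + 1 / 3 + R) / d) < 15567 / 10000 * ((d - 1 + R) / (d - 1)) := by
  rw [← mul_div_assoc, ← mul_div_assoc, div_lt_div_iff₀ (by linarith) (by linarith)]
  rcases h with h | h
  · nlinarith [mul_nonneg hR (by linarith : 0 ≤ d), mul_nonneg (sub_nonneg.2 h) (sub_nonneg.2 h)]
  · nlinarith [mul_nonneg (sub_nonneg.2 h) (by linarith : 0 ≤ d), sq_nonneg (d - 5)]

lemma imp_a (h : LocS) {N : ℕ} (hN : 11 ≤ N) {m : Multiset Y} (hm : OKs m)
    (hb : ∀ z ∈ m, z.b = true) (h2 : 2 ≤ m.card) (h3 : 6 ≤ m.card ∨ 2 / 3 ≤ msg m) (t0 : ℚ) :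
    Imp t0 (nd false (P2 ::ₘ BB N ::ₘ m)) := by
  obtain ⟨w, w1, w2, w3, w4, w5⟩ := (h.res N hN).1
  refine ⟨nd false (w ::ₘ m), ok_false (oks_cons.2 ⟨w1, hm⟩) fun z hz => ?_, ?_, ?_,
    fun t ht ht' => ?_⟩
  · rcases mem_cons.1 hz with rfl | hz
    exacts [w2 rfl, hb z hz]
  · simp only [nd_s, size_cons, P2_s]; omega
  · simp only [nd_c, cost_cons, P2_c]; omega
  · refine lt_of_lt_of_le ?_ (w5.nd (ok_BB N) w1 hm false false t0 t ht ht')
    have o1 : OKs (BB N ::ₘ m) := oks_cons.2 ⟨ok_BB N, hm⟩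
    rw [nd_Zp (oks_cons.2 ⟨ok_P2, o1⟩), nd_Zp o1]
    have a1 := o1.prd_pos
    have a2 := hm.msg_nonneg
    have a3 := (ok_BB N).p_pos
    have a4 : (2 : ℚ) ≤ m.card := by exact_mod_cast h2
    have key := num_a (d := m.card + 3) (R := (BB N).p + msg m + t) (by linarith) (by linarith)
      (h3.imp (fun k => by
        have : (6 : ℚ) ≤ m.card := by exact_mod_cast k
        linarith) fun k => by linarith)
    have := mul_lt_mul_of_pos_left key a1
    rw [prd_cons P2, msg_cons P2, msg_cons (BB N), card_cons, card_cons, P2_Z, P2_p]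
    push_cast
    refine lt_of_eq_of_lt ?_ (lt_of_lt_of_eq this ?_)
    · rw [show (m.card : ℚ) + 1 + 1 + 1 = m.card + 3 by ring]; ring
    · rw [show (m.card : ℚ) + 3 - 1 = m.card + 1 + 1 by ring]; ring

lemma num_b1 {x y u : ℚ} {k : ℕ} (hx : 0 ≤ x) (hy : 0 ≤ y) (hu : 0 ≤ u)
    (hu' : u ≤ k * (7 / 117) + 1 / 12) (h1 : 1 ≤ k) (h2 : k ≤ 4) :
    3 / 2 * ((10 * x + 117) * (10 * y + 117) * (k + 4 + 1 / 3 + u) + 7 * (10 * x + 117) +
        7 * (10 * y + 117)) * (x + y + k + 23) <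
      49 * (11 / 7) ^ 2 * (1 + 10 / 7 * (x + y + 22) - 24 / 77 + k + u) * (x + 12) * (y + 12) *
        (k + 4) := by
  have hv := sub_nonneg.2 hu'
  have hxy := mul_nonneg hx hy
  have hxx := mul_nonneg hx hx
  have hyy := mul_nonneg hy hy
  have hxxy := mul_nonneg hx hxy
  have hxyy := mul_nonneg hy hxy
  interval_cases k <;> push_cast at hv ⊢ <;>
  linarith [mul_nonneg hu hx, mul_nonneg hu hy, mul_nonneg hu hxy, mul_nonneg hu hxx,
    mul_nonneg hu hyy, mul_nonneg hu hxxy, mul_nonneg hu hxyy, mul_nonneg hv hx, mul_nonneg hv hy,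
    mul_nonneg hv hxy, mul_nonneg hv hxx, mul_nonneg hv hyy, mul_nonneg hv hxxy,
    mul_nonneg hv hxyy]

lemma num_b2 {x y u : ℚ} {k : ℕ} (hx : 0 ≤ x) (hy : 0 ≤ y) (hu : 0 ≤ u)
    (hu' : u ≤ k * (7 / 117) + 1 / 12) (h2 : k ≤ 3) :
    (3 / 2) ^ 2 * ((10 * x + 117) * (10 * y + 117) * (k + 5 + 2 / 3 + u) + 7 * (10 * x + 117) +
        7 * (10 * y + 117)) * (x + y + k + 23) <
      49 * (11 / 7) ^ 3 * (1 + 10 / 7 * (x + y + 22) - 36 / 77 + k + u) * (x + 12) * (y + 12) *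
        (k + 5) := by
  have hv := sub_nonneg.2 hu'
  have hxy := mul_nonneg hx hy
  have hxx := mul_nonneg hx hx
  have hyy := mul_nonneg hy hy
  have hxxy := mul_nonneg hx hxy
  have hxyy := mul_nonneg hy hxy
  interval_cases k <;> push_cast at hv ⊢ <;>
  linarith [mul_nonneg hu hx, mul_nonneg hu hy, mul_nonneg hu hxy, mul_nonneg hu hxx,
    mul_nonneg hu hyy, mul_nonneg hu hxxy, mul_nonneg hu hxyy, mul_nonneg hv hx, mul_nonneg hv hy,
    mul_nonneg hv hxy, mul_nonneg hv hxx, mul_nonneg hv hyy, mul_nonneg hv hxxy,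
    mul_nonneg hv hxyy]

lemma old_val (b x y : ℕ) (m : Multiset Y) (hm : OKs m) (t : ℚ) :
    (nd false (replicate b P2 + (BB (x + 11) ::ₘ BB (y + 11) ::ₘ m))).Z *
      (1 + t * (nd false (replicate b P2 + (BB (x + 11) ::ₘ BB (y + 11) ::ₘ m))).p) =
    (7 / 4) ^ (x + y + 22) * prd m * ((3 / 2) ^ b * ((10 * x + 117) * (10 * y + 117) *
      (m.card + (b + 3) + b / 3 + (msg m + t)) + 7 * (10 * x + 117) + 7 * (10 * y + 117)) /
      (49 * (x + 12) * (y + 12) * (m.card + (b + 3)))) := by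
  rw [nd_Zp (oks_add.2 ⟨oks_rep ok_P2 b, oks_cons.2 ⟨ok_BB _, oks_cons.2 ⟨ok_BB _, hm⟩⟩⟩)]
  simp only [prd_add, prd_rep, prd_cons, msg_add, msg_rep, msg_cons, card_add, card_replicate,
    card_cons, P2_Z, P2_p, BB_Z, BB_p, superZ, superp]
  push_cast
  field_simp
  ring

lemma new_val (n j : ℕ) (m : Multiset Y) (hm : OKs m) (t : ℚ) :
    (nd true (replicate n (Hb 1) + replicate j (Hb 2) + m)).Z *
      (1 + t * (nd true (replicate n (Hb 1) + replicate j (Hb 2) + m)).p) =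
    (7 / 4) ^ (n + j) * prd m * ((11 / 7) ^ j *
      (1 + 10 / 7 * (n + j) - 12 * j / 77 + m.card + (msg m + t)) / (n + j + m.card + 1)) := by
  rw [nd_Zp (oks_add.2 ⟨oks_add.2 ⟨oks_rep (ok_Hb 1) n, oks_rep (ok_Hb 2) j⟩, hm⟩)]
  simp only [prd_add, prd_rep, msg_add, msg_rep, card_add, card_replicate, Hb_Z, Hb_p, hubZ_one,
    hubZ_two, hubp_one, hubp_two]
  rw [show (11 / 4 : ℚ) = 7 / 4 * (11 / 7) by norm_num, mul_pow, pow_add]
  push_cast
  field_simp
  ring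

lemma imp_b {b N M : ℕ} (hN : 11 ≤ N) (hM : 11 ≤ M) {K : Multiset ℕ} (hK : ∀ a ∈ K, 11 ≤ a)
    (hb : 1 ≤ b) (hb' : b ≤ 2) (h1 : 2 ≤ b + K.card) (h2 : b + K.card ≤ 5) :
    Imp (1 / 12) (nd false (replicate b P2 + (BB N ::ₘ BB M ::ₘ K.map BB))) := by
  obtain ⟨x, rfl⟩ : ∃ x, N = x + 11 := ⟨N - 11, by omega⟩
  obtain ⟨y, rfl⟩ : ∃ y, M = y + 11 := ⟨M - 11, by omega⟩
  have hm := oks_BB K
  refine ⟨nd true (replicate (x + y + 21 - b) (Hb 1) + replicate (b + 1) (Hb 2) + K.map BB),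
    ok_true (oks_add.2 ⟨oks_add.2 ⟨oks_rep (ok_Hb 1) _, oks_rep (ok_Hb 2) _⟩, hm⟩), ?_, ?_,
    fun t ht ht' => ?_⟩
  · simp only [nd_s, size_add, size_rep, size_cons, Hb_s, P2_s, BB_s]; omega
  · simp only [nd_c, cost_add, cost_rep, cost_cons, Hb_c, P2_c, BB_c, Bool.toNat_true,
      Bool.toNat_false]
    omega
  · rw [old_val _ _ _ _ hm, new_val _ _ _ hm, show x + y + 21 - b + (b + 1) = x + y + 22 by omega]
    have a1 := hm.prd_pos
    have a2 := hm.msg_nonneg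
    have a3 := msg_BB hK
    rw [show superp 11 = 7 / 117 by norm_num [superp]] at a3
    apply mul_lt_mul_of_pos_left _ (by positivity)
    rw [div_lt_div_iff₀ (by positivity) (by positivity), card_map]
    have hx : (0 : ℚ) ≤ x := by positivity
    have hy : (0 : ℚ) ≤ y := by positivity
    interval_cases b
    · have := num_b1 (u := msg (K.map BB) + t) (k := K.card) hx hy (by linarith) (by linarith)
        (by omega) (by omega)
      rw [show x + y + 21 - 1 = x + y + 20 by omega]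
      push_cast
      refine lt_of_eq_of_lt ?_ (lt_of_lt_of_eq this ?_) <;> ring
    · have := num_b2 (u := msg (K.map BB) + t) (k := K.card) hx hy (by linarith) (by linarith)
        (by omega)
      rw [show x + y + 21 - 2 = x + y + 19 by omega]
      push_cast
      refine lt_of_eq_of_lt ?_ (lt_of_lt_of_eq this ?_) <;> ring

/-! ### two middle vertices -/

lemma num_root {D R s : ℚ} (hD : 12 ≤ D) (hR : D ≤ R) (hs : s ≤ 2 / 5) :
    (R + s) / D ≤ 31 / 30 * ((R - 1) / (D - 1)) := by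
  rw [← mul_div_assoc, div_le_div_iff₀ (by linarith) (by linarith)]
  nlinarith [mul_nonneg (sub_nonneg.2 hR) (by linarith : 0 ≤ D),
    mul_nonneg (sub_nonneg.2 hD) (by linarith : 0 ≤ D - 1),
    mul_nonneg (sub_nonneg.2 hs) (by linarith : 0 ≤ D - 1)]

lemma num_mid0 {u1 u2 u q : ℚ} (hq : q ≤ 7 / 117) (h1 : 0 ≤ u1) (h2 : 0 ≤ u2) (h2' : u2 ≤ q)
    (h : u1 - q / 4 ≤ u) : 985 / 1000 * ((1 + u1) * (1 + u2)) ≤ (1 + q) * (1 + u) := by
  have e1 : 985 / 1000 * (1 + u1) ≤ 1 + u := by linarith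
  calc 985 / 1000 * ((1 + u1) * (1 + u2)) = 985 / 1000 * (1 + u1) * (1 + u2) := by ring
    _ ≤ (1 + u) * (1 + q) := mul_le_mul e1 (by linarith) (by linarith) (by linarith)
    _ = _ := mul_comm _ _

lemma num_mid {k1 k2 a1 a2 A q : ℚ} (hq : q ≤ 7 / 117) (hq0 : 0 ≤ q) (hk1 : 5 ≤ k1) (hk2 : 5 ≤ k2)
    (h1 : 0 ≤ a1) (h1' : a1 ≤ k1 * q) (h2 : 0 ≤ a2) (h2' : a2 ≤ k2 * q) (hA : a1 + a2 - 2 * q ≤ A) :
    985 / 1000 * ((k1 + a1) / k1 * ((k2 + a2) / k2)) ≤
      (1 + q) * ((k1 + k2 - 2 + A) / (k1 + k2 - 2)) := by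
  have p1 : 0 < k1 := by linarith
  have p2 : 0 < k2 := by linarith
  have p3 : 0 < k1 + k2 - 2 := by linarith
  rw [add_div k1, add_div k2, add_div (k1 + k2 - 2), div_self p1.ne', div_self p2.ne',
    div_self p3.ne']
  obtain ⟨u1, rfl⟩ : ∃ u, a1 = k1 * u := ⟨a1 / k1, by field_simp⟩
  obtain ⟨u2, rfl⟩ : ∃ u, a2 = k2 * u := ⟨a2 / k2, by field_simp⟩
  rw [mul_div_cancel_left₀ _ p1.ne', mul_div_cancel_left₀ _ p2.ne']
  have b1 : 0 ≤ u1 := nonneg_of_mul_nonneg_right h1 p1 |> fun h => by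
    by_contra k; nlinarith [not_le.1 k]
  have b2 : 0 ≤ u2 := by by_contra k; nlinarith [not_le.1 k]
  have c1 : u1 ≤ q := le_of_mul_le_mul_left h1' p1
  have c2 : u2 ≤ q := le_of_mul_le_mul_left h2' p2
  rcases le_total u1 u2 with h | h
  · refine num_mid0 hq b1 b2 c2 ?_
    rw [le_div_iff₀ p3]
    nlinarith [mul_nonneg (sub_nonneg.2 h) p2.le, mul_nonneg hq0 (by linarith : 0 ≤ k1 + k2 - 10)]
  · rw [mul_comm (1 + u1)]
    refine num_mid0 hq b2 b1 c1 ?_
    rw [le_div_iff₀ p3]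
    nlinarith [mul_nonneg (sub_nonneg.2 h) p1.le, mul_nonneg hq0 (by linarith : 0 ≤ k1 + k2 - 10)]

lemma num_cen {x y : ℚ} (hx : 0 ≤ x) (hy : 0 ≤ y) :
    1055 / 1000 * ((10 * x + 117) / (7 * x + 84) * ((10 * y + 117) / (7 * y + 84)) *
      (1 + 7 / (10 * x + 117))) ≤
    11 / 7 * ((10 / 7 * (x + y + 22) + 65 / 77) / (x + y + 23)) := by
  have e : (10 * x + 117) / (7 * x + 84) * ((10 * y + 117) / (7 * y + 84)) *
      (1 + 7 / (10 * x + 117)) = (10 * x + 124) * (10 * y + 117) / ((7 * x + 84) * (7 * y + 84)) := by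
    field_simp
    ring
  rw [e, ← mul_div_assoc, ← mul_div_assoc, div_le_div_iff₀ (by positivity) (by positivity)]
  have hxy := mul_nonneg hx hy
  linarith [mul_nonneg hx hx, mul_nonneg hy hy, mul_nonneg hx hxy, mul_nonneg hy hxy]

lemma chain {c c' m m' r r' q : ℚ} (hc : 0 < c) (hm : 0 < m) (hr : 0 < r) (hq : 0 ≤ q)
    (h1 : r ≤ 31 / 30 * r') (h2 : 985 / 1000 * m ≤ (1 + q) * m')
    (h3 : 1055 / 1000 * (c * (1 + q)) ≤ c') : c * m * r < c' * m' * r' := by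
  have hm' : 0 < m' := by
    by_contra k
    nlinarith [mul_nonneg (by linarith : 0 ≤ 1 + q) (neg_nonneg.2 (not_lt.1 k))]
  have hr' : 0 < r' := by linarith
  have e1 : 985 / 1000 * (c * m) ≤ c * (1 + q) * m' := by
    nlinarith [mul_le_mul_of_nonneg_left h2 hc.le]
  have e2 : 1055 / 1000 * (c * (1 + q) * m') ≤ c' * m' := by
    nlinarith [mul_le_mul_of_nonneg_right h3 hm'.le]
  have e3 : 0 < c * m := mul_pos hc hm
  have e4 : c * m * r ≤ c * m * (31 / 30 * r') := mul_le_mul_of_nonneg_left h1 e3.le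
  have e5 : 1039 / 1000 * (c * m) ≤ c' * m' := by linarith
  nlinarith [mul_le_mul_of_nonneg_right e5 hr'.le, mul_pos e3 hr']

lemma final {x y k1 k2 d A1 A2 ml s1 s2 s3 pC qM qN W P1 P2 Pl : ℚ} (hx : 0 ≤ x) (hy : 0 ≤ y)
    (h1 : 3 ≤ k1) (h2 : 3 ≤ k2) (hd : 10 ≤ d) (n1 : 0 ≤ A1) (n2 : 0 ≤ A2) (nl : 0 ≤ ml)
    (a1 : 0 < s1) (a1' : s1 ≤ 1 / 5) (a2 : 0 < s2) (a2' : s2 ≤ 1 / 5) (a3 : 0 < s3) (a4 : 0 < pC)
    (q1 : 0 < qM) (q2 : qM ≤ qN) (q3 : qN = 7 / (10 * x + 117)) (q4 : qN ≤ 7 / 117)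
    (m1 : A1 ≤ k1 * qN) (m2 : A2 ≤ k2 * qN) (hW : 0 < W) (p1 : 0 < P1) (p2 : 0 < P2)
    (pl : 0 < Pl) {a b ZM ZN ZC : ℚ} (ha : 0 < a) (hb : 0 < b) (hab : W = a * b)
    (eM : ZM = b * ((10 * y + 117) / (7 * y + 84))) (eN : ZN = a * ((10 * x + 117) / (7 * x + 84)))
    (eC : ZC = W * (11 / 7 * ((10 / 7 * (x + y + 22) + 65 / 77) / (x + y + 23)))) :
    ZM * P1 * (k1 + 1 + 1 + (qM + A1)) / (k1 + 1 + 1) *
        (ZN * P2 * (k2 + 1 + 1 + (qN + A2)) / (k2 + 1 + 1) * Pl) *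
        (d + 1 + 1 + (s2 + ml) + s1) / (d + 1 + 1) <
      ZC * (P1 * P2) * (k1 + k2 + 1 + 1 + (pC + (A1 + A2))) / (k1 + k2 + 1 + 1) * Pl *
        (d + 1 + ml + s3) / (d + 1) := by
  have r1 := num_root (D := d + 2) (R := d + 2 + ml) (s := s1 + s2) (by linarith) (by linarith)
    (by linarith)
  have r2 : (d + 2 + ml - 1) / (d + 2 - 1) ≤ (d + 1 + ml + s3) / (d + 1) := by
    rw [show d + 2 - 1 = d + 1 by ring]
    exact div_le_div_of_nonneg_right (by linarith) (by linarith)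
  have r3 := num_mid (k1 := k1 + 2) (k2 := k2 + 2) (a1 := qM + A1) (a2 := qN + A2)
    (A := pC + (A1 + A2)) q4 (by linarith) (by linarith) (by linarith)
    (by linarith) (by linarith) (by linarith) (by linarith) (by linarith)
  have r4 := num_cen hx hy
  rw [← q3] at r4
  have t1 : 0 < (10 * x + 117) / (7 * x + 84) * ((10 * y + 117) / (7 * y + 84)) := by positivity
  have t2 : 0 < (k1 + 2 + (qM + A1)) / (k1 + 2) * ((k2 + 2 + (qN + A2)) / (k2 + 2)) :=
    mul_pos (div_pos (by linarith) (by linarith)) (div_pos (by linarith) (by linarith))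
  have t3 : 0 < (d + 2 + ml + (s1 + s2)) / (d + 2) := div_pos (by linarith) (by linarith)
  have r5 : (d + 2 + ml + (s1 + s2)) / (d + 2) ≤ 31 / 30 * ((d + 1 + ml + s3) / (d + 1)) := by
    linarith
  have key := chain t1 t2 t3 (by linarith) r5 r3 r4
  have pp : 0 < W * P1 * P2 * Pl := by positivity
  have fin := mul_lt_mul_of_pos_left key pp
  rw [show k1 + 1 + 1 = k1 + 2 by ring, show k2 + 1 + 1 = k2 + 2 by ring,
    show d + 1 + 1 = d + 2 by ring, show k1 + k2 + 1 + 1 = k1 + 2 + (k2 + 2) - 2 by ring, eM, eN, eC]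
  generalize (10 * x + 117) / (7 * x + 84) = u1 at *
  generalize (10 * y + 117) / (7 * y + 84) = u2 at *
  generalize 11 / 7 * ((10 / 7 * (x + y + 22) + 65 / 77) / (x + y + 23)) = u3 at *
  refine lt_of_eq_of_lt ?_ (lt_of_lt_of_eq fin ?_)
  · rw [hab]; ring
  · ring

lemma two_mid {N M : ℕ} (hN : 11 ≤ N) (hM : N ≤ M) {K1 K2 : Multiset ℕ} (h1 : ∀ a ∈ K1, N ≤ a)
    (h2 : ∀ a ∈ K2, N ≤ a) (c1 : 3 ≤ K1.card) (c2 : 3 ≤ K2.card) {l : Multiset Y}
    (hl : 10 ≤ l.card)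
    (h : Ext true (nd false (BB M ::ₘ K1.map BB) ::ₘ nd false (BB N ::ₘ K2.map BB) ::ₘ l)) :
    False := by
  have hq := superp_le hM
  have hq' : superp N ≤ 7 / 117 := (superp_le hN).trans (by norm_num [superp])
  have m1 := msg_BB h1
  have m2 := msg_BB h2
  obtain ⟨x, rfl⟩ : ∃ x, N = x + 11 := ⟨N - 11, by omega⟩
  obtain ⟨y, rfl⟩ : ∃ y, M = y + 11 := ⟨M - 11, by omega⟩
  have o1 := oks_BB K1
  have o2 := oks_BB K2
  have ol : OKs l := (oks_cons.1 (oks_cons.1 h.oks).2).2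
  have oC : OK (nd true (replicate (x + y + 21) (Hb 1) + replicate 1 (Hb 2) + 0)) :=
    ok_true (oks_add.2 ⟨oks_add.2 ⟨oks_rep (ok_Hb 1) _, oks_rep (ok_Hb 2) _⟩, oks_zero⟩)
  have eC := new_val (x + y + 21) 1 0 oks_zero 0
  have sC : (nd true (replicate (x + y + 21) (Hb 1) + replicate 1 (Hb 2) + 0)).s =
      3 * (x + y) + 69 := by
    simp only [nd_s, size_add, size_rep, Hb_s, size_zero]; omega
  have cC : (nd true (replicate (x + y + 21) (Hb 1) + replicate 1 (Hb 2) + 0)).c =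
      x + y + 24 := by
    simp only [nd_c, cost_add, cost_rep, Hb_c, cost_zero, Bool.toNat_true]; omega
  have bC : (nd true (replicate (x + y + 21) (Hb 1) + replicate 1 (Hb 2) + 0)).b = true := rfl
  generalize nd true (replicate (x + y + 21) (Hb 1) + replicate 1 (Hb 2) + 0) = C at oC eC sC cC bC
  have om : OKs (C ::ₘ (K1.map BB + K2.map BB)) := oks_cons.2 ⟨oC, oks_add.2 ⟨o1, o2⟩⟩
  have oz : OK (nd false (C ::ₘ (K1.map BB + K2.map BB))) := ok_false om fun z hz => by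
    rcases mem_cons.1 hz with rfl | hz
    · exact bC
    · rcases mem_add.1 hz with hz | hz
      exacts [b_BB _ z hz, b_BB _ z hz]
  have le := h.le (l' := nd false (C ::ₘ (K1.map BB + K2.map BB)) ::ₘ l) (oks_cons.2 ⟨oz, ol⟩)
    cons_ne_zero (by simp only [size_cons, nd_s, size_add, BB_s, sC]; omega)
    (by simp only [cost_cons, nd_c, cost_add, BB_c, cC, Bool.toNat_false]; omega)
  have hx : (0 : ℚ) ≤ x := by positivity
  have hy : (0 : ℚ) ≤ y := by positivity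
  have k1 : (3 : ℚ) ≤ K1.card := by exact_mod_cast c1
  have k2 : (3 : ℚ) ≤ K2.card := by exact_mod_cast c2
  have kl : (10 : ℚ) ≤ l.card := by exact_mod_cast hl
  have n1 := o1.msg_nonneg
  have n2 := o2.msg_nonneg
  have nl := ol.msg_nonneg
  have pC := oC.p_pos
  have pz := oz.p_pos
  have qM : 0 < superp (y + 11) := by unfold superp; positivity
  have qN : 0 < superp (x + 11) := by unfold superp; positivity
  have p1 : (nd false (BB (y + 11) ::ₘ K1.map BB)).p ≤ 1 / 5 := by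
    rw [nd_p, msg_cons, card_cons, card_map, BB_p]
    push_cast
    exact one_div_le_one_div_of_le (by norm_num) (by linarith)
  have p2 : (nd false (BB (x + 11) ::ₘ K2.map BB)).p ≤ 1 / 5 := by
    rw [nd_p, msg_cons, card_cons, card_map, BB_p]
    push_cast
    exact one_div_le_one_div_of_le (by norm_num) (by linarith)
  have p1' := ((oks_cons.1 h.oks).1).p_pos
  have p2' := ((oks_cons.1 (oks_cons.1 h.oks).2).1).p_pos
  have eq : superp (x + 11) = 7 / (10 * x + 117) := by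
    unfold superp; push_cast; ring_nf
  have eZ : ∀ n : ℕ, superZ (n + 11) = (7 / 4) ^ (n + 11) * ((10 * n + 117) / (7 * n + 84)) :=
    fun n => by
      unfold superZ
      generalize (7 / 4 : ℚ) ^ (n + 11) = a
      push_cast
      rw [mul_div_assoc]
      congr 2 <;> ring
  have eC' : C.Z = (7 / 4) ^ (x + y + 22) *
      (11 / 7 * ((10 / 7 * (x + y + 22) + 65 / 77) / (x + y + 23))) := by
    rw [zero_mul, add_zero, mul_one, prd_zero, msg_zero, card_zero] at eC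
    rw [eC, show x + y + 21 + 1 = x + y + 22 by omega]
    generalize (7 / 4 : ℚ) ^ (x + y + 22) = a
    push_cast
    rw [mul_one, pow_one, mul_div_assoc]
    congr 3 <;> ring
  have fin := final hx hy k1 k2 kl n1 n2 nl p1' p1 p2' p2 pz pC qM hq eq hq' m1 m2
    (pow_pos (by norm_num) (x + y + 22)) o1.prd_pos o2.prd_pos ol.prd_pos
    (pow_pos (by norm_num) (x + 11)) (pow_pos (by norm_num) (y + 11))
    (by rw [← pow_add]; congr 1; omega) (eZ y) (eZ x) eC'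
  rw [rt_cons, rt_cons, nd_Z, nd_Z, prd_cons (nd _ _), msg_cons (nd _ _), nd_Z] at le
  simp only [prd_cons, msg_cons, card_cons, prd_add, msg_add, card_add, card_map, BB_Z,
    BB_p] at le
  push_cast at le
  exact absurd le (not_le.2 fin)

end PhB67

theorem phB6 (h : LocS) : PhB6Stm := by
  rintro y l he hl ⟨b, K, hK, h0, h4, rfl⟩
  rcases Nat.eq_zero_or_pos b with rfl | hb
  · exact ⟨K, hK, by simpa using h4, by simp⟩
  exfalso
  have ol : OKs l := (oks_cons.1 he.oks).2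
  have kl : (11 : ℚ) ≤ l.card := by exact_mod_cast hl
  refine one_imp he (t0 := 1 / 12) (by linarith [ol.msg_nonneg]) ?_
  obtain ⟨N, hN⟩ := exists_mem_of_ne_zero h0
  obtain ⟨K', rfl⟩ := exists_cons_of_mem hN
  have hN' := hK N hN
  have hK' : ∀ a ∈ K', 11 ≤ a := fun a ha => hK a (mem_cons_of_mem ha)
  rw [card_cons] at h4
  by_cases hc : 3 ≤ b ∨ 7 ≤ b + K'.card
  · obtain ⟨b', rfl⟩ : ∃ b', b = b' + 1 := ⟨b - 1, by omega⟩
    have e : replicate (b' + 1) P2 + (N ::ₘ K').map BB =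
        P2 ::ₘ BB N ::ₘ (replicate b' P2 + K'.map BB) := by
      rw [replicate_succ, map_cons, cons_add, add_cons]
    rw [e]
    refine PhB67.imp_a h hN' (oks_add.2 ⟨oks_rep ok_P2 _, PhB67.oks_BB _⟩) (fun z hz => ?_)
      (by rw [card_add, card_replicate, card_map]; omega) ?_ _
    · rcases mem_add.1 hz with hz | hz
      · rw [eq_of_mem_replicate hz]; rfl
      · exact PhB67.b_BB _ z hz
    · rcases hc with hc | hc
      · right
        have : (2 : ℚ) ≤ b' := by exact_mod_cast (by omega : 2 ≤ b')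
        have := (PhB67.oks_BB K').msg_nonneg
        rw [msg_add, msg_rep, P2_p]
        linarith
      · left
        rw [card_add, card_replicate, card_map]; omega
  · obtain ⟨M, hM⟩ := exists_mem_of_ne_zero (s := K') (by rintro rfl; simp at h4; omega)
    obtain ⟨K'', rfl⟩ := exists_cons_of_mem hM
    rw [card_cons] at h4 hc
    rw [map_cons, map_cons]
    exact PhB67.imp_b hN' (hK' M hM) (fun a ha => hK' a (mem_cons_of_mem ha)) hb (by omega)
      (by omega) (by omega)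

theorem phB7 : PhB7Stm := by
  have key : ∀ (K1 K2 : Multiset ℕ) (N : ℕ) (l : Multiset Y), N ∈ K2 → 11 ≤ N → (∀ a ∈ K1, N ≤ a) →
      (∀ a ∈ K2, N ≤ a) → 4 ≤ K1.card → 4 ≤ K2.card → 10 ≤ l.card →
      Ext true (nd false (K1.map BB) ::ₘ nd false (K2.map BB) ::ₘ l) → False := by
    intro K1 K2 N l hN h11 h1 h2 c1 c2 hl he
    obtain ⟨M, hM⟩ := exists_mem_of_ne_zero (s := K1) (by rintro rfl; simp at c1)
    obtain ⟨K1', rfl⟩ := exists_cons_of_mem hM
    obtain ⟨K2', rfl⟩ := exists_cons_of_mem hN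
    rw [card_cons] at c1 c2
    rw [map_cons, map_cons] at he
    exact PhB67.two_mid h11 (h1 M hM) (fun a ha => h1 a (mem_cons_of_mem ha))
      (fun a ha => h2 a (mem_cons_of_mem ha)) (by omega) (by omega) hl he
  rintro y y' l he hl ⟨K1, a1, c1, rfl⟩ ⟨K2, a2, c2, rfl⟩
  obtain ⟨N, hN, hmin⟩ := (K1 + K2).exists_min_image id (by
    intro k
    rw [← card_eq_zero, card_add] at k
    omega)
  have m1 : ∀ a ∈ K1, N ≤ a := fun a ha => hmin a (mem_add.2 (Or.inl ha))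
  have m2 : ∀ a ∈ K2, N ≤ a := fun a ha => hmin a (mem_add.2 (Or.inr ha))
  rcases mem_add.1 hN with hN | hN
  · rw [cons_swap] at he
    exact key K2 K1 N l hN (a1 N hN) m2 m1 c2 c1 hl he
  · exact key K1 K2 N l hN (a2 N hN) m1 m2 c1 c2 hl he

end Pool.Agent.Lib.MP_70d11c_co.Q2
end

-- part Pool.Agent.Lib.MP_70d11c_co.Q2.PhB92
section

/-!
A middle vertex excludes large branches at the root; the final shape of the extremal tree.
-/

namespace Pool.Agent.Lib.MP_70d11c_co.Q2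

open Multiset

namespace PhB92

lemma aff (f : ℚ → ℚ) (hf : ∀ x, f x = f 0 + (f 1 - f 0) * x) {lo hi x : ℚ} (h1 : lo ≤ x)
    (h2 : x ≤ hi) (k1 : 0 < f lo) (k2 : 0 < f hi) : 0 < f x := by
  rw [hf] at k1 k2 ⊢
  rcases le_total 0 (f 1 - f 0) with h | h
  · nlinarith [mul_le_mul_of_nonneg_left h1 h]
  · nlinarith [mul_le_mul_of_nonpos_left h2 h]

/-- gain of the first move, with the square of `c` replaced by a chord -/
def G1 (d H X V c : ℚ) : ℚ :=
  (X * V + (X - V) * c - (241 / 117 * c - 124 / 117) + 1) * d * H -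
    (X * V + 1) * (d - 1) * (H + 1)

/-- gain of the second move -/
def G2 (d H N X v : ℚ) : ℚ :=
  11 / 7 * ((X - 3 + 10 / 7 * N - 12 / 77 + H) * (10 * N + 7) + v) * (7 * N + 7) * d * H -
    (X * (H * (10 * N + 7) + 7 + v) + (10 * N + 7)) * (d + H - 3 + N) * (10 * N + 7)

lemma g1_of {d H X0 X V c : ℚ} (h1 : X0 ≤ X) (h2 : X ≤ 10 / 7 * d) (h3 : H ≤ V)
    (h4 : V ≤ H + (H - 1) * (7 / 117)) (h5 : 1 ≤ c) (h6 : c ≤ 124 / 117)
    (k : ∀ X' ∈ [X0, 10 / 7 * d], ∀ V' ∈ [H, H + (H - 1) * (7 / 117)], ∀ c' ∈ [1, 124 / 117],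
      0 < G1 d H X' V' c') : 0 < G1 d H X V c := by
  have a1 : ∀ V' ∈ [H, H + (H - 1) * (7 / 117)], ∀ c' ∈ [1, 124 / 117], 0 < G1 d H X V' c' :=
    fun V' b c' e => aff (fun t => G1 d H t V' c') (fun t => by simp only [G1]; ring) h1 h2
      (k _ (by simp) _ b _ e) (k _ (by simp) _ b _ e)
  have a2 : ∀ c' ∈ [1, 124 / 117], 0 < G1 d H X V c' :=
    fun c' e => aff (fun t => G1 d H X t c') (fun t => by simp only [G1]; ring) h3 h4
      (a1 _ (by simp) _ e) (a1 _ (by simp) _ e)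
  exact aff (fun t => G1 d H X V t) (fun t => by simp only [G1]; ring) h5 h6
    (a2 _ (by simp)) (a2 _ (by simp))

lemma g2_of {d H N X1 X v : ℚ} (h1 : d ≤ X) (h2 : X ≤ X1) (h3 : 0 ≤ v) (h4 : v ≤ 7 * (H - 2))
    (k : ∀ X' ∈ [d, X1], ∀ v' ∈ [0, 7 * (H - 2)], 0 < G2 d H N X' v') : 0 < G2 d H N X v := by
  have a1 : ∀ v' ∈ [0, 7 * (H - 2)], 0 < G2 d H N X v' :=
    fun v' b => aff (fun t => G2 d H N t v') (fun t => by simp only [G2]; ring) h1 h2
      (k _ (by simp) _ b) (k _ (by simp) _ b)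
  exact aff (fun t => G2 d H N X t) (fun t => by simp only [G2]; ring) h3 h4
    (a1 _ (by simp)) (a1 _ (by simp))

lemma num {d H N X V c v : ℚ} (hd : 12 ≤ d) (hH : 5 ≤ H) (hN : 11 ≤ N) (h1 : d ≤ X)
    (h2 : X ≤ 10 / 7 * d) (h3 : H ≤ V) (h4 : V ≤ H + (H - 1) * (7 / 117)) (h5 : 1 ≤ c)
    (h6 : c ≤ 124 / 117) (h7 : 0 ≤ v) (h8 : v ≤ 7 * (H - 2)) :
    0 < G1 d H X V c ∨ 0 < G2 d H N X v := by
  obtain ⟨n, hn, rfl⟩ : ∃ n, 0 ≤ n ∧ N = 11 + n := ⟨N - 11, by linarith, by ring⟩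
  rcases le_total X (11 / 10 * d) with a1 | a1
  · refine Or.inr (g2_of h1 a1 h7 h8 ?_)
    obtain ⟨s, hs, rfl⟩ : ∃ s, 0 ≤ s ∧ d = 12 + s := ⟨d - 12, by linarith, by ring⟩
    obtain ⟨x, hx, rfl⟩ : ∃ x, 0 ≤ x ∧ H = 5 + x := ⟨H - 5, by linarith, by ring⟩
    simp only [List.mem_cons, List.not_mem_nil, or_false, forall_eq_or_imp, forall_eq, G2]
    refine ⟨⟨?_, ?_⟩, ?_, ?_⟩ <;> ring_nf <;> positivity
  rcases le_total (5 / 8 * d) H with a2 | a2
  · refine Or.inl (g1_of a1 h2 h3 h4 h5 h6 ?_)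
    obtain ⟨s, hs, rfl⟩ : ∃ s, 0 ≤ s ∧ H = 5 / 8 * d + s := ⟨H - 5 / 8 * d, by linarith, by ring⟩
    obtain ⟨x, hx, rfl⟩ : ∃ x, 0 ≤ x ∧ d = 12 + x := ⟨d - 12, by linarith, by ring⟩
    simp only [List.mem_cons, List.not_mem_nil, or_false, forall_eq_or_imp, forall_eq, G1]
    refine ⟨⟨⟨?_, ?_⟩, ?_, ?_⟩, ⟨?_, ?_⟩, ?_, ?_⟩ <;> ring_nf <;> positivity
  rcases le_total X (5 / 4 * d) with a3 | a3
  · refine Or.inr (g2_of h1 a3 h7 h8 ?_)
    obtain ⟨s, hs, rfl⟩ : ∃ s, 0 ≤ s ∧ d = 8 / 5 * H + s := ⟨d - 8 / 5 * H, by linarith, by ring⟩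
    obtain ⟨x, hx, rfl⟩ : ∃ x, 0 ≤ x ∧ H = 5 + x := ⟨H - 5, by linarith, by ring⟩
    simp only [List.mem_cons, List.not_mem_nil, or_false, forall_eq_or_imp, forall_eq, G2]
    refine ⟨⟨?_, ?_⟩, ?_, ?_⟩ <;> ring_nf <;> positivity
  rcases le_total (2 / 7 * d) H with a4 | a4
  · refine Or.inl (g1_of a3 h2 h3 h4 h5 h6 ?_)
    obtain ⟨s, hs, rfl⟩ : ∃ s, 0 ≤ s ∧ H = 2 / 7 * d + s := ⟨H - 2 / 7 * d, by linarith, by ring⟩
    obtain ⟨x, hx, rfl⟩ : ∃ x, 0 ≤ x ∧ d = 12 + x := ⟨d - 12, by linarith, by ring⟩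
    simp only [List.mem_cons, List.not_mem_nil, or_false, forall_eq_or_imp, forall_eq, G1]
    refine ⟨⟨⟨?_, ?_⟩, ?_, ?_⟩, ⟨?_, ?_⟩, ?_, ?_⟩ <;> ring_nf <;> positivity
  · refine Or.inr (g2_of h1 h2 h7 h8 ?_)
    obtain ⟨s, hs, rfl⟩ : ∃ s, 0 ≤ s ∧ d = 7 / 2 * H + s := ⟨d - 7 / 2 * H, by linarith, by ring⟩
    obtain ⟨x, hx, rfl⟩ : ∃ x, 0 ≤ x ∧ H = 5 + x := ⟨H - 5, by linarith, by ring⟩
    simp only [List.mem_cons, List.not_mem_nil, or_false, forall_eq_or_imp, forall_eq, G2]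
    refine ⟨⟨?_, ?_⟩, ?_, ?_⟩ <;> ring_nf <;> positivity

lemma bb_true (K : Multiset ℕ) : ∀ z ∈ K.map BB, z.b = true := fun z hz => by
  obtain ⟨a, -, rfl⟩ := mem_map.1 hz; rfl

lemma superp_anti {a b : ℕ} (h : a ≤ b) : superp b ≤ superp a := by
  have : (a : ℚ) ≤ b := by exact_mod_cast h
  unfold superp
  apply div_le_div_of_nonneg_left (by norm_num) (by positivity); linarith

/-- the first move does not improve -/
lemma move1 {m l : Multiset Y} {y' : Y} (h : Ext true (nd false m ::ₘ y' ::ₘ l)) (hm : OKs m)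
    (hb : ∀ z ∈ m, z.b = true) (hy : y'.b = true) (h5 : y'.p ≤ 7 / 117) :
    G1 (l.card + 2) (m.card + 1) (l.card + 2 + y'.p + msg l) (m.card + 1 + msg m) (1 + y'.p)
      ≤ 0 := by
  have ok := h.oks
  simp only [oks_cons] at ok
  obtain ⟨-, o1, o2⟩ := ok
  have o3 : OKs (y' ::ₘ m) := oks_cons.2 ⟨o1, hm⟩
  have e := h.le (l' := nd false (y' ::ₘ m) ::ₘ l) (oks_cons.2 ⟨ok_false o3 fun z hz => by
    rcases mem_cons.1 hz with rfl | hz
    exacts [hy, hb z hz], o2⟩) cons_ne_zero (by simp; omega) (by simp; omega)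
  have a1 := o1.p_pos
  have a2 := o1.Z_pos
  have a3 := hm.msg_nonneg
  have a4 := hm.prd_pos
  have a5 := o2.msg_nonneg
  have a6 := o2.prd_pos
  have a7 : (0 : ℚ) ≤ l.card := by positivity
  have a8 : (0 : ℚ) ≤ m.card := by positivity
  simp only [rt_cons, nd_Z, nd_p, prd_cons, msg_cons, card_cons] at e
  push_cast at e
  generalize (l.card : ℚ) = a at *
  generalize (m.card : ℚ) = b at *
  generalize msg l = u at *
  generalize msg m = w at *
  generalize prd l = A at *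
  generalize prd m = B at *
  generalize y'.p = q at *
  generalize y'.Z = C at *
  have e1 : C * B * (b + 1 + 1 + (q + w)) / (b + 1 + 1) * A *
      (a + 1 + u + 1 / (b + 1 + 1 + (q + w))) / (a + 1) =
      A * B * C * (((a + 1 + u) * (b + 2 + q + w) + 1) / ((a + 1) * (b + 2))) := by
    field_simp; ring
  have e2 : B * (b + 1 + w) / (b + 1) * (C * A) *
      (a + 1 + 1 + (q + u) + 1 / (b + 1 + w)) / (a + 1 + 1) =
      A * B * C * (((a + 2 + q + u) * (b + 1 + w) + 1) / ((a + 2) * (b + 1))) := by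
    field_simp; ring
  rw [e1, e2, mul_le_mul_iff_right₀ (by positivity),
    div_le_div_iff₀ (by positivity) (by positivity)] at e
  have k : 0 ≤ q * (7 / 117 - q) * ((a + 2) * (b + 1)) :=
    mul_nonneg (mul_nonneg a1.le (by linarith)) (by positivity)
  unfold G1
  nlinarith

/-- the second move does not improve -/
lemma move2 {m l : Multiset Y} {y' : Y} {N : ℕ}
    (h : Ext true (nd false (BB (N + 1) ::ₘ m) ::ₘ y' ::ₘ l)) (hm : OKs m) :
    G2 (l.card + 2) (m.card + 2) (N + 1) (l.card + 2 + y'.p + msg l)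
      (msg m * (10 * (N + 1) + 7)) ≤ 0 := by
  have ok := h.oks
  simp only [oks_cons] at ok
  obtain ⟨-, o1, o2⟩ := ok
  have e := h.le (l' := y' ::ₘ Hb 2 ::ₘ (l + m + replicate N (Hb 1)))
    (by simp [o1, o2, hm, ok_Hb, oks_rep]) cons_ne_zero (by simp; omega) (by simp; omega)
  have a1 := o1.p_pos
  have a2 := o1.Z_pos
  have a3 := hm.msg_nonneg
  have a4 := hm.prd_pos
  have a5 := o2.msg_nonneg
  have a6 := o2.prd_pos
  have a7 : (0 : ℚ) ≤ l.card := by positivity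
  have a8 : (0 : ℚ) ≤ m.card := by positivity
  have a9 : (0 : ℚ) ≤ N := by positivity
  simp only [rt_cons, nd_Z false, nd_p false, prd_cons, msg_cons, card_cons, prd_add, msg_add,
    card_add, prd_rep, msg_rep, card_replicate, Hb_Z, Hb_p, BB_Z, BB_p, hubZ_one, hubp_one,
    hubZ_two, hubp_two, superZ, superp, pow_succ] at e
  push_cast at e
  have b1 : (0 : ℚ) < (7 / 4) ^ N := by positivity
  generalize ((7 : ℚ) / 4) ^ N = D at *
  generalize (N : ℚ) = n at *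
  generalize (l.card : ℚ) = a at *
  generalize (m.card : ℚ) = b at *
  generalize msg l = u at *
  generalize msg m = w at *
  generalize prd l = A at *
  generalize prd m = B at *
  generalize y'.p = q at *
  generalize y'.Z = C at *
  have e1 : C * (11 / 4 * (A * B * D)) *
      (a + b + n + 1 + 1 + (3 / 11 + (u + w + n * (3 / 7))) + q) / (a + b + n + 1 + 1) =
      A * B * C * D * (7 / 4) * (11 / 7 * (a + b + n + 2 + (3 / 11 + (u + w + n * (3 / 7))) + q) /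
        (a + b + n + 2)) := by
    field_simp; ring
  have e2 : D * (7 / 4) * (10 * (n + 1) + 7) / (7 * (n + 1) + 7) * B *
      (b + 1 + 1 + (7 / (10 * (n + 1) + 7) + w)) / (b + 1 + 1) * (C * A) *
      (a + 1 + 1 + (q + u) + 1 / (b + 1 + 1 + (7 / (10 * (n + 1) + 7) + w))) / (a + 1 + 1) =
      A * B * C * D * (7 / 4) * (((a + 2 + q + u) * ((b + 2 + w) * (10 * (n + 1) + 7) + 7) +
        (10 * (n + 1) + 7)) / ((7 * (n + 1) + 7) * (a + 2) * (b + 2))) := by
    field_simp; ring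
  rw [e1, e2, mul_le_mul_iff_right₀ (by positivity),
    div_le_div_iff₀ (by positivity) (by positivity)] at e
  have k := mul_le_mul_of_nonneg_right e (show 0 ≤ 10 * (n + 1) + 7 by positivity)
  unfold G2
  nlinarith

lemma size_bb (K : Multiset ℕ) : size (K.map BB) = K.card + 3 * K.sum := by
  induction K using Multiset.induction_on with
  | empty => simp
  | cons a K ih => simp [ih]; omega

lemma cost_bb (K : Multiset ℕ) : cost (K.map BB) = K.card + K.sum := by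
  induction K using Multiset.induction_on with
  | empty => simp
  | cons a K ih => simp [ih]; omega

lemma sum_zero {K : Multiset ℕ} (h : K.card = 0) : K.sum = 0 := by
  rw [card_eq_zero.1 h, Multiset.sum_zero]

lemma prd_bal {K : Multiset ℕ} (h : ∀ a ∈ K, ∀ b ∈ K, a ≤ b + 1) :
    prd (K.map BB) = balP superZ K.card K.sum := by
  rw [← balK_prod, ← eq_balK h, prd_map]; simp

lemma msg_bal {K : Multiset ℕ} (h : ∀ a ∈ K, ∀ b ∈ K, a ≤ b + 1) :
    msg (K.map BB) = balS superp K.card K.sum := by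
  rw [← balK_sum', ← eq_balK h, msg_map]; simp

lemma two_mem {K : Multiset ℕ} {a b : ℕ} (ha : a ∈ K) (hb : b ∈ K) (h : a ≠ b) :
    ∃ K', K = a ::ₘ b ::ₘ K' := by
  obtain ⟨K1, rfl⟩ := exists_cons_of_mem ha
  obtain ⟨K2, rfl⟩ := exists_cons_of_mem ((mem_cons.1 hb).resolve_left h.symm)
  exact ⟨K2, rfl⟩

lemma split {l : Multiset Y} (h : ∀ y ∈ l, y = Hb 1 ∨ y = Hb 2 ∨ IsB y ∨ IsM2 y) :
    ∃ (x y : ℕ) (K : Multiset ℕ) (M : Multiset Y), (∀ N ∈ K, 11 ≤ N) ∧ (∀ z ∈ M, IsM2 z) ∧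
      l = M + (K.map BB + (replicate x (Hb 1) + replicate y (Hb 2))) := by
  induction l using Multiset.induction_on with
  | empty => exact ⟨0, 0, 0, 0, by simp, by simp, by simp⟩
  | cons a l ih =>
    obtain ⟨x, y, K, M, h1, h2, rfl⟩ := ih fun z hz => h z (mem_cons_of_mem hz)
    rcases h a (mem_cons_self _ _) with rfl | rfl | ⟨N, hN, rfl⟩ | ha
    · exact ⟨x + 1, y, K, M, h1, h2, by simp only [replicate_succ, cons_add, add_cons]⟩
    · exact ⟨x, y + 1, K, M, h1, h2, by simp only [replicate_succ, add_cons]⟩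
    · exact ⟨x, y, N ::ₘ K, M, forall_mem_cons.2 ⟨hN, h1⟩, h2,
        by simp only [map_cons, cons_add, add_cons]⟩
    · exact ⟨x, y, K, a ::ₘ M, h1, forall_mem_cons.2 ⟨ha, h2⟩, by simp only [cons_add]⟩

end PhB92

open PhB92

theorem phB9 : PhB9Stm := by
  rintro y y' l h hl hp ⟨K, hK, h4, rfl⟩ hy
  have h5 := hy.p_le
  obtain ⟨N1, -, rfl⟩ := hy
  have k1 := move1 h (oks_map ok_BB K) (bb_true K) rfl h5
  obtain ⟨N, hN, hmin⟩ := exists_min_image id (show K ≠ 0 by rintro rfl; simp at h4)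
  obtain ⟨K', rfl⟩ := exists_cons_of_mem hN
  have h11 := hK N hN
  obtain ⟨n, rfl⟩ : ∃ n, N = n + 1 := ⟨N - 1, by omega⟩
  rw [map_cons] at h k1
  have k2 := move2 h (oks_map ok_BB K')
  have ok := h.oks
  simp only [oks_cons] at ok
  have a1 := ok.2.1.p_pos
  have a2 := ok.2.2.msg_nonneg
  have a3 := msg_le_of hp
  have a4 := (oks_map ok_BB K').msg_nonneg
  have a5 : msg (K'.map BB) ≤ (K'.map BB).card * superp (n + 1) := msg_le_of fun z hz => by
    obtain ⟨a, ha, rfl⟩ := mem_map.1 hz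
    rw [BB_p]; exact superp_anti (hmin a (mem_cons_of_mem ha))
  have a6 : (BB (n + 1)).p ≤ 7 / 117 := IsB.p_le ⟨_, h11, rfl⟩
  have a7 := (ok_BB (n + 1)).p_pos
  have a8 : (10 : ℚ) ≤ l.card := by exact_mod_cast hl
  have a9 : (3 : ℚ) ≤ (K'.map BB).card := by
    rw [card_map]; rw [card_cons] at h4; exact_mod_cast (by omega : 3 ≤ K'.card)
  have a10 : (11 : ℚ) ≤ n + 1 := by exact_mod_cast h11
  have a11 : superp (n + 1) * (10 * (n + 1) + 7) = 7 := by
    unfold superp; push_cast; field_simp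
  rw [card_cons, msg_cons] at k1
  push_cast at k1
  rw [BB_p] at a6 a7
  rw [BB_p (n + 1), add_assoc _ 1 1, one_add_one_eq_two] at k1
  refine (num (N := n + 1) (v := msg (K'.map BB) * (10 * (n + 1) + 7)) (by linarith) (by linarith)
    a10 (by linarith) (by linarith) (by linarith) (by nlinarith) (by linarith) (by linarith)
    (by positivity) ?_).elim (not_lt.2 k1) (not_lt.2 k2)
  have := mul_le_mul_of_nonneg_right a5 (show (0 : ℚ) ≤ 10 * (n + 1) + 7 by positivity)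
  rw [mul_assoc, a11] at this
  linarith

theorem phB2 (h : LocS) (b6 : PhB6Stm) (b7 : PhB7Stm) (b9 : PhB9Stm) : PhB2Stm := by
  intro l he hc hl
  have h1 : ∀ y ∈ l, y = Hb 1 ∨ y = Hb 2 ∨ IsB y ∨ IsM2 y := fun y hy => by
    rcases hl y hy with a | a | a | a
    exacts [Or.inl a, Or.inr (Or.inl a), Or.inr (Or.inr (Or.inl a)), by
      obtain ⟨m, rfl⟩ := exists_cons_of_mem hy
      rw [card_cons] at hc
      exact Or.inr (Or.inr (Or.inr (b6 y m he (by omega) a)))]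
  have h2 : ∀ y ∈ l, y.p ≤ 3 / 7 := fun y hy => by
    rcases h1 y hy with rfl | rfl | a | ⟨K, -, a, rfl⟩
    · rw [Hb_p, hubp_one]
    · rw [Hb_p, hubp_two]; norm_num
    · exact a.p_le.trans (by norm_num)
    · exact (nd_p_le (oks_map ok_BB K) (by rw [card_map]; omega)).trans (by norm_num)
  obtain ⟨x, y, K, M, hK, hM, rfl⟩ := split h1
  rcases M.empty_or_exists_mem with rfl | ⟨z, hz⟩
  · rw [zero_add] at he hc ⊢
    have bal : ∀ a ∈ K, ∀ b ∈ K, a ≤ b + 1 := fun a ha b hb => by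
      by_cases e : a = b
      · omega
      obtain ⟨K', rfl⟩ := two_mem ha hb e
      simp only [map_cons, cons_add, card_cons] at he hc
      exact h.balB a b _ he (card_pos.1 (by omega))
    refine ⟨F3 x y K.card K.sum, Or.inr (Or.inr (Or.inl ⟨x, y, K.card, K.sum, ?_, sum_zero, ?_,
      rfl⟩)), le_of_eq ?_⟩
    · simp [size_bb]; omega
    · simp [cost_bb]; omega
    · simp only [card_add, card_map, card_replicate] at hc
      have hc' : (12 : ℚ) ≤ K.card + (x + y) := by exact_mod_cast hc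
      have h0 : (K.card : ℚ) + (x + y) ≠ 0 := by linarith
      have h0' : (x : ℚ) + y + K.card ≠ 0 := by linarith
      simp only [rt, F3, prd_add, msg_add, prd_bal bal, msg_bal bal, prd_rep, msg_rep, card_add,
        card_map, card_replicate, Hb_Z, Hb_p, hubZ_one, hubp_one, hubZ_two, hubp_two]
      push_cast
      field_simp
      ring
  obtain ⟨M', rfl⟩ := exists_cons_of_mem hz
  have hz2 := hM z hz
  obtain rfl : M' = 0 := by
    by_contra e
    obtain ⟨z', hz'⟩ := exists_mem_of_ne_zero e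
    obtain ⟨M'', rfl⟩ := exists_cons_of_mem hz'
    simp only [cons_add, card_cons] at he hc
    exact b7 _ _ _ he (by omega) hz2 (hM z' (mem_cons_of_mem hz'))
  obtain rfl : K = 0 := by
    by_contra e
    obtain ⟨N, hN⟩ := exists_mem_of_ne_zero e
    obtain ⟨K', rfl⟩ := exists_cons_of_mem hN
    simp only [map_cons, cons_add, zero_add, card_cons] at he hc h2
    exact b9 _ _ _ he (by omega) (fun w hw => h2 w (mem_cons_of_mem (mem_cons_of_mem hw))) hz2
      ⟨N, hK N hN, rfl⟩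
  simp only [Multiset.map_zero, cons_add, zero_add] at he hc ⊢
  obtain ⟨K, -, -, rfl⟩ := hz2
  have ok := (oks_cons.1 he.oks).2
  have bal : ∀ a ∈ K, ∀ b ∈ K, a ≤ b + 1 := fun a ha b hb => by
    by_contra e
    obtain ⟨K', rfl⟩ := two_mem ha hb (by omega)
    simp only [map_cons] at he
    refine one_imp he ?_ (h.balM a b _ (oks_map ok_BB K') (bb_true K') (by omega))
    have := ok.msg_nonneg
    have : (0 : ℚ) ≤ (replicate x (Hb 1) + replicate y (Hb 2)).card := by positivity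
    linarith
  refine ⟨F4 x y K.card K.sum, Or.inr (Or.inr (Or.inr (Or.inl ⟨x, y, K.card, K.sum, ?_, sum_zero,
    ?_, rfl⟩))), le_of_eq ?_⟩
  · simp [size_bb]; omega
  · simp [cost_bb]; omega
  · simp only [rt, F4, prd_cons, msg_cons, card_cons, nd_Z false, nd_p false, prd_add, msg_add,
      prd_bal bal, msg_bal bal, prd_rep, msg_rep, card_add,
      card_map, card_replicate, Hb_Z, Hb_p, hubZ_one, hubp_one, hubZ_two, hubp_two]
    push_cast
    generalize 1 / ((K.card : ℚ) + 1 + balS superp K.card K.sum) = q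
    field_simp
    ring

end Pool.Agent.Lib.MP_70d11c_co.Q2
end
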