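import Pool.Agent.Lib.MP_70d11c_co.Q2.PairA

-- part Pool.Agent.Lib.MP_70d11c_co.Q2.Srt
section

/-!
The sorting lemma and its first consequences.
-/

namespace Pool.Agent.Lib.MP_70d11c_co.Q2

open Multiset

namespace Srt

variable {D : ℤ → ℤ → ℚ → Prop} {l1 l2 : Multiset Y} {β γ e δ : ℚ}

lemma cx_dec (h : Cx β γ e δ) : ∃ r, 0 ≤ r ∧ 0 ≤ e ∧ max 0 (γ - β) ≤ 1 / 2 ∧
    max 0 (β - γ) ≤ 1 / 2 ∧ ∀ X Y, Gv X Y β γ e =
      (X + max 0 (γ - β)) * (Y + max 0 (β - γ)) + (r * (X + Y) + e) := by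
  have k : 0 ≤ β ∧ β ≤ 1 / 2 ∧ 0 ≤ γ ∧ γ ≤ 1 / 2 ∧ 0 ≤ e := by
    rcases h with ⟨rfl, rfl, rfl, -⟩ | ⟨-, a, b, c, d, f, -⟩
    · norm_num
    · exact ⟨a, b, c, d, f⟩
  obtain ⟨a, b, c, d, f⟩ := k
  rcases le_total β γ with k | k
  · rw [max_eq_right (sub_nonneg.2 k), max_eq_left (sub_nonpos.2 k)]
    exact ⟨β, a, f, by linarith, by norm_num, fun X Y => by unfold Gv; ring⟩
  · rw [max_eq_left (sub_nonpos.2 k), max_eq_right (sub_nonneg.2 k)]
    exact ⟨γ, c, f, by norm_num, by linarith, fun X Y => by unfold Gv; ring⟩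

lemma max_sub (β γ : ℚ) : max 0 (γ - β) - max 0 (β - γ) = γ - β := by
  rcases le_total β γ with k | k
  · rw [max_eq_right (sub_nonneg.2 k), max_eq_left (sub_nonpos.2 k)]; ring
  · rw [max_eq_left (sub_nonpos.2 k), max_eq_right (sub_nonneg.2 k)]; ring

lemma dg_ge {l : Multiset Y} (h : l ≠ 0) : 2 ≤ dg l := by
  have := card_ge_one h
  unfold dg; linarith

lemma dg_pos (l : Multiset Y) : 0 < dg l := by unfold dg; positivity

lemma wt_gt {l : Multiset Y} (h : OKs l) (h0 : l ≠ 0) : dg l < wt l := by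
  have := h.msg_pos h0
  unfold dg wt; linarith

/-- comparison with a redistribution of the items -/
lemma redis (h : PE D l1 l2 β γ e δ) {m1 m2 : Multiset Y} (hm : m1 + m2 = l1 + l2) :
    Gv (wt m1) (wt m2) β γ e * (dg l1 * dg l2) ≤ Gv (wt l1) (wt l2) β γ e * (dg m1 * dg m2) := by
  have ok : OKs (m1 + m2) := hm ▸ oks_add.2 ⟨h.ok1, h.ok2⟩
  have k := h.le (oks_add.1 ok).1 (oks_add.1 ok).2 (by rw [← size_add, ← size_add, hm])
    (by rw [← cost_add, ← cost_add, hm])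
  have e1 : prd m1 * prd m2 = prd l1 * prd l2 := by rw [← prd_add, ← prd_add, hm]
  have p : 0 < prd l1 * prd l2 := mul_pos h.ok1.prd_pos h.ok2.prd_pos
  rw [Vv, Vv, e1, mul_div_assoc, mul_div_assoc, mul_le_mul_iff_right₀ p,
    div_le_div_iff₀ (mul_pos (dg_pos _) (dg_pos _)) (mul_pos (dg_pos _) (dg_pos _))] at k
  exact k

/-- exchange of two items -/
lemma exch (h : PE D l1 l2 β γ e δ) {z y : Y} (hz : z ∈ l1) (hy : y ∈ l2) :
    (z.p - y.p) * (wt l1 + γ - (wt l2 + β) - (z.p - y.p)) ≤ 0 := by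
  obtain ⟨m1, rfl⟩ := exists_cons_of_mem hz
  obtain ⟨m2, rfl⟩ := exists_cons_of_mem hy
  have k := redis h (m1 := y ::ₘ m1) (m2 := z ::ₘ m2) (by
    simp only [cons_add, add_cons]; rw [cons_swap])
  have e1 : dg (y ::ₘ m1) = dg (z ::ₘ m1) := by simp [dg]
  have e2 : dg (z ::ₘ m2) = dg (y ::ₘ m2) := by simp [dg]
  have e3 : wt (y ::ₘ m1) = wt (z ::ₘ m1) - (z.p - y.p) := by simp [wt]; ring
  have e4 : wt (z ::ₘ m2) = wt (y ::ₘ m2) + (z.p - y.p) := by simp [wt]; ring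
  rw [e1, e2, e3, e4, mul_le_mul_iff_left₀ (mul_pos (dg_pos _) (dg_pos _))] at k
  unfold Gv at k
  linarith

/-- moving an item from the second centre to the first one -/
lemma move (h : PE D l1 l2 β γ e δ) {y : Y} (hy : y ∈ l2) :
    Gv (wt l1 + (1 + y.p)) (wt l2 - (1 + y.p)) β γ e * (dg l1 * dg l2) ≤
      Gv (wt l1) (wt l2) β γ e * ((dg l1 + 1) * (dg l2 - 1)) := by
  obtain ⟨m2, rfl⟩ := exists_cons_of_mem hy
  have k := redis h (m1 := y ::ₘ l1) (m2 := m2) (by simp only [cons_add, add_cons])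
  have e1 : dg (y ::ₘ l1) = dg l1 + 1 := by simp [dg]
  have e2 : dg m2 = dg (y ::ₘ m2) - 1 := by simp [dg]
  have e3 : wt (y ::ₘ l1) = wt l1 + (1 + y.p) := by simp [wt]; ring
  have e4 : wt m2 = wt (y ::ₘ m2) - (1 + y.p) := by simp [wt]; ring
  rwa [e1, e2, e3, e4] at k

lemma s1num {B1 B2 d1 d2 c ρ : ℚ} (b1 : 1 ≤ B1) (b2 : B1 ≤ B2) (h2 : 2 ≤ d2) (h1 : d2 ≤ d1)
    (hc : 1 < c) (hρ : 0 ≤ ρ) (h : ((B1 * d1 + c) * (B2 * d2 - c) + ρ) * (d1 * d2) ≤
      (B1 * d1 * (B2 * d2) + ρ) * ((d1 + 1) * (d2 - 1))) : B2 ≤ c := by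
  by_contra k
  push Not at k
  have p : 0 < d1 * d2 := mul_pos (by linarith) (by linarith)
  have a0 : 0 ≤ ρ * (d1 - d2 + 1) := mul_nonneg hρ (by linarith)
  have a1 : ((B1 * d1 + c) * (B2 * d2 - c) - B1 * B2 * ((d1 + 1) * (d2 - 1))) * (d1 * d2) ≤ 0 := by
    linarith
  have a2 : (B1 * d1 + c) * (B2 * d2 - c) - B1 * B2 * ((d1 + 1) * (d2 - 1)) ≤ 0 :=
    nonpos_of_mul_nonpos_left a1 p
  have f1 : 0 ≤ d2 * (B2 - B1) + B1 * (d1 - d2) * (B2 - 1) + (B1 * B2 - 1) := by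
    have x1 : 0 ≤ d2 * (B2 - B1) := mul_nonneg (by linarith) (by linarith)
    have x2 : 0 ≤ B1 * (d1 - d2) * (B2 - 1) :=
      mul_nonneg (mul_nonneg (by linarith) (by linarith)) (by linarith)
    nlinarith
  have f2 : 0 ≤ B2 * (d2 - 1) * (B2 - B1) :=
    mul_nonneg (mul_nonneg (by linarith) (by linarith)) (by linarith)
  have f3 : 0 < (c - 1) * (B2 - c) * (B2 - 1) :=
    mul_pos (mul_pos (by linarith) (by linarith)) (by linarith)
  have a3 := mul_nonpos_of_nonpos_of_nonneg a2 (show 0 ≤ B2 - 1 by linarith)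
  have g1 := mul_nonneg f1 (show 0 ≤ B2 - c by linarith)
  have g2 := mul_nonneg f2 (show 0 ≤ c - 1 by linarith)
  linarith

lemma sb_of {w XU XV dU dV gU gV : ℚ} (h0 : 0 ≤ dU) (h1 : dU ≤ dV + 1)
    (h2 : XU + max 0 (gU - gV) ≤ w * dU) (h3 : XV + max 0 (gV - gU) ≤ w * dV) :
    SB w XU XV dU dV gU gV := by
  have a := le_max_left 0 (max 0 (gV - gU) - (w - 1))
  have b := le_max_left 0 (gV - gU)
  exact ⟨h1, h2.trans (mul_le_mul_of_nonneg_right (by linarith) h0), by linarith, by linarith⟩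

/-- the upper centre has the larger mean weight -/
lemma s1 (h : PE D l1 l2 β γ e δ) (hd : dg l2 ≤ dg l1)
    (hB : (wt l1 + max 0 (γ - β)) / dg l1 ≤ (wt l2 + max 0 (β - γ)) / dg l2) :
    ∀ y ∈ l2, SB (1 + y.p) (wt l2) (wt l1) (dg l2) (dg l1) β γ := by
  intro y hy
  obtain ⟨r, r0, e0, -, -, hG⟩ := cx_dec h.cx
  have k := move h hy
  have p1 := dg_pos l1
  have p2 := dg_pos l2
  have w1 := wt_gt h.ok1 h.ne1
  have w2 := wt_gt h.ok2 h.ne2
  have a0 := le_max_left 0 (γ - β)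
  obtain ⟨B1, hB1⟩ : ∃ B1, B1 = (wt l1 + max 0 (γ - β)) / dg l1 := ⟨_, rfl⟩
  obtain ⟨B2, hB2⟩ : ∃ B2, B2 = (wt l2 + max 0 (β - γ)) / dg l2 := ⟨_, rfl⟩
  rw [← hB1, ← hB2] at hB
  have e1 : wt l1 + max 0 (γ - β) = B1 * dg l1 := by rw [hB1]; field_simp
  have e2 : wt l2 + max 0 (β - γ) = B2 * dg l2 := by rw [hB2]; field_simp
  have b1 : 1 ≤ B1 := by rw [hB1, le_div_iff₀ p1]; linarith
  have hc : B2 ≤ 1 + y.p := by
    refine s1num (ρ := r * (wt l1 + wt l2) + e) b1 hB (dg_ge h.ne2) hd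
      (by have := (h.ok2 y hy).p_pos; linarith)
      (add_nonneg (mul_nonneg r0 (by linarith)) e0) ?_
    rw [hG, hG] at k
    rw [← e1, ← e2]
    linarith
  refine sb_of p2.le (by linarith) ?_ ?_
  · rw [e2]; exact mul_le_mul_of_nonneg_right hc p2.le
  · rw [e1]; exact mul_le_mul_of_nonneg_right (hB.trans hc) p1.le

lemma slem' (h : PE D l1 l2 β γ e δ) (hd : l2.card ≤ l1.card) :
    (∀ y ∈ l1, SB (1 + y.p) (wt l1) (wt l2) (dg l1) (dg l2) γ β) ∨
    (∀ y ∈ l2, SB (1 + y.p) (wt l2) (wt l1) (dg l2) (dg l1) β γ) := by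
  have hd' : dg l2 ≤ dg l1 := by
    have : (l2.card : ℚ) ≤ l1.card := by exact_mod_cast hd
    unfold dg; linarith
  rcases le_total ((wt l1 + max 0 (γ - β)) / dg l1) ((wt l2 + max 0 (β - γ)) / dg l2) with hB | hB
  · exact Or.inr (s1 h hd' hB)
  have p1 := dg_pos l1
  have p2 := dg_pos l2
  have w1 := wt_gt h.ok1 h.ne1
  have w2 := wt_gt h.ok2 h.ne2
  have a0 := le_max_left 0 (γ - β)
  have ms := max_sub β γ
  have d2 := dg_ge h.ne2
  rcases (show l1.card = l2.card ∨ l1.card = l2.card + 1 ∨ l2.card + 2 ≤ l1.card by omega) with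
    k | k | k
  · exact Or.inl (s1 h.symm (by simp [dg, k]) hB)
  all_goals
    obtain ⟨B1, hB1⟩ : ∃ B1, B1 = (wt l1 + max 0 (γ - β)) / dg l1 := ⟨_, rfl⟩
    obtain ⟨B2, hB2⟩ : ∃ B2, B2 = (wt l2 + max 0 (β - γ)) / dg l2 := ⟨_, rfl⟩
    rw [← hB1, ← hB2] at hB
    have e1 : wt l1 + max 0 (γ - β) = B1 * dg l1 := by rw [hB1]; field_simp
    have e2 : wt l2 + max 0 (β - γ) = B2 * dg l2 := by rw [hB2]; field_simp
    have b1 : 1 ≤ B1 := by rw [hB1, le_div_iff₀ p1]; linarith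
    have x1 := mul_le_mul_of_nonneg_right hB p2.le
  · refine Or.inl fun y hy => ?_
    have e3 : dg l1 = dg l2 + 1 := by simp [dg, k]
    have m := move h.symm hy
    have c0 : 0 < 1 + y.p := by have := (h.ok1 y hy).p_pos; linarith
    rw [show (dg l2 + 1) * (dg l1 - 1) = dg l2 * dg l1 by rw [e3]; ring,
      mul_le_mul_iff_left₀ (mul_pos p2 p1)] at m
    have m' : (1 + y.p) * (wt l1 + γ - (wt l2 + β) - (1 + y.p)) ≤ 0 := by
      unfold Gv at m; linarith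
    have m2 := nonpos_of_mul_nonpos_right m' c0
    have hc : B1 ≤ 1 + y.p := by rw [e3] at e1; linarith
    refine sb_of p1.le e3.le ?_ ?_
    · rw [e1]; exact mul_le_mul_of_nonneg_right hc p1.le
    · rw [e2]; exact mul_le_mul_of_nonneg_right (hB.trans hc) p2.le
  · refine Or.inr fun y hy => ?_
    have e3 : dg l2 + 2 ≤ dg l1 := by
      have : (l2.card : ℚ) + 2 ≤ l1.card := by exact_mod_cast k
      unfold dg; linarith
    have y0 := (h.ok2 y hy).p_pos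
    have x2 : 2 ≤ wt l1 + γ - (wt l2 + β) := by nlinarith
    have hz : ∀ z ∈ l1, z.p ≤ y.p := fun z hz => by
      have m := exch h hz hy
      have := (h.ok1 z hz).p_le
      have := nonpos_of_mul_nonpos_left m (by linarith)
      linarith
    have x3 : wt l1 ≤ (1 + y.p) * dg l1 - y.p := by
      have := msg_le_of hz
      unfold wt dg; linarith
    have x4 := le_max_left 0 (max 0 (γ - β) - (1 + y.p - 1))
    have x5 := le_max_right 0 (max 0 (γ - β) - (1 + y.p - 1))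
    refine ⟨by linarith, ?_, by linarith, by linarith⟩
    generalize max 0 (max 0 (γ - β) - (1 + y.p - 1)) = M at *
    have x6 : B1 * dg l1 ≤ (1 + y.p + 1 / 4 * M) * dg l1 := by nlinarith
    rw [e2]
    exact mul_le_mul_of_nonneg_right (hB.trans (le_of_mul_le_mul_right x6 p1)) p2.le

lemma slem (h : PE D l1 l2 β γ e δ) :
    (∀ y ∈ l1, SB (1 + y.p) (wt l1) (wt l2) (dg l1) (dg l2) γ β) ∨
    (∀ y ∈ l2, SB (1 + y.p) (wt l2) (wt l1) (dg l2) (dg l1) β γ) := by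
  rcases le_total l2.card l1.card with k | k
  · exact slem' h k
  · exact (slem' h.symm k).symm

lemma sb_lt {w XU XV dU dV gU gV : ℚ} (h : SB w XU XV dU dV gU gV) (hw : w < 3 / 2)
    (hg : max 0 (gV - gU) ≤ 1 / 2) (hU : 2 ≤ dU) (hV : 2 ≤ dV) :
    XU + max 0 (gU - gV) < 3 / 2 * dU ∧ XV + max 0 (gV - gU) < 3 / 2 * dV := by
  obtain ⟨-, h2, -, h4⟩ := h
  generalize max 0 (gV - gU) = g at *
  rcases le_total (g - (w - 1)) 0 with k | k
  · rw [max_eq_left k] at h2 h4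
    constructor <;> nlinarith
  · rw [max_eq_right k] at h2 h4
    constructor <;> nlinarith

lemma mnum {X Y d1 d2 s ρ : ℚ} (h1 : 2 ≤ d1) (h2 : 2 ≤ d2) (h5 : 5 ≤ d1 + d2) (x0 : d1 < X)
    (y0 : d2 < Y) (x1 : X < 3 / 2 * d1) (y1 : Y < 3 / 2 * d2) (s0 : 3 ≤ s) (s1 : s + 3 ≤ X + Y)
    (hρ : 0 ≤ ρ) (h : (s * (X + Y - s) + ρ) * (d1 * d2) ≤ (X * Y + ρ) * (2 * (d1 + d2 - 2))) :
    False := by
  obtain ⟨u, rfl⟩ : ∃ u, X = 3 / 2 * d1 - u := ⟨3 / 2 * d1 - X, by ring⟩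
  obtain ⟨w, rfl⟩ : ∃ w, Y = 3 / 2 * d2 - w := ⟨3 / 2 * d2 - Y, by ring⟩
  have u0 : 0 < u := by linarith
  have w0 : 0 < w := by linarith
  have a1 : 0 ≤ ρ * ((d1 - 2) * (d2 - 2)) :=
    mul_nonneg hρ (mul_nonneg (by linarith) (by linarith))
  have a2 : 0 ≤ (s - 3) * (3 / 2 * d1 - u + (3 / 2 * d2 - w) - s - 3) * (d1 * d2) :=
    mul_nonneg (mul_nonneg (by linarith) (by linarith)) (mul_nonneg (by linarith) (by linarith))
  have a3 : 0 ≤ u * w * (d1 + d2 - 5) := mul_nonneg (mul_pos u0 w0).le (by linarith)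
  have a4 : 0 < u * (d2 - 2 * w) := mul_pos u0 (by linarith)
  have a5 : 0 < w * (d1 - 2 * u) := mul_pos w0 (by linarith)
  have a6 : 0 < u * (d2 - 2 * w) * (d2 - 2) + w * (d1 - 2 * u) * (d1 - 2) := by
    rcases h1.eq_or_lt with k | k
    · have := mul_pos a4 (show 0 < d2 - 2 by linarith)
      have := mul_nonneg a5.le (show 0 ≤ d1 - 2 by linarith)
      linarith
    · have := mul_nonneg a4.le (show 0 ≤ d2 - 2 by linarith)
      have := mul_pos a5 (show 0 < d1 - 2 by linarith)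
      linarith
  linarith

lemma lemM (h : PE D l1 l2 β γ e δ) (h1 : ∃ y ∈ l1, y.p < 1 / 2) (h2 : ∃ y ∈ l2, y.p < 1 / 2) :
    L ∉ l1 + l2 := by
  intro hL
  obtain ⟨y1, m1, q1⟩ := h1
  obtain ⟨y2, m2, q2⟩ := h2
  obtain ⟨r, r0, e0, ga, gb, hG⟩ := cx_dec h.cx
  have d1 := dg_ge h.ne1
  have d2 := dg_ge h.ne2
  have w1 := wt_gt h.ok1 h.ne1
  have w2 := wt_gt h.ok2 h.ne2
  have a0 := le_max_left 0 (γ - β)
  have b0 := le_max_left 0 (β - γ)
  have k : wt l1 + max 0 (γ - β) < 3 / 2 * dg l1 ∧ wt l2 + max 0 (β - γ) < 3 / 2 * dg l2 := by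
    rcases slem h with k | k
    · exact sb_lt (k y1 m1) (by linarith) gb d1 d2
    · exact (sb_lt (k y2 m2) (by linarith) ga d2 d1).symm
  obtain ⟨m, hm⟩ := exists_cons_of_mem hL
  have c3 : 3 ≤ l1.card + l2.card := by
    obtain ⟨n1, rfl⟩ := exists_cons_of_mem m1
    obtain ⟨n2, rfl⟩ := exists_cons_of_mem m2
    have n1' : L ≠ y1 := by rintro rfl; norm_num at q1
    have n2' : L ≠ y2 := by rintro rfl; norm_num at q2
    have : L ∈ n1 + n2 := by simpa [n1', n2'] using hL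
    have := card_pos_iff_exists_mem.2 ⟨_, this⟩
    simp only [card_add, card_cons] at this ⊢
    omega
  have c3' : (3 : ℚ) ≤ l1.card + l2.card := by exact_mod_cast c3
  have hc : (m.card : ℚ) + 1 = l1.card + l2.card := by
    have := congrArg Multiset.card hm
    simp only [card_add, card_cons] at this
    exact_mod_cast this.symm
  have hg : 1 + msg m = msg l1 + msg l2 := by simpa using (congrArg msg hm).symm
  have okm : OKs m := (oks_cons.1 (hm ▸ oks_add.2 ⟨h.ok1, h.ok2⟩)).2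
  have m0 := okm.msg_nonneg
  have k2 := redis h (m1 := {L}) (m2 := m) (by rw [hm, singleton_add])
  have e1 : wt {L} = 3 := by norm_num [wt]
  have e2 : dg {L} = 2 := by norm_num [dg]
  have e3 : wt m = wt l1 + wt l2 - 3 := by unfold wt; linarith
  have e4 : dg m = dg l1 + dg l2 - 2 := by unfold dg; linarith
  rw [e1, e2, e3, e4, hG, hG] at k2
  refine mnum (s := 3 + max 0 (γ - β)) (ρ := r * (wt l1 + wt l2) + e) d1 d2
    (by unfold dg; linarith) (by linarith) (by linarith) k.1 k.2 (by linarith)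
    (by unfold wt; linarith) (add_nonneg (mul_nonneg r0 (by linarith)) e0) ?_
  linarith

lemma swap (h : PE D l1 l2 β γ e δ) (h1 : Hb 2 ∈ l1) (h2 : P2 ∈ l2) :
    wt l2 ≤ wt l1 + 2 / 33 + max 0 (γ - β) := by
  have k := exch h h1 h2
  rw [Hb_p, hubp_two, P2_p] at k
  have := le_max_right 0 (γ - β)
  linarith

end Srt

theorem srtS : SrtS := ⟨Srt.slem, Srt.lemM, Srt.swap⟩

end Pool.Agent.Lib.MP_70d11c_co.Q2
end

-- part Pool.Agent.Lib.MP_70d11c_co.Q2.Tree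
section

/-!
Greedy labellings and the assembly of the classification of extremal trees.
-/

namespace Pool.Agent.Lib.MP_70d11c_co.Q2

open Multiset

namespace TreeAux

/-- `y'` is a greedy relabelling of `y` -/
def Sim (y y' : Y) : Prop := Gr y' ∧ y'.s = y.s ∧ y'.Z = y.Z ∧ y'.p = y.p ∧ y'.c ≤ y.c ∧
  (y.b = true → y'.b = false → y'.c + 1 ≤ y.c)

def Sims (l l' : Multiset Y) : Prop := Grs l' ∧ l'.card = l.card ∧ size l' = size l ∧
  prd l' = prd l ∧ msg l' = msg l ∧ cost l' ≤ cost l ∧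
  ((∀ y ∈ l, y.b = true) → (∃ y ∈ l', y.b = false) → cost l' + 1 ≤ cost l)

lemma grs_cons {y : Y} {l : Multiset Y} : Grs (y ::ₘ l) ↔ Gr y ∧ Grs l := by simp [Grs]

lemma sims {l : Multiset Y} (h : ∀ y ∈ l, ∃ y', Sim y y') : ∃ l', Sims l l' := by
  induction l using Multiset.induction_on with
  | empty => exact ⟨0, by simp [Sims, Grs]⟩
  | cons a l ih =>
    obtain ⟨a', a1, a2, a3, a4, a5, a6⟩ := h a (mem_cons_self _ _)
    obtain ⟨l', b1, b2, b3, b4, b5, b6, b7⟩ := ih fun y hy => h y (mem_cons_of_mem hy)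
    refine ⟨a' ::ₘ l', grs_cons.2 ⟨a1, b1⟩, by simp [b2], by simp [a2, b3], by simp [a3, b4],
      by simp [a4, b5], by simp; omega, fun k ⟨z, hz, hz'⟩ => ?_⟩
    simp only [cost_cons]
    rcases mem_cons.1 hz with rfl | hz
    · have := a6 (k a (mem_cons_self _ _)) hz'
      omega
    · have := b7 (fun y hy => k y (mem_cons_of_mem hy)) ⟨z, hz, hz'⟩
      omega

lemma all_true {l : Multiset Y} (h : ¬ ∃ y ∈ l, y.b = false) : ∀ y ∈ l, y.b = true :=
  fun y hy => by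
    by_contra k
    exact h ⟨y, hy, by simpa using k⟩

lemma Sims.cost_true {b : Bool} {l l' : Multiset Y} (h : Sims l l')
    (hb : b = false → ∀ y ∈ l, y.b = true) (k : ∃ y ∈ l', y.b = false) :
    cost l' + 1 ≤ cost l + b.toNat := by
  cases b
  · simpa using h.2.2.2.2.2.2 (hb rfl) k
  · simpa using h.2.2.2.2.2.1

lemma greedify {y : Y} (h : OK y) : ∃ y', Sim y y' := by
  induction h with
  | mk b l _ hb ih =>
    obtain ⟨l', hl⟩ := sims ih
    obtain ⟨b1, b2, b3, b4, b5, b6, -⟩ := id hl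
    by_cases k : ∃ y ∈ l', y.b = false
    · exact ⟨nd true l', Gr.mk _ _ b1 (by simp) fun _ => k, by simp [b3],
        by simp only [nd_Z, b2, b4, b5], by simp only [nd_p, b2, b5],
        by simpa using hl.cost_true hb k, by simp⟩
    · refine ⟨nd false l', Gr.mk _ _ b1 (fun _ => all_true k) (by simp), by simp [b3],
        by simp only [nd_Z, b2, b4, b5], by simp only [nd_p, b2, b5], by simp; omega, ?_⟩
      intro e _
      simp only [nd_b] at e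
      simpa [e] using b6

lemma inv {y : Y} (h : Gr y) : ∃ b l, y = nd b l ∧ Grs l ∧ (b = false → ∀ z ∈ l, z.b = true) ∧
    (b = true → ∃ z ∈ l, z.b = false) := by
  cases h with
  | mk b l h1 h2 h3 => exact ⟨b, l, rfl, h1, h2, h3⟩

lemma ext_gr (b : Bool) (l : Multiset Y) (h : Ext b l) : ∃ l', Red b l true l' ∧ Grs l' := by
  obtain ⟨l', hl⟩ := sims fun y hy => greedify (h.oks y hy)
  obtain ⟨b1, b2, b3, b4, b5, b6, -⟩ := id hl
  have h0 : l' ≠ 0 := fun e => h.1.2.2 (card_eq_zero.1 (by rw [← b2, e, card_zero]))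
  have hv : rt l ≤ rt l' := by simp only [rt, b2, b4, b5, le_refl]
  by_cases k : ∃ y ∈ l', y.b = false
  · exact ⟨l', h.red (cf_true b1.oks h0) b3 (hl.cost_true h.1.2.1 k) hv, b1⟩
  · have k' := all_true k
    have r1 : Red b l false l' := h.red ⟨b1.oks, fun _ => k', h0⟩ b3 (by simp; omega) hv
    obtain ⟨y, hy⟩ := exists_mem_of_ne_zero h0
    obtain ⟨m, rfl⟩ := exists_cons_of_mem hy
    obtain ⟨c, l1, rfl, g1, -, -⟩ := inv (b1 y hy)
    obtain rfl : c = true := k' _ hy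
    exact ⟨_, r1.trans (r1.1.reroot g1.oks (by simp)), grs_cons.2
      ⟨Gr.mk _ _ (grs_cons.1 b1).2 (fun _ z hz => k' z (mem_cons_of_mem hz)) (by simp), g1⟩⟩

lemma ext_gr1 (U : Y) (l : Multiset Y) (h : Ext true (U ::ₘ l)) :
    ∃ U', Gr U' ∧ Red true (U ::ₘ l) true (U' ::ₘ l) := by
  have ok := oks_cons.1 h.oks
  obtain ⟨U', a1, a2, a3, a4, a5, -⟩ := greedify ok.1
  exact ⟨U', a1, h.red (cf_true (oks_cons.2 ⟨a1.ok, ok.2⟩) cons_ne_zero) (by simp [a2])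
    (by simp; omega) (by simp only [rt_cons, a3, a4, le_refl])⟩

lemma star_or_cen {l : Multiset Y} (h : Grs l) (k : ∃ z ∈ l, z.b = false) :
    (∃ a, 1 ≤ a ∧ nd true l = St a) ∨ Cen l := by
  by_cases k' : ∃ z ∈ l, z.p < 1 / 2
  · exact Or.inr ⟨h, k, k'⟩
  · obtain ⟨z, hz, -⟩ := k
    refine Or.inl ⟨l.card, card_pos_iff_exists_mem.2 ⟨z, hz⟩, ?_⟩
    rw [St, ← eq_replicate_card.2 fun w hw => (h w hw).leaf.resolve_right fun e => k' ⟨w, hw, e⟩]

lemma cls_true (y : Y) (h : Gr y) (hb : y.b = true) :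
    (∃ a, 1 ≤ a ∧ y = St a) ∨ ∃ l, y = nd true l ∧ Cen l := by
  obtain ⟨b, l, rfl, g1, -, g3⟩ := inv h
  obtain rfl : b = true := hb
  exact (star_or_cen g1 (g3 rfl)).imp id fun k => ⟨l, rfl, k⟩

lemma stars {l : Multiset Y} (h : ∀ z ∈ l, ∃ a, 1 ≤ a ∧ z = St a) :
    ∃ A : Multiset ℕ, (∀ a ∈ A, 1 ≤ a) ∧ l = A.map St := by
  induction l using Multiset.induction_on with
  | empty => exact ⟨0, by simp, by simp⟩
  | cons z l ih =>
    obtain ⟨a, h1, rfl⟩ := h z (mem_cons_self _ _)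
    obtain ⟨A, h2, rfl⟩ := ih fun y hy => h y (mem_cons_of_mem hy)
    exact ⟨a ::ₘ A, by simpa using ⟨h1, h2⟩, by simp⟩

lemma lev_mid {l : Multiset Y} (h : ∀ z ∈ l, ∃ a, 1 ≤ a ∧ z = St a) : Lev1 (nd false l) := by
  obtain ⟨A, h1, rfl⟩ := stars h
  by_cases h0 : A = 0
  · subst h0; exact Or.inl rfl
  · exact Or.inr (Or.inr ⟨A, h0, h1, rfl⟩)

lemma cls (y : Y) (h : Gr y) : Lev1 y ∨ (∃ l, y = nd true l ∧ Cen l) ∨
    ∃ l m, y = nd false (nd true l ::ₘ m) ∧ Cen l ∧ Grs m ∧ ∀ z ∈ m, z.b = true := by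
  obtain ⟨b, l, rfl, g1, g2, g3⟩ := inv h
  cases b
  · by_cases k : ∀ z ∈ l, ∃ a, 1 ≤ a ∧ z = St a
    · exact Or.inl (lev_mid k)
    · simp only [not_forall] at k
      obtain ⟨z, hz, k⟩ := k
      obtain ⟨l1, rfl, hc⟩ := (cls_true z (g1 z hz) (g2 rfl z hz)).resolve_left k
      obtain ⟨m, rfl⟩ := exists_cons_of_mem hz
      exact Or.inr (Or.inr ⟨l1, m, rfl, hc, (grs_cons.1 g1).2,
        fun w hw => g2 rfl w (mem_cons_of_mem hw)⟩)
  · exact (cls_true _ h rfl).imp (fun k => Or.inr (Or.inl k)) Or.inl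

lemma deep (y : Y) (h : Gr y) : Lev1 y ∨
    ∃ P l, Path P ∧ y = plug P (nd true l) ∧ Cen l ∧ ∀ z ∈ l, Lev1 z := by
  induction h with
  | mk b l g1 g2 g3 ih =>
    by_cases k : ∀ z ∈ l, Lev1 z
    · cases b
      · refine Or.inl (lev_mid fun z hz => ?_)
        have := g2 rfl z hz
        rcases k z hz with rfl | k | ⟨A, -, -, rfl⟩
        · simp at this
        · exact k
        · simp at this
      · exact (star_or_cen g1 (g3 rfl)).imp (fun e => Or.inr (Or.inl e))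
          fun e => ⟨[], l, path_nil, rfl, e, k⟩
    · simp only [not_forall] at k
      obtain ⟨z, hz, k⟩ := k
      obtain ⟨P, l1, hP, rfl, hc, hl⟩ := (ih z hz).resolve_left k
      obtain ⟨m, rfl⟩ := exists_cons_of_mem hz
      refine Or.inr ⟨(b, m) :: P, l1, ⟨fun f hf => ?_, ?_⟩, rfl, hc, hl⟩
      · rcases List.mem_cons.1 hf with rfl | hf
        · exact ⟨(grs_cons.1 g1).2.oks, fun e w hw => g2 e w (mem_cons_of_mem hw)⟩
        · exact hP.1 f hf
      · cases P with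
        | nil => exact List.IsChain.singleton _
        | cons f P =>
          refine List.isChain_cons_cons.2 ⟨?_, hP.2⟩
          cases b
          · exact Or.inr (g2 rfl _ hz)
          · exact Or.inl rfl

lemma cen_ne {l : Multiset Y} (h : Cen l) : l ≠ 0 := by
  obtain ⟨-, ⟨y, hy, -⟩, -⟩ := h
  rintro rfl
  simp at hy

lemma lev_cons {U : Y} {l : Multiset Y} (h : Lev1 U) (h' : ∀ z ∈ l, Lev1 z) :
    ∀ z ∈ U ::ₘ l, Lev1 z := fun z hz => by
  rcases mem_cons.1 hz with rfl | hz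
  exacts [h, h' z hz]

lemma big (t : TreeS) (a : PhAStm) (b1 : PhB1Stm) (b2 : PhB2Stm) (ca : ClAStm) {N : ℕ} {U : Y}
    (hN : 11 ≤ N) (h : Ext true (U ::ₘ replicate N (Hb 1))) :
    Good true (U ::ₘ replicate N (Hb 1)) := by
  obtain ⟨U', g, r⟩ := t.ext_gr1 _ _ h
  refine r.good ?_
  by_cases k : Lev1 U'
  · refine ca _ r.1 (lev_cons k fun z hz => ?_)
    rw [eq_of_mem_replicate hz]
    exact Or.inr (Or.inr ⟨{1}, by simp, by simp, rfl⟩)
  · obtain ⟨y0, l0, r', k1, k2, k3⟩ := a N U' hN g k r.1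
    obtain ⟨k4, k5⟩ := b1 y0 l0 r'.1 k1 k2 k3
    exact r'.good (b2 _ r'.1 (by simpa using k4) k5)

end TreeAux

open TreeAux

theorem treeS : TreeS := ⟨ext_gr, ext_gr1, cls_true, cls, deep⟩

theorem extGood (t : TreeS) (c : CtxS) (p : PairStm) (a : PhAStm) (b1 : PhB1Stm) (_b6 : PhB6Stm)
    (b2 : PhB2Stm) (ca : ClAStm) : ExtGood := by
  intro b l h
  obtain ⟨l', r, g⟩ := t.ext_gr b l h
  refine r.good ?_
  by_cases k : ∀ z ∈ l', Lev1 z
  · exact ca _ r.1 k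
  simp only [not_forall] at k
  obtain ⟨y, hy, k⟩ := k
  obtain ⟨P, l1, hP, rfl, c1, v1⟩ := (t.deep y (g y hy)).resolve_left k
  obtain ⟨m, rfl⟩ := exists_cons_of_mem hy
  have r1 := c.reroot P m l1 hP c1.1.oks r.1
  obtain ⟨U, gU, r2⟩ := t.ext_gr1 _ _ r1.1
  refine (r1.trans r2).good ?_
  by_cases k' : Lev1 U
  · exact ca _ r2.1 (lev_cons k' v1)
  obtain ⟨P', l2, hP', rfl, c2, v2⟩ := (t.deep U gU).resolve_left k'
  obtain ⟨β, γ, e, δ, pe, -⟩ := c.pe P' l1 l2 hP' c2.1.oks (cen_ne c1) (cen_ne c2) r2.1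
  rcases p _ l1 l2 β γ e δ pe c1 c2 v1 v2 with ⟨N, hN, rfl⟩ | ⟨N, hN, rfl⟩
  · exact big t a b1 b2 ca hN r2.1
  · have r3 := c.reroot P' l1 _ hP' c2.1.oks r2.1
    exact r3.good (big t a b1 b2 ca hN r3.1)

end Pool.Agent.Lib.MP_70d11c_co.Q2
end

-- part Pool.Agent.Lib.MP_70d11c_co.Q2.Xs
section

/-!
Middle vertices with several stars.
-/

namespace Pool.Agent.Lib.MP_70d11c_co.Q2

open Multiset

namespace Xs

/-! ### polynomial inequalities -/

lemma aff {A B lo hi x : ℚ} (h1 : lo ≤ x) (h2 : x ≤ hi) (k1 : 0 < A + B * lo)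
    (k2 : 0 < A + B * hi) : 0 < A + B * x := by
  rcases le_total 0 B with h | h <;> nlinarith

lemma aff2 {A B s m m' u : ℚ} (hm : 0 < m) (hm' : 0 < m') (h1 : u ≤ s * m) (h2 : s * m' ≤ u)
    (k1 : 0 < A * m + B * u) (k2 : 0 < A * m' + B * u) : 0 < A + B * s := by
  rcases le_total 0 B with h | h
  · have : 0 < (A + B * s) * m := by nlinarith [mul_le_mul_of_nonneg_left h1 h]
    exact (mul_pos_iff_of_pos_right hm).1 this
  · have : 0 < (A + B * s) * m' := by nlinarith [mul_le_mul_of_nonpos_left h2 h]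
    exact (mul_pos_iff_of_pos_right hm').1 this

/-- gain when a leaf of the largest star moves to the root -/
def G3 (a D R Q : ℚ) : ℚ :=
  (((2 * a - 1) * Q + 1) * (R + 2) + 2 * a - 1) * (a + 1) * D -
    (((2 * a + 1) * Q + 1) * R + 2 * a + 1) * a * (D + 1)

/-- gain when the largest star gets its own middle vertex, homogeneous in `(s, m)` -/
def G1 (a b D R s m : ℚ) : ℚ :=
  ((b * m + s) * ((4 * a - 1) * R + 6 * a - 2) + (4 * a - 1) * m) * (a + 1) * (b + 1) * D -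
    (((2 * a + 1) * ((b + 1) * m + s) + m) * R + (2 * a + 1) * m) * 2 * a * b * (D + 1)

lemma G3_aff {a D R Q lo hi : ℚ} (h1 : lo ≤ R) (h2 : R ≤ hi) (k1 : 0 < G3 a D lo Q)
    (k2 : 0 < G3 a D hi Q) : 0 < G3 a D R Q := by
  have e : ∀ R, G3 a D R Q = G3 a D 0 Q + (G3 a D 1 Q - G3 a D 0 Q) * R := fun R => by
    unfold G3; ring
  rw [e] at k1 k2 ⊢
  exact aff h1 h2 k1 k2

lemma G1_affR {a b D R s m lo hi : ℚ} (h1 : lo ≤ R) (h2 : R ≤ hi) (k1 : 0 < G1 a b D lo s m)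
    (k2 : 0 < G1 a b D hi s m) : 0 < G1 a b D R s m := by
  have e : ∀ R, G1 a b D R s m = G1 a b D 0 s m + (G1 a b D 1 s m - G1 a b D 0 s m) * R :=
    fun R => by unfold G1; ring
  rw [e] at k1 k2 ⊢
  exact aff h1 h2 k1 k2

lemma G1_affS {a b D R s m m' u : ℚ} (hm : 0 < m) (hm' : 0 < m') (h1 : u ≤ s * m)
    (h2 : s * m' ≤ u) (k1 : 0 < G1 a b D R u m) (k2 : 0 < G1 a b D R u m') :
    0 < G1 a b D R s 1 := by
  have e : ∀ s m, G1 a b D R s m = G1 a b D R 0 1 * m + G1 a b D R 1 0 * s :=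
    fun s m => by unfold G1; ring
  rw [e] at k1 k2
  rw [e, mul_one]
  exact aff2 hm hm' h1 h2 k1 k2

lemma p3 {a D R Q : ℚ} (hD : 2 ≤ D) (ha : D ≤ a) (hQ : 3 ≤ Q) (h1 : D ≤ R)
    (h2 : R ≤ 2 * D - 3 / 2) : 0 < G3 a D R Q := by
  obtain ⟨x, hx, rfl⟩ : ∃ x, 0 ≤ x ∧ D = 2 + x := ⟨D - 2, by linarith, by ring⟩
  obtain ⟨y, hy, rfl⟩ : ∃ y, 0 ≤ y ∧ a = 2 + x + y := ⟨a - 2 - x, by linarith, by ring⟩
  obtain ⟨z, hz, rfl⟩ : ∃ z, 0 ≤ z ∧ Q = 3 + z := ⟨Q - 3, by linarith, by ring⟩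
  refine G3_aff h1 h2 ?_ ?_ <;> unfold G3 <;> ring_nf <;> positivity

lemma p1a {a b D R s : ℚ} (ha : 3 ≤ a) (hb : 2 ≤ b) (hD : a + 1 ≤ D) (h1 : D ≤ R)
    (h2 : R ≤ 2 * D - 1) (h3 : b - 1 ≤ s * (2 * a + 1)) (h4 : s * 3 ≤ b - 1) :
    0 < G1 a b D R s 1 := by
  obtain ⟨x, hx, rfl⟩ : ∃ x, 0 ≤ x ∧ a = 3 + x := ⟨a - 3, by linarith, by ring⟩
  obtain ⟨y, hy, rfl⟩ : ∃ y, 0 ≤ y ∧ b = 2 + y := ⟨b - 2, by linarith, by ring⟩
  obtain ⟨z, hz, rfl⟩ : ∃ z, 0 ≤ z ∧ D = 4 + x + z := ⟨D - 4 - x, by linarith, by ring⟩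
  refine G1_affS (by positivity) (by norm_num) h3 h4 (G1_affR h1 h2 ?_ ?_)
    (G1_affR h1 h2 ?_ ?_) <;> unfold G1 <;> ring_nf <;> positivity

lemma p1b {b D R s : ℚ} (hb : 2 ≤ b) (hD : 3 ≤ D) (h1 : D ≤ R)
    (h2 : R ≤ 2 * D - 3 / 2) (h3 : b - 1 ≤ s * 5) (h4 : s * 3 ≤ b - 1) :
    0 < G1 2 b D R s 1 := by
  obtain ⟨y, hy, rfl⟩ : ∃ y, 0 ≤ y ∧ b = 2 + y := ⟨b - 2, by linarith, by ring⟩
  obtain ⟨z, hz, rfl⟩ : ∃ z, 0 ≤ z ∧ D = 3 + z := ⟨D - 3, by linarith, by ring⟩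
  refine G1_affS (by norm_num) (by norm_num) h3 h4 (G1_affR h1 h2 ?_ ?_) (G1_affR h1 h2 ?_ ?_)
  · unfold G1; ring_nf; positivity
  · have e : G1 2 (2 + y) (3 + z) (2 * (3 + z) - 3 / 2) (2 + y - 1) 5 =
        26 * (z - 237 / 104) ^ 2 + 39719 / 416 + 613 / 2 * y + 39 / 2 * y * z + 58 * y * z ^ 2 +
          81 * y ^ 2 + 3 * y ^ 2 * z + 12 * y ^ 2 * z ^ 2 := by
      unfold G1; ring
    rw [e]; positivity
  · unfold G1; ring_nf; positivity
  · unfold G1; ring_nf; positivity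

lemma p1hi {b D : ℚ} (hb : 2 ≤ b) (hD : 3 ≤ D) : 0 < G1 2 b D (2 * D - 1) (b - 1) 3 := by
  obtain ⟨y, hy, rfl⟩ : ∃ y, 0 ≤ y ∧ b = 2 + y := ⟨b - 2, by linarith, by ring⟩
  obtain ⟨z, hz, rfl⟩ : ∃ z, 0 ≤ z ∧ D = 3 + z := ⟨D - 3, by linarith, by ring⟩
  unfold G1; ring_nf; positivity

lemma p1c {b D : ℚ} (hb : 4 ≤ b) (hD : 3 ≤ D) : 0 < G1 2 b D (2 * D - 1) (b - 1) 5 := by
  obtain ⟨y, hy, rfl⟩ : ∃ y, 0 ≤ y ∧ b = 4 + y := ⟨b - 4, by linarith, by ring⟩
  obtain ⟨z, hz, rfl⟩ : ∃ z, 0 ≤ z ∧ D = 3 + z := ⟨D - 3, by linarith, by ring⟩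
  have e : G1 2 (4 + y) (3 + z) (2 * (3 + z) - 1) (4 + y - 1) 5 =
      10 * (z - 1) ^ 2 + 140 + 180 * z ^ 2 + 180 * y + 58 * y * z + 106 * y * z ^ 2 +
        30 * y ^ 2 + 6 * y ^ 2 * z + 12 * y ^ 2 * z ^ 2 := by
    unfold G1; ring
  rw [e]; positivity

lemma p1d {D : ℚ} (hD : 4 ≤ D) : 0 < G1 2 3 D (2 * D - 1) (3 - 1) 5 := by
  obtain ⟨z, hz, rfl⟩ : ∃ z, 0 ≤ z ∧ D = 4 + z := ⟨D - 4, by linarith, by ring⟩
  unfold G1; ring_nf; positivity

/-! ### the two moves -/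

lemma Mid_cons (a : ℕ) (A : Multiset ℕ) : Mid (a ::ₘ A) = nd false (St a ::ₘ A.map St) := by
  rw [Mid, map_cons]

lemma rt_mid (a : ℕ) (A : Multiset ℕ) (m : Multiset Y) :
    rt (Mid (a ::ₘ A) ::ₘ m) = prd (A.map St) * prd m *
      (((2 * a + 1) * (A.card + 2 + msg (A.map St)) + 1) * (m.card + 1 + msg m) + 2 * a + 1) /
        ((a + 1) * (A.card + 2) * (m.card + 1)) := by
  have h1 := (oks_map ok_St A).msg_nonneg
  rw [rt_cons, Mid_cons, nd_Z, nd_p]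
  simp only [prd_cons, msg_cons, card_cons, card_map, St_Z, St_p]
  push_cast
  field_simp
  ring

lemma m3 {a : ℕ} {A : Multiset ℕ} {m : Multiset Y} (h : Ext true (Mid ((a + 1) ::ₘ A) ::ₘ m)) :
    G3 (a + 1) (m.card + 1) (m.card + 1 + msg m) (A.card + 2 + msg (A.map St)) ≤ 0 := by
  have ok := (oks_cons.1 h.oks).2
  have h1 := h.le (l' := Mid (a ::ₘ A) ::ₘ L ::ₘ m) (by simp [ok, ok_Mid, ok_L]) cons_ne_zero
    (by simp [Mid_cons]; omega) (by simp [Mid_cons])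
  rw [rt_mid, rt_mid] at h1
  simp only [prd_cons, msg_cons, card_cons, L_Z, L_p] at h1
  push_cast at h1
  have h2 := ok.prd_pos
  have h3 := (oks_map ok_St A).prd_pos
  rw [div_le_div_iff₀ (by positivity) (by positivity)] at h1
  have h4 : prd (A.map St) * prd m * (A.card + 2) *
      G3 (a + 1) (m.card + 1) (m.card + 1 + msg m) (A.card + 2 + msg (A.map St)) ≤ 0 := by
    unfold G3; linarith
  exact nonpos_of_mul_nonpos_right h4 (by positivity)

lemma m1 {a : ℕ} {A : Multiset ℕ} {m : Multiset Y} (h : Ext true (Mid ((a + 1) ::ₘ A) ::ₘ m)) :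
    G1 (a + 1) (A.card + 1) (m.card + 1) (m.card + 1 + msg m) (msg (A.map St)) 1 ≤ 0 := by
  have ok := (oks_cons.1 h.oks).2
  have h1 := h.le (l' := Mid A ::ₘ Aa a ::ₘ m) (by simp [ok, ok_Mid, ok_Aa]) cons_ne_zero
    (by simp [Mid]; omega) (by simp [Mid]; omega)
  have h0 := (oks_map ok_St A).msg_nonneg
  have e : rt (Mid A ::ₘ Aa a ::ₘ m) = prd (A.map St) * prd m *
      ((A.card + 1 + msg (A.map St)) * ((4 * a + 3) * (m.card + 1 + msg m) + 6 * a + 4) +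
        4 * a + 3) / (2 * (a + 1) * (A.card + 1) * (m.card + 2)) := by
    rw [rt_cons, Mid, nd_Z, nd_p]
    simp only [prd_cons, msg_cons, card_cons, card_map, Aa_Z, Aa_p, pathZ, pathp]
    push_cast
    field_simp
    ring
  rw [rt_mid, e] at h1
  push_cast at h1
  have h2 := ok.prd_pos
  have h3 := (oks_map ok_St A).prd_pos
  rw [div_le_div_iff₀ (by positivity) (by positivity)] at h1
  have h4 : prd (A.map St) * prd m *
      G1 (a + 1) (A.card + 1) (m.card + 1) (m.card + 1 + msg m) (msg (A.map St)) 1 ≤ 0 := by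
    unfold G1; linarith
  exact nonpos_of_mul_nonpos_right h4 (by positivity)

lemma sg_le {A : Multiset ℕ} (h : ∀ a ∈ A, 1 ≤ a) : msg (A.map St) * 3 ≤ A.card + 1 - 1 := by
  have := msg_le_of (l := A.map St) (q := 1 / 3) fun y hy => by
    obtain ⟨a, ha, rfl⟩ := mem_map.1 hy
    have : (1 : ℚ) ≤ a := by exact_mod_cast h a ha
    rw [St_p]
    exact one_div_le_one_div_of_le (by norm_num) (by linarith)
  rw [card_map] at this
  linarith

lemma le_sg {A : Multiset ℕ} {c : ℕ} (h : ∀ a ∈ A, a ≤ c) :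
    (A.card : ℚ) + 1 - 1 ≤ msg (A.map St) * (2 * c + 1) := by
  have := le_msg_of (l := A.map St) (q := 1 / (2 * c + 1)) fun y hy => by
    obtain ⟨a, ha, rfl⟩ := mem_map.1 hy
    have : (a : ℚ) ≤ c := by exact_mod_cast h a ha
    rw [St_p]
    exact one_div_le_one_div_of_le (by positivity) (by linarith)
  rw [card_map, mul_one_div, div_le_iff₀ (by positivity)] at this
  linarith

/-- bringing the largest star to the front -/
lemma front {A : Multiset ℕ} (h : ∃ a ∈ A, 2 ≤ a) :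
    ∃ a A', A = (a + 1) ::ₘ A' ∧ 1 ≤ a ∧ ∀ c ∈ A', c ≤ a + 1 := by
  obtain ⟨c, hc, h2⟩ := h
  obtain ⟨a, ha, hmax⟩ := exists_max_image id (ne_of_gt (lt_of_le_of_lt (Multiset.zero_le _)
    (lt_cons_self (A.erase c) c)) ∘ (cons_erase hc).trans)
  simp only [id] at hmax
  have := hmax c hc
  obtain ⟨A', rfl⟩ := exists_cons_of_mem ha
  refine ⟨a - 1, A', by rw [Nat.sub_add_cancel (by omega)], by omega, fun x hx => ?_⟩
  have := hmax x (mem_cons_of_mem hx)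
  omega

lemma xsame (A : Multiset ℕ) (y : Y) (l : Multiset Y) (h : Ext true (Mid A ::ₘ y ::ₘ l))
    (hy : y.p < 1 / 2) (h2 : 2 ≤ A.card) (h1 : ∀ a ∈ A, 1 ≤ a) (h3 : ∃ a ∈ A, 2 ≤ a) : False := by
  obtain ⟨a, A', rfl, ha, hmax⟩ := front h3
  have ok := (oks_cons.1 h.oks).2
  have k0 := ok.msg_nonneg
  have k1 : msg (y ::ₘ l) ≤ (y ::ₘ l).card - 1 / 2 := by
    have := (oks_cons.1 ok).2.msg_le
    rw [msg_cons, card_cons]; push_cast; linarith
  have k2 : 1 ≤ (y ::ₘ l).card := by simp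
  generalize y ::ₘ l = m at *
  have k3 : (1 : ℚ) ≤ A'.card := by
    rw [card_cons] at h2; exact_mod_cast (by omega : 1 ≤ A'.card)
  have k4 := sg_le (A := A') fun c hc => h1 c (mem_cons_of_mem hc)
  have k5 := le_sg hmax
  have k6 := (oks_map ok_St A').msg_nonneg
  have k7 : (1 : ℚ) ≤ m.card := by exact_mod_cast k2
  push_cast at k5
  rcases le_or_gt m.card a with hc | hc
  · have : (m.card : ℚ) ≤ a := by exact_mod_cast hc
    exact absurd (m3 h) (not_le.2 (p3 (by linarith) (by linarith) (by linarith) (by linarith)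
      (by linarith)))
  · have hc' : (a : ℚ) + 1 ≤ m.card := by exact_mod_cast hc
    refine absurd (m1 h) (not_le.2 ?_)
    rcases eq_or_lt_of_le ha with rfl | ha
    · push_cast at hc' k5 ⊢
      rw [one_add_one_eq_two]
      exact p1b (by linarith) (by linarith) (by linarith) (by linarith) (by linarith) k4
    · have : (2 : ℚ) ≤ a := by exact_mod_cast ha
      exact p1a (by linarith) (by linarith) (by linarith) (by linarith) (by linarith) k5 k4

lemma not22 {n : ℕ} (h : Ext true (Mid (2 ::ₘ {2}) ::ₘ replicate (n + 3) L)) : False := by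
  have h1 := h.le (l' := Aa 2 ::ₘ Aa 2 ::ₘ replicate (n + 2) L)
    (oks_cons.2 ⟨ok_Aa 2, oks_cons.2 ⟨ok_Aa 2, oks_rep ok_L _⟩⟩) cons_ne_zero
    (by simp [Mid]; omega) (by simp [Mid])
  rw [rt_mid, rt_cons] at h1
  simp only [prd_cons, msg_cons, card_cons, map_singleton, prd_sing, msg_sing, card_singleton,
    prd_rep, msg_rep, card_replicate, L_Z, L_p, St_Z, St_p, Aa_Z, Aa_p, pathZ, pathp,
    one_pow] at h1
  push_cast at h1
  have : (0 : ℚ) ≤ n := by positivity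
  rw [div_le_div_iff₀ (by positivity) (by positivity)] at h1
  nlinarith

lemma not222 (h : Ext true (Mid (2 ::ₘ 2 ::ₘ {2}) ::ₘ replicate 2 L)) : False := by
  have h1 := h.le (l' := Aa 2 ::ₘ Aa 2 ::ₘ Aa 1 ::ₘ {L})
    (by simp [ok_Aa, ok_L]) cons_ne_zero (by simp [Mid]) (by simp [Mid])
  rw [rt_mid, rt_cons] at h1
  simp only [prd_cons, msg_cons, card_cons, map_cons, map_singleton, prd_sing, msg_sing,
    card_singleton, prd_rep, msg_rep, card_replicate, L_Z, L_p, St_Z, St_p, Aa_Z, Aa_p, pathZ,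
    pathp] at h1
  norm_num at h1

lemma spider (A : Multiset ℕ) (n : ℕ) (h : Ext true (Mid A ::ₘ replicate n L)) (h2 : 2 ≤ A.card)
    (h1 : ∀ a ∈ A, 1 ≤ a ∧ a ≤ n) (h3 : ∃ a ∈ A, 2 ≤ a) : A = {2, 2} ∧ n = 2 := by
  obtain ⟨a, A', rfl, ha, hmax⟩ := front h3
  have hn := (h1 _ (mem_cons_self _ _)).2
  have hmin : ∀ c ∈ A', 1 ≤ c := fun c hc => (h1 c (mem_cons_of_mem hc)).1
  rw [card_cons] at h2
  have k3 : (1 : ℚ) ≤ A'.card := by exact_mod_cast (by omega : 1 ≤ A'.card)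
  have k4 := sg_le hmin
  have k5 := le_sg hmax
  have hn' : (a : ℚ) + 1 ≤ n := by exact_mod_cast hn
  have k := not_lt.2 (m1 h)
  simp only [card_replicate, msg_rep, L_p] at k
  rw [show (n : ℚ) + 1 + n * 1 = 2 * (n + 1) - 1 by ring] at k
  push_cast at k5
  rcases eq_or_lt_of_le ha with rfl | ha
  swap
  · have : (2 : ℚ) ≤ a := by exact_mod_cast ha
    exact absurd (p1a (by linarith) (by linarith) (by linarith) (by linarith) le_rfl k5 k4) k
  push_cast at hn' k5 k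
  rw [one_add_one_eq_two] at k
  have hi := p1hi (b := A'.card + 1) (D := n + 1) (by linarith) (by linarith)
  have lo : ¬ 0 < G1 2 (A'.card + 1) (n + 1) (2 * (n + 1) - 1) (A'.card + 1 - 1) 5 := fun lo =>
    k (G1_affS (by norm_num) (by norm_num) (by linarith) k4 lo hi)
  have c1 : A'.card ≤ 2 := by
    by_contra hc
    have : (3 : ℚ) ≤ A'.card := by exact_mod_cast (by omega : 3 ≤ A'.card)
    exact lo (p1c (by linarith) (by linarith))
  obtain c2 | c2 : A'.card = 1 ∨ A'.card = 2 := by omega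
  · obtain ⟨c, rfl⟩ := card_eq_one.1 c2
    have d1 := hmin c (mem_singleton_self c)
    have d2 := hmax c (mem_singleton_self c)
    obtain rfl | rfl : c = 1 ∨ c = 2 := by omega
    · refine absurd (G1_affS (m := 3) (m' := 3) (by norm_num) (by norm_num) ?_ k4 hi hi) k
      norm_num
    · refine ⟨rfl, ?_⟩
      by_contra hc
      obtain ⟨n, rfl⟩ : ∃ j, n = j + 3 := ⟨n - 3, by omega⟩
      exact not22 h
  · exfalso
    have c3 : n = 2 := by
      by_contra hc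
      have : (3 : ℚ) ≤ n := by exact_mod_cast (by omega : 3 ≤ n)
      refine lo ?_
      rw [c2, show ((2 : ℕ) : ℚ) + 1 = 3 by norm_num]
      exact p1d (by linarith)
    subst c3
    obtain ⟨c, d, rfl⟩ := card_eq_two.1 c2
    have d1 := hmin c (by simp)
    have d2 := hmax c (by simp)
    have d3 := hmin d (by simp)
    have d4 := hmax d (by simp)
    obtain rfl | rfl : c = 1 ∨ c = 2 := by omega
    all_goals obtain rfl | rfl : d = 1 ∨ d = 2 := by omega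
    · apply k; norm_num [G1]
    · apply k; norm_num [G1]
    · apply k; norm_num [G1]
    · exact not222 h

end Xs

theorem xsS (h : LocS) : XsS where
  xsame := Xs.xsame
  spider := Xs.spider
  typ := by
    rintro y U l hE hU (rfl | ⟨a, ha, rfl⟩ | ⟨A, h0, h1, rfl⟩)
    · exact Or.inl rfl
    · rcases eq_or_lt_of_le ha with rfl | ha
      · exact Or.inr (Or.inl rfl)
      · refine (one_imp hE (t0 := 1) ?_ (h.e1 a ha)).elim
        have := (oks_cons.1 hE.oks).2.msg_nonneg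
        have : (0 : ℚ) ≤ (U ::ₘ l).card := by positivity
        linarith
    · right
      by_cases h2 : ∃ a ∈ A, 2 ≤ a
      · by_cases h3 : 2 ≤ A.card
        · exact (Xs.xsame A U l hE hU h3 h1 h2).elim
        · have := card_pos.2 h0
          obtain ⟨a, rfl⟩ := card_eq_one.1 (by omega : A.card = 1)
          obtain ⟨c, hc, h4⟩ := h2
          rw [mem_singleton.1 hc] at h4
          exact Or.inr (Or.inl ⟨a, h4, Mid_sing a⟩)
      · refine Or.inr (Or.inr ⟨A.card, card_pos.2 h0, ?_⟩)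
        rw [← Mid_rep]
        congr 1
        refine eq_replicate_card.2 fun a ha => ?_
        have := h1 a ha
        by_contra hc
        exact h2 ⟨a, ha, by omega⟩

end Pool.Agent.Lib.MP_70d11c_co.Q2
end
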