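import Pool.Agent.Lib.MP_70d11c_co.Q2.PairA
import Pool.Agent.Lib.MP_70d11c_co.Small2
import Pool.Agent.Lib.MP_70d11c_co.Q2.Chk
import Pool.Agent.Lib.MP_70d11c_co.Q2.Loc
import Pool.Agent.Lib.MP_70d11c_co.Q2.PhA
import Pool.Agent.Lib.MP_70d11c_co.Q2.PhB92
import Pool.Agent.Lib.MP_70d11c_co.Q2.Xs

-- part Pool.Agent.Lib.MP_70d11c_co.Q2.Graph
section

/-! From labelled branches to graphs and back. -/

namespace Pool.Agent.Lib.MP_70d11c_co.Q2

open Multiset

namespace Graph

def toX (y : Y) : X := ⟨y.s, y.Z, y.p⟩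

lemma sz_toX (l : Multiset Y) : sz (l.map toX) = size l := by simp [sz, size, toX]
lemma PP_toX (l : Multiset Y) : PP (l.map toX) = prd l := by simp [PP, prd, toX]
lemma SS_toX (l : Multiset Y) : SS (l.map toX) = msg l := by simp [SS, msg, toX]

lemma toX_nd (b : Bool) (l : Multiset Y) : toX (nd b l) = node (l.map toX) := by
  rw [node, sz_toX, PP_toX, SS_toX, card_map]; rfl

lemma rt_eq {l : Multiset Y} (h : l ≠ 0) : rt l = prd l * (1 + msg l / l.card) := by
  have := card_ge_one h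
  rw [rt]; field_simp

section Lab

variable {V : Type} [Fintype V] [DecidableEq V] {T : RT V} {y : V → Y}

/-- a labelling of a rooted tree by its branches -/
def Lab (T : RT V) (y : V → Y) : Prop :=
  ∀ v, y v = nd (y v).b ((T.ch v).val.map y) ∧ ((y v).b = false → ∀ c ∈ T.ch v, (y c).b = true)

lemma Lab.x (h : Lab T y) (v : V) : (toX ∘ y) v = node ((T.ch v).val.map (toX ∘ y)) := by
  rw [Function.comp_apply, (h v).1, toX_nd, map_map]

lemma Lab.card (h : Lab T y) : Fintype.card V = 1 + size ((T.ch T.r).val.map y) := by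
  rw [T.data_card _ h.x, ← map_map, sz_toX]

lemma Lab.ne (h2 : 2 ≤ Fintype.card V) : (T.ch T.r).val.map y ≠ 0 := by
  simpa using (T.ch_r_nonempty h2).ne_empty

lemma Lab.ratio (h : Lab T y) (h2 : 2 ≤ Fintype.card V) :
    lapRatio T.G = rt ((T.ch T.r).val.map y) := by
  rw [T.data_ratio _ h.x (T.ch_r_nonempty h2), ← map_map, root, PP_toX, SS_toX, card_map,
    rt_eq (Lab.ne h2)]

lemma Lab.ok (h : Lab T y) (v : V) : OK (y v) := by
  refine T.ind (fun v => OK (y v)) (fun v hv => ?_) v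
  rw [(h v).1]
  refine OK.mk _ _ (fun z hz => ?_) fun k z hz => ?_ <;> obtain ⟨c, hc, rfl⟩ := mem_map.1 hz
  exacts [hv c hc, (h v).2 k c hc]

lemma Lab.cf (h : Lab T y) (h2 : 2 ≤ Fintype.card V) : Cf (y T.r).b ((T.ch T.r).val.map y) := by
  refine ⟨fun z hz => ?_, fun k z hz => ?_, Lab.ne h2⟩ <;> obtain ⟨c, hc, rfl⟩ := mem_map.1 hz
  exacts [h.ok c, (h _).2 k c hc]

lemma Lab.cost (h : Lab T y) :
    cost ((T.ch T.r).val.map y) + (y T.r).b.toNat = {v | (y v).b = true}.ncard := by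
  have hc : ∀ v, (y v).c = (y v).b.toNat + ∑ c ∈ T.ch v, (y c).c := fun v => by
    conv_lhs => rw [(h v).1]
    simp [Q2.cost, add_comm]
  have := T.prod_rec_aux (M := Multiplicative ℕ) (fun v => Multiplicative.ofAdd (y v).c)
    (fun v => Multiplicative.ofAdd (y v).b.toNat) (fun v => by rw [hc v, ofAdd_add, ofAdd_sum])
  have h2 := mul_right_cancel this
  rw [← ofAdd_sum, EmbeddingLike.apply_eq_iff_eq] at h2
  rw [← nd_c, ← (h T.r).1, h2, Set.ncard_eq_toFinset_card', Set.toFinset_ofPred,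
    Finset.card_filter]
  exact Finset.sum_congr rfl fun v _ => by cases (y v).b <;> rfl

lemma Lab.matchLe (h : Lab T y) : MatchLe T.G (Q2.cost ((T.ch T.r).val.map y) + (y T.r).b.toNat) := by
  intro M hM
  rw [h.cost]
  have key : ∀ u v, u ≠ T.r → T.par u = v → (y u).b = true ∨ (y v).b = true := fun u v h1 h2 => by
    by_cases hv : (y v).b = true
    · exact Or.inr hv
    · exact Or.inl ((h v).2 (by simpa using hv) u (T.mem_ch.2 ⟨h1, h2⟩))
  have ex : ∀ e : Sym2 V, ∃ v, e ∈ M.edgeSet → (y v).b = true ∧ ∃ w, M.Adj v w ∧ e = s(v, w) := by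
    intro e
    induction e using Sym2.ind with
    | h u v =>
      by_cases he : M.Adj u v
      · have : (y u).b = true ∨ (y v).b = true := by
          rcases M.adj_sub he with k | k
          exacts [key u v k.1 k.2, (key v u k.1 k.2).symm]
        rcases this with k | k
        exacts [⟨u, fun _ => ⟨k, v, he, rfl⟩⟩, ⟨v, fun _ => ⟨k, u, he.symm, Sym2.eq_swap⟩⟩]
      · exact ⟨u, fun k => absurd k he⟩
  choose f hf using ex
  refine Set.ncard_le_ncard_of_injOn f (fun e he => (hf e he).1) fun e he e' he' k => ?_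
  obtain ⟨-, w, h1, h2⟩ := hf e he
  obtain ⟨-, w', h3, h4⟩ := hf e' he'
  rw [← k] at h3 h4
  rw [h2, h4, (hM (M.edge_vert h1)).unique h1 h3]

lemma Lab.greedy (h : Lab T y) (hg : ∀ v, (y v).b = true → ∃ c ∈ T.ch v, (y c).b = false) {k : ℕ}
    (hk : MatchLe T.G k) : Q2.cost ((T.ch T.r).val.map y) + (y T.r).b.toNat ≤ k := by
  have ex : ∀ v, ∃ c, (y v).b = true → (c ≠ T.r ∧ T.par c = v) ∧ (y c).b = false := fun v => by
    by_cases hv : (y v).b = true
    · obtain ⟨c, h1, h2⟩ := hg v hv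
      exact ⟨c, fun _ => ⟨T.mem_ch.1 h1, h2⟩⟩
    · exact ⟨v, fun k => absurd k hv⟩
  choose f hf using ex
  have no : ∀ {u w}, (y u).b = true → (y w).b = true → f w ≠ u := fun {u w} h1 h2 k => by
    have := (hf w h2).2
    rw [k, h1] at this
    exact absurd this (by simp)
  let M : T.G.Subgraph :=
    { verts := {u | (y u).b = true ∨ ∃ w, (y w).b = true ∧ f w = u}
      Adj := fun u w => ((y u).b = true ∧ f u = w) ∨ ((y w).b = true ∧ f w = u)
      adj_sub := by
        rintro u w (⟨h1, rfl⟩ | ⟨h1, rfl⟩)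
        exacts [Or.inr (hf u h1).1, Or.inl (hf w h1).1]
      edge_vert := by
        rintro u w (⟨h1, -⟩ | h1)
        exacts [Or.inl h1, Or.inr ⟨w, h1⟩]
      symm := ⟨fun _ _ k => k.symm⟩ }
  have hM : M.IsMatching := by
    rintro u (hu | ⟨w, hw, rfl⟩)
    · refine ⟨f u, Or.inl ⟨hu, rfl⟩, ?_⟩
      rintro w (⟨-, rfl⟩ | ⟨h1, h2⟩)
      exacts [rfl, absurd h2 (no hu h1)]
    · refine ⟨w, Or.inr ⟨hw, rfl⟩, ?_⟩
      rintro w' (⟨h1, -⟩ | ⟨h1, h2⟩)
      · exact absurd rfl (no h1 hw)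
      · rw [← (hf w' h1).1.2, h2, (hf w hw).1.2]
  rw [h.cost]
  refine (Set.ncard_le_ncard_of_injOn (fun v => s(v, f v)) (fun v hv => ?_)
    fun v hv w hw e => ?_).trans (hk M hM)
  · exact Or.inl ⟨hv, rfl⟩
  · rcases Sym2.eq_iff.1 e with k | k
    exacts [k.1, absurd k.2 (no hw hv)]

lemma exists_rec (T : RT V) {α : Type} (F : Multiset α → α) :
    ∃ x : V → α, ∀ v, x v = F ((T.ch v).val.map x) := by
  let xf : ℕ → V → α := fun k => Nat.rec (fun _ => F 0) (fun _ g v => F ((T.ch v).val.map g)) k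
  have e : ∀ k v, xf (k + 1) v = F ((T.ch v).val.map (xf k)) := fun _ _ => rfl
  have hH : ∀ v, T.dep v ≤ Finset.univ.sup T.dep := fun v =>
    Finset.le_sup (f := T.dep) (Finset.mem_univ v)
  have st : ∀ k v, Finset.univ.sup T.dep ≤ k + T.dep v → xf (k + 1) v = xf k v := by
    intro k
    induction k with
    | zero =>
      intro v hv
      have : T.ch v = ∅ := Finset.eq_empty_iff_forall_notMem.2 fun c hc => by
        have h1 := T.dep_ch hc
        have h2 := hH c
        omega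
      rw [e, this]; rfl
    | succ k ih =>
      intro v hv
      rw [e (k + 1), e k]
      congr 1
      refine map_congr rfl fun c hc => ih c ?_
      have := T.dep_ch hc
      omega
  exact ⟨xf (Finset.univ.sup T.dep), fun v => by rw [← st _ v (by omega), e]⟩

lemma up (G : SimpleGraph V) (hG : G.IsTree) (h2 : 2 ≤ Fintype.card V) {k : ℕ}
    (hk : MatchLe G k) : ∃ b l, Cf b l ∧ Fintype.card V = 1 + size l ∧ cost l + b.toNat ≤ k ∧
      lapRatio G = rt l := by
  classical
  obtain ⟨r⟩ : Nonempty V := Fintype.card_pos_iff.1 (by omega)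
  obtain ⟨T, -, rfl, -⟩ := exists_RT G hG r
  obtain ⟨y, hy⟩ := exists_rec T fun l : Multiset Y => nd (decide (∃ z ∈ l, z.b = false)) l
  have hb : ∀ v, (y v).b = true ↔ ∃ c ∈ T.ch v, (y c).b = false := fun v => by
    rw [hy v]; simp
  have h : Lab T y := fun v => ⟨by conv_lhs => rw [hy v]
                                   congr 1; rw [hy v]; rfl, fun k c hc => by
    by_contra k'
    rw [(hb v).2 ⟨c, hc, by simpa using k'⟩] at k
    exact absurd k (by simp)⟩
  exact ⟨_, _, h.cf h2, h.card, h.greedy (fun v => (hb v).1) hk, h.ratio h2⟩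

end Lab

/-- the root has label `b` and the children `l` -/
def Re (b : Bool) (l : Multiset Y) : Prop :=
  ∃ (V : Type) (_ : Fintype V) (_ : DecidableEq V) (T : RT V) (y : V → Y),
    Lab T y ∧ (T.ch T.r).val.map y = l ∧ (y T.r).b = b

lemma re_zero (b : Bool) : Re b 0 := by
  let T : RT Unit := ⟨(), id, fun _ => 0, fun v h => absurd rfl h, rfl⟩
  have : ∀ v, T.ch v = ∅ := fun v => by
    ext c; simp [RT.mem_ch]
  exact ⟨Unit, inferInstance, inferInstance, T, fun _ => nd b 0, fun v => by simp [this],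
    by simp [this], rfl⟩

lemma re_cons {b b' : Bool} {l l' : Multiset Y} (h : Re b l) (h' : Re b' l')
    (hb : b' = false → b = true) : Re b' (nd b l ::ₘ l') := by
  obtain ⟨V, _, _, T, x, h1, h2, h3⟩ := h
  obtain ⟨W, _, _, U, y, k1, k2, k3⟩ := h'
  let z : V ⊕ W → Y := fun a => match a with
    | Sum.inl v => x v
    | Sum.inr w => if w = U.r then nd b' (nd b l ::ₘ l') else y w
  have hz : ∀ w, (U.ch w).val.map (z ∘ Sum.inr) = (U.ch w).val.map y := fun w =>
    map_congr rfl fun c hc => by simp [z, (U.mem_ch.1 hc).1]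
  have r0 : (T.join U).r = Sum.inr U.r := rfl
  have zr : z (Sum.inr U.r) = nd b' (nd b l ::ₘ l') := if_pos rfl
  have hr : ((T.join U).ch (Sum.inr U.r)).val.map z = nd b l ::ₘ l' := by
    rw [RT.join_ch_r, map_cons, map_map, hz, k2]
    simp only [z]
    rw [(h1 T.r).1, h2, h3]
  have all : ∀ a, (∀ c ∈ (T.join U).ch a, (z c).b = true) ↔
      ∀ t ∈ ((T.join U).ch a).val.map z, t.b = true := fun a =>
    (forall_mem_map_iff (p := fun t : Y => t.b = true)).symm
  refine ⟨V ⊕ W, inferInstance, inferInstance, T.join U, z, ?_, hr, by rw [r0, zr]; rfl⟩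
  rintro (v | w) <;> rw [all]
  · rw [RT.join_ch_inl, map_map]
    exact ⟨(h1 v).1, fun k => by simpa using (h1 v).2 k⟩
  · by_cases hw : w = U.r
    · subst hw
      rw [hr, zr]
      refine ⟨rfl, fun k t ht => ?_⟩
      rcases mem_cons.1 ht with rfl | ht
      · exact hb k
      · rw [← k2] at ht
        obtain ⟨c, hc, rfl⟩ := mem_map.1 ht
        exact (k1 _).2 (k3.trans k) c hc
    · have : z (Sum.inr w) = y w := if_neg hw
      rw [RT.join_ch_inr _ _ _ hw, map_map, hz, this]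
      exact ⟨(k1 w).1, fun k => by simpa using (k1 w).2 k⟩

lemma re_aux (b : Bool) (l : Multiset Y) (h : ∀ y ∈ l, ∃ b' l', y = nd b' l' ∧ Re b' l')
    (hb : b = false → ∀ y ∈ l, y.b = true) : Re b l := by
  induction l using Multiset.induction_on with
  | empty => exact re_zero b
  | cons a l ih =>
    obtain ⟨b', l', rfl, k⟩ := h a (mem_cons_self _ _)
    exact re_cons k (ih (fun y hy => h y (mem_cons_of_mem hy))
      fun e y hy => hb e y (mem_cons_of_mem hy)) fun e => hb e _ (mem_cons_self _ _)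

lemma re_ok {y : Y} (h : OK y) : ∃ b l, y = nd b l ∧ Re b l := by
  induction h with
  | mk b l _ h2 ih => exact ⟨b, l, rfl, re_aux b l ih h2⟩

lemma down {b : Bool} {l : Multiset Y} (h : Cf b l) {n k : ℕ} (hn : n = 1 + size l) (h2 : 2 ≤ n)
    (hk : cost l + b.toNat ≤ k) :
    ∃ G : SimpleGraph (Fin n), G.IsTree ∧ MatchLe G k ∧ lapRatio G = rt l := by
  obtain ⟨V, _, _, T, y, h1, h3, h4⟩ := re_aux b l (fun y hy => re_ok (h.1 y hy)) h.2.1
  have hc : Fintype.card V = n := by rw [h1.card, h3, hn]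
  let e : V ≃ Fin n := Fintype.equivFinOfCardEq hc
  have hm : ∀ w, ((T.tr e).ch w).val.map (y ∘ e.symm) = (T.ch (e.symm w)).val.map y := fun w => by
    rw [RT.tr_ch, map_map]
    exact map_congr rfl fun c _ => by simp
  have hl : Lab (T.tr e) (y ∘ e.symm) := fun w => ⟨by rw [hm]; exact (h1 _).1, fun k c hc => by
    have : (y ∘ e.symm) c ∈ (T.ch (e.symm w)).val.map y := hm w ▸ mem_map_of_mem _ hc
    obtain ⟨c', h5, h6⟩ := mem_map.1 this
    exact h6 ▸ (h1 _).2 k c' h5⟩
  have hr : e.symm (T.tr e).r = T.r := by simp [RT.tr]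
  have a1 := hl.matchLe
  have a2 := hl.ratio (by simpa using h2)
  rw [hm, hr, h3] at a1 a2
  rw [Function.comp_apply, hr, h4] at a1
  exact ⟨_, (T.tr e).isTree, fun M hM => (a1 M hM).trans hk, a2⟩

lemma size_map (f : ℕ → Y) (α β : ℕ) (h : ∀ a, (f a).s = α * a + β) (K : Multiset ℕ) :
    size (K.map f) = α * K.sum + β * K.card := by
  induction K using Multiset.induction_on with
  | empty => simp
  | cons a K ih => simp only [map_cons, size_cons, ih, h, sum_cons, card_cons]; ring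

lemma cost_map (f : ℕ → Y) (α β : ℕ) (h : ∀ a, (f a).c = α * a + β) (K : Multiset ℕ) :
    cost (K.map f) = α * K.sum + β * K.card := by
  induction K using Multiset.induction_on with
  | empty => simp
  | cons a K ih => simp only [map_cons, cost_cons, ih, h, sum_cons, card_cons]; ring

lemma cand_real {n k : ℕ} (h2 : 2 ≤ n) {v : ℚ} (hv : v ∈ Cand n k) :
    ∃ b l, Cf b l ∧ n = 1 + size l ∧ cost l + b.toNat ≤ k ∧ rt l = v := by
  have sA := size_map Aa 1 2 (by simp)
  have cA := cost_map Aa 0 1 (by simp)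
  have sH := size_map Hb 2 1 (by simp)
  have cH := cost_map Hb 1 0 (by simp)
  have sB := size_map BB 3 1 (by simp)
  have cB := cost_map BB 1 1 (by simp)
  rcases hv with ⟨l, m, s, h1, h3, h4, rfl⟩ | ⟨l, m, s, h1, h3, h4, rfl⟩ |
    ⟨x, y, r, t, h1, h3, h4, rfl⟩ | ⟨x, y, r, t, h1, h3, h4, rfl⟩ | ⟨h1, h3, rfl⟩
  · have h0 : replicate l L + (balK m s).map Aa ≠ 0 := by
      rw [← card_pos]; simp [balK_card h3]; omega
    refine ⟨true, _, cf_true (oks_add.2 ⟨oks_rep ok_L _, oks_map ok_Aa _⟩) h0, ?_, ?_, ?_⟩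
    · simp [sA, balK_card h3, balK_sum h3]; omega
    · simp [cA, balK_card h3]; omega
    · simp [rt_eq h0, F1, prd_map, msg_map, balK_card h3, ← balK_prod, ← balK_sum']
  · have h0 : replicate l P2 + (balK m s).map Hb ≠ 0 := by
      rw [← card_pos]; simp [balK_card h3]; omega
    have ok := oks_add.2 ⟨oks_rep ok_P2 l, oks_map ok_Hb (balK m s)⟩
    have a1 : n = 1 + size (replicate l P2 + (balK m s).map Hb) := by
      simp [sH, balK_card h3, balK_sum h3]; omega
    have a2 : rt (replicate l P2 + (balK m s).map Hb) = F2 l m s := by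
      simp [rt_eq h0, F2, prd_map, msg_map, balK_card h3, ← balK_prod, ← balK_sum', div_eq_mul_inv]
    have a3 : cost (replicate l P2 + (balK m s).map Hb) = l + s := by simp [cH, balK_sum h3]
    by_cases hm : m = 0
    · rw [if_pos hm] at h4
      refine ⟨false, _, ⟨ok, fun _ y hy => ?_, h0⟩, a1, by rw [a3, h3 hm]; exact h4, a2⟩
      rw [card_eq_zero.1 ((balK_card h3).trans hm)] at hy
      rw [eq_of_mem_replicate (by simpa using hy : y ∈ replicate l P2)]; rfl
    · rw [if_neg hm] at h4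
      exact ⟨true, _, cf_true ok h0, a1, by simp [a3]; omega, a2⟩
  · have h0 : replicate x (Hb 1) + replicate y (Hb 2) + (balK r t).map BB ≠ 0 := by
      rw [← card_pos]; simp [balK_card h3]; omega
    refine ⟨true, _, cf_true (oks_add.2 ⟨oks_add.2 ⟨oks_rep (ok_Hb 1) _, oks_rep (ok_Hb 2) _⟩,
      oks_map ok_BB _⟩) h0, ?_, ?_, ?_⟩
    · simp [sB, balK_card h3, balK_sum h3]; omega
    · simp [cB, balK_card h3, balK_sum h3]; omega
    · simp [rt_eq h0, F3, prd_map, msg_map, balK_card h3, ← balK_prod, ← balK_sum', hubZ_one,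
        hubZ_two, hubp_one, hubp_two]
      ring_nf
      simp
  · refine ⟨true, nd false ((balK r t).map BB) ::ₘ (replicate x (Hb 1) + replicate y (Hb 2)),
      cf_true (oks_cons.2 ⟨ok_false (oks_map ok_BB _) fun z hz => ?_,
        oks_add.2 ⟨oks_rep (ok_Hb 1) _, oks_rep (ok_Hb 2) _⟩⟩) cons_ne_zero, ?_, ?_, ?_⟩
    · obtain ⟨a, -, rfl⟩ := mem_map.1 hz; rfl
    · simp [sB, balK_card h3, balK_sum h3]; omega
    · simp [cB, balK_card h3, balK_sum h3]; omega
    · simp [rt_eq cons_ne_zero, F4, prd_map, msg_map, balK_card h3, ← balK_prod, ← balK_sum',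
        hubZ_one, hubZ_two, hubp_one, hubp_two, nd]
      ring
  · refine ⟨true, Mid {2, 2} ::ₘ replicate 2 L, cf_true (oks_cons.2 ⟨ok_Mid _, oks_rep ok_L _⟩)
      cons_ne_zero, ?_, ?_, ?_⟩
    · simp [Mid, h1]
    · simpa [Mid] using h3
    · simp [rt, Mid, nd_Z, nd_p]
      norm_num

end Graph

open Q2.Graph in
theorem main_of (h : ExtGood) : MainStm := by
  intro n k h2 hne
  obtain ⟨T, ⟨hT, hk⟩, hmax⟩ := Set.exists_max_image
    {T : SimpleGraph (Fin n) | T.IsTree ∧ MatchLe T k} lapRatio (Set.toFinite _) hne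
  obtain ⟨b, l, h1, h3, h4, h5⟩ := up T hT (by simpa using h2) hk
  rw [Fintype.card_fin] at h3
  have le : ∀ b' l', Cf b' l' → n = 1 + size l' → cost l' + b'.toNat ≤ k → rt l' ≤ rt l :=
    fun b' l' k1 k2 k3 => by
      obtain ⟨G, g1, g2, g3⟩ := down k1 k2 h2 k3
      rw [← g3, ← h5]; exact hmax G ⟨g1, g2⟩
  have lec : ∀ v ∈ Cand n k, v ≤ rt l := fun v hv => by
    obtain ⟨b', l', k1, k2, k3, rfl⟩ := cand_real h2 hv
    exact le b' l' k1 k2 k3
  obtain ⟨v, hv, hv'⟩ := h b l ⟨h1, fun b' l' k1 k2 k3 => le b' l' k1 (k2 ▸ h3) (k3.trans h4)⟩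
  rw [← h3] at hv
  have hv2 := cand_mono h4 hv
  refine ⟨rt l, ⟨hv'.antisymm (lec v hv2) ▸ hv2, lec⟩, ⟨T, hT, hk, h5⟩, ?_⟩
  rintro _ ⟨G, g1, g2, rfl⟩
  exact h5 ▸ hmax G ⟨g1, g2⟩

end Pool.Agent.Lib.MP_70d11c_co.Q2
end

-- part Pool.Agent.Lib.MP_70d11c_co.Q2.Main
section

namespace Pool.Agent.Lib.MP_70d11c_co.Q2

theorem extGood_all : ExtGood :=
  extGood treeS ctxS
    (pair srtS (xsS locS) (pairA ctxS locS inst) (pairH ctxS srtS locS inst))
    (phA treeS ctxS srtS locS inst (pairA ctxS locS inst))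
    (phB1 ctxS srtS locS (xsS locS) inst) (phB6 locS)
    (phB2 locS (phB6 locS) phB7 phB9) (clA locS (xsS locS))

theorem mainStm : MainStm := main_of extGood_all

end Pool.Agent.Lib.MP_70d11c_co.Q2
end
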