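import Pool.Agent.Lib.MP_70d11c_co.Q2.Defs

-- part Pool.Agent.Lib.MP_70d11c_co.Q2.Core
section

/-!
Labelled branches: size `s`, number `c` of vertices of the cover, label `b` of the top vertex
(`true` when it lies in the cover), weight `Z` and message `p`.
-/

namespace Pool.Agent.Lib.MP_70d11c_co.Q2

open Multiset

@[ext] structure Y where
  s : ℕ
  c : ℕ
  b : Bool
  Z : ℚ
  p : ℚ

def size (l : Multiset Y) : ℕ := (l.map Y.s).sum
def cost (l : Multiset Y) : ℕ := (l.map Y.c).sum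
def prd (l : Multiset Y) : ℚ := (l.map Y.Z).prod
def msg (l : Multiset Y) : ℚ := (l.map Y.p).sum

@[simp] lemma size_zero : size 0 = 0 := rfl
@[simp] lemma cost_zero : cost 0 = 0 := rfl
@[simp] lemma prd_zero : prd 0 = 1 := by simp [prd]
@[simp] lemma msg_zero : msg 0 = 0 := by simp [msg]
@[simp] lemma size_cons (x : Y) (l : Multiset Y) : size (x ::ₘ l) = x.s + size l := by simp [size]
@[simp] lemma cost_cons (x : Y) (l : Multiset Y) : cost (x ::ₘ l) = x.c + cost l := by simp [cost]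
@[simp] lemma prd_cons (x : Y) (l : Multiset Y) : prd (x ::ₘ l) = x.Z * prd l := by simp [prd]
@[simp] lemma msg_cons (x : Y) (l : Multiset Y) : msg (x ::ₘ l) = x.p + msg l := by simp [msg]
@[simp] lemma size_sing (x : Y) : size {x} = x.s := by simp [size]
@[simp] lemma cost_sing (x : Y) : cost {x} = x.c := by simp [cost]
@[simp] lemma prd_sing (x : Y) : prd {x} = x.Z := by simp [prd]
@[simp] lemma msg_sing (x : Y) : msg {x} = x.p := by simp [msg]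
@[simp] lemma size_add (l l' : Multiset Y) : size (l + l') = size l + size l' := by simp [size]
@[simp] lemma cost_add (l l' : Multiset Y) : cost (l + l') = cost l + cost l' := by simp [cost]
@[simp] lemma prd_add (l l' : Multiset Y) : prd (l + l') = prd l * prd l' := by simp [prd]
@[simp] lemma msg_add (l l' : Multiset Y) : msg (l + l') = msg l + msg l' := by simp [msg]
@[simp] lemma size_rep (n : ℕ) (x : Y) : size (replicate n x) = n * x.s := by simp [size]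
@[simp] lemma cost_rep (n : ℕ) (x : Y) : cost (replicate n x) = n * x.c := by simp [cost]
@[simp] lemma prd_rep (n : ℕ) (x : Y) : prd (replicate n x) = x.Z ^ n := by simp [prd]
@[simp] lemma msg_rep (n : ℕ) (x : Y) : msg (replicate n x) = n * x.p := by simp [msg]

/-- the branch whose top vertex has label `b` and children `l` -/
def nd (b : Bool) (l : Multiset Y) : Y :=
  ⟨1 + size l, cost l + b.toNat, b, prd l * (1 + msg l / (l.card + 1)), 1 / (l.card + 1 + msg l)⟩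

@[simp] lemma nd_s (b : Bool) (l : Multiset Y) : (nd b l).s = 1 + size l := rfl
@[simp] lemma nd_c (b : Bool) (l : Multiset Y) : (nd b l).c = cost l + b.toNat := rfl
@[simp] lemma nd_b (b : Bool) (l : Multiset Y) : (nd b l).b = b := rfl
lemma nd_p (b : Bool) (l : Multiset Y) : (nd b l).p = 1 / (l.card + 1 + msg l) := rfl
lemma nd_Z (b : Bool) (l : Multiset Y) :
    (nd b l).Z = prd l * (l.card + 1 + msg l) / (l.card + 1) := by
  simp only [nd]; field_simp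

/-- the Laplacian ratio of the tree whose root has the children `l` -/
def rt (l : Multiset Y) : ℚ := prd l * (l.card + msg l) / l.card

inductive OK : Y → Prop
  | mk (b : Bool) (l : Multiset Y) : (∀ y ∈ l, OK y) → (b = false → ∀ y ∈ l, y.b = true) →
      OK (nd b l)

def OKs (l : Multiset Y) : Prop := ∀ y ∈ l, OK y

@[simp] lemma oks_zero : OKs 0 := by simp [OKs]
@[simp] lemma oks_cons {y : Y} {l : Multiset Y} : OKs (y ::ₘ l) ↔ OK y ∧ OKs l := by simp [OKs]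
@[simp] lemma oks_sing {y : Y} : OKs {y} ↔ OK y := by simp [OKs]
@[simp] lemma oks_add {l l' : Multiset Y} : OKs (l + l') ↔ OKs l ∧ OKs l' := by
  simp [OKs, or_imp, forall_and]
lemma oks_rep {y : Y} (h : OK y) (n : ℕ) : OKs (replicate n y) := fun _ hz => by
  rw [eq_of_mem_replicate hz]; exact h
lemma oks_map {f : ℕ → Y} (h : ∀ a, OK (f a)) (K : Multiset ℕ) : OKs (K.map f) := fun z hz => by
  obtain ⟨a, -, rfl⟩ := mem_map.1 hz; exact h a

lemma ok_true {l : Multiset Y} (h : OKs l) : OK (nd true l) := OK.mk _ _ h (by simp)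
lemma ok_false {l : Multiset Y} (h : OKs l) (h' : ∀ y ∈ l, y.b = true) : OK (nd false l) :=
  OK.mk _ _ h fun _ => h'

def Pos (y : Y) : Prop := 1 ≤ y.s ∧ 1 ≤ y.Z ∧ 0 < y.p ∧ y.p ≤ 1

lemma prd_ge' {l : Multiset Y} (h : ∀ y ∈ l, Pos y) : 1 ≤ prd l := by
  induction l using Multiset.induction_on with
  | empty => simp
  | cons a l ih =>
    rw [prd_cons]
    have h1 := (h a (mem_cons_self _ _)).2.1
    have h2 := ih fun y hy => h y (mem_cons_of_mem hy)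
    nlinarith

lemma msg_nonneg' {l : Multiset Y} (h : ∀ y ∈ l, Pos y) : 0 ≤ msg l := by
  induction l using Multiset.induction_on with
  | empty => simp
  | cons a l ih =>
    rw [msg_cons]
    have h1 := (h a (mem_cons_self _ _)).2.2.1
    have h2 := ih fun y hy => h y (mem_cons_of_mem hy)
    linarith

lemma OK.pos {y : Y} (h : OK y) : Pos y := by
  induction h with
  | mk b l _ _ ih =>
    have h1 := prd_ge' ih
    have h2 := msg_nonneg' ih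
    have h3 : (0 : ℚ) ≤ l.card := by positivity
    refine ⟨by simp, ?_, ?_, ?_⟩
    · have : 0 ≤ msg l / (l.card + 1) := by positivity
      simp only [nd]; nlinarith
    · simp only [nd]; positivity
    · simp only [nd]; rw [div_le_one (by positivity)]; linarith

lemma OK.Z_ge {y : Y} (h : OK y) : 1 ≤ y.Z := h.pos.2.1
lemma OK.Z_pos {y : Y} (h : OK y) : 0 < y.Z := lt_of_lt_of_le one_pos h.Z_ge
lemma OK.p_pos {y : Y} (h : OK y) : 0 < y.p := h.pos.2.2.1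
lemma OK.p_le {y : Y} (h : OK y) : y.p ≤ 1 := h.pos.2.2.2
lemma OK.s_ge {y : Y} (h : OK y) : 1 ≤ y.s := h.pos.1
lemma OKs.prd_ge {l : Multiset Y} (h : OKs l) : 1 ≤ prd l := prd_ge' fun y hy => (h y hy).pos
lemma OKs.prd_pos {l : Multiset Y} (h : OKs l) : 0 < prd l := lt_of_lt_of_le one_pos h.prd_ge
lemma OKs.msg_nonneg {l : Multiset Y} (h : OKs l) : 0 ≤ msg l :=
  msg_nonneg' fun y hy => (h y hy).pos

lemma msg_le_of {l : Multiset Y} {q : ℚ} (h : ∀ y ∈ l, y.p ≤ q) : msg l ≤ l.card * q := by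
  induction l using Multiset.induction_on with
  | empty => simp
  | cons a l ih =>
    rw [msg_cons, card_cons]
    have h1 := h a (mem_cons_self _ _)
    have h2 := ih fun y hy => h y (mem_cons_of_mem hy)
    push_cast; linarith

lemma le_msg_of {l : Multiset Y} {q : ℚ} (h : ∀ y ∈ l, q ≤ y.p) : l.card * q ≤ msg l := by
  induction l using Multiset.induction_on with
  | empty => simp
  | cons a l ih =>
    rw [msg_cons, card_cons]
    have h1 := h a (mem_cons_self _ _)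
    have h2 := ih fun y hy => h y (mem_cons_of_mem hy)
    push_cast; linarith

lemma OKs.msg_le {l : Multiset Y} (h : OKs l) : msg l ≤ l.card := by
  simpa using msg_le_of (q := 1) fun y hy => (h y hy).p_le

lemma OKs.msg_pos {l : Multiset Y} (h : OKs l) (h0 : l ≠ 0) : 0 < msg l := by
  obtain ⟨y, hy⟩ := exists_mem_of_ne_zero h0
  obtain ⟨m, rfl⟩ := exists_cons_of_mem hy
  rw [oks_cons] at h
  have := h.1.p_pos
  have := h.2.msg_nonneg
  rw [msg_cons]; linarith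

lemma card_ge_one {l : Multiset Y} (h0 : l ≠ 0) : (1 : ℚ) ≤ l.card := by
  exact_mod_cast card_pos.2 h0

/-- a branch which is not a single vertex has message `< 1/2` -/
lemma nd_p_lt {b : Bool} {l : Multiset Y} (h : OKs l) (h0 : l ≠ 0) : (nd b l).p < 1 / 2 := by
  have h1 := h.msg_pos h0
  have h2 := card_ge_one h0
  rw [nd_p]
  exact one_div_lt_one_div_of_lt (by norm_num) (by linarith)

/-- a branch whose top vertex has at least two children has message `≤ 1/3` -/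
lemma nd_p_le {b : Bool} {l : Multiset Y} (h : OKs l) (h2 : 2 ≤ l.card) : (nd b l).p ≤ 1 / 3 := by
  have h1 := h.msg_nonneg
  have h2 : (2 : ℚ) ≤ l.card := by exact_mod_cast h2
  rw [nd_p]
  exact one_div_le_one_div_of_le (by norm_num) (by linarith)

lemma nd_Zp {b : Bool} {l : Multiset Y} (h : OKs l) (t : ℚ) :
    (nd b l).Z * (1 + t * (nd b l).p) = prd l * (l.card + 1 + msg l + t) / (l.card + 1) := by
  have h1 := h.msg_nonneg
  rw [nd_Z, nd_p]; field_simp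

lemma rt_cons (y : Y) (l : Multiset Y) :
    rt (y ::ₘ l) = y.Z * prd l * (l.card + 1 + msg l + y.p) / (l.card + 1) := by
  simp only [rt, prd_cons, msg_cons, card_cons]; push_cast; ring

lemma rt_cons' (y : Y) {l : Multiset Y} (h : OKs l) :
    rt (y ::ₘ l) = prd l * (l.card + 1 + msg l) / (l.card + 1) *
      (y.Z * (1 + 1 / (l.card + 1 + msg l) * y.p)) := by
  have h1 := h.msg_nonneg
  rw [rt_cons]; field_simp

lemma rt_reroot (b b' : Bool) {l m : Multiset Y} (hl : OKs l) (hm : OKs m) :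
    rt (nd b l ::ₘ m) = rt (nd b' m ::ₘ l) := by
  have h1 := hl.msg_nonneg
  have h2 := hm.msg_nonneg
  simp only [rt_cons, nd_Z, nd_p]; field_simp

/-- rooted trees with a vertex cover -/
def Cf (b : Bool) (l : Multiset Y) : Prop := OKs l ∧ (b = false → ∀ y ∈ l, y.b = true) ∧ l ≠ 0

lemma cf_true {l : Multiset Y} (h : OKs l) (h0 : l ≠ 0) : Cf true l := ⟨h, by simp, h0⟩

/-- extremal trees -/
def Ext (b : Bool) (l : Multiset Y) : Prop :=
  Cf b l ∧ ∀ b' l', Cf b' l' → size l' = size l → cost l' + b'.toNat ≤ cost l + b.toNat →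
    rt l' ≤ rt l

lemma Ext.oks {b : Bool} {l : Multiset Y} (h : Ext b l) : OKs l := h.1.1

/-- comparison with a competitor with the same root label `true` -/
lemma Ext.le {l l' : Multiset Y} (h : Ext true l) (h1 : OKs l') (h0 : l' ≠ 0)
    (hs : size l' = size l) (hc : cost l' ≤ cost l) : rt l' ≤ rt l :=
  h.2 true l' (cf_true h1 h0) hs (by omega)

/-- `(b', l')` is again extremal, for the same size, no larger cost and no smaller value -/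
def Red (b : Bool) (l : Multiset Y) (b' : Bool) (l' : Multiset Y) : Prop :=
  Ext b' l' ∧ size l' = size l ∧ cost l' + b'.toNat ≤ cost l + b.toNat ∧ rt l ≤ rt l'

lemma Ext.red {b b' : Bool} {l l' : Multiset Y} (h : Ext b l) (h1 : Cf b' l')
    (hs : size l' = size l) (hc : cost l' + b'.toNat ≤ cost l + b.toNat) (hv : rt l ≤ rt l') :
    Red b l b' l' :=
  ⟨⟨h1, fun b2 l2 k1 k2 k3 => (h.2 b2 l2 k1 (k2.trans hs) (k3.trans hc)).trans hv⟩, hs, hc, hv⟩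

lemma Red.trans {b b' b'' : Bool} {l l' l'' : Multiset Y} (h : Red b l b' l')
    (h' : Red b' l' b'' l'') : Red b l b'' l'' :=
  ⟨h'.1, h'.2.1.trans h.2.1, h'.2.2.1.trans h.2.2.1, h.2.2.2.trans h'.2.2.2⟩

lemma Ext.refl {b : Bool} {l : Multiset Y} (h : Ext b l) : Red b l b l := ⟨h, rfl, le_rfl, le_rfl⟩

/-- moving the root to a neighbour -/
lemma Ext.reroot {b b' : Bool} {l m : Multiset Y} (h : Ext b' (nd b l ::ₘ m)) (hl : OKs l)
    (hb : b = false → ∀ y ∈ l, y.b = true) : Red b' (nd b l ::ₘ m) b (nd b' m ::ₘ l) := by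
  obtain ⟨⟨h1, h2, -⟩, -⟩ := id h
  rw [oks_cons] at h1
  refine h.red ⟨oks_cons.2 ⟨OK.mk _ _ h1.2 fun k y hy => h2 k y (mem_cons_of_mem hy), hl⟩, ?_,
    cons_ne_zero⟩ (by simp; omega) (by simp; omega) (rt_reroot b b' hl h1.2).le
  intro k y hy
  rcases mem_cons.1 hy with rfl | hy
  · by_contra k'
    have := h2 (by simpa using k') _ (mem_cons_self _ _)
    simp [k] at this
  · exact hb k y hy

/-- the value is bounded by a candidate -/
def Good (b : Bool) (l : Multiset Y) : Prop :=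
  ∃ v ∈ Cand (1 + size l) (cost l + b.toNat), rt l ≤ v

lemma cand_mono {n k k' : ℕ} (h : k ≤ k') : Cand n k ⊆ Cand n k' := by
  rintro v (⟨l, m, s, h1, h2, h3, h4⟩ | ⟨l, m, s, h1, h2, h3, h4⟩ | ⟨x, y, r, t, h1, h2, h3, h4⟩ |
    ⟨x, y, r, t, h1, h2, h3, h4⟩ | ⟨h1, h2, h3⟩)
  · exact Or.inl ⟨l, m, s, h1, h2, h3.trans h, h4⟩
  · exact Or.inr (Or.inl ⟨l, m, s, h1, h2, h3.trans h, h4⟩)
  · exact Or.inr (Or.inr (Or.inl ⟨x, y, r, t, h1, h2, h3.trans h, h4⟩))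
  · exact Or.inr (Or.inr (Or.inr (Or.inl ⟨x, y, r, t, h1, h2, h3.trans h, h4⟩)))
  · exact Or.inr (Or.inr (Or.inr (Or.inr ⟨h1, h2.trans h, h3⟩)))

lemma Red.good {b b' : Bool} {l l' : Multiset Y} (h : Red b l b' l') (hg : Good b' l') :
    Good b l := by
  obtain ⟨v, h1, h2⟩ := hg
  rw [h.2.1] at h1
  exact ⟨v, cand_mono h.2.2.1 h1, h.2.2.2.trans h2⟩

/-! ### the standard branches -/

def L : Y := nd false 0
def St (a : ℕ) : Y := nd true (replicate a L)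
def P2 : Y := St 1
def Mid (A : Multiset ℕ) : Y := nd false (A.map St)
def Aa (a : ℕ) : Y := nd false {St a}
def Hb (b : ℕ) : Y := nd false (replicate b P2)
def BB (N : ℕ) : Y := nd true (replicate N (Hb 1))

@[simp] lemma L_s : L.s = 1 := by simp [L]
@[simp] lemma L_c : L.c = 0 := by simp [L]
@[simp] lemma L_b : L.b = false := rfl
@[simp] lemma L_Z : L.Z = 1 := by simp [L, nd_Z]
@[simp] lemma L_p : L.p = 1 := by simp [L, nd_p]
lemma ok_L : OK L := ok_false (by simp) (by simp)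

@[simp] lemma St_s (a : ℕ) : (St a).s = a + 1 := by simp [St, add_comm]
@[simp] lemma St_c (a : ℕ) : (St a).c = 1 := by simp [St]
@[simp] lemma St_b (a : ℕ) : (St a).b = true := rfl
@[simp] lemma St_Z (a : ℕ) : (St a).Z = (2 * a + 1) / (a + 1) := by
  simp [St, nd_Z]; ring
@[simp] lemma St_p (a : ℕ) : (St a).p = 1 / (2 * a + 1) := by
  simp only [St, nd_p, card_replicate, msg_rep, L_p]; ring_nf
lemma ok_St (a : ℕ) : OK (St a) := ok_true (oks_rep ok_L a)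

@[simp] lemma P2_s : P2.s = 2 := by simp [P2]
@[simp] lemma P2_c : P2.c = 1 := by simp [P2]
@[simp] lemma P2_b : P2.b = true := rfl
@[simp] lemma P2_Z : P2.Z = 3 / 2 := by norm_num [P2]
@[simp] lemma P2_p : P2.p = 1 / 3 := by norm_num [P2]
lemma ok_P2 : OK P2 := ok_St 1

@[simp] lemma Mid_b (A : Multiset ℕ) : (Mid A).b = false := rfl
lemma ok_Mid (A : Multiset ℕ) : OK (Mid A) :=
  ok_false (oks_map ok_St A) fun y hy => by obtain ⟨a, -, rfl⟩ := mem_map.1 hy; rfl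

@[simp] lemma Aa_s (a : ℕ) : (Aa a).s = a + 2 := by simp [Aa]; omega
@[simp] lemma Aa_c (a : ℕ) : (Aa a).c = 1 := by simp [Aa]
@[simp] lemma Aa_b (a : ℕ) : (Aa a).b = false := rfl
@[simp] lemma Aa_Z (a : ℕ) : (Aa a).Z = pathZ a := by
  simp only [Aa, nd_Z, prd_sing, msg_sing, card_singleton, St_Z, St_p, pathZ]
  field_simp; ring
@[simp] lemma Aa_p (a : ℕ) : (Aa a).p = pathp a := by
  simp only [Aa, nd_p, msg_sing, card_singleton, St_p, pathp]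
  field_simp; ring
lemma Mid_sing (a : ℕ) : Mid {a} = Aa a := by simp [Mid, Aa]
lemma ok_Aa (a : ℕ) : OK (Aa a) := Mid_sing a ▸ ok_Mid _

@[simp] lemma Hb_s (b : ℕ) : (Hb b).s = 2 * b + 1 := by simp [Hb]; omega
@[simp] lemma Hb_c (b : ℕ) : (Hb b).c = b := by simp [Hb]
@[simp] lemma Hb_b (b : ℕ) : (Hb b).b = false := rfl
@[simp] lemma Hb_Z (b : ℕ) : (Hb b).Z = hubZ b := by
  simp only [Hb, nd_Z, prd_rep, msg_rep, card_replicate, P2_Z, P2_p, hubZ]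
  field_simp; ring
@[simp] lemma Hb_p (b : ℕ) : (Hb b).p = hubp b := by
  simp only [Hb, nd_p, msg_rep, card_replicate, P2_p, hubp]
  field_simp; ring
lemma Mid_rep (b : ℕ) : Mid (replicate b 1) = Hb b := by simp [Mid, Hb, P2]
lemma ok_Hb (b : ℕ) : OK (Hb b) := Mid_rep b ▸ ok_Mid _
lemma Hb_zero : Hb 0 = L := rfl
lemma Aa_one : Aa 1 = Hb 1 := rfl
lemma hubZ_one : hubZ 1 = 7 / 4 := by norm_num [hubZ]
lemma hubp_one : hubp 1 = 3 / 7 := by norm_num [hubp]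
lemma hubZ_two : hubZ 2 = 11 / 4 := by norm_num [hubZ]
lemma hubp_two : hubp 2 = 3 / 11 := by norm_num [hubp]

@[simp] lemma BB_s (N : ℕ) : (BB N).s = 3 * N + 1 := by simp [BB]; omega
@[simp] lemma BB_c (N : ℕ) : (BB N).c = N + 1 := by simp [BB]
@[simp] lemma BB_b (N : ℕ) : (BB N).b = true := rfl
@[simp] lemma BB_Z (N : ℕ) : (BB N).Z = superZ N := by
  simp only [BB, nd_Z, prd_rep, msg_rep, card_replicate, Hb_Z, Hb_p, hubZ_one, hubp_one, superZ]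
  field_simp; ring
@[simp] lemma BB_p (N : ℕ) : (BB N).p = superp N := by
  simp only [BB, nd_p, msg_rep, card_replicate, Hb_p, hubp_one, superp]
  field_simp; ring
lemma ok_BB (N : ℕ) : OK (BB N) := ok_true (oks_rep (ok_Hb 1) N)

end Pool.Agent.Lib.MP_70d11c_co.Q2
end

-- part Pool.Agent.Lib.MP_70d11c_co.Q2.Base
section

/-!
Greedy labellings, paths between two vertices of the cover, deals, kits, extremal pairs.
-/

namespace Pool.Agent.Lib.MP_70d11c_co.Q2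

open Multiset

/-- greedy labelling: a vertex lies in the cover iff one of its children does not -/
inductive Gr : Y → Prop
  | mk (b : Bool) (l : Multiset Y) : (∀ y ∈ l, Gr y) → (b = false → ∀ y ∈ l, y.b = true) →
      (b = true → ∃ y ∈ l, y.b = false) → Gr (nd b l)

def Grs (l : Multiset Y) : Prop := ∀ y ∈ l, Gr y

lemma Gr.ok {y : Y} (h : Gr y) : OK y := by
  induction h with
  | mk b l _ h2 _ ih => exact OK.mk b l ih h2

lemma Grs.oks {l : Multiset Y} (h : Grs l) : OKs l := fun y hy => (h y hy).ok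

lemma Gr.leaf {y : Y} (h : Gr y) : y = L ∨ y.p < 1 / 2 := by
  cases h with
  | mk b l h1 _ h3 =>
    by_cases h0 : l = 0
    · subst h0
      cases b
      · exact Or.inl rfl
      · simp at h3
    · exact Or.inr (nd_p_lt (Grs.oks h1) h0)

/-- branches without a centre -/
def Lev1 (y : Y) : Prop :=
  y = L ∨ (∃ a, 1 ≤ a ∧ y = St a) ∨ ∃ A : Multiset ℕ, A ≠ 0 ∧ (∀ a ∈ A, 1 ≤ a) ∧ y = Mid A

/-- children of a centre -/
def Cen (l : Multiset Y) : Prop := Grs l ∧ (∃ y ∈ l, y.b = false) ∧ ∃ y ∈ l, y.p < 1 / 2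

def Typ (y : Y) : Prop := y = P2 ∨ (∃ a, 2 ≤ a ∧ y = Aa a) ∨ ∃ b, 1 ≤ b ∧ y = Hb b
def IsB (y : Y) : Prop := ∃ N, 11 ≤ N ∧ y = BB N
def IsM (y : Y) : Prop := ∃ m, y = nd false m ∧ (∀ z ∈ m, (∃ a, 1 ≤ a ∧ z = St a) ∨ IsB z) ∧
  (∃ z ∈ m, IsB z) ∧ 2 ≤ m.card
def IsM2 (y : Y) : Prop :=
  ∃ K : Multiset ℕ, (∀ N ∈ K, 11 ≤ N) ∧ 4 ≤ K.card ∧ y = nd false (K.map BB)

lemma Lev1.ok {y : Y} (h : Lev1 y) : OK y := by
  rcases h with rfl | ⟨a, -, rfl⟩ | ⟨A, -, -, rfl⟩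
  exacts [ok_L, ok_St a, ok_Mid A]

lemma IsB.p_le {y : Y} (h : IsB y) : y.p ≤ 7 / 117 := by
  obtain ⟨N, h1, rfl⟩ := h
  have : (11 : ℚ) ≤ N := by exact_mod_cast h1
  rw [BB_p, superp, div_le_div_iff₀ (by positivity) (by norm_num)]; linarith

lemma IsM.oks {m : Multiset Y} (h : ∀ z ∈ m, (∃ a, 1 ≤ a ∧ z = St a) ∨ IsB z) :
    OKs m ∧ ∀ z ∈ m, z.b = true := by
  refine ⟨fun z hz => ?_, fun z hz => ?_⟩ <;> rcases h z hz with ⟨a, -, rfl⟩ | ⟨N, -, rfl⟩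
  exacts [ok_St a, ok_BB N, rfl, rfl]

lemma IsM.p_le {y : Y} (h : IsM y) : y.p ≤ 1 / 3 := by
  obtain ⟨m, rfl, h1, -, h2⟩ := h
  exact nd_p_le (IsM.oks h1).1 h2

/-! ### paths -/

def plug : List (Bool × Multiset Y) → Y → Y
  | [], y => y
  | f :: P, y => nd f.1 (plug P y ::ₘ f.2)

def Path (P : List (Bool × Multiset Y)) : Prop :=
  (∀ f ∈ P, OKs f.2 ∧ (f.1 = false → ∀ z ∈ f.2, z.b = true)) ∧
    List.IsChain (fun f g : Bool × Multiset Y => f.1 = true ∨ g.1 = true) P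

lemma path_nil : Path [] := ⟨by simp, List.IsChain.nil⟩

lemma path_one {m : Multiset Y} (h : OKs m) (h' : ∀ z ∈ m, z.b = true) : Path [(false, m)] :=
  ⟨by simpa using ⟨h, h'⟩, List.IsChain.singleton _⟩

lemma plug_app (P Q : List (Bool × Multiset Y)) (y : Y) : plug (P ++ Q) y = plug P (plug Q y) := by
  induction P with
  | nil => rfl
  | cons f P ih => simp [plug, ih]

lemma Path.tail {f : Bool × Multiset Y} {P : List (Bool × Multiset Y)} (h : Path (f :: P)) :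
    Path P := ⟨fun g hg => h.1 g (List.mem_cons_of_mem _ hg), h.2.tail⟩

lemma Path.plug_b {f : Bool × Multiset Y} {P : List (Bool × Multiset Y)} (h : Path (f :: P))
    (hf : f.1 = false) (l : Multiset Y) : (plug P (nd true l)).b = true := by
  cases P with
  | nil => rfl
  | cons g P =>
    have := (List.isChain_cons_cons.1 h.2).1
    simpa [hf, plug] using this

lemma Path.ok {P : List (Bool × Multiset Y)} (h : Path P) {l : Multiset Y} (hl : OKs l) :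
    OK (plug P (nd true l)) := by
  induction P with
  | nil => exact ok_true hl
  | cons f P ih =>
    have h1 := h.1 f (List.mem_cons_self ..)
    refine OK.mk _ _ (oks_cons.2 ⟨ih h.tail, h1.1⟩) fun k y hy => ?_
    rcases mem_cons.1 hy with rfl | hy
    · exact h.plug_b k l
    · exact h1.2 k y hy

lemma Path.rev {P : List (Bool × Multiset Y)} (h : Path P) : Path P.reverse :=
  ⟨fun f hf => h.1 f (List.mem_reverse.1 hf),
    List.isChain_reverse.2 (h.2.imp fun _ _ k => k.symm)⟩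

lemma Path.app1 {P : List (Bool × Multiset Y)} (h : Path P) {l : Multiset Y} (hl : OKs l) :
    Path (P ++ [(true, l)]) := by
  refine ⟨fun f hf => ?_, ?_⟩
  · rcases List.mem_append.1 hf with hf | hf
    · exact h.1 f hf
    · rw [List.mem_singleton.1 hf]; exact ⟨hl, by simp⟩
  · exact h.2.append (List.IsChain.singleton _) (by simp)

lemma Path.app2 {P : List (Bool × Multiset Y)} (h : Path P) {l m : Multiset Y} (hl : OKs l)
    (hm : OKs m) (hm' : ∀ z ∈ m, z.b = true) : Path (P ++ [(true, l), (false, m)]) := by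
  refine ⟨fun f hf => ?_, ?_⟩
  · rcases List.mem_append.1 hf with hf | hf
    · exact h.1 f hf
    · simp only [List.mem_cons, List.not_mem_nil, or_false] at hf
      rcases hf with rfl | rfl
      · exact ⟨hl, by simp⟩
      · exact ⟨hm, fun _ => hm'⟩
  · exact h.2.append (by simp) (by simp)

/-! ### deals -/

def Rt (t0 : ℚ) (y y' : Y) (f : ℚ) : Prop :=
  ∀ t, 0 ≤ t → t ≤ t0 → f * (y.Z * (1 + t * y.p)) ≤ y'.Z * (1 + t * y'.p)

def Deal0 (t0 : ℚ) (y : Y) (ds dc : ℤ) (f : ℚ) : Prop :=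
  ∃ y', OK y' ∧ (y'.s : ℤ) = y.s + ds ∧ (y'.c : ℤ) ≤ y.c + dc ∧ Rt t0 y y' f

def Deal (y : Y) (ds dc : ℤ) (f : ℚ) : Prop :=
  ∃ y', OK y' ∧ (y.b = true → y'.b = true) ∧ (y'.s : ℤ) = y.s + ds ∧ (y'.c : ℤ) ≤ y.c + dc ∧
    Rt (1 / 2) y y' f

def Imp (t0 : ℚ) (y : Y) : Prop :=
  ∃ y', OK y' ∧ y'.s = y.s ∧ y'.c ≤ y.c ∧
    ∀ t, 0 ≤ t → t ≤ t0 → y.Z * (1 + t * y.p) < y'.Z * (1 + t * y'.p)

/-- the branch contains a reservoir -/
def Res (y : Y) : Prop :=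
  Deal y 2 1 (15567 / 10000) ∧ Deal y (-3) (-1) (57 / 100) ∧ Deal y 1 1 (1379 / 1000) ∧
    Deal y (-1) 0 (8867 / 10000)

lemma Deal.zero {y : Y} {ds dc : ℤ} {f : ℚ} (h : Deal y ds dc f) : Deal0 (1 / 2) y ds dc f := by
  obtain ⟨y', h1, -, h2, h3, h4⟩ := h
  exact ⟨y', h1, h2, h3, h4⟩

/-- a ratio valid for small `t` is valid in a context of large weight `W` -/
lemma Rt.ctx {t0 f W : ℚ} {y y' : Y} (h : Rt t0 y y' f) (hW : 0 < W) (h1 : 1 ≤ t0 * W) :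
    f * (y.Z * (W + y.p)) ≤ y'.Z * (W + y'.p) := by
  have := mul_le_mul_of_nonneg_left (h (1 / W) (by positivity)
    (by rw [div_le_iff₀ hW]; exact h1)) hW.le
  have e1 : W * (f * (y.Z * (1 + 1 / W * y.p))) = f * (y.Z * (W + y.p)) := by field_simp
  have e2 : W * (y'.Z * (1 + 1 / W * y'.p)) = y'.Z * (W + y'.p) := by field_simp
  rwa [e1, e2] at this

lemma Rt.nd {f : ℚ} {y y' : Y} (h : Rt (1 / 2) y y' f) (hy : OK y) (hy' : OK y') {l : Multiset Y}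
    (hl : OKs l) (b b' : Bool) (t0 : ℚ) : Rt t0 (nd b (y ::ₘ l)) (nd b' (y' ::ₘ l)) f := by
  intro t ht _
  have h1 := hl.msg_nonneg
  have h2 := hl.prd_pos
  have h3 : (0 : ℚ) ≤ l.card := by positivity
  have := h.ctx (W := l.card + 2 + msg l + t) (by linarith) (by linarith)
  rw [nd_Zp (oks_cons.2 ⟨hy, hl⟩), nd_Zp (oks_cons.2 ⟨hy', hl⟩), ← mul_div_assoc]
  simp only [prd_cons, msg_cons, card_cons]
  push_cast
  apply div_le_div_of_nonneg_right _ (by positivity)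
  nlinarith [mul_le_mul_of_nonneg_left this h2.le]

lemma Deal0.nd {y : Y} {ds dc : ℤ} {f : ℚ} (h : Deal0 (1 / 2) y ds dc f) (hy : OK y)
    {l : Multiset Y} (hl : OKs l) : Deal (nd true (y ::ₘ l)) ds dc f := by
  obtain ⟨y', h1, h2, h3, h4⟩ := h
  exact ⟨_, ok_true (oks_cons.2 ⟨h1, hl⟩), fun _ => rfl, by simp; omega, by simp; omega,
    h4.nd hy h1 hl _ _ _⟩

lemma Deal.nd {y : Y} {ds dc : ℤ} {f : ℚ} (h : Deal y ds dc f) (hy : OK y) {l : Multiset Y}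
    (hl : OKs l) {b : Bool} (hb : b = false → y.b = true ∧ ∀ z ∈ l, z.b = true) :
    Deal (nd b (y ::ₘ l)) ds dc f := by
  obtain ⟨y', h1, h0, h2, h3, h4⟩ := h
  refine ⟨Q2.nd b (y' ::ₘ l), OK.mk _ _ (oks_cons.2 ⟨h1, hl⟩) fun k z hz => ?_, fun k => k,
    by simp; omega, by simp; omega, h4.nd hy h1 hl _ _ _⟩
  rcases mem_cons.1 hz with rfl | hz
  · exact h0 (hb k).1
  · exact (hb k).2 z hz

lemma Deal.plug {P : List (Bool × Multiset Y)} (hP : Path P) {l : Multiset Y} (hl : OKs l)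
    {ds dc : ℤ} {f : ℚ} (h : Deal (Q2.nd true l) ds dc f) :
    Deal (plug P (Q2.nd true l)) ds dc f := by
  induction P with
  | nil => exact h
  | cons g P ih =>
    have h1 := hP.1 g (List.mem_cons_self ..)
    exact (ih hP.tail).nd (hP.tail.ok hl) h1.1 fun k => ⟨hP.plug_b k l, h1.2 k⟩

lemma Res.nd {y : Y} (h : Res y) (hy : OK y) {l : Multiset Y} (hl : OKs l) {b : Bool}
    (hb : b = false → y.b = true ∧ ∀ z ∈ l, z.b = true) : Res (nd b (y ::ₘ l)) :=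
  ⟨h.1.nd hy hl hb, h.2.1.nd hy hl hb, h.2.2.1.nd hy hl hb, h.2.2.2.nd hy hl hb⟩

lemma Rt.root {t0 f : ℚ} {y y' : Y} (h : Rt t0 y y' f) {l : Multiset Y} (hl : OKs l)
    (h1 : 1 ≤ t0 * (l.card + 1 + msg l)) : f * rt (y ::ₘ l) ≤ rt (y' ::ₘ l) := by
  have h0 := hl.msg_nonneg
  have h2 := hl.prd_pos
  have := h.ctx (W := l.card + 1 + msg l) (by positivity) h1
  rw [rt_cons, rt_cons, ← mul_div_assoc]
  apply div_le_div_of_nonneg_right _ (by positivity)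
  nlinarith [mul_le_mul_of_nonneg_left this h2.le]

lemma rt_pos {l : Multiset Y} (h : OKs l) (h0 : l ≠ 0) : 0 < rt l := by
  have h1 := h.msg_nonneg
  have h2 := h.prd_pos
  have h3 := card_ge_one h0
  unfold rt; positivity

lemma two_deals {y1 y2 : Y} {l : Multiset Y} (h : Ext true (y1 ::ₘ y2 ::ₘ l)) {t0 f f' : ℚ}
    {ds dc ds' dc' : ℤ} (h1 : Deal0 (1 / 2) y1 ds dc f) (h2 : Deal0 t0 y2 ds' dc' f')
    (ht0 : 0 ≤ t0) (ht : 1 ≤ t0 * (l.card + 2 + msg l)) (hs : ds + ds' = 0) (hc : dc + dc' ≤ 0)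
    (hf : 0 ≤ f') (hff : 1 < f * f') : False := by
  obtain ⟨z1, a1, a2, a3, a4⟩ := h1
  obtain ⟨z2, b1, b2, b3, b4⟩ := h2
  have ok := h.oks
  simp only [oks_cons] at ok
  have k0 := ok.2.2.msg_nonneg
  have k1 : (0 : ℚ) ≤ l.card := by positivity
  have e1 := a4.root (l := y2 ::ₘ l) (oks_cons.2 ok.2) (by
    have := ok.2.1.p_pos
    simp only [card_cons, msg_cons]; push_cast; linarith)
  have e2 := b4.root (l := z1 ::ₘ l) (oks_cons.2 ⟨a1, ok.2.2⟩) (by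
    have := a1.p_pos
    simp only [card_cons, msg_cons]; push_cast; nlinarith)
  rw [cons_swap] at e2
  have e3 := h.le (l' := z2 ::ₘ z1 ::ₘ l) (by simp [a1, b1, ok.2.2]) cons_ne_zero
    (by simp; omega) (by simp; omega)
  have e4 := rt_pos h.oks cons_ne_zero
  nlinarith [mul_le_mul_of_nonneg_left e1 hf]

lemma one_imp {y : Y} {l : Multiset Y} (h : Ext true (y ::ₘ l)) {t0 : ℚ}
    (ht : 1 ≤ t0 * (l.card + 1 + msg l)) (h1 : Imp t0 y) : False := by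
  obtain ⟨z, a1, a2, a3, a4⟩ := h1
  have ok := oks_cons.1 h.oks
  have h0 := ok.2.msg_nonneg
  have h2 := ok.2.prd_pos
  have e3 := h.le (l' := z ::ₘ l) (by simp [a1, ok.2]) cons_ne_zero (by simp; omega)
    (by simp; omega)
  have hW : (0 : ℚ) < l.card + 1 + msg l := by positivity
  have := a4 (1 / (l.card + 1 + msg l)) (by positivity) (by rw [div_le_iff₀ hW]; exact ht)
  rw [rt_cons' _ ok.2, rt_cons' _ ok.2] at e3
  exact absurd e3 (not_le.2 (mul_lt_mul_of_pos_left this (by positivity)))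

/-! ### kits -/

def Kit (l : Multiset Y) (ds dc : ℤ) (f τ ε : ℚ) : Prop :=
  ∃ l', OKs l' ∧ l' ≠ 0 ∧ (size l' : ℤ) = size l + ds ∧ (cost l' : ℤ) ≤ cost l + dc ∧
    (l'.card : ℚ) = l.card - τ ∧ ∀ t, 0 ≤ t → t ≤ 3 / 2 →
      f * (prd l * (l.card + msg l + t - ε)) ≤ prd l' * (l'.card + msg l' + t)

/-- replacing the items `u` by the items `u'` -/
lemma kit_of {u u' m : Multiset Y} {ds dc : ℤ} {f τ ε : ℚ} (hu : OKs u) (hu' : OKs u') (hm : OKs m)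
    (h0 : u' + m ≠ 0) (hs : (size u' : ℤ) = size u + ds) (hc : (cost u' : ℤ) ≤ cost u + dc)
    (hcard : (u'.card : ℚ) = u.card - τ) (hf0 : 0 ≤ f) (hf : f * prd u ≤ prd u')
    (he : u.card + msg u - ε ≤ u'.card + msg u') : Kit (u + m) ds dc f τ ε := by
  refine ⟨u' + m, oks_add.2 ⟨hu', hm⟩, h0, by simp; omega, by simp; omega,
    by simp only [card_add]; push_cast; linarith, fun t ht _ => ?_⟩
  simp only [prd_add, msg_add, card_add]
  push_cast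
  have a1 := hu.prd_pos
  have a2 := hm.prd_pos
  have a3 := hu'.msg_nonneg
  have a4 := hm.msg_nonneg
  have a5 : (0 : ℚ) ≤ u'.card + m.card + (msg u' + msg m) + t := by positivity
  calc _ = f * prd u * prd m * (u.card + m.card + (msg u + msg m) + t - ε) := by ring
    _ ≤ f * prd u * prd m * (u'.card + m.card + (msg u' + msg m) + t) := by
      apply mul_le_mul_of_nonneg_left _ (by positivity); linarith
    _ ≤ _ := by gcongr

lemma kit_deal {y : Y} {m : Multiset Y} {ds dc : ℤ} {f : ℚ} (hm : OKs m) (h0 : m ≠ 0)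
    (h : Deal0 (1 / 2) y ds dc f) : Kit (y ::ₘ m) ds dc f 0 0 := by
  obtain ⟨z, a1, a2, a3, a4⟩ := h
  refine ⟨z ::ₘ m, oks_cons.2 ⟨a1, hm⟩, cons_ne_zero, by simp; omega, by simp; omega, by simp,
    fun t ht _ => ?_⟩
  have h1 := hm.msg_nonneg
  have h2 := hm.prd_pos
  have h3 := card_ge_one h0
  have := a4.ctx (W := m.card + 1 + msg m + t) (by linarith) (by linarith)
  simp only [prd_cons, msg_cons, card_cons]
  push_cast
  nlinarith [mul_le_mul_of_nonneg_left this h2.le]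

/-! ### extremal pairs of centres -/

def dg (l : Multiset Y) : ℚ := l.card + 1
def wt (l : Multiset Y) : ℚ := l.card + 1 + msg l
def Gv (X Y β γ e : ℚ) : ℚ := X * Y + β * X + γ * Y + e

def Cx (β γ e δ : ℚ) : Prop :=
  (β = 0 ∧ γ = 0 ∧ e = 1 ∧ δ = 0) ∨ (δ = 1 ∧ 0 ≤ β ∧ β ≤ 1 / 2 ∧ 0 ≤ γ ∧ γ ≤ 1 / 2 ∧ 0 ≤ e ∧
    2 * e ≤ β ∧ 2 * e ≤ γ ∧ e ≤ 2 * β * γ)

lemma Cx.symm {β γ e δ : ℚ} (h : Cx β γ e δ) : Cx γ β e δ := by
  rcases h with ⟨a, b, c, d⟩ | ⟨a, b, c, d, e, f, g, h, i⟩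
  · exact Or.inl ⟨b, a, c, d⟩
  · exact Or.inr ⟨a, d, e, b, c, f, h, g, by linarith⟩

/-- value (up to a constant factor) of the tree with `l1`, `l2` hung on the two centres -/
def Vv (β γ e : ℚ) (l1 l2 : Multiset Y) : ℚ :=
  prd l1 * prd l2 * Gv (wt l1) (wt l2) β γ e / (dg l1 * dg l2)

lemma Vv_symm (β γ e : ℚ) (l1 l2 : Multiset Y) : Vv γ β e l2 l1 = Vv β γ e l1 l2 := by
  simp only [Vv, Gv]; ring

/-- lower bound for the value after one centre is deleted and `l` is hung on the other one -/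
def Rv (β e δ : ℚ) (l : Multiset Y) : ℚ :=
  prd l * (l.card + msg l + δ * (1 + β - e)) / (l.card + δ)

structure PE (D : ℤ → ℤ → ℚ → Prop) (l1 l2 : Multiset Y) (β γ e δ : ℚ) : Prop where
  ok1 : OKs l1
  ok2 : OKs l2
  ne1 : l1 ≠ 0
  ne2 : l2 ≠ 0
  cx : Cx β γ e δ
  d0 : D 0 0 1
  two : ∀ ds dc f, D ds dc f → ∀ l1' l2', OKs l1' → OKs l2' →
    (size l1' + size l2' : ℤ) + ds = size l1 + size l2 →
    (cost l1' + cost l2' : ℤ) + dc ≤ cost l1 + cost l2 → f * Vv β γ e l1' l2' ≤ Vv β γ e l1 l2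
  rm1 : ∀ ds dc f, D ds dc f → ∀ l', OKs l' → l' ≠ 0 →
    (size l' : ℤ) + ds = size l1 + size l2 + 1 → (cost l' : ℤ) + dc ≤ cost l1 + cost l2 + 1 →
    f * Rv β e δ l' ≤ Vv β γ e l1 l2
  rm2 : ∀ ds dc f, D ds dc f → ∀ l', OKs l' → l' ≠ 0 →
    (size l' : ℤ) + ds = size l1 + size l2 + 1 → (cost l' : ℤ) + dc ≤ cost l1 + cost l2 + 1 →
    f * Rv γ e δ l' ≤ Vv β γ e l1 l2
  loc1 : ∃ U, U.p < 1 / 2 ∧ Ext true (U ::ₘ l1) ∧
    ∀ ds dc f, Deal (nd true l2) ds dc f → Deal U ds dc f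
  loc2 : ∃ U, U.p < 1 / 2 ∧ Ext true (U ::ₘ l2) ∧
    ∀ ds dc f, Deal (nd true l1) ds dc f → Deal U ds dc f

lemma PE.symm {D : ℤ → ℤ → ℚ → Prop} {l1 l2 : Multiset Y} {β γ e δ : ℚ}
    (h : PE D l1 l2 β γ e δ) : PE D l2 l1 γ β e δ where
  ok1 := h.ok2
  ok2 := h.ok1
  ne1 := h.ne2
  ne2 := h.ne1
  cx := h.cx.symm
  d0 := h.d0
  two := fun ds dc f k l1' l2' a b c d => by
    rw [Vv_symm β γ e l2' l1', Vv_symm β γ e l1 l2]
    exact h.two ds dc f k l2' l1' b a (by omega) (by omega)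
  rm1 := fun ds dc f k l' a b c d => by
    rw [Vv_symm]; exact h.rm2 ds dc f k l' a b (by omega) (by omega)
  rm2 := fun ds dc f k l' a b c d => by
    rw [Vv_symm]; exact h.rm1 ds dc f k l' a b (by omega) (by omega)
  loc1 := h.loc2
  loc2 := h.loc1

/-- plain comparison with other contents of the two centres -/
lemma PE.le {D : ℤ → ℤ → ℚ → Prop} {l1 l2 : Multiset Y} {β γ e δ : ℚ} (h : PE D l1 l2 β γ e δ)
    {l1' l2' : Multiset Y} (h1 : OKs l1') (h2 : OKs l2')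
    (hs : size l1' + size l2' = size l1 + size l2) (hc : cost l1' + cost l2' ≤ cost l1 + cost l2) :
    Vv β γ e l1' l2' ≤ Vv β γ e l1 l2 := by
  simpa using h.two 0 0 1 h.d0 l1' l2' h1 h2 (by omega) (by omega)

/-- deals offered by the path itself -/
def DP (P : List (Bool × Multiset Y)) (ds dc : ℤ) (f : ℚ) : Prop :=
  (ds = 0 ∧ dc = 0 ∧ f = 1) ∨ (0 ≤ f ∧ ∃ m, P = [(false, m)] ∧ ∃ y ∈ m, Deal y ds dc f)

def FP (f τ ε X Y d1 d2 β γ e : ℚ) : ℚ :=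
  f * ((3 + γ) * (X + Y - 1 - ε) + 3 * β + e) * d1 * d2 - Gv X Y β γ e * 2 * (d1 + d2 - 1 - τ)

def FR (f τ ε X Y d1 d2 β γ e δ : ℚ) : ℚ :=
  f * (X + Y - 2 - ε + δ * (1 + β - e)) * d1 * d2 - Gv X Y β γ e * (d1 + d2 - 2 - τ + δ)

/-- turning one of the centres into a pendant 2-path does not improve -/
def NoP (f τ ε X Y d1 d2 β γ e : ℚ) : Prop :=
  FP f τ ε X Y d1 d2 β γ e ≤ 0 ∧ FP f τ ε Y X d2 d1 γ β e ≤ 0

/-- deleting one of the centres does not improve -/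
def NoR (f τ ε X Y d1 d2 β γ e δ : ℚ) : Prop :=
  FR f τ ε X Y d1 d2 β γ e δ ≤ 0 ∧ FR f τ ε Y X d2 d1 γ β e δ ≤ 0

/-- the bounds given by the sorting lemma, `U` being the upper centre -/
def SB (w XU XV dU dV gU gV : ℚ) : Prop :=
  dU ≤ dV + 1 ∧ XU + max 0 (gU - gV) ≤ (w + 1 / 4 * max 0 (max 0 (gV - gU) - (w - 1))) * dU ∧
    XV ≤ w * dV ∧ XV + max 0 (gV - gU) ≤ w * dV + max 0 (max 0 (gV - gU) - (w - 1))

/-! ### balanced multisets -/

def balK (r t : ℕ) : Multiset ℕ := replicate (r - t % r) (t / r) + replicate (t % r) (t / r + 1)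

lemma balK_prod (f : ℕ → ℚ) (r t : ℕ) : ((balK r t).map f).prod = balP f r t := by
  simp [balK, balP]

lemma balK_sum' (f : ℕ → ℚ) (r t : ℕ) : ((balK r t).map f).sum = balS f r t := by
  simp [balK, balS]

lemma balK_card {r t : ℕ} (h : r = 0 → t = 0) : (balK r t).card = r := by
  rcases Nat.eq_zero_or_pos r with rfl | hr
  · simp [balK, h rfl]
  · have := Nat.mod_lt t hr
    simp [balK]; omega

lemma balK_sum {r t : ℕ} (h : r = 0 → t = 0) : (balK r t).sum = t := by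
  rcases Nat.eq_zero_or_pos r with rfl | hr
  · simp [balK, h rfl]
  · have h1 := Nat.mod_lt t hr
    have h2 := Nat.div_add_mod t r
    simp only [balK, sum_add, sum_replicate, smul_eq_mul]
    generalize t % r = u at *
    generalize t / r = q at *
    obtain ⟨v, rfl⟩ : ∃ v, r = u + v := ⟨r - u, by omega⟩
    rw [Nat.add_sub_cancel_left, ← h2]; ring

lemma eq_balK {K : Multiset ℕ} (h : ∀ a ∈ K, ∀ b ∈ K, a ≤ b + 1) : K = balK K.card K.sum := by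
  by_cases h0 : K = 0
  · simp [h0, balK]
  obtain ⟨a, ha, hmin⟩ := exists_min_image id h0
  simp only [id] at hmin
  have e : K = replicate (K.count a) a + replicate (K.count (a + 1)) (a + 1) := by
    ext z
    rw [count_add, count_replicate, count_replicate]
    by_cases k1 : a = z
    · subst k1; simp
    · by_cases k2 : a + 1 = z
      · subst k2; simp
      · rw [if_neg k1, if_neg k2, count_eq_zero]
        intro hz
        have := hmin z hz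
        have := h z hz a ha
        omega
  have hx : 0 < K.count a := count_pos.2 ha
  generalize K.count a = x at e hx
  generalize K.count (a + 1) = y at e
  have e1 : K.card = x + y := by rw [e]; simp
  have e2 : K.sum = y + (x + y) * a := by rw [e]; simp; ring
  have e3 : K.sum % K.card = y := by
    rw [e1, e2, Nat.add_mul_mod_self_left, Nat.mod_eq_of_lt (by omega)]
  have e4 : K.sum / K.card = a := by
    rw [e1, e2, Nat.add_mul_div_left _ _ (by omega), Nat.div_eq_of_lt (by omega), zero_add]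
  rw [balK, e3, e4, e1, Nat.add_sub_cancel]; exact e

lemma prd_map (f : ℕ → Y) (K : Multiset ℕ) : prd (K.map f) = (K.map fun a => (f a).Z).prod := by
  simp [prd]
lemma msg_map (f : ℕ → Y) (K : Multiset ℕ) : msg (K.map f) = (K.map fun a => (f a).p).sum := by
  simp [msg]

end Pool.Agent.Lib.MP_70d11c_co.Q2
end

-- part Pool.Agent.Lib.MP_70d11c_co.Q2.Stm
section

/-!
Statements of the parts of the proof.
-/

namespace Pool.Agent.Lib.MP_70d11c_co.Q2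

open Multiset

lemma SB.mono {w w' XU XV dU dV gU gV : ℚ} (h : SB w XU XV dU dV gU gV) (hw : w ≤ w')
    (hU : 0 ≤ dU) (hV : 1 ≤ dV) : SB w' XU XV dU dV gU gV := by
  obtain ⟨h1, h2, h3, h4⟩ := h
  unfold SB
  generalize max 0 (gV - gU) = g at *
  have k1 : max 0 (g - (w - 1)) ≤ max 0 (g - (w' - 1)) + (w' - w) :=
    max_le (by have := le_max_left 0 (g - (w' - 1)); linarith)
      (by have := le_max_right 0 (g - (w' - 1)); linarith)
  refine ⟨h1, h2.trans (mul_le_mul_of_nonneg_right (by linarith) hU), by nlinarith, by nlinarith⟩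

/-- greedy labellings -/
structure TreeS : Prop where
  ext_gr : ∀ b l, Ext b l → ∃ l', Red b l true l' ∧ Grs l'
  ext_gr1 : ∀ U l, Ext true (U ::ₘ l) → ∃ U', Gr U' ∧ Red true (U ::ₘ l) true (U' ::ₘ l)
  cls_true : ∀ y, Gr y → y.b = true → (∃ a, 1 ≤ a ∧ y = St a) ∨ ∃ l, y = nd true l ∧ Cen l
  cls : ∀ y, Gr y → Lev1 y ∨ (∃ l, y = nd true l ∧ Cen l) ∨
    ∃ l m, y = nd false (nd true l ::ₘ m) ∧ Cen l ∧ Grs m ∧ ∀ z ∈ m, z.b = true
  deep : ∀ y, Gr y → Lev1 y ∨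
    ∃ P l, Path P ∧ y = plug P (nd true l) ∧ Cen l ∧ ∀ z ∈ l, Lev1 z

/-- pairs of centres -/
structure CtxS : Prop where
  reroot : ∀ P l1 l2, Path P → OKs l2 → Ext true (plug P (nd true l2) ::ₘ l1) →
    Red true (plug P (nd true l2) ::ₘ l1) true (plug P.reverse (nd true l1) ::ₘ l2)
  pe : ∀ P l1 l2, Path P → OKs l2 → l1 ≠ 0 → l2 ≠ 0 → Ext true (plug P (nd true l2) ::ₘ l1) →
    ∃ β γ e δ, PE (DP P) l1 l2 β γ e δ ∧
      ∀ m, P = [(false, m)] → δ = 1 ∧ β = γ ∧ γ = 1 / (m.card + 2 + msg m)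
  noP : ∀ {D l1 l2 β γ e δ f τ ε}, PE D l1 l2 β γ e δ → Kit (l1 + l2) (-1) 0 f τ ε →
    NoP f τ ε (wt l1) (wt l2) (dg l1) (dg l2) β γ e
  noR : ∀ {D l1 l2 β γ e δ f τ ε}, PE D l1 l2 β γ e δ → Kit (l1 + l2) 1 1 f τ ε →
    NoR f τ ε (wt l1) (wt l2) (dg l1) (dg l2) β γ e δ
  noPx : ∀ {D l1 l2 β γ e δ f}, PE D l1 l2 β γ e δ → D (-1) 0 f →
    NoP f 0 0 (wt l1) (wt l2) (dg l1) (dg l2) β γ e
  noRx : ∀ {D l1 l2 β γ e δ f}, PE D l1 l2 β γ e δ → D 1 1 f →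
    NoR f 0 0 (wt l1) (wt l2) (dg l1) (dg l2) β γ e δ

/-- the sorting lemma and its first consequences -/
structure SrtS : Prop where
  slem : ∀ {D l1 l2 β γ e δ}, PE D l1 l2 β γ e δ →
    (∀ y ∈ l1, SB (1 + y.p) (wt l1) (wt l2) (dg l1) (dg l2) γ β) ∨
    (∀ y ∈ l2, SB (1 + y.p) (wt l2) (wt l1) (dg l2) (dg l1) β γ)
  lemM : ∀ {D l1 l2 β γ e δ}, PE D l1 l2 β γ e δ → (∃ y ∈ l1, y.p < 1 / 2) →
    (∃ y ∈ l2, y.p < 1 / 2) → L ∉ l1 + l2
  swap : ∀ {D l1 l2 β γ e δ}, PE D l1 l2 β γ e δ → Hb 2 ∈ l1 → P2 ∈ l2 →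
    wt l2 ≤ wt l1 + 2 / 33 + max 0 (γ - β)

/-- local moves -/
structure LocS : Prop where
  res : ∀ N, 11 ≤ N → Res (BB N)
  dA : ∀ a, 2 ≤ a → Deal0 (1 / 2) (Aa a) (-1) 0 (17 / 18)
  dPA : Deal0 (1 / 2) P2 1 0 (7 / 6)
  dPH : Deal0 (1 / 2) P2 3 1 (25 / 14)
  dH3 : ∀ b, 3 ≤ b → Deal0 (1 / 2) (Hb b) (-2) (-1) (88 / 135)
  dH6 : ∀ b, 6 ≤ b → Deal0 (1 / 2) (Hb b) (-2) (-1) (161 / 243)
  dH2 : Deal0 (3 / 14) (Hb 2) 2 1 (1511 / 1000)
  e1 : ∀ a, 2 ≤ a → Imp 1 (St a)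
  split : ∀ y b l, Ext true (y ::ₘ Hb b ::ₘ l) → 2 ≤ b → y.p < 1 / 2 →
    Deal0 (1 / 2) y (-1) 0 (17 / 18) → False
  ea : ∀ U j, Ext true (U ::ₘ Hb 1 ::ₘ replicate j P2) → j ≤ 2
  eb : ∀ U j m, Ext true (U ::ₘ (replicate j P2 + replicate m (Hb 2))) → 1 ≤ m → m ≤ 2 → j ≤ 3
  balA : ∀ a c l, Ext true (Aa a ::ₘ Aa c ::ₘ l) → a ≤ c + 1
  balH : ∀ a c l, Ext true (Hb a ::ₘ Hb c ::ₘ l) → l ≠ 0 → a ≤ c + 1
  balB : ∀ a c l, Ext true (BB a ::ₘ BB c ::ₘ l) → l ≠ 0 → a ≤ c + 1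
  balM : ∀ a c m, OKs m → (∀ z ∈ m, z.b = true) → c + 2 ≤ a →
    Imp 1 (nd false (BB a ::ₘ BB c ::ₘ m))

/-- middle vertices with several stars -/
structure XsS : Prop where
  xsame : ∀ A y l, Ext true (Mid A ::ₘ y ::ₘ l) → y.p < 1 / 2 → 2 ≤ A.card → (∀ a ∈ A, 1 ≤ a) →
    (∃ a ∈ A, 2 ≤ a) → False
  spider : ∀ A n, Ext true (Mid A ::ₘ replicate n L) → 2 ≤ A.card → (∀ a ∈ A, 1 ≤ a ∧ a ≤ n) →
    (∃ a ∈ A, 2 ≤ a) → A = {2, 2} ∧ n = 2
  typ : ∀ y U l, Ext true (y ::ₘ U ::ₘ l) → U.p < 1 / 2 → Lev1 y → y = L ∨ Typ y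

/-- the numerical dissolution lemmas -/
structure Inst : Prop where
  D3a : ∀ (l1 l2 : Multiset Y) (β γ e δ : ℚ),
    Cx β γ e δ →
    1 ≤ l1.card →
    l1.card ≤ 10 →
    1 ≤ l2.card →
    3 ≤ l1.card + l2.card →
    0 ≤ msg l1 →
    msg l1 ≤ 3 / 7 * l1.card →
    0 ≤ msg l2 →
    msg l2 ≤ 3 / 7 * l2.card →
    NoP (44 / 49) 1 (122 / 77) (wt l1) (wt l2) (dg l1) (dg l2) β γ e →
    NoR (484 / 343) 1 (134 / 77) (wt l1) (wt l2) (dg l1) (dg l2) β γ e δ → False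
  D3b : ∀ (l1 l2 : Multiset Y) (β γ e δ : ℚ),
    Cx β γ e δ →
    11 ≤ l1.card →
    11 ≤ l2.card →
    0 ≤ msg l1 →
    0 ≤ msg l2 →
    SB (4 / 3) (wt l1) (wt l2) (dg l1) (dg l2) γ β →
    NoP (44 / 49) 1 (122 / 77) (wt l1) (wt l2) (dg l1) (dg l2) β γ e →
    NoR (484 / 343) 1 (134 / 77) (wt l1) (wt l2) (dg l1) (dg l2) β γ e δ → False
  D2a : ∀ (l1 l2 : Multiset Y) (β γ e δ : ℚ),
    Cx β γ e δ →
    2 ≤ l1.card →
    1 ≤ l2.card →
    6 / 7 ≤ msg l1 →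
    msg l1 ≤ 1 / 3 * l1.card + 4 / 21 →
    0 ≤ msg l2 →
    msg l2 ≤ 1 / 3 * l2.card →
    NoP (44 / 49) 1 (122 / 77) (wt l1) (wt l2) (dg l1) (dg l2) β γ e → False
  D2b : ∀ (l1 l2 : Multiset Y) (β γ e δ : ℚ),
    Cx β γ e δ →
    1 ≤ l1.card →
    1 ≤ l2.card →
    3 / 7 ≤ msg l1 →
    msg l1 ≤ 1 / 3 * l1.card + 2 / 21 →
    3 / 7 ≤ msg l2 →
    msg l2 ≤ 1 / 3 * l2.card + 2 / 21 →
    NoP (44 / 49) 1 (122 / 77) (wt l1) (wt l2) (dg l1) (dg l2) β γ e → False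
  D1a : ∀ (l1 l2 : Multiset Y) (β γ e δ : ℚ),
    Cx β γ e δ →
    1 ≤ l1.card →
    1 ≤ l2.card →
    0 ≤ msg l1 →
    msg l1 ≤ 1 / 3 * l1.card + 8 / 231 →
    0 ≤ msg l2 →
    msg l2 ≤ 1 / 3 * l2.card + 2 / 21 →
    SB (14 / 11) (wt l1) (wt l2) (dg l1) (dg l2) γ β →
    NoP (6 / 7) 0 (2 / 21) (wt l1) (wt l2) (dg l1) (dg l2) β γ e → False
  D1b : ∀ (l1 l2 : Multiset Y) (β γ e δ : ℚ),
    Cx β γ e δ →
    1 ≤ l1.card →
    l1.card ≤ 3 →
    1 ≤ l2.card →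
    0 ≤ msg l1 →
    msg l1 ≤ 1 / 3 * l1.card + 2 / 21 →
    0 ≤ msg l2 →
    msg l2 ≤ 1 / 3 * l2.card →
    NoP (6 / 7) 0 (2 / 21) (wt l1) (wt l2) (dg l1) (dg l2) β γ e → False
  D0a3 : ∀ (l1 l2 : Multiset Y) (β γ e δ : ℚ),
    Cx β γ e δ →
    1 ≤ l1.card →
    1 ≤ l2.card →
    0 ≤ msg l1 →
    msg l1 ≤ 1 / 3 * l1.card - 2 / 15 →
    0 ≤ msg l2 →
    msg l2 ≤ 1 / 3 * l2.card - 2 / 33 →
    SB (6 / 5) (wt l1) (wt l2) (dg l1) (dg l2) γ β →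
    NoP (4 / 5) (-2) (-14 / 5) (wt l1) (wt l2) (dg l1) (dg l2) β γ e → False
  D0a4 : ∀ (l1 l2 : Multiset Y) (β γ e δ : ℚ),
    Cx β γ e δ →
    1 ≤ l1.card →
    1 ≤ l2.card →
    0 ≤ msg l1 →
    msg l1 ≤ 1 / 3 * l1.card - 10 / 57 →
    0 ≤ msg l2 →
    msg l2 ≤ 1 / 3 * l2.card - 2 / 33 →
    SB (22 / 19) (wt l1) (wt l2) (dg l1) (dg l2) γ β →
    NoP (15 / 19) (-3) (-238 / 57) (wt l1) (wt l2) (dg l1) (dg l2) β γ e → False
  D0a5 : ∀ (l1 l2 : Multiset Y) (β γ e δ : ℚ),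
    Cx β γ e δ →
    1 ≤ l1.card →
    1 ≤ l2.card →
    0 ≤ msg l1 →
    msg l1 ≤ 1 / 3 * l1.card - 14 / 69 →
    0 ≤ msg l2 →
    msg l2 ≤ 1 / 3 * l2.card - 2 / 33 →
    SB (26 / 23) (wt l1) (wt l2) (dg l1) (dg l2) γ β →
    NoP (18 / 23) (-4) (-382 / 69) (wt l1) (wt l2) (dg l1) (dg l2) β γ e → False
  D0a6 : ∀ (l1 l2 : Multiset Y) (β γ e δ : ℚ),
    Cx β γ e δ →
    1 ≤ l1.card →
    1 ≤ l2.card →
    0 ≤ msg l1 →
    msg l1 ≤ 1 / 3 * l1.card - 2 / 9 →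
    0 ≤ msg l2 →
    msg l2 ≤ 1 / 3 * l2.card - 2 / 33 →
    SB (10 / 9) (wt l1) (wt l2) (dg l1) (dg l2) γ β →
    NoP (7 / 9) (-5) (-62 / 9) (wt l1) (wt l2) (dg l1) (dg l2) β γ e → False
  D0aT : ∀ (l1 l2 : Multiset Y) (β γ e δ : ℚ),
    Cx β γ e δ →
    1 ≤ l1.card →
    1 ≤ l2.card →
    0 ≤ msg l1 →
    msg l1 ≤ 1 / 3 * l1.card - 22 / 93 →
    0 ≤ msg l2 →
    msg l2 ≤ 1 / 3 * l2.card - 2 / 33 →
    SB (34 / 31) (wt l1) (wt l2) (dg l1) (dg l2) γ β →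
    NoP (25 / 31) (-1) (-6 / 5) (wt l1) (wt l2) (dg l1) (dg l2) β γ e → False
  D0b : ∀ (l1 l2 : Multiset Y) (β γ e δ : ℚ),
    Cx β γ e δ →
    1 ≤ l1.card →
    1 ≤ l2.card →
    3 ≤ l1.card + l2.card →
    0 ≤ msg l1 →
    msg l1 ≤ 1 / 3 * l1.card - 2 / 33 →
    0 ≤ msg l2 →
    msg l2 ≤ 1 / 3 * l2.card - 2 / 33 →
    SB (14 / 11) (wt l1) (wt l2) (dg l1) (dg l2) γ β →
    NoP (9 / 11) (-1) (-46 / 33) (wt l1) (wt l2) (dg l1) (dg l2) β γ e →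
    NoP (18225 / 21296) 1 (78 / 55) (wt l1) (wt l2) (dg l1) (dg l2) β γ e → False
  D0c : ∀ (l1 l2 : Multiset Y) (β γ e δ : ℚ),
    Cx β γ e δ →
    1 ≤ l1.card →
    l1.card ≤ 5 →
    1 ≤ l2.card →
    1 / 3 * l1.card - 4 / 33 ≤ msg l1 →
    msg l1 ≤ 3 / 11 * l1.card + 2 / 11 →
    msg l1 ≤ 1 / 3 * l1.card - 2 / 33 →
    0 ≤ msg l2 →
    SB (14 / 11) (wt l1) (wt l2) (dg l1) (dg l2) γ β →
    NoP (9 / 11) (-1) (-46 / 33) (wt l1) (wt l2) (dg l1) (dg l2) β γ e →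
    NoP (513 / 605) 1 (290 / 209) (wt l1) (wt l2) (dg l1) (dg l2) β γ e → False
  D0d1 : ∀ (l1 l2 : Multiset Y) (β γ e δ : ℚ),
    Cx β γ e δ →
    1 ≤ l1.card →
    l1.card ≤ 2 →
    1 ≤ l2.card →
    1 / 3 * l1.card - 2 / 33 ≤ msg l1 →
    msg l1 ≤ 1 / 3 * l1.card - 2 / 33 →
    0 ≤ msg l2 →
    msg l2 ≤ 1 / 3 * l2.card - 2 / 15 →
    SB (14 / 11) (wt l1) (wt l2) (dg l1) (dg l2) γ β →
    NoP (9 / 11) (-1) (-46 / 33) (wt l1) (wt l2) (dg l1) (dg l2) β γ e → False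
  D0dP : ∀ (l1 l2 : Multiset Y) (β γ e δ : ℚ),
    Cx β γ e δ →
    3 ≤ l1.card →
    l1.card ≤ 4 →
    1 ≤ l2.card →
    1 / 3 * l1.card - 2 / 33 ≤ msg l1 →
    msg l1 ≤ 1 / 3 * l1.card - 2 / 33 →
    0 ≤ msg l2 →
    msg l2 ≤ 1 / 3 * l2.card - 2 / 15 →
    SB (14 / 11) (wt l1) (wt l2) (dg l1) (dg l2) γ β →
    wt l2 ≤ 19 / 3 + max 0 (γ - β) →
    NoP (9 / 11) (-1) (-46 / 33) (wt l1) (wt l2) (dg l1) (dg l2) β γ e → False
  D0dM : ∀ (l1 l2 : Multiset Y) (β γ e δ : ℚ),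
    Cx β γ e δ →
    3 ≤ l1.card →
    l1.card ≤ 4 →
    4 ≤ l2.card →
    1 / 3 * l1.card - 2 / 33 ≤ msg l1 →
    msg l1 ≤ 1 / 3 * l1.card - 2 / 33 →
    0 ≤ msg l2 →
    msg l2 ≤ 1 / 5 * l2.card →
    NoP (6198727824 / 7390880651) 3 (12878 / 3135) (wt l1) (wt l2) (dg l1) (dg l2) β γ e →
    NoP (9 / 11) (-1) (-46 / 33) (wt l1) (wt l2) (dg l1) (dg l2) β γ e → False
  A1 : ∀ (l1 l2 : Multiset Y) (β γ e δ : ℚ),
    Cx β γ e δ →
    1 ≤ l1.card →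
    1 ≤ l2.card →
    3 / 7 * l1.card ≤ msg l1 →
    msg l1 ≤ 3 / 7 * l1.card + 2 / 77 →
    3 / 7 * l2.card ≤ msg l2 →
    msg l2 ≤ 3 / 7 * l2.card + 2 / 77 →
    NoP (21 / 22) 0 (2 / 77) (wt l1) (wt l2) (dg l1) (dg l2) β γ e → False
  A2 : ∀ (l1 l2 : Multiset Y) (β γ e δ : ℚ),
    Cx β γ e δ →
    1 ≤ l1.card →
    1 ≤ l2.card →
    3 / 7 * l1.card ≤ msg l1 →
    msg l1 ≤ 1 / 2 * l1.card →
    3 / 7 * l2.card ≤ msg l2 →
    msg l2 ≤ 1 / 2 * l2.card →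
    NoP (21 / 22) 0 (2 / 77) (wt l1) (wt l2) (dg l1) (dg l2) β γ e →
    NoR (3087 / 1936) (-1) (-106 / 77) (wt l1) (wt l2) (dg l1) (dg l2) β γ e δ → False
  Deg2 : ∀ (l1 l2 : Multiset Y) (β γ e δ : ℚ),
    Cx β γ e δ →
    1 ≤ l1.card →
    l1.card ≤ 1 →
    11 ≤ l2.card →
    0 ≤ msg l1 →
    msg l1 ≤ 1 / 2 * l1.card →
    3 / 7 * l2.card ≤ msg l2 →
    msg l2 ≤ 3 / 7 * l2.card →
    NoP (44 / 49) 1 (122 / 77) (wt l1) (wt l2) (dg l1) (dg l2) β γ e →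
    NoR (484 / 343) 1 (134 / 77) (wt l1) (wt l2) (dg l1) (dg l2) β γ e δ → False
  Mid0 : ∀ (l1 l2 : Multiset Y) (β γ e δ : ℚ),
    Cx β γ e δ →
    1 ≤ l1.card →
    11 ≤ l2.card →
    δ = 1 →
    1 / 2 ≤ γ →
    0 ≤ msg l1 →
    msg l1 ≤ 1 / 2 * l1.card →
    3 / 7 * l2.card ≤ msg l2 →
    msg l2 ≤ 3 / 7 * l2.card →
    NoP (44 / 49) 1 (122 / 77) (wt l1) (wt l2) (dg l1) (dg l2) β γ e → False
  Mid1 : ∀ (l1 l2 : Multiset Y) (β γ e δ : ℚ),
    Cx β γ e δ →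
    1 ≤ l1.card →
    1 ≤ l2.card →
    δ = 1 →
    1 / 2 ≤ γ →
    0 ≤ msg l1 →
    msg l1 ≤ 1 / 2 * l1.card →
    0 ≤ msg l2 →
    msg l2 ≤ 1 / 2 * l2.card →
    NoP (8867 / 10000) 0 0 (wt l1) (wt l2) (dg l1) (dg l2) β γ e → False
  M2 : ∀ (l1 l2 : Multiset Y) (β γ e δ : ℚ),
    Cx β γ e δ →
    2 ≤ l1.card →
    2 ≤ l2.card →
    0 ≤ msg l1 →
    0 ≤ msg l2 →
    SB (4 / 3) (wt l1) (wt l2) (dg l1) (dg l2) γ β →
    NoP (8867 / 10000) 0 0 (wt l1) (wt l2) (dg l1) (dg l2) β γ e →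
    NoR (1379 / 1000) 0 0 (wt l1) (wt l2) (dg l1) (dg l2) β γ e δ → False
  B3a : ∀ (l1 l2 : Multiset Y) (β γ e δ : ℚ),
    Cx β γ e δ →
    1 ≤ l1.card →
    11 ≤ l2.card →
    0 ≤ msg l1 →
    msg l1 ≤ 5 / 11 * l1.card →
    3 / 7 * l2.card ≤ msg l2 →
    msg l2 ≤ 3 / 7 * l2.card →
    NoP (21 / 22) 0 (2 / 77) (wt l1) (wt l2) (dg l1) (dg l2) β γ e →
    NoR (3 / 2) 0 (2 / 11) (wt l1) (wt l2) (dg l1) (dg l2) β γ e δ → False
  B3b : ∀ (l1 l2 : Multiset Y) (β γ e δ : ℚ),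
    Cx β γ e δ →
    1 ≤ l1.card →
    11 ≤ l2.card →
    0 ≤ msg l1 →
    msg l1 ≤ 1 / 2 * l1.card →
    3 / 7 * l2.card ≤ msg l2 →
    msg l2 ≤ 3 / 7 * l2.card →
    NoP (44 / 45) 0 (2 / 165) (wt l1) (wt l2) (dg l1) (dg l2) β γ e →
    NoR (484 / 315) 0 (194 / 1155) (wt l1) (wt l2) (dg l1) (dg l2) β γ e δ → False
  D3c : ∀ (l1 l2 : Multiset Y) (β γ e δ : ℚ),
    Cx β γ e δ →
    1 ≤ l1.card →
    11 ≤ l2.card →
    δ = 1 →
    1 / 5 ≤ γ →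
    0 ≤ msg l1 →
    msg l1 ≤ 3 / 7 * l1.card →
    3 / 7 * l2.card ≤ msg l2 →
    msg l2 ≤ 3 / 7 * l2.card →
    NoP (44 / 49) 1 (122 / 77) (wt l1) (wt l2) (dg l1) (dg l2) β γ e → False

def PairAStm : Prop := ∀ D l1 l2 β γ e δ, PE D l1 l2 β γ e δ → (∀ y ∈ l1 + l2, Typ y) →
  (∃ a, 2 ≤ a ∧ Aa a ∈ l1 + l2) → False

def PairHStm : Prop := ∀ D (j1 j2 : ℕ) (K1 K2 : Multiset ℕ) β γ e δ,
  PE D (replicate j1 P2 + K1.map Hb) (replicate j2 P2 + K2.map Hb) β γ e δ →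
  K1 ≠ 0 → K2 ≠ 0 → (∀ b ∈ K1, 1 ≤ b) → (∀ b ∈ K2, 1 ≤ b) →
  (j1 = 0 ∧ 11 ≤ K1.card ∧ ∀ b ∈ K1, b = 1) ∨ (j2 = 0 ∧ 11 ≤ K2.card ∧ ∀ b ∈ K2, b = 1)

def PairStm : Prop := ∀ D l1 l2 β γ e δ, PE D l1 l2 β γ e δ → Cen l1 → Cen l2 →
  (∀ y ∈ l1, Lev1 y) → (∀ y ∈ l2, Lev1 y) →
  (∃ N, 11 ≤ N ∧ l1 = replicate N (Hb 1)) ∨ ∃ N, 11 ≤ N ∧ l2 = replicate N (Hb 1)

def PhAStm : Prop := ∀ N U, 11 ≤ N → Gr U → ¬ Lev1 U → Ext true (U ::ₘ replicate N (Hb 1)) →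
  ∃ y0 l0, Red true (U ::ₘ replicate N (Hb 1)) true (y0 ::ₘ l0) ∧ (IsB y0 ∨ IsM y0) ∧
    (∀ y ∈ l0, Lev1 y ∨ IsB y ∨ IsM y) ∧ ∃ y ∈ l0, y.p < 1 / 2

/-- middle vertices with at least four children, pendant 2-paths or large branches -/
def IsM1 (y : Y) : Prop := ∃ (b : ℕ) (K : Multiset ℕ), (∀ N ∈ K, 11 ≤ N) ∧ K ≠ 0 ∧
  4 ≤ b + K.card ∧ y = nd false (replicate b P2 + K.map BB)

def PhB1Stm : Prop := ∀ y0 l0, Ext true (y0 ::ₘ l0) → (IsB y0 ∨ IsM y0) →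
  (∀ y ∈ l0, Lev1 y ∨ IsB y ∨ IsM y) → (∃ y ∈ l0, y.p < 1 / 2) →
  11 ≤ l0.card ∧ ∀ y ∈ y0 ::ₘ l0, y = Hb 1 ∨ y = Hb 2 ∨ IsB y ∨ IsM1 y

def PhB6Stm : Prop := ∀ y l, Ext true (y ::ₘ l) → 11 ≤ l.card → IsM1 y → IsM2 y

def PhB7Stm : Prop := ∀ y y' l, Ext true (y ::ₘ y' ::ₘ l) → 10 ≤ l.card → IsM2 y → IsM2 y' → False

def PhB9Stm : Prop := ∀ y y' l, Ext true (y ::ₘ y' ::ₘ l) → 10 ≤ l.card →
  (∀ z ∈ l, z.p ≤ 3 / 7) → IsM2 y → IsB y' → False

def PhB2Stm : Prop := ∀ l, Ext true l → 12 ≤ l.card →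
  (∀ y ∈ l, y = Hb 1 ∨ y = Hb 2 ∨ IsB y ∨ IsM1 y) → Good true l

def ClAStm : Prop := ∀ l, Ext true l → (∀ y ∈ l, Lev1 y) → Good true l

def ExtGood : Prop := ∀ b l, Ext b l → Good b l

def MainStm : Prop := ∀ n k : ℕ, 2 ≤ n → (∃ T : SimpleGraph (Fin n), T.IsTree ∧ MatchLe T k) →
  ∃ v, IsGreatest (Cand n k) v ∧
    IsGreatest {x : ℚ | ∃ T : SimpleGraph (Fin n), T.IsTree ∧ MatchLe T k ∧ lapRatio T = x} v

end Pool.Agent.Lib.MP_70d11c_co.Q2
end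

-- part Pool.Agent.Lib.MP_70d11c_co.Q2.PairA
section

/-!
Pairs of centres: paths ending in a large star are impossible, and the reduction to hubs.
-/

namespace Pool.Agent.Lib.MP_70d11c_co.Q2

open Multiset

namespace PairA

lemma Z_step {a : ℕ} (h : 1 ≤ a) : 21 / 22 * pathZ (a + 1) ≤ pathZ a := by
  have h1 : (1 : ℚ) ≤ a := by exact_mod_cast h
  simp only [pathZ]
  push_cast
  rw [← mul_div_assoc, div_le_div_iff₀ (by positivity) (by positivity)]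
  nlinarith

lemma p_step {a : ℕ} (h : 1 ≤ a) : pathp (a + 1) ≤ pathp a + 2 / 77 := by
  have h1 : (1 : ℚ) ≤ a := by exact_mod_cast h
  simp only [pathp]
  push_cast
  rw [div_add_div _ _ (by positivity) (by positivity),
    div_le_div_iff₀ (by positivity) (by positivity)]
  nlinarith

lemma Z_pos (a : ℕ) : 0 < pathZ a := by unfold pathZ; positivity

lemma p_lt (a : ℕ) : (Aa a).p < 1 / 2 := by
  rw [Aa_p, pathp, div_lt_div_iff₀ (by positivity) (by positivity)]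
  linarith

lemma p_ge {a : ℕ} (h : 1 ≤ a) : 3 / 7 ≤ (Aa a).p := by
  have h1 : (1 : ℚ) ≤ a := by exact_mod_cast h
  rw [Aa_p, pathp, div_le_div_iff₀ (by positivity) (by positivity)]
  linarith

lemma kitP {a : ℕ} (h : 1 ≤ a) {m : Multiset Y} (hm : OKs m) :
    Kit (Aa (a + 1) ::ₘ m) (-1) 0 (21 / 22) 0 (2 / 77) := by
  have a1 := Z_step h
  have a2 := p_step h
  exact kit_of (u := {Aa (a + 1)}) (u' := {Aa a}) (oks_sing.2 (ok_Aa _)) (oks_sing.2 (ok_Aa _)) hm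
    (by simp) (by simp; omega) (by simp) (by simp) (by norm_num) (by simpa using a1)
    (by simp only [card_singleton, msg_sing, Aa_p]; linarith)

lemma kitR1 {a : ℕ} (h : 1 ≤ a) {m : Multiset Y} (hm : OKs m) :
    Kit (Aa (a + 2) ::ₘ m) 1 1 (3087 / 1936) (-1) (-106 / 77) := by
  have a1 := Z_step h
  have a2 := p_step h
  have a3 := Z_step (a := a + 1) (by omega)
  have a4 := p_step (a := a + 1) (by omega)
  exact kit_of (u := {Aa (a + 2)}) (u' := Aa a ::ₘ {Hb 1}) (oks_sing.2 (ok_Aa _))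
    (oks_cons.2 ⟨ok_Aa _, oks_sing.2 (ok_Hb _)⟩) hm (by simp) (by simp; omega) (by simp)
    (by simp only [card_cons, card_singleton]; norm_num) (by norm_num)
    (by simp only [prd_cons, prd_sing, Aa_Z, Hb_Z, hubZ_one]; linarith)
    (by
      simp only [card_cons, card_singleton, msg_cons, msg_sing, Aa_p, Hb_p, hubp_one]
      push_cast
      linarith)

lemma kitR2 {a c : ℕ} (h : 1 ≤ a) (h' : 1 ≤ c) {m : Multiset Y} (hm : OKs m) :
    Kit (Aa (a + 1) ::ₘ Aa (c + 1) ::ₘ m) 1 1 (3087 / 1936) (-1) (-106 / 77) := by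
  have a1 := Z_step h
  have a2 := p_step h
  have a3 := Z_step h'
  have a4 := p_step h'
  have a5 := mul_le_mul a1 a3 (mul_pos (by norm_num) (Z_pos _)).le (Z_pos _).le
  have := kit_of (u := Aa (a + 1) ::ₘ {Aa (c + 1)}) (u' := Aa a ::ₘ Aa c ::ₘ {Hb 1}) (ds := 1)
    (dc := 1) (f := 3087 / 1936) (τ := -1) (ε := -106 / 77)
    (oks_cons.2 ⟨ok_Aa _, oks_sing.2 (ok_Aa _)⟩)
    (oks_cons.2 ⟨ok_Aa _, oks_cons.2 ⟨ok_Aa _, oks_sing.2 (ok_Hb _)⟩⟩) hm (by simp)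
    (by simp; omega) (by simp) (by simp only [card_cons, card_singleton]; norm_num) (by norm_num)
    (by simp only [prd_cons, prd_sing, Aa_Z, Hb_Z, hubZ_one]; linarith)
    (by
      simp only [card_cons, card_singleton, msg_cons, msg_sing, Aa_p, Hb_p, hubp_one]
      push_cast
      linarith)
  rwa [cons_add, singleton_add] at this

/-- next to an item that can lose a vertex cheaply every typical item is a path -/
lemma isA (h : LocS) {U y : Y} {l : Multiset Y} (e : Ext true (U ::ₘ y ::ₘ l)) (hp : U.p < 1 / 2)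
    (d : Deal0 (1 / 2) U (-1) 0 (17 / 18)) (t : Typ y) : ∃ a, 1 ≤ a ∧ y = Aa a := by
  rcases t with rfl | ⟨a, h1, rfl⟩ | ⟨b, h1, rfl⟩
  · have := (oks_cons.1 (oks_cons.1 e.oks).2).2.msg_nonneg
    have h0 : (0 : ℚ) ≤ l.card := by positivity
    exact (two_deals e d h.dPA (by norm_num) (by linarith) (by norm_num) (by norm_num)
      (by norm_num) (by norm_num)).elim
  · exact ⟨a, by omega, rfl⟩
  · rcases h1.eq_or_lt with rfl | h2
    · exact ⟨1, le_rfl, rfl⟩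
    · exact (h.split U b l e h2 hp d).elim

lemma main (c : CtxS) (h : LocS) (i : Inst) {D : ℤ → ℤ → ℚ → Prop} {a : ℕ} (ha : 1 ≤ a)
    {l l2 : Multiset Y} {β γ e δ : ℚ} (pe : PE D (Aa (a + 1) ::ₘ l) l2 β γ e δ)
    (ht : ∀ y ∈ l + l2, Typ y) : False := by
  have ok := (oks_cons.1 pe.ok1).2
  have ok2 := oks_add.2 ⟨ok, pe.ok2⟩
  have dA := h.dA (a + 1) (by omega)
  have all : ∀ y ∈ l + l2, ∃ b, 1 ≤ b ∧ y = Aa b := fun y hy => by
    rcases mem_add.1 hy with k | k <;> obtain ⟨m, rfl⟩ := exists_cons_of_mem k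
    · obtain ⟨U, -, e1, -⟩ := pe.loc1
      rw [cons_swap U, cons_swap U] at e1
      exact isA h e1 (p_lt _) dA (ht y hy)
    · obtain ⟨U, u1, e1, u2⟩ := pe.loc2
      exact isA h e1 u1 (u2 _ _ _ (dA.nd (ok_Aa _) ok)).zero (ht y hy)
  have lo : ∀ y ∈ l + l2, 3 / 7 ≤ y.p := fun y hy => by
    obtain ⟨b, h1, rfl⟩ := all y hy; exact p_ge h1
  have hi : ∀ y ∈ l + l2, y.p ≤ 1 / 2 := fun y hy => by
    obtain ⟨b, -, rfl⟩ := all y hy; exact (p_lt b).le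
  have b1 := le_msg_of fun y hy => lo y (mem_add.2 (Or.inl hy))
  have b2 := le_msg_of fun y hy => lo y (mem_add.2 (Or.inr hy))
  have b3 := p_ge (a := a + 1) (by omega)
  have c1 : 1 ≤ (Aa (a + 1) ::ₘ l).card := card_pos.2 pe.ne1
  have c2 : 1 ≤ l2.card := card_pos.2 pe.ne2
  have c3 : 3 / 7 * ((Aa (a + 1) ::ₘ l).card : ℚ) ≤ msg (Aa (a + 1) ::ₘ l) := by
    rw [msg_cons, card_cons]; push_cast; linarith
  have nP := c.noP pe (by rw [cons_add]; exact kitP ha ok2)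
  have fin : Kit (Aa (a + 1) ::ₘ (l + l2)) 1 1 (3087 / 1936) (-1) (-106 / 77) → False := fun k => by
    have b4 := msg_le_of fun y hy => hi y (mem_add.2 (Or.inl hy))
    have b5 := msg_le_of fun y hy => hi y (mem_add.2 (Or.inr hy))
    have b6 := p_lt (a + 1)
    exact i.A2 _ _ _ _ _ _ pe.cx c1 c2 c3 (by rw [msg_cons, card_cons]; push_cast; linarith)
      (by linarith) (by linarith) nP (c.noR pe (by rwa [cons_add]))
  rcases ha.eq_or_lt with rfl | h2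
  · by_cases k : ∃ b, 2 ≤ b ∧ Aa b ∈ l + l2
    · obtain ⟨b, k1, k2⟩ := k
      obtain ⟨m, hm⟩ := exists_cons_of_mem k2
      obtain ⟨b, rfl⟩ : ∃ b', b = b' + 1 := ⟨b - 1, by omega⟩
      rw [hm] at fin ok2
      exact fin (kitR2 le_rfl (by omega) (oks_cons.1 ok2).2)
    · have up : ∀ y ∈ l + l2, y.p ≤ 3 / 7 := fun y hy => by
        obtain ⟨b, h1, rfl⟩ := all y hy
        rcases h1.eq_or_lt with rfl | h2
        · rw [Aa_one, Hb_p, hubp_one]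
        · exact absurd ⟨b, h2, hy⟩ k
      have b4 := msg_le_of fun y hy => up y (mem_add.2 (Or.inl hy))
      have b5 := msg_le_of fun y hy => up y (mem_add.2 (Or.inr hy))
      have b6 : (Aa (1 + 1)).p = 5 / 11 := by norm_num [pathp]
      exact i.A1 _ _ _ _ _ _ pe.cx c1 c2 c3
        (by rw [msg_cons, card_cons, b6]; push_cast; linarith) (by linarith) (by linarith) nP
  · obtain ⟨a, rfl⟩ : ∃ a', a = a' + 1 := ⟨a - 1, by omega⟩
    exact fin (kitR1 (by omega) ok2)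

lemma decomp {l : Multiset Y} (h : ∀ y ∈ l, y = P2 ∨ ∃ b, 1 ≤ b ∧ y = Hb b) :
    ∃ (j : ℕ) (K : Multiset ℕ), (∀ b ∈ K, 1 ≤ b) ∧ l = replicate j P2 + K.map Hb := by
  induction l using Multiset.induction_on with
  | empty => exact ⟨0, 0, by simp, by simp⟩
  | cons y l ih =>
    obtain ⟨j, K, h1, rfl⟩ := ih fun z hz => h z (mem_cons_of_mem hz)
    rcases h y (mem_cons_self _ _) with rfl | ⟨b, h2, rfl⟩
    · exact ⟨j + 1, K, h1, by rw [replicate_succ, cons_add]⟩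
    · exact ⟨j, b ::ₘ K, by simpa using ⟨h2, h1⟩, by rw [map_cons, add_cons]⟩

lemma ne_zero {j : ℕ} {K : Multiset ℕ} (h : Cen (replicate j P2 + K.map Hb)) : K ≠ 0 := by
  rintro rfl
  obtain ⟨y, h1, h2⟩ := h.2.1
  rw [map_zero, add_zero] at h1
  rw [eq_of_mem_replicate h1] at h2
  simp at h2

lemma rep {j : ℕ} {K : Multiset ℕ} (h : j = 0 ∧ 11 ≤ K.card ∧ ∀ b ∈ K, b = 1) :
    ∃ N, 11 ≤ N ∧ replicate j P2 + K.map Hb = replicate N (Hb 1) := by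
  refine ⟨K.card, h.2.1, ?_⟩
  rw [h.1, replicate_zero, zero_add, ← map_replicate, ← eq_replicate_card.2 h.2.2]

lemma typ (x : XsS) {U : Y} {l : Multiset Y} (e : Ext true (U ::ₘ l)) (hp : U.p < 1 / 2)
    (h : ∀ y ∈ l, Lev1 y) (hL : L ∉ l) : ∀ y ∈ l, Typ y := fun y hy => by
  obtain ⟨m, rfl⟩ := exists_cons_of_mem hy
  rw [cons_swap] at e
  exact (x.typ y U m e hp (h y hy)).resolve_left fun k => hL (k ▸ hy)

end PairA

theorem pairA (c : CtxS) (h : LocS) (i : Inst) : PairAStm := by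
  rintro D l1 l2 β γ e δ pe ht ⟨a, ha, hm⟩
  obtain ⟨a, rfl⟩ : ∃ a', a = a' + 1 := ⟨a - 1, by omega⟩
  rcases mem_add.1 hm with k | k <;> obtain ⟨m, rfl⟩ := exists_cons_of_mem k
  · exact PairA.main c h i (by omega) pe fun y hy =>
      ht y (by rw [cons_add]; exact mem_cons_of_mem hy)
  · exact PairA.main c h i (by omega) pe.symm fun y hy =>
      ht y (by rw [add_cons, add_comm l1]; exact mem_cons_of_mem hy)

theorem pair (s : SrtS) (x : XsS) (a : PairAStm) (hh : PairHStm) : PairStm := by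
  intro D l1 l2 β γ e δ pe c1 c2 v1 v2
  have hL := s.lemM pe c1.2.2 c2.2.2
  obtain ⟨U1, u1, e1, -⟩ := pe.loc1
  obtain ⟨U2, u2, e2, -⟩ := pe.loc2
  have t : ∀ y ∈ l1 + l2, Typ y := fun y hy => (mem_add.1 hy).elim
    (PairA.typ x e1 u1 v1 (fun k => hL (mem_add.2 (Or.inl k))) y)
    (PairA.typ x e2 u2 v2 (fun k => hL (mem_add.2 (Or.inr k))) y)
  have t' : ∀ y ∈ l1 + l2, y = P2 ∨ ∃ b, 1 ≤ b ∧ y = Hb b := fun y hy => by
    rcases t y hy with k | ⟨b, k, rfl⟩ | k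
    exacts [Or.inl k, (a D l1 l2 β γ e δ pe t ⟨b, k, hy⟩).elim, Or.inr k]
  obtain ⟨j1, K1, k1, rfl⟩ := PairA.decomp fun y hy => t' y (mem_add.2 (Or.inl hy))
  obtain ⟨j2, K2, k2, rfl⟩ := PairA.decomp fun y hy => t' y (mem_add.2 (Or.inr hy))
  exact (hh D j1 j2 K1 K2 β γ e δ pe (PairA.ne_zero c1) (PairA.ne_zero c2) k1 k2).imp
    PairA.rep PairA.rep

end Pool.Agent.Lib.MP_70d11c_co.Q2
end
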